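import Mathlib

set_option autoImplicit false

namespace Pool.Agent.PWF

/-- The condition of being powerful: `p ^ 2 ∣ a` for every prime `p ∣ a`. -/
def Pfl (a : ℕ) : Prop := ∀ p : ℕ, p.Prime → p ∣ a → p ^ 2 ∣ a

/-- Every positive powerful number is `x ^ 2 * y ^ 3` with `y` squarefree. -/
theorem exists_sq_mul_cube (a : ℕ) (ha : 0 < a) (h : Pfl a) :
    ∃ x y : ℕ, 0 < x ∧ 0 < y ∧ Squarefree y ∧ a = x ^ 2 * y ^ 3 := by
  obtain ⟨y, b, hy, hb, hab, hsq⟩ := Nat.sq_mul_squarefree_of_pos ha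
  have hyb : y ∣ b := by
    rw [← Nat.factorization_le_iff_dvd hy.ne' hb.ne']
    intro p
    by_cases hp : p.Prime
    · by_cases hpy : p ∣ y
      · have h1 : y.factorization p ≤ 1 := hsq.natFactorization_le_one p
        have h2 : p ^ 2 ∣ b ^ 2 * y := by
          rw [hab]; exact h p hp (hab ▸ Dvd.dvd.mul_left hpy _)
        have h3 : p ∣ b := by
          by_contra hcon
          have hc : Nat.Coprime (p ^ 2) (b ^ 2) :=
            Nat.Coprime.pow 2 2 ((Nat.Prime.coprime_iff_not_dvd hp).mpr hcon)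
          have h4 : p ^ 2 ∣ y := hc.dvd_of_dvd_mul_left h2
          have h5 : IsUnit p := hsq p (by rw [← sq]; exact h4)
          exact hp.one_lt.ne' (Nat.isUnit_iff.mp h5)
        have h6 : 1 ≤ b.factorization p := (hp.dvd_iff_one_le_factorization hb.ne').mp h3
        omega
      · rw [Nat.factorization_eq_zero_of_not_dvd hpy]; exact Nat.zero_le _
    · rw [Nat.factorization_eq_zero_of_not_prime _ hp]; exact Nat.zero_le _
  obtain ⟨x, rfl⟩ := hyb
  refine ⟨x, y, ?_, hy, hsq, ?_⟩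
  · rcases Nat.eq_zero_or_pos x with h0 | h0
    · subst h0; simp at hb
    · exact h0
  · rw [← hab]; ring

theorem sum_tail (Z n : ℕ) (hZ : 1 ≤ Z) (hn : Z ≤ n) :
    ∑ y ∈ Finset.Ioc Z n, 1 / ((y : ℝ) * √y) ≤ 2 / √Z - 2 / √n := by
  induction n, hn using Nat.le_induction with
  | base => simp
  | succ n hn ih =>
    rw [Finset.sum_Ioc_succ_top hn]
    have hn1 : (1 : ℝ) ≤ n := by exact_mod_cast hZ.trans hn
    set s := √(n : ℝ) with hs
    set t := √((n + 1 : ℕ) : ℝ) with ht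
    have hs0 : 0 < s := Real.sqrt_pos.mpr (by linarith)
    have hst : s ≤ t := Real.sqrt_le_sqrt (by push_cast; linarith)
    have ht0 : 0 < t := hs0.trans_le hst
    have hs2 : s ^ 2 = n := Real.sq_sqrt (by linarith)
    have ht2 : t ^ 2 = n + 1 := by
      rw [ht, Real.sq_sqrt (by positivity)]; push_cast; ring
    have h1 : 1 / (((n + 1 : ℕ) : ℝ) * t) ≤ 2 / s - 2 / t := by
      have h2 : ((n + 1 : ℕ) : ℝ) = t ^ 2 := by rw [ht2]; push_cast; ring
      rw [h2, div_sub_div _ _ hs0.ne' ht0.ne', div_le_div_iff₀ (by positivity) (by positivity)]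
      have h3 : (t - s) * (t + s) = 1 := by nlinarith
      have h4 : 0 ≤ t - s := by linarith
      have h5 : 1 * (s * t) * (t + s) ≤ (2 * t - s * 2) * (t ^ 2 * t) * (t + s) := by
        have h6 : (2 * t - s * 2) * (t ^ 2 * t) * (t + s) = 2 * (t ^ 2 * t) := by
          linear_combination (2 * (t ^ 2 * t)) * h3
        rw [h6]
        nlinarith [mul_nonneg hs0.le h4, mul_nonneg ht0.le (mul_nonneg hs0.le h4),
          mul_nonneg ht0.le (mul_nonneg ht0.le h4)]
      exact le_of_mul_le_mul_right h5 (by positivity)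
    linarith

theorem tail_card (n Z : ℕ) (hZ : 1 ≤ Z) (F : Finset ℕ) (X Y : ℕ → ℕ)
    (h : ∀ a ∈ F, 0 < X a ∧ Z < Y a ∧ a = X a ^ 2 * Y a ^ 3 ∧ a ≤ n) :
    (F.card : ℝ) ≤ 2 * (√n / √Z) := by
  have hmaps : ∀ a ∈ F, Y a ∈ Finset.Ioc Z n := by
    intro a ha
    obtain ⟨h1, h2, h3, h4⟩ := h a ha
    rw [Finset.mem_Ioc]
    refine ⟨h2, ?_⟩
    have h5 : Y a ≤ X a ^ 2 * Y a ^ 3 := by
      calc Y a = 1 * Y a ^ 1 := by ring
        _ ≤ X a ^ 2 * Y a ^ 3 :=
          Nat.mul_le_mul (Nat.one_le_pow _ _ h1) (Nat.pow_le_pow_right (by omega) (by norm_num))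
    omega
  rw [Finset.card_eq_sum_card_fiberwise hmaps]
  push_cast
  have hfib : ∀ y ∈ Finset.Ioc Z n, (((F.filter (fun a => Y a = y)).card : ℕ) : ℝ) ≤
      √n * (1 / ((y : ℝ) * √y)) := by
    intro y hy
    rw [Finset.mem_Ioc] at hy
    have hy0 : (0 : ℝ) < y := by exact_mod_cast (by omega : 0 < y)
    have hsy : 0 < √(y : ℝ) := Real.sqrt_pos.mpr hy0
    set ρ : ℝ := √n * (1 / ((y : ℝ) * √y)) with hρ
    have hρ0 : 0 ≤ ρ := by positivity
    have hc : (F.filter (fun a => Y a = y)).card ≤ (Finset.Icc 1 ⌊ρ⌋₊).card := by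
      apply Finset.card_le_card_of_injOn X
      · intro a ha
        rw [Finset.mem_coe, Finset.mem_filter] at ha
        obtain ⟨h1, h2, h3, h4⟩ := h a ha.1
        rw [Finset.mem_coe, Finset.mem_Icc]
        refine ⟨h1, Nat.le_floor ?_⟩
        rw [hρ, mul_one_div, le_div_iff₀ (by positivity)]
        apply Real.le_sqrt_of_sq_le
        have h5 : ((X a : ℝ) * (y * √y)) ^ 2 = (X a : ℝ) ^ 2 * (y : ℝ) ^ 3 := by
          have : (√(y : ℝ)) ^ 2 = y := Real.sq_sqrt hy0.le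
          calc ((X a : ℝ) * (y * √y)) ^ 2 = (X a : ℝ) ^ 2 * (y : ℝ) ^ 2 * (√y) ^ 2 := by ring
            _ = (X a : ℝ) ^ 2 * (y : ℝ) ^ 3 := by rw [this]; ring
        rw [h5]
        have h6 : X a ^ 2 * y ^ 3 ≤ n := by
          rw [← ha.2, ← h3]; exact h4
        exact_mod_cast h6
      · intro a ha b hb hab
        rw [Finset.mem_coe, Finset.mem_filter] at ha hb
        rw [(h a ha.1).2.2.1, (h b hb.1).2.2.1, hab, ha.2, hb.2]
    calc (((F.filter (fun a => Y a = y)).card : ℕ) : ℝ) ≤ ((Finset.Icc 1 ⌊ρ⌋₊).card : ℝ) := by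
          exact_mod_cast hc
      _ = (⌊ρ⌋₊ : ℝ) := by simp
      _ ≤ ρ := Nat.floor_le hρ0
  calc ∑ y ∈ Finset.Ioc Z n, (((F.filter (fun a => Y a = y)).card : ℕ) : ℝ)
      ≤ ∑ y ∈ Finset.Ioc Z n, √n * (1 / ((y : ℝ) * √y)) := Finset.sum_le_sum hfib
    _ = √n * ∑ y ∈ Finset.Ioc Z n, 1 / ((y : ℝ) * √y) := by rw [Finset.mul_sum]
    _ ≤ √n * (2 / √Z) := by
        apply mul_le_mul_of_nonneg_left _ (Real.sqrt_nonneg _)
        rcases le_total Z n with hZn | hZn
        · have := sum_tail Z n hZ hZn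
          have h2 : 0 ≤ 2 / √(n : ℝ) := by positivity
          linarith
        · rw [Finset.Ioc_eq_empty (by omega), Finset.sum_empty]
          positivity
    _ = 2 * (√n / √Z) := by ring

/-- The powerful numbers up to `N`. -/
noncomputable def PA (N : ℕ) : Finset ℕ := by
  classical exact (Finset.Icc 1 N).filter Pfl

theorem mem_PA (N a : ℕ) : a ∈ PA N ↔ (1 ≤ a ∧ a ≤ N) ∧ Pfl a := by
  classical
  unfold PA
  rw [Finset.mem_filter, Finset.mem_Icc]

/-- At most `3 √(N / 2 ^ j)` powerful numbers `a ≤ N` have cube part at least `2 ^ j`. -/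
theorem class_bound (N j : ℕ) (F : Finset ℕ) (X Y : ℕ → ℕ)
    (h : ∀ a ∈ F, 0 < X a ∧ 0 < Y a ∧ a = X a ^ 2 * Y a ^ 3 ∧ a ≤ N ∧ 2 ^ j ≤ Y a) :
    2 ^ j * F.card ^ 2 ≤ 9 * N := by
  rcases Nat.eq_zero_or_pos j with rfl | hj
  · rw [pow_zero, one_mul]
    have h1 : ((F.filter (fun a => 1 < Y a)).card : ℝ) ≤ 2 * (√(N : ℝ) / √((1 : ℕ) : ℝ)) := by
      apply tail_card N 1 le_rfl _ X Y
      intro a ha
      rw [Finset.mem_filter] at ha
      obtain ⟨g1, g2, g3, g4, _⟩ := h a ha.1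
      exact ⟨g1, ha.2, g3, g4⟩
    have h2 : (F.filter (fun a => ¬ 1 < Y a)).card ≤ (Finset.Icc 1 ⌊√(N : ℝ)⌋₊).card := by
      apply Finset.card_le_card_of_injOn X
      · intro a ha
        rw [Finset.mem_coe, Finset.mem_filter] at ha
        obtain ⟨g1, g2, g3, g4, _⟩ := h a ha.1
        have hY : Y a = 1 := by omega
        rw [Finset.mem_coe, Finset.mem_Icc]
        refine ⟨g1, Nat.le_floor ?_⟩
        apply Real.le_sqrt_of_sq_le
        rw [hY] at g3
        have : X a ^ 2 ≤ N := by omega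
        exact_mod_cast this
      · intro a ha b hb hab
        rw [Finset.mem_coe, Finset.mem_filter] at ha hb
        obtain ⟨g1, g2, g3, g4, _⟩ := h a ha.1
        obtain ⟨k1, k2, k3, k4, _⟩ := h b hb.1
        have hY : Y a = 1 := by omega
        have hY' : Y b = 1 := by omega
        rw [g3, k3, hab, hY, hY']
    have h3 : ((F.filter (fun a => ¬ 1 < Y a)).card : ℝ) ≤ √(N : ℝ) := by
      calc ((F.filter (fun a => ¬ 1 < Y a)).card : ℝ) ≤ ((Finset.Icc 1 ⌊√(N : ℝ)⌋₊).card : ℝ) := by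
            exact_mod_cast h2
        _ = (⌊√(N : ℝ)⌋₊ : ℝ) := by simp
        _ ≤ √(N : ℝ) := Nat.floor_le (Real.sqrt_nonneg _)
    have h4 : (F.card : ℝ) ≤ 3 * √(N : ℝ) := by
      have h5 : F.card = (F.filter (fun a => 1 < Y a)).card + (F.filter (fun a => ¬ 1 < Y a)).card :=
        (Finset.card_filter_add_card_filter_not _).symm
      rw [h5]
      push_cast
      have h6 : 2 * (√(N : ℝ) / √((1 : ℕ) : ℝ)) = 2 * √(N : ℝ) := by simp
      linarith
    have h7 : (F.card : ℝ) ^ 2 ≤ 9 * N := by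
      calc (F.card : ℝ) ^ 2 ≤ (3 * √(N : ℝ)) ^ 2 := pow_le_pow_left₀ (by positivity) h4 2
        _ = 9 * N := by
          rw [mul_pow, Real.sq_sqrt (by positivity)]
          norm_num
    exact_mod_cast h7
  · have hZ : 1 ≤ 2 ^ j - 1 := by
      have : 2 ^ 1 ≤ 2 ^ j := Nat.pow_le_pow_right (by norm_num) hj
      omega
    have h1 : (F.card : ℝ) ≤ 2 * (√(N : ℝ) / √((2 ^ j - 1 : ℕ) : ℝ)) := by
      apply tail_card N (2 ^ j - 1) hZ _ X Y
      intro a ha
      obtain ⟨g1, g2, g3, g4, g5⟩ := h a ha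
      exact ⟨g1, by omega, g3, g4⟩
    have hZr : (1 : ℝ) ≤ ((2 ^ j - 1 : ℕ) : ℝ) := by exact_mod_cast hZ
    have h2 : ((2 : ℝ) ^ j) ≤ 2 * ((2 ^ j - 1 : ℕ) : ℝ) := by
      have : 2 ^ j ≤ 2 * (2 ^ j - 1) := by omega
      exact_mod_cast this
    have h3 : (2 : ℝ) ^ j * (F.card : ℝ) ^ 2 ≤ 9 * (N : ℝ) := by
      generalize ((2 ^ j - 1 : ℕ) : ℝ) = Z at h1 h2 hZr
      have hZ0 : (0 : ℝ) < Z := by linarith
      calc (2 : ℝ) ^ j * (F.card : ℝ) ^ 2
          ≤ (2 * Z) * (2 * (√(N : ℝ) / √Z)) ^ 2 := by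
            apply mul_le_mul h2 (pow_le_pow_left₀ (by positivity) h1 2) (by positivity)
              (by positivity)
        _ = 8 * (N : ℝ) := by
            rw [mul_pow, div_pow, Real.sq_sqrt (by positivity), Real.sq_sqrt (by positivity)]
            field_simp
            ring
        _ ≤ 9 * (N : ℝ) := by
            have : (0 : ℝ) ≤ N := by positivity
            linarith
    exact_mod_cast h3

end Pool.Agent.PWF
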