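import Mathlib
import Pool.Agent.PWF.Basic

set_option autoImplicit false

namespace Pool.Agent.PWF

open Finset

/-- The representations of `n` counted by the first summand `a`. -/
noncomputable def Rep (N n : ℕ) : Finset ℕ := by
  classical exact (PA N).filter (fun a => a < n ∧ Pfl (n - a))

theorem mem_Rep (N n a : ℕ) : a ∈ Rep N n ↔ a ∈ PA N ∧ a < n ∧ Pfl (n - a) := by
  classical
  unfold Rep
  rw [Finset.mem_filter]

theorem sub_mem_Rep (N n a : ℕ) (hn : n ≤ N) (ha : a ∈ Rep N n) : n - a ∈ Rep N n := by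
  rw [mem_Rep, mem_PA] at ha ⊢
  obtain ⟨⟨⟨h1, h2⟩, h3⟩, h4, h5⟩ := ha
  refine ⟨⟨⟨by omega, by omega⟩, h5⟩, by omega, ?_⟩
  rw [Nat.sub_sub_self h4.le]
  exact h3

/-- Half of the representations suffice: those with `Y a ≤ Y (n - a)`. -/
theorem half (N n : ℕ) (hn : n ≤ N) (Y : ℕ → ℕ) :
    (Rep N n).card ≤ 2 * ((Rep N n).filter (fun a => Y a ≤ Y (n - a))).card := by
  classical
  have h1 : (Rep N n).card ≤ ((Rep N n).filter (fun a => Y a ≤ Y (n - a))).card +
      ((Rep N n).filter (fun a => ¬ Y a ≤ Y (n - a))).card :=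
    (Finset.card_filter_add_card_filter_not _).symm.le
  have h2 : ((Rep N n).filter (fun a => ¬ Y a ≤ Y (n - a))).card ≤
      ((Rep N n).filter (fun a => Y a ≤ Y (n - a))).card := by
    apply Finset.card_le_card_of_injOn (fun a => n - a)
    · intro a ha
      rw [Finset.mem_coe, Finset.mem_filter] at ha
      have hlt := ((mem_Rep N n a).mp ha.1).2.1
      rw [Finset.mem_coe, Finset.mem_filter]
      refine ⟨sub_mem_Rep N n a hn ha.1, ?_⟩
      rw [Nat.sub_sub_self hlt.le]
      have h3 := ha.2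
      simp only
      omega
    · intro a ha b hb hab
      rw [Finset.mem_coe, Finset.mem_filter] at ha hb
      have h3 := ((mem_Rep N n a).mp ha.1).2.1
      have h4 := ((mem_Rep N n b).mp hb.1).2.1
      simp only at hab
      omega
  omega

/-- Cauchy's inequality for a partition into fibres. -/
theorem sq_card_le {α β : Type*} [DecidableEq β] (s : Finset α) (f : α → β) (t : Finset β)
    (h : ∀ a ∈ s, f a ∈ t) :
    s.card ^ 2 ≤ t.card * ∑ b ∈ t, (s.filter (fun a => f a = b)).card ^ 2 := by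
  rw [Finset.card_eq_sum_card_fiberwise h]
  exact sq_sum_le_card_mul_sum_sq

/-- The quadruples `a + b = a' + b'` with the same cube part of `a` and `a'`, of size about
`2 ^ j`, and cube parts of `b`, `b'` at least `2 ^ j`; recorded as `(n, a, a')`. -/
noncomputable def Quad (N j : ℕ) (Y : ℕ → ℕ) : Finset (ℕ × ℕ × ℕ) := by
  classical exact (Finset.Icc 1 N ×ˢ (PA N ×ˢ PA N)).filter (fun t =>
    t.2.1 ∈ Rep N t.1 ∧ t.2.2 ∈ Rep N t.1 ∧ Y t.2.1 ≤ Y (t.1 - t.2.1) ∧
      Y t.2.2 ≤ Y (t.1 - t.2.2) ∧ 2 ^ j ≤ Y t.2.1 ∧ Y t.2.1 = Y t.2.2)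

theorem mem_Quad (N j : ℕ) (Y : ℕ → ℕ) (n a a' : ℕ) : (n, a, a') ∈ Quad N j Y ↔
    (n ∈ Finset.Icc 1 N ∧ a ∈ PA N ∧ a' ∈ PA N) ∧ a ∈ Rep N n ∧ a' ∈ Rep N n ∧
      Y a ≤ Y (n - a) ∧ Y a' ≤ Y (n - a') ∧ 2 ^ j ≤ Y a ∧ Y a = Y a' := by
  classical
  unfold Quad
  rw [Finset.mem_filter, Finset.mem_product, Finset.mem_product]

/-- The number of quadruples. -/
theorem card_Quad (N j D : ℕ) (hD1 : 1 ≤ D) (hD : ∀ m : ℕ, 1 ≤ m → m ≤ N → m.divisors.card ≤ D)
    (X Y : ℕ → ℕ) (h : ∀ a, 0 < a → Pfl a → 0 < X a ∧ 0 < Y a ∧ a = X a ^ 2 * Y a ^ 3) :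
    2 ^ j * (Quad N j Y).card ≤ 18 * D ^ 3 * N := by
  classical
  set B := (PA N).filter (fun b => 2 ^ j ≤ Y b) with hB
  have hBcard : 2 ^ j * B.card ^ 2 ≤ 9 * N := by
    apply class_bound N j B X Y
    intro a ha
    rw [hB, Finset.mem_filter, mem_PA] at ha
    obtain ⟨⟨⟨h1, h2⟩, h3⟩, h4⟩ := ha
    obtain ⟨g1, g2, g3⟩ := h a h1 h3
    exact ⟨g1, g2, g3, h2, h4⟩
  have hmem : ∀ n a a' : ℕ, (n, a, a') ∈ Quad N j Y →
      (n ≤ N ∧ a < n ∧ a' < n) ∧ (a ∈ B ∧ a' ∈ B) ∧ (n - a ∈ B ∧ n - a' ∈ B) ∧ Y a = Y a' := by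
    intro n a a' ht
    rw [mem_Quad] at ht
    obtain ⟨⟨h1, h2, h3⟩, h4, h5, h6, h7, h8, h9⟩ := ht
    rw [Finset.mem_Icc] at h1
    have k1 := ((mem_Rep N n a).mp h4).2.1
    have k2 := ((mem_Rep N n a').mp h5).2.1
    have k3 := ((mem_Rep N n _).mp (sub_mem_Rep N n a h1.2 h4)).1
    have k4 := ((mem_Rep N n _).mp (sub_mem_Rep N n a' h1.2 h5)).1
    refine ⟨⟨h1.2, k1, k2⟩, ?_, ?_, h9⟩
    · rw [hB, Finset.mem_filter, Finset.mem_filter]
      exact ⟨⟨h2, h8⟩, h3, by omega⟩
    · rw [hB, Finset.mem_filter, Finset.mem_filter]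
      exact ⟨⟨k3, by omega⟩, k4, by omega⟩
  -- diagonal
  have hdiag : ((Quad N j Y).filter (fun t => t.2.1 = t.2.2)).card ≤ B.card ^ 2 := by
    rw [sq, ← Finset.card_product]
    apply Finset.card_le_card_of_injOn (fun t => (t.2.1, t.1 - t.2.1))
    · rintro ⟨n, a, a'⟩ ht
      rw [Finset.mem_coe, Finset.mem_filter] at ht
      obtain ⟨_, h2, h3, _⟩ := hmem n a a' ht.1
      rw [Finset.mem_coe, Finset.mem_product]
      exact ⟨h2.1, h3.1⟩
    · rintro ⟨n, a, a'⟩ ht ⟨m, b, b'⟩ hs hts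
      rw [Finset.mem_coe, Finset.mem_filter] at ht hs
      obtain ⟨⟨_, k1, k2⟩, _⟩ := hmem n a a' ht.1
      obtain ⟨⟨_, k3, k4⟩, _⟩ := hmem m b b' hs.1
      have e1 := ht.2
      have e2 := hs.2
      simp only [Prod.mk.injEq] at hts e1 e2 ⊢
      omega
  -- off the diagonal
  have hoff : ((Quad N j Y).filter (fun t => ¬ t.2.1 = t.2.2)).card ≤ D ^ 3 * B.card ^ 2 := by
    have key := Finset.card_le_mul_card_image_of_maps_to
      (s := (Quad N j Y).filter (fun t => ¬ t.2.1 = t.2.2))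
      (f := fun t => (t.1 - t.2.1, t.1 - t.2.2)) (t := B ×ˢ B) ?_ (D ^ 3) ?_
    · rw [Finset.card_product, ← sq] at key
      exact key
    · rintro ⟨n, a, a'⟩ ht
      rw [Finset.mem_filter] at ht
      obtain ⟨_, _, h3, _⟩ := hmem n a a' ht.1
      rw [Finset.mem_product]
      exact ⟨h3.1, h3.2⟩
    · rintro ⟨b, b'⟩ hb
      rw [Finset.mem_product] at hb
      simp only at hb
      set F := ((Quad N j Y).filter (fun t => ¬ t.2.1 = t.2.2)).filter
        (fun t => (t.1 - t.2.1, t.1 - t.2.2) = (b, b')) with hF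
      have hFm : ∀ n a a' : ℕ, (n, a, a') ∈ F → (n ≤ N ∧ a < n ∧ a' < n) ∧ n - a = b ∧
          n - a' = b' ∧ a ≠ a' ∧ Y a = Y a' ∧ a = X a ^ 2 * Y a ^ 3 ∧ a' = X a' ^ 2 * Y a' ^ 3 ∧
          0 < Y a ∧ 0 < X a ∧ 0 < X a' := by
        intro n a a' ht
        rw [hF, Finset.mem_filter, Finset.mem_filter] at ht
        obtain ⟨⟨ht1, ht2⟩, ht3⟩ := ht
        obtain ⟨h1, h2, h3, h4⟩ := hmem n a a' ht1
        simp only [Prod.mk.injEq] at ht3
        have q1 := (mem_PA N a).mp (Finset.mem_filter.mp h2.1).1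
        have q2 := (mem_PA N a').mp (Finset.mem_filter.mp h2.2).1
        obtain ⟨g1, g2, g3⟩ := h a q1.1.1 q1.2
        obtain ⟨g4, g5, g6⟩ := h a' q2.1.1 q2.2
        exact ⟨h1, ht3.1, ht3.2, ht2, h4, g3, g6, g2, g1, g4⟩
      by_cases hbb : b = b'
      · have : F = ∅ := by
          rw [Finset.eq_empty_iff_forall_notMem]
          rintro ⟨n, a, a'⟩ ht
          obtain ⟨⟨_, h1, h2⟩, h3, h4, h5, _⟩ := hFm n a a' ht
          omega
        rw [this, Finset.card_empty]
        exact Nat.zero_le _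
      -- the distance
      set d := (b - b') + (b' - b) with hd
      have hbN : b ≤ N ∧ b' ≤ N ∧ 1 ≤ b ∧ 1 ≤ b' := by
        have q1 := (mem_PA N b).mp (Finset.mem_filter.mp hb.1).1
        have q2 := (mem_PA N b').mp (Finset.mem_filter.mp hb.2).1
        exact ⟨q1.1.2, q2.1.2, q1.1.1, q2.1.1⟩
      have hd1 : 1 ≤ d := by omega
      have hdN : d ≤ N := by omega
      have hdD := hD d hd1 hdN
      calc F.card ≤ (d.divisors ×ˢ (d.divisors ×ˢ d.divisors)).card := by
            apply Finset.card_le_card_of_injOn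
              (fun t => (Y t.2.1, (X t.2.1 - X t.2.2) + (X t.2.2 - X t.2.1), X t.2.1 + X t.2.2))
            · rintro ⟨n, a, a'⟩ ht
              rw [Finset.mem_coe] at ht
              obtain ⟨⟨h0, h1, h2⟩, h3, h4, h5, h6, h7, h8, h9, h10, h11⟩ := hFm n a a' ht
              simp only
              rw [Finset.mem_coe, Finset.mem_product, Finset.mem_product, Nat.mem_divisors,
                Nat.mem_divisors, Nat.mem_divisors]
              have hdd : (d : ℤ) = |(X a : ℤ) ^ 2 * Y a ^ 3 - X a' ^ 2 * Y a ^ 3| := by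
                have e1 : ((X a : ℤ) ^ 2 * Y a ^ 3) = (a : ℤ) := by
                  exact_mod_cast h7.symm
                have e2 : ((X a' : ℤ) ^ 2 * Y a ^ 3) = (a' : ℤ) := by
                  rw [h6]; exact_mod_cast h8.symm
                rw [e1, e2]
                rcases abs_cases ((a : ℤ) - a') with hc | hc <;> omega
              have hfac : (d : ℤ) = |(X a : ℤ) - X a'| * (X a + X a') * Y a ^ 3 := by
                rw [hdd]
                have : (X a : ℤ) ^ 2 * Y a ^ 3 - X a' ^ 2 * Y a ^ 3 =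
                    ((X a : ℤ) - X a') * (X a + X a') * Y a ^ 3 := by ring
                rw [this, abs_mul, abs_mul, abs_of_nonneg (by positivity : (0 : ℤ) ≤ X a + X a'),
                  abs_of_nonneg (by positivity : (0 : ℤ) ≤ (Y a : ℤ) ^ 3)]
              have habs : (((X a - X a') + (X a' - X a) : ℕ) : ℤ) = |(X a : ℤ) - X a'| := by
                rcases abs_cases ((X a : ℤ) - X a') with hc | hc <;> omega
              have hfacN : d = ((X a - X a') + (X a' - X a)) * (X a + X a') * Y a ^ 3 := by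
                have : (d : ℤ) = ((((X a - X a') + (X a' - X a)) * (X a + X a') * Y a ^ 3 : ℕ) : ℤ) := by
                  rw [hfac, ← habs]
                  push_cast
                  ring
                exact_mod_cast this
              refine ⟨⟨?_, by omega⟩, ⟨?_, by omega⟩, ?_, by omega⟩
              · rw [hfacN]
                exact Dvd.dvd.mul_left (dvd_pow_self _ (by norm_num)) _
              · rw [hfacN, mul_assoc]
                exact Dvd.intro _ rfl
              · rw [hfacN, mul_comm ((X a - X a') + (X a' - X a)) (X a + X a'), mul_assoc]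
                exact Dvd.intro _ rfl
            · rintro ⟨n, a, a'⟩ ht ⟨m, c, c'⟩ hs hts
              rw [Finset.mem_coe] at ht hs
              obtain ⟨⟨h0, h1, h2⟩, h3, h4, h5, h6, h7, h8, h9, h10, h11⟩ := hFm n a a' ht
              obtain ⟨⟨k0, k1, k2⟩, k3, k4, k5, k6, k7, k8, k9, k10, k11⟩ := hFm m c c' hs
              simp only [Prod.mk.injEq] at hts ⊢
              obtain ⟨t1, t2, t3⟩ := hts
              -- the order of `X a` and `X a'`
              have ord : ∀ p q y : ℕ, 0 < y → p ^ 2 * y ^ 3 < q ^ 2 * y ^ 3 → p < q := by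
                intro p q y hy hpq
                have h' : p ^ 2 < q ^ 2 := Nat.lt_of_mul_lt_mul_right hpq
                exact lt_of_pow_lt_pow_left₀ 2 (Nat.zero_le _) h'
              have h8' : a' = X a' ^ 2 * Y a ^ 3 := by rw [h6]; exact h8
              have k8' : c' = X c' ^ 2 * Y c ^ 3 := by rw [k6]; exact k8
              have k9' : 0 < Y c := k9
              have hX : X a = X c ∧ X a' = X c' := by
                rcases lt_or_gt_of_ne h5 with hlt | hlt
                · have o1 : X a < X a' := ord _ _ (Y a) h9 (by rw [← h7, ← h8']; exact hlt)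
                  have o2 : X c < X c' := ord _ _ (Y c) k9 (by rw [← k7, ← k8']; omega)
                  omega
                · have o1 : X a' < X a := ord _ _ (Y a) h9 (by rw [← h7, ← h8']; exact hlt)
                  have o2 : X c' < X c := ord _ _ (Y c) k9 (by rw [← k7, ← k8']; omega)
                  omega
              have hac : a = c := by rw [h7, k7, hX.1, t1]
              have hac' : a' = c' := by rw [h8', k8', hX.2, t1]
              refine ⟨by omega, hac, hac'⟩
        _ = d.divisors.card * (d.divisors.card * d.divisors.card) := by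
            rw [Finset.card_product, Finset.card_product]
        _ ≤ D * (D * D) := Nat.mul_le_mul hdD (Nat.mul_le_mul hdD hdD)
        _ = D ^ 3 := by ring
  have htot : (Quad N j Y).card ≤ 2 * D ^ 3 * B.card ^ 2 := by
    have h1 : (Quad N j Y).card = ((Quad N j Y).filter (fun t => t.2.1 = t.2.2)).card +
        ((Quad N j Y).filter (fun t => ¬ t.2.1 = t.2.2)).card :=
      (Finset.card_filter_add_card_filter_not _).symm
    have h2 : B.card ^ 2 ≤ D ^ 3 * B.card ^ 2 :=
      Nat.le_mul_of_pos_left _ (Nat.pow_pos hD1)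
    rw [h1]
    calc _ ≤ B.card ^ 2 + D ^ 3 * B.card ^ 2 := Nat.add_le_add hdiag hoff
      _ ≤ D ^ 3 * B.card ^ 2 + D ^ 3 * B.card ^ 2 := Nat.add_le_add_right h2 _
      _ = 2 * D ^ 3 * B.card ^ 2 := by ring
  calc 2 ^ j * (Quad N j Y).card ≤ 2 ^ j * (2 * D ^ 3 * B.card ^ 2) := Nat.mul_le_mul_left _ htot
    _ = 2 * D ^ 3 * (2 ^ j * B.card ^ 2) := by ring
    _ ≤ 2 * D ^ 3 * (9 * N) := Nat.mul_le_mul_left _ hBcard
    _ = 18 * D ^ 3 * N := by ring

/-- The mean square of the number of representations. -/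
theorem mean_square_nat (N D : ℕ) (hD1 : 1 ≤ D)
    (hD : ∀ m : ℕ, 1 ≤ m → m ≤ N → m.divisors.card ≤ D) :
    ∑ n ∈ Finset.Icc 1 N, (Rep N n).card ^ 2 ≤ 72 * D ^ 5 * N := by
  classical
  rcases Nat.eq_zero_or_pos N with hN0 | hN0
  · subst hN0; simp
  have ex : ∀ a : ℕ, 0 < a → Pfl a → ∃ x y : ℕ, 0 < x ∧ 0 < y ∧ a = x ^ 2 * y ^ 3 := by
    intro a ha h
    obtain ⟨x, y, h1, h2, _, h4⟩ := exists_sq_mul_cube a ha h
    exact ⟨x, y, h1, h2, h4⟩
  choose! X Y hXY using ex
  set J := Nat.log 2 N + 1 with hJ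
  have hJD : J ≤ D := by
    have h1 := hD (2 ^ Nat.log 2 N) (Nat.one_le_two_pow) (Nat.pow_log_le_self 2 hN0.ne')
    rw [Nat.divisors_prime_pow Nat.prime_two, Finset.card_map, Finset.card_range] at h1
    exact h1
  have hYle : ∀ a ∈ PA N, 0 < Y a ∧ Y a ≤ N := by
    intro a ha
    rw [mem_PA] at ha
    obtain ⟨⟨h1, h2⟩, h3⟩ := ha
    obtain ⟨g1, g2, g3⟩ := hXY a h1 h3
    refine ⟨g2, ?_⟩
    have h5 : Y a ≤ X a ^ 2 * Y a ^ 3 := by
      calc Y a = 1 * Y a ^ 1 := by ring
        _ ≤ X a ^ 2 * Y a ^ 3 :=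
          Nat.mul_le_mul (Nat.one_le_pow _ _ g1) (Nat.pow_le_pow_right (by omega) (by norm_num))
    omega
  -- pointwise bound
  have hpt : ∀ n ∈ Finset.Icc 1 N, (Rep N n).card ^ 2 ≤ 4 * J * ∑ j ∈ Finset.range J,
      2 ^ j * ∑ u ∈ Finset.Ico (2 ^ j) (2 ^ (j + 1)),
        ((Rep N n).filter (fun a => Y a ≤ Y (n - a) ∧ Y a = u)).card ^ 2 := by
    intro n hn
    rw [Finset.mem_Icc] at hn
    have h1 := half N n hn.2 Y
    set R := (Rep N n).filter (fun a => Y a ≤ Y (n - a)) with hR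
    have hRm : ∀ a ∈ R, 0 < Y a ∧ Y a ≤ N := by
      intro a ha
      rw [hR, Finset.mem_filter, mem_Rep] at ha
      exact hYle a ha.1.1
    have h2 : R.card ^ 2 ≤ J * ∑ j ∈ Finset.range J,
        (R.filter (fun a => Nat.log 2 (Y a) = j)).card ^ 2 := by
      have := sq_card_le R (fun a => Nat.log 2 (Y a)) (Finset.range J) ?_
      · rw [Finset.card_range] at this
        exact this
      · intro a ha
        rw [Finset.mem_range, hJ]
        have := Nat.log_mono_right (b := 2) (hRm a ha).2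
        omega
    have h3 : ∀ j ∈ Finset.range J, (R.filter (fun a => Nat.log 2 (Y a) = j)).card ^ 2 ≤
        2 ^ j * ∑ u ∈ Finset.Ico (2 ^ j) (2 ^ (j + 1)),
        ((Rep N n).filter (fun a => Y a ≤ Y (n - a) ∧ Y a = u)).card ^ 2 := by
      intro j _
      have h4 := sq_card_le (R.filter (fun a => Nat.log 2 (Y a) = j)) (fun a => Y a)
        (Finset.Ico (2 ^ j) (2 ^ (j + 1))) ?_
      · rw [Nat.card_Ico] at h4
        have h5 : 2 ^ (j + 1) - 2 ^ j = 2 ^ j := by rw [pow_succ]; omega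
        rw [h5] at h4
        refine h4.trans (Nat.mul_le_mul_left _ (Finset.sum_le_sum ?_))
        intro u _
        apply Nat.pow_le_pow_left
        apply Finset.card_le_card
        intro a ha
        rw [Finset.mem_filter, Finset.mem_filter, hR, Finset.mem_filter] at ha
        rw [Finset.mem_filter]
        exact ⟨ha.1.1.1, ha.1.1.2, ha.2⟩
      · intro a ha
        rw [Finset.mem_filter] at ha
        have h5 := (hRm a ha.1).1
        rw [Finset.mem_Ico, ← ha.2]
        exact ⟨Nat.pow_log_le_self 2 h5.ne', Nat.lt_pow_succ_log_self (by norm_num) _⟩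
    calc (Rep N n).card ^ 2 ≤ (2 * R.card) ^ 2 := Nat.pow_le_pow_left h1 2
      _ = 4 * R.card ^ 2 := by ring
      _ ≤ 4 * (J * ∑ j ∈ Finset.range J,
          (R.filter (fun a => Nat.log 2 (Y a) = j)).card ^ 2) := Nat.mul_le_mul_left _ h2
      _ ≤ 4 * (J * ∑ j ∈ Finset.range J, 2 ^ j * ∑ u ∈ Finset.Ico (2 ^ j) (2 ^ (j + 1)),
        ((Rep N n).filter (fun a => Y a ≤ Y (n - a) ∧ Y a = u)).card ^ 2) :=
          Nat.mul_le_mul_left _ (Nat.mul_le_mul_left _ (Finset.sum_le_sum h3))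
      _ = _ := by ring
  -- the sum over `n` and `u` counts quadruples
  have hq : ∀ j : ℕ, ∑ n ∈ Finset.Icc 1 N, ∑ u ∈ Finset.Ico (2 ^ j) (2 ^ (j + 1)),
        ((Rep N n).filter (fun a => Y a ≤ Y (n - a) ∧ Y a = u)).card ^ 2 ≤ (Quad N j Y).card := by
    intro j
    rw [← Finset.sum_product']
    calc ∑ x ∈ Finset.Icc 1 N ×ˢ Finset.Ico (2 ^ j) (2 ^ (j + 1)),
          ((Rep N x.1).filter (fun a => Y a ≤ Y (x.1 - a) ∧ Y a = x.2)).card ^ 2
        ≤ ∑ x ∈ Finset.Icc 1 N ×ˢ Finset.Ico (2 ^ j) (2 ^ (j + 1)),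
          ((Quad N j Y).filter (fun t => (t.1, Y t.2.1) = x)).card := by
          apply Finset.sum_le_sum
          rintro ⟨n, u⟩ hx
          rw [Finset.mem_product, Finset.mem_Ico] at hx
          simp only at hx
          simp only
          rw [sq, ← Finset.card_product]
          apply Finset.card_le_card_of_injOn (fun t => (n, t.1, t.2))
          · rintro ⟨a, a'⟩ ht
            rw [Finset.mem_coe, Finset.mem_product, Finset.mem_filter, Finset.mem_filter] at ht
            simp only at ht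
            obtain ⟨⟨t1, t2, t3⟩, t4, t5, t6⟩ := ht
            rw [Finset.mem_coe, Finset.mem_filter, mem_Quad]
            simp only [Prod.mk.injEq, true_and]
            refine ⟨⟨⟨hx.1, ((mem_Rep N n a).mp t1).1, ((mem_Rep N n a').mp t4).1⟩, t1, t4, t2, t5,
              ?_, ?_⟩, t3⟩
            · rw [t3]; exact hx.2.1
            · rw [t3, t6]
          · rintro ⟨a, a'⟩ _ ⟨c, c'⟩ _ hac
            simp only [Prod.mk.injEq, true_and] at hac
            rw [Prod.mk.injEq]
            exact hac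
      _ ≤ (Quad N j Y).card := by
          have h1 : ∑ x ∈ Finset.Icc 1 N ×ˢ Finset.Ico (2 ^ j) (2 ^ (j + 1)),
              ((Quad N j Y).filter (fun t => (t.1, Y t.2.1) = x)).card =
              ((Quad N j Y).filter (fun t => (t.1, Y t.2.1) ∈
                Finset.Icc 1 N ×ˢ Finset.Ico (2 ^ j) (2 ^ (j + 1)))).card := by
            rw [Finset.card_eq_sum_card_fiberwise (f := fun t => (t.1, Y t.2.1))
              (t := Finset.Icc 1 N ×ˢ Finset.Ico (2 ^ j) (2 ^ (j + 1)))]
            · apply Finset.sum_congr rfl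
              intro x hx
              congr 1
              ext t
              rw [Finset.mem_filter, Finset.mem_filter, Finset.mem_filter]
              constructor
              · rintro ⟨t1, t2⟩
                exact ⟨⟨t1, by rw [t2]; exact hx⟩, t2⟩
              · rintro ⟨⟨t1, _⟩, t2⟩
                exact ⟨t1, t2⟩
            · intro t ht
              exact (Finset.mem_filter.mp ht).2
          rw [h1]
          exact Finset.card_filter_le _ _
  calc ∑ n ∈ Finset.Icc 1 N, (Rep N n).card ^ 2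
      ≤ ∑ n ∈ Finset.Icc 1 N, 4 * J * ∑ j ∈ Finset.range J,
        2 ^ j * ∑ u ∈ Finset.Ico (2 ^ j) (2 ^ (j + 1)),
        ((Rep N n).filter (fun a => Y a ≤ Y (n - a) ∧ Y a = u)).card ^ 2 := Finset.sum_le_sum hpt
    _ = 4 * J * ∑ j ∈ Finset.range J, 2 ^ j * ∑ n ∈ Finset.Icc 1 N,
        ∑ u ∈ Finset.Ico (2 ^ j) (2 ^ (j + 1)),
        ((Rep N n).filter (fun a => Y a ≤ Y (n - a) ∧ Y a = u)).card ^ 2 := by
        rw [← Finset.mul_sum, Finset.sum_comm]
        congr 1
        apply Finset.sum_congr rfl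
        intro j _
        rw [Finset.mul_sum]
    _ ≤ 4 * J * ∑ j ∈ Finset.range J, 18 * D ^ 3 * N := by
        apply Nat.mul_le_mul_left
        apply Finset.sum_le_sum
        intro j _
        exact (Nat.mul_le_mul_left _ (hq j)).trans (card_Quad N j D hD1 hD X Y hXY)
    _ = 72 * (J * J) * D ^ 3 * N := by
        rw [Finset.sum_const, Finset.card_range, smul_eq_mul]
        ring
    _ ≤ 72 * (D * D) * D ^ 3 * N := by
        apply Nat.mul_le_mul_right
        apply Nat.mul_le_mul_right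
        exact Nat.mul_le_mul_left _ (Nat.mul_le_mul hJD hJD)
    _ = 72 * D ^ 5 * N := by ring

end Pool.Agent.PWF
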