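import Mathlib
import Pool.Agent.PWF.Basic
import Pool.Agent.PWF.MeanSq

set_option autoImplicit false

namespace Pool.Agent.PWF

open Finset

/-- The tuples `(u, x, v, y)` of positive integers with `e u ^ 3 x ^ 2 + f v ^ 3 y ^ 2 = m`,
`u` and `v` squarefree, `e u x` coprime to `f v y`. -/
noncomputable def Tup (e f m : ℕ) : Finset (ℕ × ℕ × ℕ × ℕ) := by
  classical exact (Icc 1 m ×ˢ (Icc 1 m ×ˢ (Icc 1 m ×ˢ Icc 1 m))).filter (fun t =>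
    e * t.1 ^ 3 * t.2.1 ^ 2 + f * t.2.2.1 ^ 3 * t.2.2.2 ^ 2 = m ∧
      Nat.Coprime (e * t.1 * t.2.1) (f * t.2.2.1 * t.2.2.2) ∧
      Squarefree t.1 ∧ Squarefree t.2.2.1)

theorem mem_Tup (e f m u x v y : ℕ) (he : 0 < e) (hf : 0 < f) :
    (u, x, v, y) ∈ Tup e f m ↔ (0 < u ∧ 0 < x ∧ 0 < v ∧ 0 < y) ∧
      e * u ^ 3 * x ^ 2 + f * v ^ 3 * y ^ 2 = m ∧ Nat.Coprime (e * u * x) (f * v * y) ∧
      Squarefree u ∧ Squarefree v := by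
  classical
  unfold Tup
  simp only [Finset.mem_filter, Finset.mem_product, Finset.mem_Icc]
  constructor
  · rintro ⟨⟨⟨h1, _⟩, ⟨h2, _⟩, ⟨h3, _⟩, ⟨h4, _⟩⟩, h5⟩
    exact ⟨⟨h1, h2, h3, h4⟩, h5⟩
  · rintro ⟨⟨h1, h2, h3, h4⟩, h5, h6⟩
    have k1 : u * x ≤ e * u ^ 3 * x ^ 2 := by
      calc u * x = 1 * u ^ 1 * x ^ 1 := by ring
        _ ≤ e * u ^ 3 * x ^ 2 := Nat.mul_le_mul (Nat.mul_le_mul he
            (Nat.pow_le_pow_right h1 (by norm_num))) (Nat.pow_le_pow_right h2 (by norm_num))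
    have k2 : v * y ≤ f * v ^ 3 * y ^ 2 := by
      calc v * y = 1 * v ^ 1 * y ^ 1 := by ring
        _ ≤ f * v ^ 3 * y ^ 2 := Nat.mul_le_mul (Nat.mul_le_mul hf
            (Nat.pow_le_pow_right h3 (by norm_num))) (Nat.pow_le_pow_right h4 (by norm_num))
    have a1 : u ≤ u * x := Nat.le_mul_of_pos_right _ h2
    have a2 : x ≤ u * x := Nat.le_mul_of_pos_left _ h1
    have a3 : v ≤ v * y := Nat.le_mul_of_pos_right _ h4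
    have a4 : y ≤ v * y := Nat.le_mul_of_pos_left _ h3
    exact ⟨⟨⟨h1, by omega⟩, ⟨h2, by omega⟩, ⟨h3, by omega⟩, ⟨h4, by omega⟩⟩, h5, h6⟩

/-- The tuples in the box `[U, 2U) × [W, 2W) × [V, 2V) × [Y, 2Y)`. -/
noncomputable def Box (e f m U W V Y : ℕ) : Finset (ℕ × ℕ × ℕ × ℕ) := by
  classical exact (Tup e f m).filter (fun t => (U ≤ t.1 ∧ t.1 < 2 * U) ∧
    (W ≤ t.2.1 ∧ t.2.1 < 2 * W) ∧ (V ≤ t.2.2.1 ∧ t.2.2.1 < 2 * V) ∧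
    (Y ≤ t.2.2.2 ∧ t.2.2.2 < 2 * Y))

theorem mem_Box (e f m U W V Y u x v y : ℕ) : (u, x, v, y) ∈ Box e f m U W V Y ↔
    (u, x, v, y) ∈ Tup e f m ∧ (U ≤ u ∧ u < 2 * U) ∧ (W ≤ x ∧ x < 2 * W) ∧
      (V ≤ v ∧ v < 2 * V) ∧ (Y ≤ y ∧ y < 2 * Y) := by
  classical
  unfold Box
  rw [Finset.mem_filter]

/-- The powerful divisors of `n`. -/
noncomputable def PD (n : ℕ) : Finset ℕ := by
  classical exact n.divisors.filter Pfl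

theorem mem_PD (n g : ℕ) : g ∈ PD n ↔ (g ∣ n ∧ n ≠ 0) ∧ Pfl g := by
  classical
  unfold PD
  rw [Finset.mem_filter, Nat.mem_divisors]

/-- `D` bounds the number of divisors of the integers up to `M`. -/
def DivB (M D : ℕ) : Prop := 1 ≤ D ∧ ∀ m : ℕ, 1 ≤ m → m ≤ M → m.divisors.card ≤ D

theorem DivB.mono {M M' D : ℕ} (h : DivB M D) (hM : M' ≤ M) : DivB M' D :=
  ⟨h.1, fun m h1 h2 => h.2 m h1 (h2.trans hM)⟩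

/-- The nonzero vectors `(a, b)` with `|a|, |b| ≤ H` and `b ≡ s a` modulo `q`. -/
noncomputable def Vec (q s H : ℕ) : Finset (ℤ × ℤ) :=
  (Icc (-(H : ℤ)) H ×ˢ Icc (-(H : ℤ)) H).filter
    (fun w => w ≠ 0 ∧ (q : ℤ) ∣ w.2 - s * w.1)

theorem mem_Vec (q s H : ℕ) (a b : ℤ) : (a, b) ∈ Vec q s H ↔
    ((-(H : ℤ) ≤ a ∧ a ≤ H) ∧ (-(H : ℤ) ≤ b ∧ b ≤ H)) ∧ (a, b) ≠ 0 ∧ (q : ℤ) ∣ b - s * a := by
  unfold Vec
  rw [Finset.mem_filter, Finset.mem_product, Finset.mem_Icc, Finset.mem_Icc]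

/-- The pairs `(a, b)` of integers in `[1, Y]` with `b ≡ s a` modulo `q`. -/
noncomputable def Pos (q s Y : ℕ) : Finset (ℤ × ℤ) :=
  (Icc (1 : ℤ) Y ×ˢ Icc (1 : ℤ) Y).filter (fun w => (q : ℤ) ∣ w.2 - s * w.1)

theorem mem_Pos (q s Y : ℕ) (a b : ℤ) : (a, b) ∈ Pos q s Y ↔
    ((1 ≤ a ∧ a ≤ Y) ∧ (1 ≤ b ∧ b ≤ Y)) ∧ (q : ℤ) ∣ b - s * a := by
  unfold Pos
  rw [Finset.mem_filter, Finset.mem_product, Finset.mem_Icc, Finset.mem_Icc]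

/-- The residues modulo `q` coprime to `q`. -/
def Cop (q : ℕ) : Finset ℕ := (range q).filter (fun s => Nat.Coprime s q)

theorem mem_Cop (q s : ℕ) : s ∈ Cop q ↔ s < q ∧ Nat.Coprime s q := by
  unfold Cop
  rw [Finset.mem_filter, Finset.mem_range]

/-- The pairs `(α, β)` of reduced residues with `α ^ 3 ≡ β ^ 2` modulo `q`. -/
noncomputable def GG (q : ℕ) : Finset (ℕ × ℕ) :=
  (Cop q ×ˢ Cop q).filter (fun t => (q : ℤ) ∣ (t.1 : ℤ) ^ 3 - (t.2 : ℤ) ^ 2)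

theorem mem_GG (q α β : ℕ) : (α, β) ∈ GG q ↔
    ((α < q ∧ Nat.Coprime α q) ∧ (β < q ∧ Nat.Coprime β q)) ∧
      (q : ℤ) ∣ (α : ℤ) ^ 3 - (β : ℤ) ^ 2 := by
  unfold GG
  rw [Finset.mem_filter, Finset.mem_product, mem_Cop, mem_Cop]

/-- The quadruples `(v, v', y, y')` with `v, v' ≤ V`, `y, y' ≤ Y`, coprime to `q` and
`v ^ 3 y ^ 2 ≡ v' ^ 3 y' ^ 2` modulo `q`. -/
noncomputable def ZZ (q V Y : ℕ) : Finset (ℕ × ℕ × ℕ × ℕ) :=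
  (Icc 1 V ×ˢ (Icc 1 V ×ˢ (Icc 1 Y ×ˢ Icc 1 Y))).filter (fun t =>
    (Nat.Coprime t.1 q ∧ Nat.Coprime t.2.1 q ∧ Nat.Coprime t.2.2.1 q ∧ Nat.Coprime t.2.2.2 q) ∧
      (q : ℤ) ∣ (t.1 : ℤ) ^ 3 * (t.2.2.1 : ℤ) ^ 2 - (t.2.1 : ℤ) ^ 3 * (t.2.2.2 : ℤ) ^ 2)

theorem mem_ZZ (q V Y v v' y y' : ℕ) : (v, v', y, y') ∈ ZZ q V Y ↔
    ((1 ≤ v ∧ v ≤ V) ∧ (1 ≤ v' ∧ v' ≤ V) ∧ (1 ≤ y ∧ y ≤ Y) ∧ (1 ≤ y' ∧ y' ≤ Y)) ∧
    (Nat.Coprime v q ∧ Nat.Coprime v' q ∧ Nat.Coprime y q ∧ Nat.Coprime y' q) ∧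
      (q : ℤ) ∣ (v : ℤ) ^ 3 * (y : ℤ) ^ 2 - (v' : ℤ) ^ 3 * (y' : ℤ) ^ 2 := by
  unfold ZZ
  simp only [Finset.mem_filter, Finset.mem_product, Finset.mem_Icc]

/-- Pairs of different tuples of one box, for one `m ≤ M`, with the same `u`. -/
noncomputable def OffU (e f M U W V Y : ℕ) :
    Finset (ℕ × (ℕ × ℕ × ℕ × ℕ) × (ℕ × ℕ × ℕ × ℕ)) := by
  classical exact (Icc 1 M).biUnion (fun m =>
    ((Box e f m U W V Y ×ˢ Box e f m U W V Y).filter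
      (fun p => p.1 ≠ p.2 ∧ p.1.1 = p.2.1)).image (fun p => (m, p)))

theorem mem_OffU (e f M U W V Y m : ℕ) (t t' : ℕ × ℕ × ℕ × ℕ) :
    (m, t, t') ∈ OffU e f M U W V Y ↔ (1 ≤ m ∧ m ≤ M) ∧
      (t ∈ Box e f m U W V Y ∧ t' ∈ Box e f m U W V Y) ∧ t ≠ t' ∧ t.1 = t'.1 := by
  classical
  unfold OffU
  simp only [Finset.mem_biUnion, Finset.mem_image, Finset.mem_filter, Finset.mem_product,
    Finset.mem_Icc, Prod.mk.injEq, Prod.exists]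
  constructor
  · rintro ⟨m', h1, u, x, v, y, u', x', v', y', h2, rfl, h3, h4⟩
    subst h3 h4
    exact ⟨h1, h2⟩
  · rintro ⟨h1, h2⟩
    exact ⟨m, h1, t.1, t.2.1, t.2.2.1, t.2.2.2, t'.1, t'.2.1, t'.2.2.1, t'.2.2.2, h2, rfl,
      rfl, rfl⟩

/-- Pairs of different tuples of one box, for one `m ≤ M`, with the same `x`. -/
noncomputable def OffW (e f M U W V Y : ℕ) :
    Finset (ℕ × (ℕ × ℕ × ℕ × ℕ) × (ℕ × ℕ × ℕ × ℕ)) := by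
  classical exact (Icc 1 M).biUnion (fun m =>
    ((Box e f m U W V Y ×ˢ Box e f m U W V Y).filter
      (fun p => p.1 ≠ p.2 ∧ p.1.2.1 = p.2.2.1)).image (fun p => (m, p)))

theorem mem_OffW (e f M U W V Y m : ℕ) (t t' : ℕ × ℕ × ℕ × ℕ) :
    (m, t, t') ∈ OffW e f M U W V Y ↔ (1 ≤ m ∧ m ≤ M) ∧
      (t ∈ Box e f m U W V Y ∧ t' ∈ Box e f m U W V Y) ∧ t ≠ t' ∧ t.2.1 = t'.2.1 := by
  classical
  unfold OffW
  simp only [Finset.mem_biUnion, Finset.mem_image, Finset.mem_filter, Finset.mem_product,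
    Finset.mem_Icc, Prod.mk.injEq, Prod.exists]
  constructor
  · rintro ⟨m', h1, u, x, v, y, u', x', v', y', h2, rfl, h3, h4⟩
    subst h3 h4
    exact ⟨h1, h2⟩
  · rintro ⟨h1, h2⟩
    exact ⟨m, h1, t.1, t.2.1, t.2.2.1, t.2.2.2, t'.1, t'.2.1, t'.2.2.1, t'.2.2.2, h2, rfl,
      rfl, rfl⟩

/-- The pairs `(w, z)` with `w` in `(w₀, w₀ + K]`, `z` in `[1, L]`, coprime to `u`, on the curve
`A w ^ 3 z ^ 2 ≡ C` modulo `u ^ 3`. -/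
noncomputable def Crv (u : ℕ) (A C : ℤ) (w₀ K L : ℕ) : Finset (ℕ × ℕ) :=
  (Ioc w₀ (w₀ + K) ×ˢ Icc 1 L).filter (fun t => (Nat.Coprime t.1 u ∧ Nat.Coprime t.2 u) ∧
    ((u : ℤ) ^ 3) ∣ A * (t.1 : ℤ) ^ 3 * (t.2 : ℤ) ^ 2 - C)

theorem mem_Crv (u : ℕ) (A C : ℤ) (w₀ K L w z : ℕ) : (w, z) ∈ Crv u A C w₀ K L ↔
    ((w₀ < w ∧ w ≤ w₀ + K) ∧ (1 ≤ z ∧ z ≤ L)) ∧ (Nat.Coprime w u ∧ Nat.Coprime z u) ∧
      ((u : ℤ) ^ 3) ∣ A * (w : ℤ) ^ 3 * (z : ℤ) ^ 2 - C := by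
  unfold Crv
  simp only [Finset.mem_filter, Finset.mem_product, Finset.mem_Icc, Finset.mem_Ioc]

end Pool.Agent.PWF
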