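import Mathlib
import Pool.Agent.PWF.Def

set_option autoImplicit false

namespace Pool.Agent.PWF

open Finset

/-- Write `a = x₀ ^ 2 * y₀ ^ 3` with `y₀` squarefree (`exists_sq_mul_cube`), `e₁ = gcd y₀ g`,
`y₀ = e₁ * u`. As `y₀` is squarefree, `u` is coprime to `g`: a prime `p ∣ u`, `p ∣ g` divides
`e₁`, so `p ^ 2 ∣ y₀`. Hence `g ∣ e₁ ^ 3 * x₀ ^ 2` (`Nat.Coprime.dvd_of_dvd_mul_right`), say
`e₁ ^ 3 * x₀ ^ 2 = g * c`, and `c = x ^ 2 * e` with `e` squarefree
(`Nat.sq_mul_squarefree_of_pos`). Then `a = g * (e * u ^ 3 * x ^ 2)`. Every prime `p ∣ e` divides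
`g`: otherwise `p ∤ e₁`, and in `e₁ ^ 3 * x₀ ^ 2 = g * x ^ 2 * e` the exponent of `p` is
`2 * v(x₀)` on the left and `2 * v(x) + 1` on the right. So the squarefree `e` divides `g`
(`Nat.factorization` or `UniqueFactorizationMonoid`: compare exponents). -/
theorem decomp (g a : ℕ) (ha : 0 < a) (h : Pfl a) (hg : g ∣ a) :
    ∃ e u x : ℕ, e ∣ g ∧ 0 < e ∧ 0 < u ∧ 0 < x ∧ Squarefree u ∧
      a = g * (e * u ^ 3 * x ^ 2) := by
  obtain ⟨x₀, y₀, hx₀, hy₀, hsq, hab⟩ := exists_sq_mul_cube a ha h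
  obtain ⟨e₁, he₁⟩ : ∃ e₁, e₁ = Nat.gcd y₀ g := ⟨_, rfl⟩
  have he₁y : e₁ ∣ y₀ := he₁ ▸ Nat.gcd_dvd_left y₀ g
  have he₁g : e₁ ∣ g := he₁ ▸ Nat.gcd_dvd_right y₀ g
  obtain ⟨u, hu⟩ := he₁y
  have hg0 : 0 < g := Nat.pos_of_dvd_of_pos hg ha
  have he₁0 : 0 < e₁ := Nat.pos_of_dvd_of_pos he₁g hg0
  have hu0 : 0 < u := by
    rcases Nat.eq_zero_or_pos u with h0 | h0
    · rw [h0, mul_zero] at hu
      omega
    · exact h0
  have husq : Squarefree u := hsq.squarefree_of_dvd (by rw [hu]; exact Dvd.intro_left e₁ rfl)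
  have hcop : Nat.Coprime g u := by
    rw [Nat.coprime_iff_gcd_eq_one]
    by_contra hne
    obtain ⟨p, hp, hpd⟩ := Nat.exists_prime_and_dvd hne
    have hpg : p ∣ g := hpd.trans (Nat.gcd_dvd_left g u)
    have hpu : p ∣ u := hpd.trans (Nat.gcd_dvd_right g u)
    have hpy : p ∣ y₀ := by
      rw [hu]
      exact hpu.mul_left e₁
    have hpe : p ∣ e₁ := by
      rw [he₁]
      exact Nat.dvd_gcd hpy hpg
    have h2 : p * p ∣ y₀ := by
      rw [hu]
      exact mul_dvd_mul hpe hpu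
    exact hp.one_lt.ne' (Nat.isUnit_iff.mp (hsq p h2))
  have hgd : g ∣ x₀ ^ 2 * e₁ ^ 3 := by
    have h1 : g ∣ (x₀ ^ 2 * e₁ ^ 3) * u ^ 3 := by
      rw [hab, hu] at hg
      have h2 : x₀ ^ 2 * e₁ ^ 3 * u ^ 3 = x₀ ^ 2 * (e₁ * u) ^ 3 := by ring
      rw [h2]
      exact hg
    exact (Nat.Coprime.pow_right 3 hcop).dvd_of_dvd_mul_right h1
  obtain ⟨c, hc⟩ := hgd
  have hc0 : 0 < c := by
    rcases Nat.eq_zero_or_pos c with h0 | h0
    · exfalso
      rw [h0, mul_zero] at hc
      have : 0 < x₀ ^ 2 * e₁ ^ 3 := by positivity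
      omega
    · exact h0
  obtain ⟨e, x, he, hx, hxe, hesq⟩ := Nat.sq_mul_squarefree_of_pos hc0
  refine ⟨e, u, x, ?_, he, hu0, hx, husq, ?_⟩
  · rw [← Nat.factorization_le_iff_dvd he.ne' hg0.ne']
    intro p
    by_cases hp : p.Prime
    · by_cases hpe : p ∣ e
      · have h1 : e.factorization p ≤ 1 := hesq.natFactorization_le_one p
        by_cases hpg : p ∣ g
        · have h6 : 1 ≤ g.factorization p := (hp.dvd_iff_one_le_factorization hg0.ne').mp hpg
          omega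
        · exfalso
          have h2 : 1 ≤ e.factorization p := (hp.dvd_iff_one_le_factorization he.ne').mp hpe
          have h3 : g.factorization p = 0 := Nat.factorization_eq_zero_of_not_dvd hpg
          have h4 : e₁.factorization p = 0 :=
            Nat.factorization_eq_zero_of_not_dvd fun h5 => hpg (h5.trans he₁g)
          have h5 := congrArg (fun t => t.factorization p) hc
          rw [← hxe] at h5
          rw [Nat.factorization_mul (by positivity) (by positivity),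
            Nat.factorization_mul hg0.ne' (by positivity),
            Nat.factorization_mul (by positivity) he.ne', Nat.factorization_pow,
            Nat.factorization_pow, Nat.factorization_pow] at h5
          simp only [Finsupp.add_apply, Finsupp.smul_apply, smul_eq_mul] at h5
          omega
      · rw [Nat.factorization_eq_zero_of_not_dvd hpe]
        exact Nat.zero_le _
    · rw [Nat.factorization_eq_zero_of_not_prime _ hp]
      exact Nat.zero_le _
  · rw [hab, hu]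
    have h1 : x₀ ^ 2 * (e₁ * u) ^ 3 = (x₀ ^ 2 * e₁ ^ 3) * u ^ 3 := by ring
    rw [h1, hc, ← hxe]
    ring

end Pool.Agent.PWF
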