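import Mathlib
import Pool.Agent.PWF.A1

set_option autoImplicit false

namespace Pool.Agent.PWF

open Finset

/-- For `a ∈ Rep N n` (`mem_Rep`, `mem_PA`) put `b = n - a` and `g = Nat.gcd a b`. Then `g ∣ n`,
and `g` is powerful: a prime `p ∣ g` has `p ^ 2 ∣ a` and `p ^ 2 ∣ b`; so `g ∈ PD n`. `decomp`
for `a` and for `b` (both divisible by `g`, both positive and powerful) gives
`a = g * (e u³ x²)`, `b = g * (f v³ y²)` with `e, f ∣ g`; the two cofactors are coprime
(`Nat.coprime_div_gcd_div_gcd`), hence `Nat.Coprime (e * u * x) (f * v * y)` (divisors of them,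
`Nat.Coprime.coprime_dvd_left/right`; `e * u * x ∣ e * u ^ 3 * x ^ 2`), and their sum is `n / g`:
`(u, x, v, y) ∈ Tup e f (n / g)` by `mem_Tup`. So `Rep N n` is contained in the union over
`g ∈ PD n`, `e, f ∈ g.divisors` of the images of `Tup e f (n / g)` under
`t ↦ g * (e * t.1 ^ 3 * t.2.1 ^ 2)`; `card_biUnion_le`, `card_image_le`. -/
theorem reduction (N n : ℕ) (hn : 1 ≤ n) (hnN : n ≤ N) :
    (Rep N n).card ≤ ∑ g ∈ PD n, ∑ e ∈ g.divisors, ∑ f ∈ g.divisors,
      (Tup e f (n / g)).card := by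
  classical
  have hsub : Rep N n ⊆ (PD n).biUnion (fun g => g.divisors.biUnion (fun e =>
      g.divisors.biUnion (fun f => (Tup e f (n / g)).image
        (fun t => g * (e * t.1 ^ 3 * t.2.1 ^ 2))))) := by
    intro a ha
    rw [mem_Rep, mem_PA] at ha
    obtain ⟨⟨⟨ha1, haN⟩, hap⟩, han, hbp⟩ := ha
    set b := n - a with hb
    have hb1 : 0 < b := by omega
    have hab : a + b = n := by omega
    set g := Nat.gcd a b with hg
    have hg0 : 0 < g := Nat.gcd_pos_of_pos_left b ha1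
    have hga : g ∣ a := Nat.gcd_dvd_left a b
    have hgb : g ∣ b := Nat.gcd_dvd_right a b
    have hgn : g ∣ n := hab ▸ Nat.dvd_add hga hgb
    have hgp : Pfl g := by
      intro p hp hpg
      exact Nat.dvd_gcd (hap p hp (hpg.trans hga)) (hbp p hp (hpg.trans hgb))
    obtain ⟨e, u, x, heg, he0, hu0, hx0, husq, hae⟩ := decomp g a ha1 hap hga
    obtain ⟨f, v, y, hfg, hf0, hv0, hy0, hvsq, hbf⟩ := decomp g b hb1 hbp hgb
    have hcop : Nat.Coprime (e * u ^ 3 * x ^ 2) (f * v ^ 3 * y ^ 2) := by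
      have h1 : Nat.Coprime (a / g) (b / g) := Nat.coprime_div_gcd_div_gcd hg0
      have h2 : a / g = e * u ^ 3 * x ^ 2 := by
        conv_lhs => rw [hae]
        exact Nat.mul_div_cancel_left _ hg0
      have h3 : b / g = f * v ^ 3 * y ^ 2 := by
        conv_lhs => rw [hbf]
        exact Nat.mul_div_cancel_left _ hg0
      rwa [h2, h3] at h1
    have hd1 : e * u * x ∣ e * u ^ 3 * x ^ 2 := ⟨u ^ 2 * x, by ring⟩
    have hd2 : f * v * y ∣ f * v ^ 3 * y ^ 2 := ⟨v ^ 2 * y, by ring⟩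
    have hcop2 : Nat.Coprime (e * u * x) (f * v * y) :=
      Nat.Coprime.coprime_dvd_left hd1 (Nat.Coprime.coprime_dvd_right hd2 hcop)
    have hsum : e * u ^ 3 * x ^ 2 + f * v ^ 3 * y ^ 2 = n / g := by
      symm
      apply Nat.div_eq_of_eq_mul_right hg0
      rw [mul_add, ← hae, ← hbf, hab]
    have hg0' : g ≠ 0 := hg0.ne'
    rw [mem_biUnion]
    refine ⟨g, (mem_PD n g).mpr ⟨⟨hgn, by omega⟩, hgp⟩, ?_⟩
    rw [mem_biUnion]
    refine ⟨e, Nat.mem_divisors.mpr ⟨heg, hg0'⟩, ?_⟩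
    rw [mem_biUnion]
    refine ⟨f, Nat.mem_divisors.mpr ⟨hfg, hg0'⟩, ?_⟩
    rw [mem_image]
    refine ⟨(u, x, v, y), ?_, hae.symm⟩
    rw [mem_Tup e f _ u x v y he0 hf0]
    exact ⟨⟨hu0, hx0, hv0, hy0⟩, hsum, hcop2, husq, hvsq⟩
  refine (card_le_card hsub).trans (card_biUnion_le.trans ?_)
  refine sum_le_sum fun g _ => card_biUnion_le.trans ?_
  refine sum_le_sum fun e _ => card_biUnion_le.trans ?_
  exact sum_le_sum fun f _ => card_image_le

end Pool.Agent.PWF
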