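import Mathlib
import Pool.Agent.PWF.Def

set_option autoImplicit false

namespace Pool.Agent.PWF

open Finset

/-- Every tuple lies in the box with `i = Nat.log 2 u` etc.: `2 ^ Nat.log 2 u ≤ u < 2 * 2 ^ _`
(`Nat.pow_log_le_self`, `Nat.lt_pow_succ_log_self`), and `Nat.log 2 u < J` since
`u ≤ e u³ x² ≤ m < 2 ^ J` (`Nat.log_lt_of_lt_pow`). `Tup` is contained in the union of the boxes,
`card_biUnion_le` four times (or over a product of ranges). -/
theorem card_Tup_le (e f m J : ℕ) (he : 0 < e) (hf : 0 < f) (hJ : m < 2 ^ J) :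
    (Tup e f m).card ≤ ∑ i ∈ range J, ∑ k ∈ range J, ∑ j ∈ range J, ∑ l ∈ range J,
      (Box e f m (2 ^ i) (2 ^ k) (2 ^ j) (2 ^ l)).card := by
  classical
  have hsub : Tup e f m ⊆ (range J ×ˢ (range J ×ˢ (range J ×ˢ range J))).biUnion
      (fun s => Box e f m (2 ^ s.1) (2 ^ s.2.1) (2 ^ s.2.2.1) (2 ^ s.2.2.2)) := by
    rintro ⟨u, x, v, y⟩ ht
    have ht' := ht
    rw [mem_Tup e f m u x v y he hf] at ht'
    obtain ⟨⟨hu, hx, hv, hy⟩, heq, -, -, -⟩ := ht'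
    have k1 : u * x ≤ e * u ^ 3 * x ^ 2 := by
      calc u * x = 1 * u ^ 1 * x ^ 1 := by ring
        _ ≤ e * u ^ 3 * x ^ 2 := Nat.mul_le_mul (Nat.mul_le_mul he
            (Nat.pow_le_pow_right hu (by norm_num))) (Nat.pow_le_pow_right hx (by norm_num))
    have k2 : v * y ≤ f * v ^ 3 * y ^ 2 := by
      calc v * y = 1 * v ^ 1 * y ^ 1 := by ring
        _ ≤ f * v ^ 3 * y ^ 2 := Nat.mul_le_mul (Nat.mul_le_mul hf
            (Nat.pow_le_pow_right hv (by norm_num))) (Nat.pow_le_pow_right hy (by norm_num))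
    have a1 : u ≤ u * x := Nat.le_mul_of_pos_right _ hx
    have a2 : x ≤ u * x := Nat.le_mul_of_pos_left _ hu
    have a3 : v ≤ v * y := Nat.le_mul_of_pos_right _ hy
    have a4 : y ≤ v * y := Nat.le_mul_of_pos_left _ hv
    have key : ∀ w : ℕ, 0 < w → w ≤ m →
        Nat.log 2 w < J ∧ 2 ^ Nat.log 2 w ≤ w ∧ w < 2 * 2 ^ Nat.log 2 w := by
      intro w hw hwm
      refine ⟨Nat.log_lt_of_lt_pow hw.ne' (lt_of_le_of_lt hwm hJ),
        Nat.pow_log_le_self 2 hw.ne', ?_⟩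
      have := Nat.lt_pow_succ_log_self (b := 2) (by norm_num) w
      rw [pow_succ] at this
      omega
    obtain ⟨u1, u2, u3⟩ := key u hu (by omega)
    obtain ⟨x1, x2, x3⟩ := key x hx (by omega)
    obtain ⟨v1, v2, v3⟩ := key v hv (by omega)
    obtain ⟨y1, y2, y3⟩ := key y hy (by omega)
    rw [mem_biUnion]
    refine ⟨(Nat.log 2 u, Nat.log 2 x, Nat.log 2 v, Nat.log 2 y), ?_, ?_⟩
    · simp only [mem_product, mem_range]
      exact ⟨u1, x1, v1, y1⟩
    · exact (mem_Box e f m _ _ _ _ u x v y).mpr ⟨ht, ⟨u2, u3⟩, ⟨x2, x3⟩, ⟨v2, v3⟩, ⟨y2, y3⟩⟩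
  refine (card_le_card hsub).trans (card_biUnion_le.trans ?_)
  rw [sum_product]
  refine le_of_eq (sum_congr rfl fun i _ => ?_)
  rw [sum_product]
  refine sum_congr rfl fun k _ => ?_
  rw [sum_product]

end Pool.Agent.PWF
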