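import Mathlib
import Pool.Agent.PWF.A2
import Pool.Agent.PWF.A3

set_option autoImplicit false

namespace Pool.Agent.PWF

open Finset

private theorem A4_sum {ι : Type*} (s : Finset ι) (f : ι → ℝ) (c : ℝ) (D : ℕ) (hc : 0 ≤ c)
    (hs : s.card ≤ D) (h : ∀ i ∈ s, f i ≤ c) : ∑ i ∈ s, f i ≤ (D : ℝ) * c := by
  refine (Finset.sum_le_card_nsmul s f c h).trans ?_
  rw [nsmul_eq_mul]
  exact mul_le_mul_of_nonneg_right (by exact_mod_cast hs) hc

/-- `reduction` and `card_Tup_le` with `J = Nat.log 2 N + 1`. Here `J ≤ D`, because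
`2 ^ Nat.log 2 N ≤ N` has `Nat.log 2 N + 1` divisors (`Nat.divisors_prime_pow`); `n / g ≤ N < 2 ^ J`;
`(PD n).card ≤ n.divisors.card ≤ D` and `g.divisors.card ≤ D` for `g ∣ n`, `g ≤ N`. So the sum has
at most `D ^ 3 * J ^ 4 ≤ D ^ 7` terms, each at most `K` (`Finset.sum_le_card_nsmul` in real
numbers). Divisors `e`, `f` of `g ≠ 0` are positive. -/
theorem rep_le_of_boxes (N n D : ℕ) (hn : 1 ≤ n) (hnN : n ≤ N) (hD : DivB N D) (K : ℝ)
    (hK : 0 ≤ K)
    (h : ∀ g e f i k j l : ℕ, g ∈ PD n → e ∣ g → f ∣ g → 0 < e → 0 < f → i < D → k < D →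
      j < D → l < D → ((Box e f (n / g) (2 ^ i) (2 ^ k) (2 ^ j) (2 ^ l)).card : ℝ) ≤ K) :
    ((Rep N n).card : ℝ) ≤ (D : ℝ) ^ 7 * K := by
  have hN : N ≠ 0 := by omega
  obtain ⟨J, hJ⟩ : ∃ J, J = Nat.log 2 N + 1 := ⟨_, rfl⟩
  have hJD : J ≤ D := by
    have h1 := hD.2 (2 ^ Nat.log 2 N) Nat.one_le_two_pow (Nat.pow_log_le_self 2 hN)
    rw [Nat.divisors_prime_pow Nat.prime_two, Finset.card_map, Finset.card_range] at h1
    omega
  have hD0 : (0 : ℝ) ≤ D := Nat.cast_nonneg D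
  have hTup : ∀ g ∈ PD n, ∀ e ∈ g.divisors, ∀ f ∈ g.divisors,
      ((Tup e f (n / g)).card : ℝ) ≤ (D : ℝ) * (D * (D * (D * K))) := by
    intro g hg e he f hf
    obtain ⟨he1, he2⟩ := Nat.mem_divisors.1 he
    obtain ⟨hf1, hf2⟩ := Nat.mem_divisors.1 hf
    have hg0 : 0 < g := Nat.pos_of_ne_zero he2
    have he0 : 0 < e := Nat.pos_of_dvd_of_pos he1 hg0
    have hf0 : 0 < f := Nat.pos_of_dvd_of_pos hf1 hg0
    have hm : n / g < 2 ^ J := by
      refine lt_of_le_of_lt ((Nat.div_le_self n g).trans hnN) ?_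
      rw [hJ]
      exact Nat.lt_pow_succ_log_self (by norm_num) N
    have h1 : ((Tup e f (n / g)).card : ℝ) ≤ ∑ i ∈ range J, ∑ k ∈ range J, ∑ j ∈ range J,
        ∑ l ∈ range J, ((Box e f (n / g) (2 ^ i) (2 ^ k) (2 ^ j) (2 ^ l)).card : ℝ) := by
      exact_mod_cast card_Tup_le e f (n / g) J he0 hf0 hm
    have hc : (range J).card ≤ D := by rw [card_range]; exact hJD
    refine h1.trans ?_
    refine A4_sum _ _ _ D (by positivity) hc fun i hi => ?_
    refine A4_sum _ _ _ D (by positivity) hc fun k hk => ?_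
    refine A4_sum _ _ _ D (by positivity) hc fun j hj => ?_
    refine A4_sum _ _ _ D hK hc fun l hl => ?_
    rw [mem_range] at hi hk hj hl
    exact h g e f i k j l hg he1 hf1 he0 hf0 (by omega) (by omega) (by omega) (by omega)
  have h0 : ((Rep N n).card : ℝ) ≤ ∑ g ∈ PD n, ∑ e ∈ g.divisors, ∑ f ∈ g.divisors,
      ((Tup e f (n / g)).card : ℝ) := by
    exact_mod_cast reduction N n hn hnN
  have hPD : (PD n).card ≤ D := by
    refine (Finset.card_le_card (t := n.divisors) fun g hg => ?_).trans (hD.2 n hn hnN)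
    rw [Nat.mem_divisors]
    exact ((mem_PD n g).1 hg).1
  have h2 : ∑ g ∈ PD n, ∑ e ∈ g.divisors, ∑ f ∈ g.divisors, ((Tup e f (n / g)).card : ℝ) ≤
      (D : ℝ) * (D * (D * (D * (D * (D * (D * K)))))) := by
    refine A4_sum _ _ _ D (by positivity) hPD fun g hg => ?_
    have hg1 := ((mem_PD n g).1 hg).1
    have hg0 : 1 ≤ g := Nat.pos_of_dvd_of_pos hg1.1 (by omega)
    have hgN : g ≤ N := (Nat.le_of_dvd (by omega) hg1.1).trans hnN
    have hgd : g.divisors.card ≤ D := hD.2 g hg0 hgN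
    refine A4_sum _ _ _ D (by positivity) hgd fun e he => ?_
    exact A4_sum _ _ _ D (by positivity) hgd fun f hf => hTup g hg e he f hf
  refine (h0.trans h2).trans (le_of_eq ?_)
  ring

end Pool.Agent.PWF
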