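import Mathlib
import Pool.Agent.PWF.Def

set_option autoImplicit false

namespace Pool.Agent.PWF

open Finset

/-- Compare exponents at each prime `p`: `3 v(u) + 2 v(x) = 3 v(v) + 2 v(y)` with
`v(u), v(v) ≤ 1` (squarefree), so `v(u) = v(v)` by parity, and then `v(x) = v(y)`
(`Nat.eq_of_factorization_eq`). -/
theorem sq_cube_unique (u x v y : ℕ) (hu : Squarefree u) (hv : Squarefree v) (hx : 0 < x)
    (hy : 0 < y) (h : u ^ 3 * x ^ 2 = v ^ 3 * y ^ 2) : u = v ∧ x = y := by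
  have hu0 : u ≠ 0 := hu.ne_zero
  have hv0 : v ≠ 0 := hv.ne_zero
  have key : ∀ p : ℕ, 3 * u.factorization p + 2 * x.factorization p =
      3 * v.factorization p + 2 * y.factorization p := by
    intro p
    have h1 := congrArg (fun n : ℕ => n.factorization p) h
    rw [Nat.factorization_mul (pow_ne_zero 3 hu0) (pow_ne_zero 2 hx.ne'),
      Nat.factorization_mul (pow_ne_zero 3 hv0) (pow_ne_zero 2 hy.ne'), Nat.factorization_pow,
      Nat.factorization_pow, Nat.factorization_pow, Nat.factorization_pow] at h1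
    simpa using h1
  have h3 : ∀ p : ℕ, u.factorization p ≤ 1 := fun p => hu.natFactorization_le_one p
  have h4 : ∀ p : ℕ, v.factorization p ≤ 1 := fun p => hv.natFactorization_le_one p
  constructor
  · refine Nat.eq_of_factorization_eq hu0 hv0 fun p => ?_
    have h5 := key p
    have h6 := h3 p
    have h7 := h4 p
    omega
  · refine Nat.eq_of_factorization_eq hx.ne' hy.ne' fun p => ?_
    have h5 := key p
    have h6 := h3 p
    have h7 := h4 p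
    omega

/-- Same `u`, `x`: then `f v³ y²` is the same, `sq_cube_unique`. -/
theorem Box_eq_of_ux (e f m U W V Y : ℕ) (he : 0 < e) (hf : 0 < f) (t t' : ℕ × ℕ × ℕ × ℕ)
    (ht : t ∈ Box e f m U W V Y) (ht' : t' ∈ Box e f m U W V Y) (h1 : t.1 = t'.1)
    (h2 : t.2.1 = t'.2.1) : t = t' := by
  obtain ⟨u, x, v, y⟩ := t
  obtain ⟨u', x', v', y'⟩ := t'
  simp only at h1 h2
  subst h1
  subst h2
  rw [mem_Box, mem_Tup e f m _ _ _ _ he hf] at ht ht'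
  obtain ⟨⟨⟨-, -, hv, hy⟩, hm, -, -, hsv⟩, -⟩ := ht
  obtain ⟨⟨⟨-, -, hv', hy'⟩, hm', -, -, hsv'⟩, -⟩ := ht'
  have h5 : f * v ^ 3 * y ^ 2 = f * v' ^ 3 * y' ^ 2 := by omega
  have h6 : v ^ 3 * y ^ 2 = v' ^ 3 * y' ^ 2 := by
    rw [mul_assoc, mul_assoc] at h5
    exact Nat.eq_of_mul_eq_mul_left hf h5
  obtain ⟨rfl, rfl⟩ := sq_cube_unique v y v' y' hsv hsv' hy hy' h6
  rfl

theorem Box_eq_of_vy (e f m U W V Y : ℕ) (he : 0 < e) (hf : 0 < f) (t t' : ℕ × ℕ × ℕ × ℕ)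
    (ht : t ∈ Box e f m U W V Y) (ht' : t' ∈ Box e f m U W V Y) (h1 : t.2.2.1 = t'.2.2.1)
    (h2 : t.2.2.2 = t'.2.2.2) : t = t' := by
  obtain ⟨u, x, v, y⟩ := t
  obtain ⟨u', x', v', y'⟩ := t'
  simp only at h1 h2
  subst h1
  subst h2
  rw [mem_Box, mem_Tup e f m _ _ _ _ he hf] at ht ht'
  obtain ⟨⟨⟨hu, hx, -, -⟩, hm, -, hsu, -⟩, -⟩ := ht
  obtain ⟨⟨⟨hu', hx', -, -⟩, hm', -, hsu', -⟩, -⟩ := ht'
  have h5 : e * u ^ 3 * x ^ 2 = e * u' ^ 3 * x' ^ 2 := by omega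
  have h6 : u ^ 3 * x ^ 2 = u' ^ 3 * x' ^ 2 := by
    rw [mul_assoc, mul_assoc] at h5
    exact Nat.eq_of_mul_eq_mul_left he h5
  obtain ⟨rfl, rfl⟩ := sq_cube_unique u x u' x' hsu hsu' hx hx' h6
  rfl

/-- `t ↦ (t.1, t.2.1)` is injective on the box. -/
theorem card_Box_le_UW (e f m U W V Y : ℕ) (he : 0 < e) (hf : 0 < f) :
    (Box e f m U W V Y).card ≤ U * W := by
  have h1 : (Box e f m U W V Y).card ≤ (Ico U (2 * U) ×ˢ Ico W (2 * W)).card := by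
    refine Finset.card_le_card_of_injOn (fun t => (t.1, t.2.1)) ?_ ?_
    · rintro ⟨u, x, v, y⟩ ht
      rw [Finset.mem_coe, mem_Box] at ht
      rw [Finset.mem_coe, Finset.mem_product, Finset.mem_Ico, Finset.mem_Ico]
      exact ⟨ht.2.1, ht.2.2.1⟩
    · intro t ht t' ht' h
      rw [Prod.mk.injEq] at h
      exact Box_eq_of_ux e f m U W V Y he hf t t' (Finset.mem_coe.mp ht) (Finset.mem_coe.mp ht')
        h.1 h.2
  rw [Finset.card_product, Nat.card_Ico, Nat.card_Ico] at h1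
  have h2 : 2 * U - U = U := by omega
  have h3 : 2 * W - W = W := by omega
  rwa [h2, h3] at h1

theorem card_Box_le_VY (e f m U W V Y : ℕ) (he : 0 < e) (hf : 0 < f) :
    (Box e f m U W V Y).card ≤ V * Y := by
  have h1 : (Box e f m U W V Y).card ≤ (Ico V (2 * V) ×ˢ Ico Y (2 * Y)).card := by
    refine Finset.card_le_card_of_injOn (fun t => (t.2.2.1, t.2.2.2)) ?_ ?_
    · rintro ⟨u, x, v, y⟩ ht
      rw [Finset.mem_coe, mem_Box] at ht
      rw [Finset.mem_coe, Finset.mem_product, Finset.mem_Ico, Finset.mem_Ico]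
      exact ⟨ht.2.2.2.1, ht.2.2.2.2⟩
    · intro t ht t' ht' h
      rw [Prod.mk.injEq] at h
      exact Box_eq_of_vy e f m U W V Y he hf t t' (Finset.mem_coe.mp ht) (Finset.mem_coe.mp ht')
        h.1 h.2
  rw [Finset.card_product, Nat.card_Ico, Nat.card_Ico] at h1
  have h2 : 2 * V - V = V := by omega
  have h3 : 2 * Y - Y = Y := by omega
  rwa [h2, h3] at h1

theorem B1_swap_mem (e f m U W V Y : ℕ) (he : 0 < e) (hf : 0 < f) (u x v y : ℕ)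
    (h : (u, x, v, y) ∈ Box e f m U W V Y) : (v, y, u, x) ∈ Box f e m V Y U W := by
  rw [mem_Box, mem_Tup _ _ _ _ _ _ _ he hf] at h
  rw [mem_Box, mem_Tup _ _ _ _ _ _ _ hf he]
  obtain ⟨⟨⟨h1, h2, h3, h4⟩, h5, h6, h7, h8⟩, h9, h10, h11, h12⟩ := h
  exact ⟨⟨⟨h3, h4, h1, h2⟩, by rw [add_comm]; exact h5, h6.symm, h8, h7⟩, h11, h12, h9, h10⟩

/-- The bijection `(u, x, v, y) ↦ (v, y, u, x)`. -/
theorem card_Box_swap (e f m U W V Y : ℕ) (he : 0 < e) (hf : 0 < f) :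
    (Box e f m U W V Y).card = (Box f e m V Y U W).card := by
  refine Finset.card_bij' (fun t _ => (t.2.2.1, t.2.2.2, t.1, t.2.1))
    (fun t _ => (t.2.2.1, t.2.2.2, t.1, t.2.1)) ?_ ?_ ?_ ?_
  · rintro ⟨u, x, v, y⟩ ht
    exact B1_swap_mem e f m U W V Y he hf u x v y ht
  · rintro ⟨u, x, v, y⟩ ht
    exact B1_swap_mem f e m V Y U W hf he u x v y ht
  · rintro ⟨u, x, v, y⟩ _
    rfl
  · rintro ⟨u, x, v, y⟩ _
    rfl

theorem size_Box (e f m U W V Y : ℕ) (he : 0 < e) (hf : 0 < f)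
    (h : (Box e f m U W V Y).Nonempty) : U ^ 3 * W ^ 2 ≤ m ∧ V ^ 3 * Y ^ 2 ≤ m := by
  obtain ⟨⟨u, x, v, y⟩, ht⟩ := h
  rw [mem_Box, mem_Tup _ _ _ _ _ _ _ he hf] at ht
  obtain ⟨⟨-, h5, -⟩, h9, h10, h11, h12⟩ := ht
  have k1 : U ^ 3 * W ^ 2 ≤ e * u ^ 3 * x ^ 2 := by
    calc U ^ 3 * W ^ 2 ≤ u ^ 3 * x ^ 2 :=
          Nat.mul_le_mul (Nat.pow_le_pow_left h9.1 3) (Nat.pow_le_pow_left h10.1 2)
      _ ≤ e * (u ^ 3 * x ^ 2) := Nat.le_mul_of_pos_left _ he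
      _ = e * u ^ 3 * x ^ 2 := by ring
  have k2 : V ^ 3 * Y ^ 2 ≤ f * v ^ 3 * y ^ 2 := by
    calc V ^ 3 * Y ^ 2 ≤ v ^ 3 * y ^ 2 :=
          Nat.mul_le_mul (Nat.pow_le_pow_left h11.1 3) (Nat.pow_le_pow_left h12.1 2)
      _ ≤ f * (v ^ 3 * y ^ 2) := Nat.le_mul_of_pos_left _ hf
      _ = f * v ^ 3 * y ^ 2 := by ring
  omega

end Pool.Agent.PWF
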