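import Mathlib

set_option autoImplicit false

namespace Pool.Agent.PWF

/-- Two square roots of `1` modulo `m` with the same greatest common divisor of `t - 1` and `m`
differ by an element killed by `2`. -/
theorem dvd_two_mul_sub (m t₁ t₂ : ℤ) (hm : 0 < m) (h₁ : m ∣ (t₁ - 1) * (t₁ + 1))
    (h₂ : m ∣ (t₂ - 1) * (t₂ + 1)) (hg : Int.gcd (t₁ - 1) m = Int.gcd (t₂ - 1) m) :
    m ∣ 2 * (t₁ - t₂) := by
  have aux : ∀ t : ℤ, m ∣ (t - 1) * (t + 1) →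
      (Int.gcd (t - 1) m : ℤ) ∣ t - 1 ∧ (m / (Int.gcd (t - 1) m : ℤ)) ∣ t + 1 := by
    intro t ht
    set D : ℤ := (Int.gcd (t - 1) m : ℤ) with hD
    have hDm : D ∣ m := Int.gcd_dvd_right _ _
    have hDt : D ∣ t - 1 := Int.gcd_dvd_left _ _
    have hD0 : D ≠ 0 := by
      intro h0
      rw [h0, zero_dvd_iff] at hDm
      omega
    refine ⟨hDt, ?_⟩
    have hc : IsCoprime ((t - 1) / D) (m / D) := by
      rw [Int.isCoprime_iff_gcd_eq_one]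
      have hpos : 0 < Int.gcd (t - 1) m := by
        rw [Nat.pos_iff_ne_zero]
        intro h0
        apply hD0
        rw [hD, h0]
        rfl
      exact Int.gcd_ediv_gcd_ediv_gcd hpos
    have h3 : m / D ∣ ((t - 1) / D) * (t + 1) := by
      obtain ⟨s, hs⟩ := hDt
      obtain ⟨M, hM⟩ := hDm
      rw [hs, hM, mul_assoc] at ht
      have ht' := (mul_dvd_mul_iff_left hD0).mp ht
      rw [hM, hs, Int.mul_ediv_cancel_left _ hD0, Int.mul_ediv_cancel_left _ hD0]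
      rw [hs] at *
      exact ht'
    exact hc.symm.dvd_of_dvd_mul_left h3
  obtain ⟨a1, a2⟩ := aux t₁ h₁
  obtain ⟨b1, b2⟩ := aux t₂ h₂
  rw [← hg] at b1 b2
  set D : ℤ := (Int.gcd (t₁ - 1) m : ℤ) with hD
  have hDm : D ∣ m := Int.gcd_dvd_right _ _
  set M := m / D with hM
  have hmM : m = D * M := (Int.mul_ediv_cancel' hDm).symm
  have e1 : D ∣ t₁ - t₂ := by
    have := dvd_sub a1 b1
    have h' : t₁ - 1 - (t₂ - 1) = t₁ - t₂ := by ring
    rwa [h'] at this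
  have e2 : M ∣ t₁ - t₂ := by
    have := dvd_sub a2 b2
    have h' : t₁ + 1 - (t₂ + 1) = t₁ - t₂ := by ring
    rwa [h'] at this
  have e3 : (Int.gcd D M : ℤ) ∣ 2 := by
    have u1 : (Int.gcd D M : ℤ) ∣ t₁ - 1 := (Int.gcd_dvd_left _ _).trans a1
    have u2 : (Int.gcd D M : ℤ) ∣ t₁ + 1 := (Int.gcd_dvd_right _ _).trans a2
    have := dvd_sub u2 u1
    have h' : t₁ + 1 - (t₁ - 1) = 2 := by ring
    rwa [h'] at this
  have e4 : m ∣ (Int.gcd D M : ℤ) * (t₁ - t₂) := by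
    rw [Int.gcd_eq_gcd_ab, hmM, add_mul]
    apply dvd_add
    · rw [mul_assoc]
      exact mul_dvd_mul_left D (Dvd.dvd.mul_left e2 _)
    · rw [mul_assoc, mul_comm D M]
      exact mul_dvd_mul_left M (Dvd.dvd.mul_left e1 _)
  exact e4.trans (mul_dvd_mul_right e3 _)

/-- The core rigidity statement. -/
theorem rigid (m a₀ a₁ a₂ p₁ p₂ q₁ q₂ : ℤ) (hm : 0 < m)
    (h0 : 0 < a₀) (h0' : a₀ < m) (h1 : 0 < a₁) (h2 : 0 < a₂)
    (hc : IsCoprime a₀ m) (hp1 : 0 ≤ p₁) (hp2 : 0 ≤ p₂) (hq1 : 0 ≤ q₁) (hq2 : 0 ≤ q₂)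
    (e1 : p₁ ^ 2 = a₀ * a₁) (e2 : p₂ ^ 2 = a₀ * a₂)
    (e3 : q₁ ^ 2 = (m - a₀) * (m - a₁)) (e4 : q₂ ^ 2 = (m - a₀) * (m - a₂))
    (hd : m ∣ p₁ * q₂ - p₂ * q₁) : a₁ = a₂ := by
  -- first get `P` and `Q`
  have hP : a₀ ∣ p₁ * p₂ := by
    rw [← Int.pow_dvd_pow_iff (n := 2) (by norm_num)]
    exact ⟨a₁ * a₂, by rw [mul_pow, e1, e2]; ring⟩
  have hQ : (m - a₀) ∣ q₁ * q₂ := by
    rw [← Int.pow_dvd_pow_iff (n := 2) (by norm_num)]
    exact ⟨(m - a₁) * (m - a₂), by rw [mul_pow, e3, e4]; ring⟩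
  obtain ⟨P, hP⟩ := hP
  obtain ⟨Q, hQ⟩ := hQ
  have hb0 : 0 < m - a₀ := by linarith
  have hp1' : 0 < p₁ := by
    rcases hp1.lt_or_eq with h | h
    · exact h
    · rw [← h] at e1; nlinarith [mul_pos h0 h1]
  have hp2' : 0 < p₂ := by
    rcases hp2.lt_or_eq with h | h
    · exact h
    · rw [← h] at e2; nlinarith [mul_pos h0 h2]
  have hP0 : 0 < P := by
    by_contra hcon
    push Not at hcon
    nlinarith [mul_pos hp1' hp2']
  have hQ0 : 0 ≤ Q := by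
    by_contra hcon
    push Not at hcon
    nlinarith [mul_nonneg hq1 hq2]
  have hPsq : P ^ 2 = a₁ * a₂ := by
    have : a₀ ^ 2 * P ^ 2 = a₀ ^ 2 * (a₁ * a₂) := by
      calc a₀ ^ 2 * P ^ 2 = (p₁ * p₂) ^ 2 := by rw [hP]; ring
        _ = p₁ ^ 2 * p₂ ^ 2 := by ring
        _ = a₀ ^ 2 * (a₁ * a₂) := by rw [e1, e2]; ring
    exact mul_left_cancel₀ (by positivity) this
  have hQsq : Q ^ 2 = (m - a₁) * (m - a₂) := by
    have : (m - a₀) ^ 2 * Q ^ 2 = (m - a₀) ^ 2 * ((m - a₁) * (m - a₂)) := by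
      calc (m - a₀) ^ 2 * Q ^ 2 = (q₁ * q₂) ^ 2 := by rw [hQ]; ring
        _ = q₁ ^ 2 * q₂ ^ 2 := by ring
        _ = (m - a₀) ^ 2 * ((m - a₁) * (m - a₂)) := by rw [e3, e4]; ring
    exact mul_left_cancel₀ (by positivity) this
  have key : (p₁ * q₂ - p₂ * q₁) ^ 2 = a₀ * (m - a₀) * (m ^ 2 - (P + Q) ^ 2) := by
    have i1 : (p₁ * q₂ - p₂ * q₁) ^ 2 =
        p₁ ^ 2 * q₂ ^ 2 + p₂ ^ 2 * q₁ ^ 2 - 2 * (p₁ * p₂) * (q₁ * q₂) := by ring
    rw [i1, e1, e2, e3, e4, hP, hQ]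
    have i2 : (P + Q) ^ 2 = P ^ 2 + Q ^ 2 + 2 * P * Q := by ring
    rw [i2, hPsq, hQsq]
    ring
  have hcb : IsCoprime (m - a₀) m := by
    obtain ⟨u, v, huv⟩ := hc
    exact ⟨-u, v + u, by linear_combination huv⟩
  have hdd : m ^ 2 ∣ a₀ * (m - a₀) * (m ^ 2 - (P + Q) ^ 2) := by
    rw [← key]; exact pow_dvd_pow_of_dvd hd 2
  have hcop : IsCoprime (m ^ 2) (a₀ * (m - a₀)) :=
    (IsCoprime.pow_right (IsCoprime.mul_left hc hcb)).symm
  have h3 : m ^ 2 ∣ m ^ 2 - (P + Q) ^ 2 := hcop.dvd_of_dvd_mul_left hdd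
  have h4 : m ^ 2 ∣ (P + Q) ^ 2 := by
    have := dvd_sub (dvd_refl (m ^ 2)) h3
    simpa using this
  have h5 : m ∣ P + Q := (Int.pow_dvd_pow_iff (by norm_num)).mp h4
  have h6 : m ≤ P + Q := Int.le_of_dvd (by linarith) h5
  have h7 : 0 < a₀ * (m - a₀) := mul_pos h0 hb0
  have h8 : m ^ 2 - (P + Q) ^ 2 ≤ 0 := by nlinarith
  have h9 : (p₁ * q₂ - p₂ * q₁) ^ 2 = 0 := by
    have : (p₁ * q₂ - p₂ * q₁) ^ 2 ≤ 0 := by
      rw [key]; exact mul_nonpos_of_nonneg_of_nonpos h7.le h8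
    exact le_antisymm this (sq_nonneg _)
  have h10 : p₁ * q₂ = p₂ * q₁ := by
    have := pow_eq_zero_iff (two_ne_zero) |>.mp h9
    linarith
  have h11 : a₀ * a₁ * ((m - a₀) * (m - a₂)) = a₀ * a₂ * ((m - a₀) * (m - a₁)) := by
    rw [← e1, ← e2, ← e3, ← e4, ← mul_pow, ← mul_pow, h10]
  have h12 : a₀ * (m - a₀) * (a₁ * (m - a₂)) = a₀ * (m - a₀) * (a₂ * (m - a₁)) := by
    linear_combination h11
  have h13 := mul_left_cancel₀ h7.ne' h12
  have h14 : m * a₁ = m * a₂ := by linear_combination h13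
  exact mul_left_cancel₀ hm.ne' h14


/-- the ratio `p / q` modulo `m`, as a residue in `[0, m)`. -/
def tval (m p q : ℕ) : ℕ := ((p : ZMod m) * (q : ZMod m)⁻¹).val

theorem tval_sq (m p q : ℕ) [NeZero m] (hq : Nat.Coprime q m) (h : (m : ℤ) ∣ (p : ℤ) ^ 2 - (q : ℤ) ^ 2) :
    (m : ℤ) ∣ ((tval m p q : ℤ) - 1) * ((tval m p q : ℤ) + 1) := by
  rw [← ZMod.intCast_zmod_eq_zero_iff_dvd]
  push_cast
  have h1 : ((tval m p q : ℕ) : ZMod m) = (p : ZMod m) * (q : ZMod m)⁻¹ := by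
    rw [tval, ZMod.natCast_zmod_val]
  have h2 : (q : ZMod m) * (q : ZMod m)⁻¹ = 1 := ZMod.coe_mul_inv_eq_one q hq
  have h3 : (p : ZMod m) ^ 2 = (q : ZMod m) ^ 2 := by
    have := (ZMod.intCast_zmod_eq_zero_iff_dvd _ m).mpr h
    push_cast at this
    exact sub_eq_zero.mp this
  rw [h1]
  have h4 : ((p : ZMod m) * (q : ZMod m)⁻¹ - 1) * ((p : ZMod m) * (q : ZMod m)⁻¹ + 1) =
      (p : ZMod m) ^ 2 * ((q : ZMod m)⁻¹) ^ 2 - 1 := by ring
  rw [h4, h3]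
  have h5 : (q : ZMod m) ^ 2 * ((q : ZMod m)⁻¹) ^ 2 = ((q : ZMod m) * (q : ZMod m)⁻¹) ^ 2 := by ring
  rw [h5, h2]
  ring

theorem tval_inj (m p₁ q₁ p₂ q₂ : ℕ) [NeZero m] (hq1 : Nat.Coprime q₁ m) (hq2 : Nat.Coprime q₂ m)
    (h : tval m p₁ q₁ = tval m p₂ q₂) : (m : ℤ) ∣ (p₁ : ℤ) * q₂ - p₂ * q₁ := by
  rw [← ZMod.intCast_zmod_eq_zero_iff_dvd]
  push_cast
  have h1 : (p₁ : ZMod m) * (q₁ : ZMod m)⁻¹ = (p₂ : ZMod m) * (q₂ : ZMod m)⁻¹ :=
    ZMod.val_injective m h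
  have u1 : (q₁ : ZMod m) * (q₁ : ZMod m)⁻¹ = 1 := ZMod.coe_mul_inv_eq_one q₁ hq1
  have u2 : (q₂ : ZMod m) * (q₂ : ZMod m)⁻¹ = 1 := ZMod.coe_mul_inv_eq_one q₂ hq2
  calc (p₁ : ZMod m) * q₂ - p₂ * q₁
      = (p₁ : ZMod m) * q₂ * (q₁ * (q₁ : ZMod m)⁻¹) - p₂ * q₁ * (q₂ * (q₂ : ZMod m)⁻¹) := by
        rw [u1, u2]; ring
    _ = q₁ * q₂ * ((p₁ : ZMod m) * (q₁ : ZMod m)⁻¹ - (p₂ : ZMod m) * (q₂ : ZMod m)⁻¹) := by ring
    _ = 0 := by rw [h1]; ring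

theorem class_card (m : ℕ) (hm : 0 < m) (C : Finset ℕ)
    (h1 : ∀ a ∈ C, 0 < a ∧ a < m ∧ Nat.Coprime a m)
    (h2 : ∀ a ∈ C, ∀ b ∈ C, IsSquare (a * b) ∧ IsSquare ((m - a) * (m - b))) :
    C.card ≤ 2 * m.divisors.card := by
  have : NeZero m := ⟨hm.ne'⟩
  rcases C.eq_empty_or_nonempty with rfl | ⟨a₀, ha₀⟩
  · simp
  have ex : ∀ a ∈ C, ∃ p q : ℕ, p ^ 2 = a₀ * a ∧ q ^ 2 = (m - a₀) * (m - a) := by
    intro a ha
    obtain ⟨⟨p, hp⟩, ⟨q, hq⟩⟩ := h2 a₀ ha₀ a ha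
    exact ⟨p, q, by rw [hp, sq], by rw [hq, sq]⟩
  choose! p q hpq using ex
  obtain ⟨h01, h02, h03⟩ := h1 a₀ ha₀
  have hcb : ∀ a ∈ C, Nat.Coprime (m - a) m := by
    intro a ha
    obtain ⟨_, u2, u3⟩ := h1 a ha
    exact (Nat.coprime_self_sub_left u2.le).mpr u3
  have hcq : ∀ a ∈ C, Nat.Coprime (q a) m := by
    intro a ha
    have : Nat.Coprime ((q a) ^ 2) m := by
      rw [(hpq a ha).2]
      exact Nat.Coprime.mul_left (hcb a₀ ha₀) (hcb a ha)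
    exact (Nat.coprime_pow_left_iff (by norm_num) _ _).mp this
  have hsub : ∀ a ∈ C, ((m - a : ℕ) : ℤ) = (m : ℤ) - a := by
    intro a ha
    exact Nat.cast_sub (h1 a ha).2.1.le
  have hdiff : ∀ a ∈ C, (m : ℤ) ∣ (p a : ℤ) ^ 2 - (q a : ℤ) ^ 2 := by
    intro a ha
    have e1 : (p a : ℤ) ^ 2 = a₀ * a := by exact_mod_cast (hpq a ha).1
    have e2 : (q a : ℤ) ^ 2 = ((m : ℤ) - a₀) * ((m : ℤ) - a) := by
      rw [← hsub a₀ ha₀, ← hsub a ha]
      exact_mod_cast (hpq a ha).2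
    rw [e1, e2]
    exact ⟨(a₀ : ℤ) + a - m, by ring⟩
  let T : ℕ → ℕ := fun a => tval m (p a) (q a)
  let φ : ℕ → ℕ × Bool := fun a => (Int.gcd ((T a : ℤ) - 1) m, decide (2 * T a < m))
  have hmaps : ∀ a ∈ C, φ a ∈ m.divisors ×ˢ (Finset.univ : Finset Bool) := by
    intro a _
    rw [Finset.mem_product]
    refine ⟨?_, Finset.mem_univ _⟩
    rw [Nat.mem_divisors]
    refine ⟨?_, hm.ne'⟩
    have := Int.gcd_dvd_right ((T a : ℤ) - 1) m
    exact_mod_cast this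
  have hinj : Set.InjOn φ (C : Set ℕ) := by
    intro a ha b hb hab
    rw [Finset.mem_coe] at ha hb
    have g1 : Int.gcd ((T a : ℤ) - 1) m = Int.gcd ((T b : ℤ) - 1) m := congrArg Prod.fst hab
    have g2 : decide (2 * T a < m) = decide (2 * T b < m) := congrArg Prod.snd hab
    have hlt : ∀ a, T a < m := fun a => ZMod.val_lt _
    have g3 := dvd_two_mul_sub m (T a) (T b) (by exact_mod_cast hm)
      (tval_sq m (p a) (q a) (hcq a ha) (hdiff a ha))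
      (tval_sq m (p b) (q b) (hcq b hb) (hdiff b hb)) g1
    have hTT : T a = T b := by
      have l1 := hlt a
      have l2 := hlt b
      rw [decide_eq_decide] at g2
      obtain ⟨k, hk⟩ := g3
      have k1 : -2 < k := by
        by_contra hcon
        push Not at hcon
        have : (m : ℤ) * k ≤ (m : ℤ) * (-2) := mul_le_mul_of_nonneg_left hcon (by positivity)
        omega
      have k2 : k < 2 := by
        by_contra hcon
        push Not at hcon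
        have : (m : ℤ) * 2 ≤ (m : ℤ) * k := mul_le_mul_of_nonneg_left hcon (by positivity)
        omega
      have : k = -1 ∨ k = 0 ∨ k = 1 := by omega
      rcases this with rfl | rfl | rfl
      · exfalso
        have : ¬ (2 * T b < m) := by omega
        have : (2 * T a < m) := by omega
        tauto
      · omega
      · exfalso
        have : ¬ (2 * T a < m) := by omega
        have : (2 * T b < m) := by omega
        tauto
    have g4 := tval_inj m (p a) (q a) (p b) (q b) (hcq a ha) (hcq b hb) hTT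
    have r := rigid m a₀ a b (p a) (p b) (q a) (q b) (by exact_mod_cast hm)
      (by exact_mod_cast h01) (by exact_mod_cast h02) (by exact_mod_cast (h1 a ha).1)
      (by exact_mod_cast (h1 b hb).1) (Nat.isCoprime_iff_coprime.mpr h03)
      (by positivity) (by positivity) (by positivity) (by positivity)
      (by exact_mod_cast (hpq a ha).1) (by exact_mod_cast (hpq b hb).1)
      (by rw [← hsub a₀ ha₀, ← hsub a ha]; exact_mod_cast (hpq a ha).2)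
      (by rw [← hsub a₀ ha₀, ← hsub b hb]; exact_mod_cast (hpq b hb).2) g4
    exact_mod_cast r
  calc C.card ≤ (m.divisors ×ˢ (Finset.univ : Finset Bool)).card :=
        Finset.card_le_card_of_injOn φ hmaps hinj
    _ = 2 * m.divisors.card := by
        rw [Finset.card_product, Finset.card_univ, Fintype.card_bool, mul_comm]

end Pool.Agent.PWF
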