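import Mathlib
import Pool.Agent.PWF.ClassCard
import Pool.Agent.PWF.B1

set_option autoImplicit false

namespace Pool.Agent.PWF

open Finset

/-- the data of a tuple of the box -/
theorem B2_data {e f m U W V Y : ℕ} (he : 0 < e) (hf : 0 < f) {t : ℕ × ℕ × ℕ × ℕ}
    (ht : t ∈ Box e f m U W V Y) :
    (0 < e * t.1 ^ 3 * t.2.1 ^ 2 ∧ 0 < f * t.2.2.1 ^ 3 * t.2.2.2 ^ 2) ∧
      e * t.1 ^ 3 * t.2.1 ^ 2 + f * t.2.2.1 ^ 3 * t.2.2.2 ^ 2 = m ∧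
      Nat.Coprime (e * t.1 ^ 3 * t.2.1 ^ 2) m ∧
      (U ≤ t.1 ∧ t.1 < 2 * U) ∧ (V ≤ t.2.2.1 ∧ t.2.2.1 < 2 * V) ∧ 0 < t.1 := by
  obtain ⟨u, x, v, y⟩ := t
  obtain ⟨h1, h2, h3, h4, h5⟩ := (mem_Box e f m U W V Y u x v y).1 ht
  obtain ⟨⟨k1, k2, k3, k4⟩, k5, k6, k7, k8⟩ := (mem_Tup e f m u x v y he hf).1 h1
  have c1 : Nat.Coprime ((e * u * x) ^ 3) ((f * v * y) ^ 3) := Nat.Coprime.pow 3 3 k6
  have d1 : e * u ^ 3 * x ^ 2 ∣ (e * u * x) ^ 3 := ⟨e ^ 2 * x, by ring⟩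
  have d2 : f * v ^ 3 * y ^ 2 ∣ (f * v * y) ^ 3 := ⟨f ^ 2 * y, by ring⟩
  have c2 : Nat.Coprime (e * u ^ 3 * x ^ 2) (f * v ^ 3 * y ^ 2) :=
    Nat.Coprime.coprime_dvd_left d1 (Nat.Coprime.coprime_dvd_right d2 c1)
  refine ⟨⟨by positivity, by positivity⟩, k5, ?_, h2, h4, k1⟩
  show Nat.Coprime (e * u ^ 3 * x ^ 2) m
  rw [← k5]
  exact Nat.coprime_self_add_right.2 c2

/-- For fixed `(u, v)` the numbers `a = e u³ x²` of the tuples `(u, x, v, y)` satisfy the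
hypotheses of `class_card m`: `0 < a < m`, `a` is coprime to `m` (as it is coprime to
`m - a = f v³ y²`), `a a' = (e u³ x x')²` and `(m - a) (m - a') = (f v³ y y')²`. The tuple is
determined by `a` (`x` by `a`, then `Box_eq_of_ux`). So each of the `U * V` fibres of
`t ↦ (t.1, t.2.2.1)` has at most `2 * m.divisors.card ≤ 2 * D` elements
(`card_le_mul_card_image_of_maps_to`). If `m = 0` the box is empty. -/
theorem card_Box_le_UV (e f m U W V Y D : ℕ) (he : 0 < e) (hf : 0 < f) (hD : DivB m D) :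
    (Box e f m U W V Y).card ≤ 2 * D * (U * V) := by
  classical
  rcases (Box e f m U W V Y).eq_empty_or_nonempty with h0 | ⟨t0, ht0⟩
  · rw [h0, Finset.card_empty]
    exact Nat.zero_le _
  have hm : 1 ≤ m := by
    obtain ⟨⟨h1, h2⟩, h3, -⟩ := B2_data he hf ht0
    omega
  have hmap : ∀ t ∈ Box e f m U W V Y,
      (fun t : ℕ × ℕ × ℕ × ℕ => (t.1, t.2.2.1)) t ∈ Ico U (2 * U) ×ˢ Ico V (2 * V) := by
    intro t ht
    obtain ⟨-, -, -, h1, h2, -⟩ := B2_data he hf ht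
    exact Finset.mem_product.2 ⟨Finset.mem_Ico.2 h1, Finset.mem_Ico.2 h2⟩
  have hcard : (Ico U (2 * U) ×ˢ Ico V (2 * V)).card = U * V := by
    rw [Finset.card_product, Nat.card_Ico, Nat.card_Ico]
    congr 1 <;> omega
  rw [← hcard]
  refine Finset.card_le_mul_card_image_of_maps_to hmap (2 * D) ?_
  rintro ⟨u0, v0⟩ _
  set F := (Box e f m U W V Y).filter (fun t => (t.1, t.2.2.1) = (u0, v0)) with hF
  have hFm : ∀ t ∈ F, t ∈ Box e f m U W V Y ∧ t.1 = u0 ∧ t.2.2.1 = v0 := by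
    intro t ht
    obtain ⟨h1, h2⟩ := Finset.mem_filter.1 ht
    exact ⟨h1, (Prod.mk.injEq _ _ _ _ ▸ h2).1, (Prod.mk.injEq _ _ _ _ ▸ h2).2⟩
  have hinj : Set.InjOn (fun t : ℕ × ℕ × ℕ × ℕ => e * t.1 ^ 3 * t.2.1 ^ 2) (F : Set _) := by
    intro t ht t' ht' h
    obtain ⟨h1, h2, -⟩ := hFm t (Finset.mem_coe.1 ht)
    obtain ⟨h3, h4, -⟩ := hFm t' (Finset.mem_coe.1 ht')
    have hu : t.1 = t'.1 := h2.trans h4.symm
    have hupos := (B2_data he hf h1).2.2.2.2.2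
    have h5 : e * t.1 ^ 3 * t.2.1 ^ 2 = e * t'.1 ^ 3 * t'.2.1 ^ 2 := h
    rw [← hu] at h5
    have h6 : t.2.1 ^ 2 = t'.2.1 ^ 2 := Nat.eq_of_mul_eq_mul_left (by positivity) h5
    exact Box_eq_of_ux e f m U W V Y he hf t t' h1 h3 hu (Nat.pow_left_injective two_ne_zero h6)
  rw [← Finset.card_image_of_injOn hinj]
  refine (class_card m hm _ ?_ ?_).trans (Nat.mul_le_mul_left 2 (hD.2 m hm le_rfl))
  · intro a ha
    obtain ⟨t, ht, rfl⟩ := Finset.mem_image.1 ha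
    obtain ⟨⟨k1, k2⟩, k3, k4, -⟩ := B2_data he hf (hFm t ht).1
    exact ⟨k1, by omega, k4⟩
  · intro a ha b hb
    obtain ⟨t, ht, rfl⟩ := Finset.mem_image.1 ha
    obtain ⟨t', ht', rfl⟩ := Finset.mem_image.1 hb
    obtain ⟨h1, h2, h3⟩ := hFm t ht
    obtain ⟨h4, h5, h6⟩ := hFm t' ht'
    obtain ⟨⟨k1, k2⟩, k3, -⟩ := B2_data he hf h1
    obtain ⟨⟨l1, l2⟩, l3, -⟩ := B2_data he hf h4
    have e1 : m - e * t.1 ^ 3 * t.2.1 ^ 2 = f * t.2.2.1 ^ 3 * t.2.2.2 ^ 2 := by omega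
    have e2 : m - e * t'.1 ^ 3 * t'.2.1 ^ 2 = f * t'.2.2.1 ^ 3 * t'.2.2.2 ^ 2 := by omega
    refine ⟨⟨e * u0 ^ 3 * t.2.1 * t'.2.1, ?_⟩, ⟨f * v0 ^ 3 * t.2.2.2 * t'.2.2.2, ?_⟩⟩
    · show e * t.1 ^ 3 * t.2.1 ^ 2 * (e * t'.1 ^ 3 * t'.2.1 ^ 2) = _
      rw [h2, h5]
      ring
    · show (m - e * t.1 ^ 3 * t.2.1 ^ 2) * (m - e * t'.1 ^ 3 * t'.2.1 ^ 2) = _
      rw [e1, e2, h3, h6]
      ring

end Pool.Agent.PWF
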