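import Mathlib
import Pool.Agent.PWF.ClassCard
import Pool.Agent.PWF.Def

set_option autoImplicit false

namespace Pool.Agent.PWF

open Finset

/-- If the set is nonempty take `z₀` in it, and for `z` in it let `t` be an integer with
`t * z₀ ≡ z` modulo `q` (`z₀` is invertible modulo `q`), `0 ≤ t < q`. Then `t² ≡ 1` modulo `q`
(as `A`, `z₀` are invertible), and `z` is determined by `t`. By `dvd_two_mul_sub` two such `t`
with the same `gcd (t - 1, q)` satisfy `q ∣ 2 (t₁ - t₂)`, `|t₁ - t₂| < q`, so for each of the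
divisors of `q` there are at most `2` values of `t` (compare the end of the proof of `class_card`:
the key `(gcd (t - 1) q, decide (2 * t < q))` is injective). -/
theorem card_sq_roots (q : ℕ) (hq : 0 < q) (A C : ℤ) (hA : IsCoprime A (q : ℤ)) :
    ((Cop q).filter (fun z : ℕ => (q : ℤ) ∣ A * (z : ℤ) ^ 2 - C)).card ≤ 2 * q.divisors.card := by
  have : NeZero q := ⟨hq.ne'⟩
  set S := (Cop q).filter (fun z : ℕ => (q : ℤ) ∣ A * (z : ℤ) ^ 2 - C) with hS
  rcases S.eq_empty_or_nonempty with h0 | ⟨z₀, hz₀⟩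
  · rw [h0, Finset.card_empty]
    exact Nat.zero_le _
  have hmem : ∀ z ∈ S, (z < q ∧ Nat.Coprime z q) ∧ (q : ℤ) ∣ A * (z : ℤ) ^ 2 - C := by
    intro z hz
    obtain ⟨h1, h2⟩ := Finset.mem_filter.1 hz
    exact ⟨(mem_Cop q z).1 h1, h2⟩
  obtain ⟨⟨h01, h02⟩, h03⟩ := hmem z₀ hz₀
  have hdiff : ∀ z ∈ S, (q : ℤ) ∣ (z : ℤ) ^ 2 - (z₀ : ℤ) ^ 2 := by
    intro z hz
    obtain ⟨-, h3⟩ := hmem z hz
    have h4 : (q : ℤ) ∣ A * ((z : ℤ) ^ 2 - (z₀ : ℤ) ^ 2) := by
      have h5 := dvd_sub h3 h03
      have h6 : A * (z : ℤ) ^ 2 - C - (A * (z₀ : ℤ) ^ 2 - C) =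
          A * ((z : ℤ) ^ 2 - (z₀ : ℤ) ^ 2) := by ring
      rwa [h6] at h5
    exact hA.symm.dvd_of_dvd_mul_left h4
  let T : ℕ → ℕ := fun z => tval q z z₀
  let φ : ℕ → ℕ × Bool := fun z => (Int.gcd ((T z : ℤ) - 1) q, decide (2 * T z < q))
  have hmaps : ∀ z ∈ S, φ z ∈ q.divisors ×ˢ (Finset.univ : Finset Bool) := by
    intro z _
    rw [Finset.mem_product]
    refine ⟨?_, Finset.mem_univ _⟩
    rw [Nat.mem_divisors]
    refine ⟨?_, hq.ne'⟩
    have := Int.gcd_dvd_right ((T z : ℤ) - 1) q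
    exact_mod_cast this
  have hinj : Set.InjOn φ (S : Set ℕ) := by
    intro a ha b hb hab
    rw [Finset.mem_coe] at ha hb
    have g1 : Int.gcd ((T a : ℤ) - 1) q = Int.gcd ((T b : ℤ) - 1) q := congrArg Prod.fst hab
    have g2 : decide (2 * T a < q) = decide (2 * T b < q) := congrArg Prod.snd hab
    have hlt : ∀ a, T a < q := fun a => ZMod.val_lt _
    have g3 := dvd_two_mul_sub q (T a) (T b) (by exact_mod_cast hq)
      (tval_sq q a z₀ h02 (hdiff a ha)) (tval_sq q b z₀ h02 (hdiff b hb)) g1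
    have hTT : T a = T b := by
      have l1 := hlt a
      have l2 := hlt b
      rw [decide_eq_decide] at g2
      obtain ⟨k, hk⟩ := g3
      have k1 : -2 < k := by
        by_contra hcon
        push Not at hcon
        have : (q : ℤ) * k ≤ (q : ℤ) * (-2) := mul_le_mul_of_nonneg_left hcon (by positivity)
        omega
      have k2 : k < 2 := by
        by_contra hcon
        push Not at hcon
        have : (q : ℤ) * 2 ≤ (q : ℤ) * k := mul_le_mul_of_nonneg_left hcon (by positivity)
        omega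
      have : k = -1 ∨ k = 0 ∨ k = 1 := by omega
      rcases this with rfl | rfl | rfl
      · exfalso
        have : ¬ (2 * T b < q) := by omega
        have : (2 * T a < q) := by omega
        tauto
      · omega
      · exfalso
        have : ¬ (2 * T a < q) := by omega
        have : (2 * T b < q) := by omega
        tauto
    have g4 := tval_inj q a z₀ b z₀ h02 h02 hTT
    have g5 : (q : ℤ) ∣ ((a : ℤ) - b) * z₀ := by
      have h6 : (a : ℤ) * z₀ - b * z₀ = ((a : ℤ) - b) * z₀ := by ring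
      rwa [h6] at g4
    have g6 : (q : ℤ) ∣ (a : ℤ) - b :=
      (Nat.isCoprime_iff_coprime.mpr h02).symm.dvd_of_dvd_mul_right g5
    have la := (hmem a ha).1.1
    have lb := (hmem b hb).1.1
    have g7 : (a : ℤ) - b = 0 := by
      apply Int.eq_zero_of_abs_lt_dvd g6
      rw [abs_lt]
      constructor <;> omega
    omega
  calc S.card ≤ (q.divisors ×ˢ (Finset.univ : Finset Bool)).card :=
        Finset.card_le_card_of_injOn φ hmaps hinj
    _ = 2 * q.divisors.card := by
        rw [Finset.card_product, Finset.card_univ, Fintype.card_bool, mul_comm]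

end Pool.Agent.PWF
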