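import Mathlib
import Pool.Agent.PWF.Def

set_option autoImplicit false

namespace Pool.Agent.PWF

open Finset

/-- if `a ∣ n`, `b ∣ n` and `gcd a b ∣ k` then `a * b ∣ k * n` -/
private theorem C2_mul_dvd {a b n k : ℤ} (ha : a ∣ n) (hb : b ∣ n) (hk : (Int.gcd a b : ℤ) ∣ k) : a * b ∣ k * n := by
  have h1 : a * b ∣ (Int.gcd a b : ℤ) * n := by
    rw [Int.gcd_eq_gcd_ab, add_mul]
    apply dvd_add
    · rw [mul_assoc, mul_comm (Int.gcdA a b) n, ← mul_assoc]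
      exact Dvd.dvd.mul_right (mul_dvd_mul_left a hb) _
    · rw [mul_comm a b, mul_assoc, mul_comm (Int.gcdB a b) n, ← mul_assoc]
      exact Dvd.dvd.mul_right (mul_dvd_mul_left b ha) _
  exact h1.trans (mul_dvd_mul_right hk n)

private theorem C2_quot_dvd {q x y : ℤ} (hq : 0 < q) (h : q ∣ x * y) : q / (Int.gcd x q : ℤ) ∣ y := by
  have hg : (0 : ℤ) < Int.gcd x q := by exact_mod_cast Int.gcd_pos_of_ne_zero_right x hq.ne'
  have hd1 : (Int.gcd x q : ℤ) ∣ q := Int.gcd_dvd_right ..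
  have hd2 : (Int.gcd x q : ℤ) ∣ x := Int.gcd_dvd_left ..
  have hco : IsCoprime (x / (Int.gcd x q : ℤ)) (q / (Int.gcd x q : ℤ)) := by
    rw [Int.isCoprime_iff_gcd_eq_one]
    exact Int.gcd_ediv_gcd_ediv_gcd (by exact_mod_cast hg)
  have e1 : (Int.gcd x q : ℤ) * (q / (Int.gcd x q : ℤ)) = q := Int.mul_ediv_cancel' hd1
  have e2 : (Int.gcd x q : ℤ) * (x / (Int.gcd x q : ℤ)) = x := Int.mul_ediv_cancel' hd2
  have h2 : q / (Int.gcd x q : ℤ) ∣ x / (Int.gcd x q : ℤ) * y := by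
    have h3 : (Int.gcd x q : ℤ) * (q / (Int.gcd x q : ℤ)) ∣
        (Int.gcd x q : ℤ) * (x / (Int.gcd x q : ℤ) * y) := by
      rw [← mul_assoc, e1, e2]
      exact h
    exact Int.dvd_of_mul_dvd_mul_left hg.ne' h3
  exact hco.symm.dvd_of_dvd_mul_left h2

/-- the last step -/
private theorem C2_key {q z₀ z₁ z z' : ℤ} (hq : 0 < q) (h0 : IsCoprime z₀ q)
    (h1 : q ∣ (z₁ - z₀) * (z₁ ^ 2 + z₁ * z₀ + z₀ ^ 2)) (h2 : q ∣ (z - z₀) * (z ^ 2 + z * z₀ + z₀ ^ 2))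
    (h3 : q ∣ (z' - z₀) * (z' ^ 2 + z' * z₀ + z₀ ^ 2)) (d M d' : ℤ) (hd1 : d = Int.gcd (z₁ - z₀) q)
    (hd2 : d = Int.gcd (z - z₀) q) (hd3 : d = Int.gcd (z' - z₀) q) (hM : M = q / d)
    (he2 : d' = Int.gcd (z - z₁) M) (he3 : d' = Int.gcd (z' - z₁) M) : q ∣ 9 * (z - z') := by
  have hdpos : 0 < d := by rw [hd1]; exact_mod_cast Int.gcd_pos_of_ne_zero_right _ hq.ne'
  have hdq : d ∣ q := by rw [hd1]; exact Int.gcd_dvd_right ..
  have hqM : q = d * M := by rw [hM, Int.mul_ediv_cancel' hdq]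
  have hMpos : 0 < M := by
    by_contra h
    push Not at h
    have : d * M ≤ 0 := mul_nonpos_of_nonneg_of_nonpos hdpos.le h
    omega
  have hMq : M ∣ q := ⟨d, by rw [hqM]; ring⟩
  have m1 : M ∣ z₁ ^ 2 + z₁ * z₀ + z₀ ^ 2 := by
    rw [hM, hd1]; exact C2_quot_dvd hq h1
  have m2 : M ∣ z ^ 2 + z * z₀ + z₀ ^ 2 := by
    rw [hM, hd2]; exact C2_quot_dvd hq h2
  have m3 : M ∣ z' ^ 2 + z' * z₀ + z₀ ^ 2 := by
    rw [hM, hd3]; exact C2_quot_dvd hq h3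
  have n2 : M ∣ (z - z₁) * (z + z₁ + z₀) := by
    have e : (z - z₁) * (z + z₁ + z₀) = (z ^ 2 + z * z₀ + z₀ ^ 2) - (z₁ ^ 2 + z₁ * z₀ + z₀ ^ 2) := by ring
    rw [e]; exact dvd_sub m2 m1
  have n3 : M ∣ (z' - z₁) * (z' + z₁ + z₀) := by
    have e : (z' - z₁) * (z' + z₁ + z₀) = (z' ^ 2 + z' * z₀ + z₀ ^ 2) - (z₁ ^ 2 + z₁ * z₀ + z₀ ^ 2) := by ring
    rw [e]; exact dvd_sub m3 m1
  have hd'pos : 0 < d' := by rw [he2]; exact_mod_cast Int.gcd_pos_of_ne_zero_right _ hMpos.ne'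
  have hd'M : d' ∣ M := by rw [he2]; exact Int.gcd_dvd_right ..
  have k2 : M / d' ∣ z + z₁ + z₀ := by rw [he2]; exact C2_quot_dvd hMpos n2
  have k3 : M / d' ∣ z' + z₁ + z₀ := by rw [he3]; exact C2_quot_dvd hMpos n3
  have hMd' : M = d' * (M / d') := (Int.mul_ediv_cancel' hd'M).symm
  -- differences
  have a1 : d' ∣ z - z' := by
    have u1 : d' ∣ z - z₁ := by rw [he2]; exact Int.gcd_dvd_left ..
    have u2 : d' ∣ z' - z₁ := by rw [he3]; exact Int.gcd_dvd_left ..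
    have e : z - z' = (z - z₁) - (z' - z₁) := by ring
    rw [e]; exact dvd_sub u1 u2
  have a2 : M / d' ∣ z - z' := by
    have e : z - z' = (z + z₁ + z₀) - (z' + z₁ + z₀) := by ring
    rw [e]; exact dvd_sub k2 k3
  have a3 : d ∣ z - z' := by
    have u1 : d ∣ z - z₀ := by rw [hd2]; exact Int.gcd_dvd_left ..
    have u2 : d ∣ z' - z₀ := by rw [hd3]; exact Int.gcd_dvd_left ..
    have e : z - z' = (z - z₀) - (z' - z₀) := by ring
    rw [e]; exact dvd_sub u1 u2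
  have cop3 : ∀ c : ℤ, c ∣ q → c ∣ 3 * z₀ ^ 2 → c ∣ 3 := by
    intro c hc1 hc2
    have : IsCoprime c (z₀ ^ 2) := (h0.symm.of_isCoprime_of_dvd_left hc1).pow_right
    exact this.dvd_of_dvd_mul_right hc2
  have b1 : (Int.gcd d' (M / d') : ℤ) ∣ 3 := by
    have c1 : (Int.gcd d' (M / d') : ℤ) ∣ d' := Int.gcd_dvd_left ..
    have c2 : (Int.gcd d' (M / d') : ℤ) ∣ M / d' := Int.gcd_dvd_right ..
    apply cop3 _ ((c1.trans hd'M).trans hMq)
    have u1 : (Int.gcd d' (M / d') : ℤ) ∣ z - z₁ := c1.trans (by rw [he2]; exact Int.gcd_dvd_left ..)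
    have u2 : (Int.gcd d' (M / d') : ℤ) ∣ z + z₁ + z₀ := c2.trans k2
    have u3 : (Int.gcd d' (M / d') : ℤ) ∣ 2 * z₁ + z₀ := by
      have e : 2 * z₁ + z₀ = (z + z₁ + z₀) - (z - z₁) := by ring
      rw [e]; exact dvd_sub u2 u1
    have u4 : (Int.gcd d' (M / d') : ℤ) ∣ z₁ ^ 2 + z₁ * z₀ + z₀ ^ 2 := (c1.trans hd'M).trans m1
    have e : 3 * z₀ ^ 2 = 4 * (z₁ ^ 2 + z₁ * z₀ + z₀ ^ 2) - (2 * z₁ + z₀) * (2 * z₁ + z₀) := by ring
    rw [e]
    exact dvd_sub (Dvd.dvd.mul_left u4 _) (Dvd.dvd.mul_left u3 _)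
  have b2 : M ∣ 3 * (z - z') := by
    have := C2_mul_dvd a1 a2 b1
    rwa [← hMd'] at this
  have b3 : (Int.gcd d M : ℤ) ∣ 3 := by
    have c1 : (Int.gcd d M : ℤ) ∣ d := Int.gcd_dvd_left ..
    have c2 : (Int.gcd d M : ℤ) ∣ M := Int.gcd_dvd_right ..
    apply cop3 _ (c1.trans hdq)
    have u1 : (Int.gcd d M : ℤ) ∣ z₁ - z₀ := c1.trans (by rw [hd1]; exact Int.gcd_dvd_left ..)
    have u4 : (Int.gcd d M : ℤ) ∣ z₁ ^ 2 + z₁ * z₀ + z₀ ^ 2 := c2.trans m1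
    have e : 3 * z₀ ^ 2 = (z₁ ^ 2 + z₁ * z₀ + z₀ ^ 2) - (z₁ - z₀) * (z₁ + 2 * z₀) := by ring
    rw [e]
    exact dvd_sub u4 (Dvd.dvd.mul_right u1 _)
  have b4 := C2_mul_dvd (Dvd.dvd.mul_left a3 3) b2 b3
  rw [← hqM] at b4
  have e : 9 * (z - z') = 3 * (3 * (z - z')) := by ring
  rw [e]
  exact b4

/-- a set of numbers below `q` which are congruent modulo `q / gcd (9, q)` has at most `9` elements -/
private theorem C2_nine (q : ℕ) (hq : 0 < q) (T : Finset ℕ) (h1 : ∀ z ∈ T, z < q)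
    (h2 : ∀ z ∈ T, ∀ z' ∈ T, (q : ℤ) ∣ 9 * ((z : ℤ) - z')) : T.card ≤ 9 := by
  rw [← Finset.card_range 9]
  apply Finset.card_le_card_of_injOn (fun z => 9 * z / q)
  · intro z hz
    rw [Finset.mem_coe, Finset.mem_range]
    have := h1 z hz
    exact Nat.div_lt_of_lt_mul (by nlinarith)
  · intro z hz z' hz' heq
    simp only at heq
    have k := h2 z hz z' hz'
    have e1 := Nat.div_add_mod (9 * z) q
    have e2 := Nat.div_add_mod (9 * z') q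
    have l1 := Nat.mod_lt (9 * z) hq
    have l2 := Nat.mod_lt (9 * z') hq
    rw [heq] at e1
    have habs : |9 * ((z : ℤ) - z')| < q := by
      rw [abs_lt]
      constructor <;> omega
    have := Int.eq_zero_of_abs_lt_dvd k habs
    have h3 : (z : ℤ) = z' := by linarith
    exact_mod_cast h3

theorem card_cube_roots (q : ℕ) (hq : 0 < q) (A C : ℤ) (hA : IsCoprime A (q : ℤ)) :
    ((Cop q).filter (fun z : ℕ => (q : ℤ) ∣ A * (z : ℤ) ^ 3 - C)).card ≤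
      9 * q.divisors.card ^ 2 := by
  classical
  obtain ⟨S, hS⟩ : ∃ S, S = (Cop q).filter (fun z : ℕ => (q : ℤ) ∣ A * (z : ℤ) ^ 3 - C) := ⟨_, rfl⟩
  rw [← hS]
  rcases S.eq_empty_or_nonempty with he | ⟨z₀, hz₀⟩
  · rw [he, Finset.card_empty]; exact Nat.zero_le _
  have hmem : ∀ z, z ∈ S → (z < q ∧ Nat.Coprime z q) ∧ (q : ℤ) ∣ A * (z : ℤ) ^ 3 - C := by
    intro z hz
    rw [hS, Finset.mem_filter, mem_Cop] at hz
    exact hz
  have hq' : (0 : ℤ) < q := by exact_mod_cast hq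
  have h0 : IsCoprime (z₀ : ℤ) (q : ℤ) := Nat.isCoprime_iff_coprime.2 (hmem z₀ hz₀).1.2
  have hcube : ∀ z ∈ S, (q : ℤ) ∣ ((z : ℤ) - z₀) * ((z : ℤ) ^ 2 + z * z₀ + (z₀ : ℤ) ^ 2) := by
    intro z hz
    have h1 : (q : ℤ) ∣ A * ((z : ℤ) ^ 3 - (z₀ : ℤ) ^ 3) := by
      have e : A * ((z : ℤ) ^ 3 - (z₀ : ℤ) ^ 3) = (A * (z : ℤ) ^ 3 - C) - (A * (z₀ : ℤ) ^ 3 - C) := by ring
      rw [e]
      exact dvd_sub (hmem z hz).2 (hmem z₀ hz₀).2
    have h2 := hA.symm.dvd_of_dvd_mul_left h1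
    have e : ((z : ℤ) - z₀) * ((z : ℤ) ^ 2 + z * z₀ + (z₀ : ℤ) ^ 2) = (z : ℤ) ^ 3 - (z₀ : ℤ) ^ 3 := by ring
    rw [e]; exact h2
  let dd : ℕ → ℕ := fun z => Int.gcd ((z : ℤ) - z₀) q
  have hrep : ∀ d : ℕ, ∃ z₁ : ℕ, (∃ z ∈ S, dd z = d) → z₁ ∈ S ∧ dd z₁ = d := by
    intro d
    by_cases h : ∃ z ∈ S, dd z = d
    · obtain ⟨z, hz, hzd⟩ := h
      exact ⟨z, fun _ => ⟨hz, hzd⟩⟩
    · exact ⟨0, fun h' => absurd h' h⟩
  choose rep hrep using hrep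
  let de : ℕ → ℕ := fun z => Int.gcd ((z : ℤ) - rep (dd z)) ((q : ℤ) / (dd z : ℤ))
  have hb : S.card ≤ 9 * (S.image (fun z => (dd z, de z))).card := by
    apply Finset.card_le_mul_card_image
    intro p hp
    apply C2_nine q hq
    · intro z hz
      exact (hmem z (Finset.mem_filter.1 hz).1).1.1
    · intro z hz z' hz'
      obtain ⟨hz1, hz2⟩ := Finset.mem_filter.1 hz
      obtain ⟨hz1', hz2'⟩ := Finset.mem_filter.1 hz'
      have e1 : dd z = p.1 := congrArg Prod.fst hz2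
      have e2 : de z = p.2 := congrArg Prod.snd hz2
      have e1' : dd z' = p.1 := congrArg Prod.fst hz2'
      have e2' : de z' = p.2 := congrArg Prod.snd hz2'
      obtain ⟨r1, r2⟩ := hrep p.1 ⟨z, hz1, e1⟩
      refine C2_key (z₀ := z₀) (z₁ := rep p.1) hq' h0 (hcube _ r1) (hcube _ hz1) (hcube _ hz1') (p.1 : ℤ)
        ((q : ℤ) / (p.1 : ℤ)) (p.2 : ℤ) ?_ ?_ ?_ rfl ?_ ?_
      · exact congrArg (fun n : ℕ => (n : ℤ)) r2.symm
      · exact congrArg (fun n : ℕ => (n : ℤ)) e1.symm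
      · exact congrArg (fun n : ℕ => (n : ℤ)) e1'.symm
      · have h := e2.symm
        simp only [de, e1] at h
        exact_mod_cast h
      · have h := e2'.symm
        simp only [de, e1'] at h
        exact_mod_cast h
  have himg : S.image (fun z => (dd z, de z)) ⊆ q.divisors ×ˢ q.divisors := by
    intro p hp
    obtain ⟨z, hz, rfl⟩ := Finset.mem_image.1 hp
    have h1 : dd z ∣ q := by
      have : ((dd z : ℕ) : ℤ) ∣ (q : ℤ) := Int.gcd_dvd_right ..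
      exact_mod_cast this
    have h2 : de z ∣ q := by
      have h3 : ((de z : ℕ) : ℤ) ∣ (q : ℤ) / (dd z : ℤ) := Int.gcd_dvd_right ..
      have h4 : (q : ℤ) / (dd z : ℤ) ∣ (q : ℤ) := Int.ediv_dvd_of_dvd (by exact_mod_cast h1)
      exact_mod_cast h3.trans h4
    rw [Finset.mem_product, Nat.mem_divisors, Nat.mem_divisors]
    exact ⟨⟨h1, hq.ne'⟩, ⟨h2, hq.ne'⟩⟩
  calc S.card ≤ 9 * (S.image (fun z => (dd z, de z))).card := hb
    _ ≤ 9 * (q.divisors ×ˢ q.divisors).card := Nat.mul_le_mul_left _ (Finset.card_le_card himg)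
    _ = 9 * q.divisors.card ^ 2 := by rw [Finset.card_product, sq]

end Pool.Agent.PWF
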