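import Mathlib
import Pool.Agent.PWF.Def

set_option autoImplicit false

namespace Pool.Agent.PWF

open Finset

/-- Pigeonhole on the `(H + 1)² > q` pairs `(a, b)`, `0 ≤ a, b ≤ H = Nat.sqrt q`, and the residue
of `b - s a` modulo `q`: the difference of two pairs with the same residue. -/
theorem exists_Vec (q s : ℕ) (hq : 0 < q) : (Vec q s (Nat.sqrt q)).Nonempty := by
  classical
  have hq' : (0 : ℤ) < q := by exact_mod_cast hq
  set H := Nat.sqrt q with hH
  have hlt : q < (H + 1) * (H + 1) := Nat.lt_succ_sqrt q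
  obtain ⟨p, hp, p', hp', hne, heq⟩ := exists_ne_map_eq_of_card_lt_of_maps_to
    (s := range (H + 1) ×ˢ range (H + 1)) (t := Ico (0 : ℤ) q)
    (f := fun p : ℕ × ℕ => ((p.2 : ℤ) - s * p.1) % q)
    (by
      rw [card_product, card_range, Int.card_Ico, sub_zero, Int.toNat_natCast]
      exact hlt)
    (by
      intro p _
      rw [mem_coe, mem_Ico]
      exact ⟨Int.emod_nonneg _ hq'.ne', Int.emod_lt_of_pos _ hq'⟩)
  rw [mem_product, mem_range, mem_range] at hp hp'
  refine ⟨((p.1 : ℤ) - p'.1, (p.2 : ℤ) - p'.2), ?_⟩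
  rw [mem_Vec]
  refine ⟨⟨⟨by omega, by omega⟩, ⟨by omega, by omega⟩⟩, ?_, ?_⟩
  · intro h
    rw [Prod.mk_eq_zero] at h
    apply hne
    ext <;> omega
  · have h2 : (q : ℤ) ∣ ((p.2 : ℤ) - s * p.1) - ((p'.2 : ℤ) - s * p'.1) :=
      Int.ModEq.dvd (Int.ModEq.symm heq)
    have h3 : ((p.2 : ℤ) - p'.2) - s * ((p.1 : ℤ) - p'.1) =
        ((p.2 : ℤ) - s * p.1) - ((p'.2 : ℤ) - s * p'.1) := by ring
    rw [h3]
    exact h2

/-- vectors parallel to a minimal vector -/
private theorem D1_mul {L : ℤ → ℤ → Prop}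
    (hL : ∀ x y x' y' j, L x y → L x' y' → L (x - j * x') (y - j * y')) {a b : ℤ} (hab : L a b)
    (ha : a ≠ 0) (hba : |b| ≤ |a|)
    (hmin : ∀ x y, L x y → |x| < |a| → |y| < |a| → x = 0 ∧ y = 0) {x y : ℤ} (h : L x y)
    (hxy : a * y = b * x) : ∃ j, x = j * a ∧ y = j * b := by
  have hapos : 0 < |a| := abs_pos.2 ha
  have h1 := hL x y a b (x / a) h hab
  have h2 : x - x / a * a = x % a := by
    rw [Int.emod_def]
    ring
  have h3 : |x - x / a * a| < |a| := by
    rw [h2, abs_of_nonneg (Int.emod_nonneg x ha)]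
    exact Int.emod_lt_abs x ha
  have h4 : a * (y - x / a * b) = b * (x - x / a * a) := by
    linear_combination hxy
  have h5 : |a| * |y - x / a * b| ≤ |a| * |x - x / a * a| := by
    rw [← abs_mul, h4, abs_mul]
    exact mul_le_mul_of_nonneg_right hba (abs_nonneg _)
  have h6 : |y - x / a * b| ≤ |x - x / a * a| := le_of_mul_le_mul_left h5 hapos
  obtain ⟨h7, h8⟩ := hmin _ _ h1 h3 (lt_of_le_of_lt h6 h3)
  exact ⟨x / a, by linarith, by linarith⟩

/-- the number of points on a line -/
private theorem D1_fib {γ : Type} (F : Finset γ) (f g : γ → ℤ) (Y : ℕ) {L : ℤ → ℤ → Prop}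
    (hL : ∀ x y x' y' j, L x y → L x' y' → L (x - j * x') (y - j * y')) {a b : ℤ} (hab : L a b)
    (ha : a ≠ 0) (hba : |b| ≤ |a|)
    (hmin : ∀ x y, L x y → |x| < |a| → |y| < |a| → x = 0 ∧ y = 0)
    (hF : ∀ P ∈ F, 1 ≤ f P ∧ f P ≤ Y)
    (hd : ∀ P ∈ F, ∀ P' ∈ F, L (f P - f P') (g P - g P') ∧
      a * (g P - g P') = b * (f P - f P'))
    (hinj : ∀ P ∈ F, ∀ P' ∈ F, f P = f P' → g P = g P' → P = P') :
    F.card ≤ Y / a.natAbs + 1 := by
  classical
  have hr : 0 < a.natAbs := Int.natAbs_pos.2 ha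
  have hr' : (0 : ℤ) < (a.natAbs : ℤ) := by exact_mod_cast hr
  rw [← card_range (Y / a.natAbs + 1)]
  refine card_le_card_of_injOn (fun P => (f P / (a.natAbs : ℤ)).toNat) ?_ ?_
  · intro P hP
    obtain ⟨h1, h2⟩ := hF P hP
    rw [mem_coe, mem_range]
    have h3 : f P / (a.natAbs : ℤ) ≤ (Y : ℤ) / (a.natAbs : ℤ) := Int.ediv_le_ediv hr' h2
    have h4 : ((Y / a.natAbs : ℕ) : ℤ) = (Y : ℤ) / (a.natAbs : ℤ) := Int.natCast_div _ _
    have h5 : (f P / (a.natAbs : ℤ)).toNat ≤ Y / a.natAbs := by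
      rw [Int.toNat_le, h4]
      exact h3
    exact Nat.lt_succ_of_le h5
  · intro P hP P' hP' h
    have h1 := (hF P hP).1
    have h1' := (hF P' hP').1
    have h2 : 0 ≤ f P / (a.natAbs : ℤ) := Int.ediv_nonneg (by omega) hr'.le
    have h2' : 0 ≤ f P' / (a.natAbs : ℤ) := Int.ediv_nonneg (by omega) hr'.le
    have h3 : f P / (a.natAbs : ℤ) = f P' / (a.natAbs : ℤ) := by
      have h' : (f P / (a.natAbs : ℤ)).toNat = (f P' / (a.natAbs : ℤ)).toNat := h
      omega
    obtain ⟨h4, h5⟩ := hd P hP P' hP'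
    obtain ⟨j, hj1, hj2⟩ := D1_mul hL hab ha hba hmin h4 h5
    have h6 : |f P - f P'| < |a| := by
      have e1 := Int.emod_add_mul_ediv (f P) (a.natAbs : ℤ)
      have e2 := Int.emod_add_mul_ediv (f P') (a.natAbs : ℤ)
      have e3 := Int.emod_nonneg (f P) hr'.ne'
      have e4 := Int.emod_nonneg (f P') hr'.ne'
      have e5 := Int.emod_lt_of_pos (f P) hr'
      have e6 := Int.emod_lt_of_pos (f P') hr'
      rw [Int.abs_eq_natAbs a]
      rw [h3] at e1
      rw [abs_lt]
      constructor <;> linarith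
    have h7 : j = 0 := by
      by_contra hj
      rw [hj1, abs_mul] at h6
      have h8 : 1 ≤ |j| := Int.one_le_abs hj
      nlinarith [abs_nonneg a]
    rw [h7, zero_mul] at hj1 hj2
    exact hinj P hP P' hP' (by linarith) (by linarith)

/-- `H = Nat.sqrt q`. Let `(a, b) ∈ Vec q s H` have minimal sup norm `r = max |a| |b| ≥ 1`
(`exists_min_image`). For `P = (y, y') ∈ Pos q s Y` the number `a y' - b y` is divisible by `q`
(as `b ≡ s a`, `y' ≡ s y`) and has absolute value at most `2 r Y`, so it takes at most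
`1 + 4 r Y / q` values. Two points with the same value differ by a vector `δ` with
`δ₂ ≡ s δ₁` and `a δ₂ = b δ₁`; dividing with remainder the coordinate where `(a, b)` has absolute
value `r`, `δ - j (a, b)` is in the lattice, parallel to `(a, b)` and of sup norm `< r`, so it is
`0` by minimality: `δ` is a multiple of `(a, b)`. So there are at most `1 + Y / r` points with the
same value. Total `≤ (1 + 4 r Y / q) (1 + Y / r) = 1 + Y / r + 4 r Y / q + 4 Y² / q`. The multiples
`± j (a, b)`, `1 ≤ j ≤ H / r`, are in `Vec q s H`, so `(Vec q s H).card ≥ 2 ⌊H / r⌋ ≥ H / r`, hence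
`Y / r ≤ (Y / H) card`, also `1 ≤ (Y / H) card`, and `4 r Y / q ≤ 4 H Y / q ≤ 4 Y² / q`. Sum:
`≤ 8 Y² / q + 2 (Y / H) card`; multiply by `q H`. (Work in real numbers.) -/
theorem card_Pos_le_big (q s Y : ℕ) (hq : 0 < q) (hY : Nat.sqrt q < Y) :
    q * Nat.sqrt q * (Pos q s Y).card ≤
      8 * Nat.sqrt q * Y ^ 2 + 2 * q * Y * (Vec q s (Nat.sqrt q)).card := by
  classical
  set H := Nat.sqrt q with hH
  have hq' : (0 : ℤ) < q := by exact_mod_cast hq
  obtain ⟨⟨a, b⟩, hab, hmin⟩ := exists_min_image (Vec q s H)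
    (fun w => max w.1.natAbs w.2.natAbs) (exists_Vec q s hq)
  set r := max a.natAbs b.natAbs with hr
  have hab' := (mem_Vec q s H a b).1 hab
  obtain ⟨⟨⟨ha1, ha2⟩, ⟨hb1, hb2⟩⟩, hne, hdvd⟩ := hab'
  have hrH : r ≤ H := by
    rw [hr]
    refine max_le ?_ ?_ <;> omega
  have hr0 : 0 < r := by
    rcases Nat.eq_zero_or_pos r with h0 | h0
    · exfalso
      apply hne
      have h1 : a.natAbs ≤ r := le_max_left _ _
      have h2 : b.natAbs ≤ r := le_max_right _ _
      rw [Prod.mk_eq_zero]
      constructor <;> omega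
    · exact h0
  -- the lattice
  set L : ℤ → ℤ → Prop := fun x y => (q : ℤ) ∣ y - s * x with hLdef
  have hL : ∀ x y x' y' j, L x y → L x' y' → L (x - j * x') (y - j * y') := by
    intro x y x' y' j h h'
    have h1 := h.sub (h'.mul_left j)
    have h2 : (y - j * y') - s * (x - j * x') = (y - s * x) - j * (y' - s * x') := by ring
    show (q : ℤ) ∣ (y - j * y') - s * (x - j * x')
    rw [h2]
    exact h1
  have hminL : ∀ x y : ℤ, L x y → x.natAbs < r → y.natAbs < r → x = 0 ∧ y = 0 := by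
    intro x y h hx hy
    by_contra hc
    have h1 : (x, y) ∈ Vec q s H := by
      rw [mem_Vec]
      refine ⟨⟨⟨by omega, by omega⟩, ⟨by omega, by omega⟩⟩, ?_, h⟩
      intro h0
      rw [Prod.mk_eq_zero] at h0
      exact hc h0
    have h2 := hmin (x, y) h1
    have h3 : r ≤ max x.natAbs y.natAbs := h2
    have h4 : max x.natAbs y.natAbs < r := max_lt hx hy
    omega
  -- the values
  set K : ℕ := 2 * r * Y / q with hK
  have hval : ∀ P ∈ Pos q s Y, ∃ k : ℤ, a * P.2 - b * P.1 = q * k ∧ -(K : ℤ) ≤ k ∧ k ≤ K := by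
    rintro ⟨y, y'⟩ hP
    obtain ⟨⟨⟨h1, h2⟩, ⟨h3, h4⟩⟩, h5⟩ := (mem_Pos q s Y y y').1 hP
    have h6 : (q : ℤ) ∣ a * y' - b * y := by
      have h7 := (h5.mul_left a).sub (hdvd.mul_left y)
      have h8 : a * y' - b * y = a * (y' - s * y) - y * (b - s * a) := by ring
      rw [h8]
      exact h7
    obtain ⟨k, hk⟩ := h6
    have h9 : |a * y' - b * y| ≤ 2 * r * Y := by
      have e1 : |a| ≤ r := by
        rw [Int.abs_eq_natAbs]
        exact_mod_cast le_max_left _ _
      have e2 : |b| ≤ r := by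
        rw [Int.abs_eq_natAbs]
        exact_mod_cast le_max_right _ _
      have e3 : |a * y'| ≤ r * Y := by
        rw [abs_mul, abs_of_nonneg (by omega : (0 : ℤ) ≤ y')]
        exact mul_le_mul e1 h4 (by omega) (by positivity)
      have e4 : |b * y| ≤ r * Y := by
        rw [abs_mul, abs_of_nonneg (by omega : (0 : ℤ) ≤ y)]
        exact mul_le_mul e2 h2 (by omega) (by positivity)
      have e5 := abs_sub (a * y') (b * y)
      linarith
    have h10 : k.natAbs ≤ K := by
      rw [hK, Nat.le_div_iff_mul_le hq]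
      have h11 : |(q : ℤ) * k| ≤ 2 * r * Y := by rw [← hk]; exact h9
      rw [abs_mul, Nat.abs_cast, Int.abs_eq_natAbs k] at h11
      have h12 : q * k.natAbs ≤ 2 * r * Y := by exact_mod_cast h11
      rwa [mul_comm]
    exact ⟨k, hk, by omega, by omega⟩
  have hfib : ∀ c : ℤ, ((Pos q s Y).filter (fun P => (a * P.2 - b * P.1) / (q : ℤ) = c)).card ≤
      Y / r + 1 := by
    intro c
    set F := (Pos q s Y).filter (fun P => (a * P.2 - b * P.1) / (q : ℤ) = c) with hF
    have hFP : ∀ P ∈ F, ((1 ≤ P.1 ∧ P.1 ≤ Y) ∧ (1 ≤ P.2 ∧ P.2 ≤ Y)) ∧ L P.1 P.2 ∧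
        a * P.2 - b * P.1 = q * c := by
      intro P hP
      obtain ⟨h1, h2⟩ := mem_filter.1 hP
      obtain ⟨h3, h4⟩ := (mem_Pos q s Y P.1 P.2).1 h1
      obtain ⟨k, hk, _⟩ := hval P h1
      refine ⟨h3, h4, ?_⟩
      rw [hk, Int.mul_ediv_cancel_left _ hq'.ne'] at h2
      rw [hk, h2]
    rcases le_total b.natAbs a.natAbs with hle | hle
    · have hra : r = a.natAbs := max_eq_left hle
      rw [hra]
      refine D1_fib F (fun P => P.1) (fun P => P.2) Y hL (show L a b from hdvd) (by omega)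
        (by rw [Int.abs_eq_natAbs, Int.abs_eq_natAbs]; exact_mod_cast hle) ?_ ?_ ?_ ?_
      · intro x y h hx hy
        rw [Int.abs_eq_natAbs, Int.abs_eq_natAbs] at hx hy
        exact hminL x y h (by omega) (by omega)
      · intro P hP
        exact (hFP P hP).1.1
      · intro P hP P' hP'
        obtain ⟨_, h1, h2⟩ := hFP P hP
        obtain ⟨_, h1', h2'⟩ := hFP P' hP'
        refine ⟨?_, by linarith⟩
        have h3 := hL _ _ _ _ 1 h1 h1'
        rw [one_mul, one_mul] at h3
        exact h3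
      · intro P _ P' _ h1 h2
        exact Prod.ext h1 h2
    · have hra : r = b.natAbs := max_eq_right hle
      rw [hra]
      refine D1_fib F (fun P => P.2) (fun P => P.1) Y (L := fun x y => L y x) ?_
        (show L a b from hdvd) (by omega)
        (by rw [Int.abs_eq_natAbs, Int.abs_eq_natAbs]; exact_mod_cast hle) ?_ ?_ ?_ ?_
      · intro x y x' y' j h h'
        exact hL _ _ _ _ j h h'
      · intro x y h hx hy
        rw [Int.abs_eq_natAbs, Int.abs_eq_natAbs] at hx hy
        exact (hminL y x h (by omega) (by omega)).symm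
      · intro P hP
        exact (hFP P hP).1.2
      · intro P hP P' hP'
        obtain ⟨_, h1, h2⟩ := hFP P hP
        obtain ⟨_, h1', h2'⟩ := hFP P' hP'
        refine ⟨?_, by linarith⟩
        have h3 := hL _ _ _ _ 1 h1 h1'
        rw [one_mul, one_mul] at h3
        exact h3
      · intro P _ P' _ h1 h2
        exact Prod.ext h2 h1
  have hPos : (Pos q s Y).card ≤ (Y / r + 1) * (2 * K + 1) := by
    have h1 := card_le_mul_card_image_of_maps_to (s := Pos q s Y)
      (f := fun P => (a * P.2 - b * P.1) / (q : ℤ)) (t := Icc (-(K : ℤ)) K) (by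
        intro P hP
        obtain ⟨k, hk, h2, h3⟩ := hval P hP
        rw [hk, Int.mul_ediv_cancel_left _ hq'.ne', mem_Icc]
        exact ⟨h2, h3⟩) (Y / r + 1) (fun c _ => hfib c)
    rw [Int.card_Icc] at h1
    have h2 : ((K : ℤ) + 1 - -(K : ℤ)).toNat = 2 * K + 1 := by omega
    rwa [h2] at h1
  -- the multiples
  have hVec : H ≤ r * (Vec q s H).card := by
    have h1 : 2 * (H / r) ≤ (Vec q s H).card := by
      have h2 : ((Icc 1 (H / r)) ×ˢ (Finset.univ : Finset Bool)).card ≤ (Vec q s H).card := by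
        refine card_le_card_of_injOn
          (fun t : ℕ × Bool => if t.2 then ((t.1 : ℤ) * a, (t.1 : ℤ) * b)
            else (-(t.1 : ℤ) * a, -(t.1 : ℤ) * b)) ?_ ?_
        · rintro ⟨j, β⟩ hj
          rw [mem_coe, mem_product, mem_Icc] at hj
          obtain ⟨⟨hj1, hj2⟩, _⟩ := hj
          have hj3 : j * r ≤ H := (Nat.le_div_iff_mul_le hr0).1 hj2
          have e1 : |(j : ℤ) * a| ≤ H := by
            rw [abs_mul, Nat.abs_cast, Int.abs_eq_natAbs]
            have : j * a.natAbs ≤ H := (Nat.mul_le_mul_left j (le_max_left _ _)).trans hj3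
            exact_mod_cast this
          have e2 : |(j : ℤ) * b| ≤ H := by
            rw [abs_mul, Nat.abs_cast, Int.abs_eq_natAbs]
            have : j * b.natAbs ≤ H := (Nat.mul_le_mul_left j (le_max_right _ _)).trans hj3
            exact_mod_cast this
          rw [abs_le] at e1 e2
          have hj0 : (j : ℤ) ≠ 0 := by omega
          cases β with
          | true =>
            simp only [if_true]
            rw [mem_coe, mem_Vec]
            refine ⟨⟨⟨by linarith, by linarith⟩, ⟨by linarith, by linarith⟩⟩, ?_, ?_⟩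
            · intro h0
              rw [Prod.mk_eq_zero] at h0
              apply hne
              rw [Prod.mk_eq_zero]
              exact ⟨(mul_eq_zero.1 h0.1).resolve_left hj0, (mul_eq_zero.1 h0.2).resolve_left hj0⟩
            · have h3 := hdvd.mul_left (j : ℤ)
              have h4 : (j : ℤ) * b - s * (j * a) = j * (b - s * a) := by ring
              rw [h4]
              exact h3
          | false =>
            simp only [Bool.false_eq_true, if_false]
            rw [mem_coe, mem_Vec]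
            refine ⟨⟨⟨by linarith, by linarith⟩, ⟨by linarith, by linarith⟩⟩, ?_, ?_⟩
            · intro h0
              rw [Prod.mk_eq_zero] at h0
              apply hne
              rw [Prod.mk_eq_zero]
              exact ⟨(mul_eq_zero.1 h0.1).resolve_left (neg_ne_zero.2 hj0),
                (mul_eq_zero.1 h0.2).resolve_left (neg_ne_zero.2 hj0)⟩
            · have h3 := hdvd.mul_left (-(j : ℤ))
              have h4 : -(j : ℤ) * b - s * (-(j : ℤ) * a) = -(j : ℤ) * (b - s * a) := by ring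
              rw [h4]
              exact h3
        · rintro ⟨j, β⟩ hj ⟨j', β'⟩ hj' h
          rw [mem_coe, mem_product, mem_Icc] at hj hj'
          have hj1 := hj.1.1
          have hj1' := hj'.1.1
          simp only at hj1 hj1'
          have hcan : ∀ u u' : ℤ, u * a = u' * a → u * b = u' * b → u = u' := by
            intro u u' h1 h2
            by_contra hu
            apply hne
            rw [Prod.mk_eq_zero]
            have h3 : (u - u') * a = 0 := by linarith
            have h4 : (u - u') * b = 0 := by linarith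
            have h5 : u - u' ≠ 0 := sub_ne_zero.2 hu
            exact ⟨(mul_eq_zero.1 h3).resolve_left h5, (mul_eq_zero.1 h4).resolve_left h5⟩
          cases β <;> cases β' <;> simp only [Bool.false_eq_true, if_false, if_true,
            Prod.mk.injEq] at h
          · have h5 := hcan _ _ h.1 h.2
            rw [Prod.mk.injEq]
            exact ⟨by omega, rfl⟩
          · have h5 := hcan _ _ h.1 h.2
            omega
          · have h5 := hcan _ _ h.1 h.2
            omega
          · have h5 := hcan _ _ h.1 h.2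
            rw [Prod.mk.injEq]
            exact ⟨by omega, rfl⟩
      rw [card_product, Nat.card_Icc, card_univ, Fintype.card_bool] at h2
      omega
    have h2 : 1 ≤ H / r := (Nat.one_le_div_iff hr0).2 hrH
    have h3 : H < r * (H / r + 1) := by
      have := Nat.lt_mul_div_succ H hr0
      exact this
    calc H ≤ r * (H / r + 1) := h3.le
      _ ≤ r * (2 * (H / r)) := Nat.mul_le_mul_left _ (by omega)
      _ ≤ r * (Vec q s H).card := Nat.mul_le_mul_left _ h1
  have hV1 : 1 ≤ (Vec q s H).card := card_pos.2 ⟨_, hab⟩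
  -- conclusion
  have hA : r * (Y / r) ≤ Y := Nat.mul_div_le Y r
  have hKq : q * K ≤ 2 * r * Y := Nat.mul_div_le _ _
  set A := Y / r with hAdef
  set Vc := (Vec q s H).card with hVc
  have e0 : q * H * (Pos q s Y).card ≤ H * ((A + 1) * (2 * (q * K) + q)) := by
    calc q * H * (Pos q s Y).card ≤ q * H * ((A + 1) * (2 * K + 1)) :=
          Nat.mul_le_mul_left _ hPos
      _ = H * ((A + 1) * (2 * (q * K) + q)) := by ring
  have e1 : H * ((A + 1) * (2 * (q * K) + q)) ≤ H * ((A + 1) * (2 * (2 * r * Y) + q)) :=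
    Nat.mul_le_mul_left _ (Nat.mul_le_mul_left _ (by omega))
  have e2 : H * ((A + 1) * (2 * (2 * r * Y) + q)) =
      4 * H * Y * (r * A) + H * (A * q) + 4 * H * Y * r + H * q := by ring
  have e3 : 4 * H * Y * (r * A) ≤ 4 * H * Y * Y := Nat.mul_le_mul_left _ hA
  have e4 : H * (A * q) ≤ q * Y * Vc := by
    calc H * (A * q) ≤ (r * Vc) * (A * q) := Nat.mul_le_mul_right _ hVec
      _ = (r * A) * (q * Vc) := by ring
      _ ≤ Y * (q * Vc) := Nat.mul_le_mul_right _ hA
      _ = q * Y * Vc := by ring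
  have e5 : 4 * H * Y * r ≤ 4 * H * Y * Y := Nat.mul_le_mul_left _ (by omega)
  have e6 : H * q ≤ q * Y * Vc := by
    calc H * q ≤ Y * q := Nat.mul_le_mul_right _ hY.le
      _ = q * Y * 1 := by ring
      _ ≤ q * Y * Vc := Nat.mul_le_mul_left _ hV1
  calc q * H * (Pos q s Y).card ≤ _ := e0
    _ ≤ _ := e1
    _ = _ := e2
    _ ≤ 4 * H * Y * Y + q * Y * Vc + 4 * H * Y * Y + q * Y * Vc := by omega
    _ = 8 * H * Y ^ 2 + 2 * q * Y * Vc := by ring

/-- If `Y ≤ Nat.sqrt q` then `Pos q s Y ⊆ Vec q s Y`; otherwise `card_Pos_le_big`. -/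
theorem card_Pos_le (q s Y : ℕ) (hq : 0 < q) (hY : 0 < Y) :
    q * min Y (Nat.sqrt q) * (Pos q s Y).card ≤
      8 * min Y (Nat.sqrt q) * Y ^ 2 + 2 * q * Y * (Vec q s (min Y (Nat.sqrt q))).card := by
  classical
  by_cases h : Nat.sqrt q < Y
  · rw [min_eq_right h.le]
    exact card_Pos_le_big q s Y hq h
  · rw [min_eq_left (not_lt.1 h)]
    have h1 : (Pos q s Y).card ≤ (Vec q s Y).card := by
      refine card_le_card ?_
      rintro ⟨y, y'⟩ hP
      obtain ⟨⟨⟨h1, h2⟩, ⟨h3, h4⟩⟩, h5⟩ := (mem_Pos q s Y y y').1 hP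
      rw [mem_Vec]
      refine ⟨⟨⟨by omega, h2⟩, ⟨by omega, h4⟩⟩, ?_, h5⟩
      intro h0
      rw [Prod.mk_eq_zero] at h0
      omega
    calc q * Y * (Pos q s Y).card ≤ q * Y * (Vec q s Y).card := Nat.mul_le_mul_left _ h1
      _ ≤ 2 * q * Y * (Vec q s Y).card := by
          rw [mul_assoc 2 q Y, mul_assoc 2 (q * Y)]
          omega
      _ ≤ _ := Nat.le_add_left _ _

end Pool.Agent.PWF
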