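import Mathlib
import Pool.Agent.PWF.Def

set_option autoImplicit false

namespace Pool.Agent.PWF

open Finset

/-- Group the `a` by `d = gcd a q ∣ q`: at most `B / d` of them are multiples of `d`. -/
theorem sum_gcd_le (q B : ℕ) (hq : 0 < q) :
    ∑ a ∈ Icc 1 B, Nat.gcd a q ≤ B * q.divisors.card := by
  have h1 : ∀ a ∈ Icc 1 B, Nat.gcd a q ≤ ∑ d ∈ q.divisors, if d ∣ a then d else 0 := by
    intro a ha
    have hmem : Nat.gcd a q ∈ q.divisors :=
      Nat.mem_divisors.2 ⟨Nat.gcd_dvd_right a q, by omega⟩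
    have := Finset.single_le_sum (f := fun d => if d ∣ a then d else 0)
      (fun d _ => Nat.zero_le _) hmem
    simpa [Nat.gcd_dvd_left a q] using this
  calc ∑ a ∈ Icc 1 B, Nat.gcd a q
      ≤ ∑ a ∈ Icc 1 B, ∑ d ∈ q.divisors, (if d ∣ a then d else 0) := Finset.sum_le_sum h1
    _ = ∑ d ∈ q.divisors, ∑ a ∈ Icc 1 B, (if d ∣ a then d else 0) := Finset.sum_comm
    _ ≤ ∑ d ∈ q.divisors, B := by
        apply Finset.sum_le_sum
        intro d hd
        rw [← Finset.sum_filter, Finset.sum_const, smul_eq_mul]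
        have hI : Icc 1 B = Ioc 0 B := by
          ext x
          simp only [Finset.mem_Icc, Finset.mem_Ioc]
          omega
        rw [hI, Nat.Ioc_filter_dvd_card_eq_div]
        exact Nat.div_mul_le_self B d
    _ = B * q.divisors.card := by
        rw [Finset.sum_const, smul_eq_mul, Nat.mul_comm]

/-- If `b ≡ s a` and `b ≡ s' a` modulo `q` then `q / gcd (a, q)` divides `s - s'`. -/
theorem card_slopes_le (q : ℕ) (hq : 0 < q) (a b : ℤ) :
    ((Cop q).filter (fun s : ℕ => (q : ℤ) ∣ b - (s : ℤ) * a)).card ≤ Nat.gcd a.natAbs q := by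
  set g := Nat.gcd a.natAbs q with hg
  have hgpos : 0 < g := Nat.gcd_pos_of_pos_right _ hq
  set r := q / g with hr
  have hgr : g * r = q := Nat.mul_div_cancel' (Nat.gcd_dvd_right _ _)
  have hrpos : 0 < r := by
    rcases Nat.eq_zero_or_pos r with h | h
    · rw [h] at hgr
      omega
    · exact h
  have hcop : Nat.Coprime r (a.natAbs / g) := (Nat.coprime_div_gcd_div_gcd hgpos).symm
  rw [← Finset.card_range g]
  apply Finset.card_le_card_of_injOn (fun s => s / r)
  · intro s hs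
    have h1 := (mem_Cop q s).1 (Finset.mem_filter.1 hs).1
    have : s / r < g := by
      apply Nat.div_lt_of_lt_mul
      rw [Nat.mul_comm, hgr]
      exact h1.1
    simpa using this
  · intro s hs s' hs' h
    have h1 := (Finset.mem_filter.1 hs).2
    have h2 := (Finset.mem_filter.1 hs').2
    have h3 : (q : ℤ) ∣ ((s : ℤ) - s') * a := by
      have := dvd_sub h2 h1
      have h4 : b - (s' : ℤ) * a - (b - (s : ℤ) * a) = ((s : ℤ) - s') * a := by ring
      rwa [h4] at this
    have h5 : q ∣ ((s : ℤ) - s').natAbs * a.natAbs := by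
      rw [← Int.natAbs_mul]
      exact Int.natCast_dvd.1 h3
    have h6 : r ∣ ((s : ℤ) - s').natAbs := by
      have ha : g * (a.natAbs / g) = a.natAbs := Nat.mul_div_cancel' (Nat.gcd_dvd_left _ _)
      have h7 : g * r ∣ g * (((s : ℤ) - s').natAbs * (a.natAbs / g)) := by
        rw [hgr]
        have h8 : g * (((s : ℤ) - s').natAbs * (a.natAbs / g)) =
            ((s : ℤ) - s').natAbs * (g * (a.natAbs / g)) := by ring
        rw [h8, ha]
        exact h5
      have h9 := Nat.dvd_of_mul_dvd_mul_left hgpos h7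
      exact hcop.dvd_of_dvd_mul_right h9
    have h10 : (s : ℤ) ≡ s' [ZMOD r] := by
      apply Int.ModEq.symm
      rw [Int.modEq_iff_dvd]
      exact Int.natCast_dvd.2 h6
    have h11 : s % r = s' % r := by
      have := (Int.natCast_modEq_iff).1 h10
      exact this
    have h12 := Nat.div_add_mod s r
    have h13 := Nat.div_add_mod s' r
    have h14 : s / r = s' / r := h
    rw [← h12, ← h13, h14, h11]

/-- The nonzero integers of absolute value at most `B`. -/
private noncomputable def D2_S (B : ℕ) : Finset ℤ :=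
  (Icc (-(B : ℤ)) B).filter (fun a => a ≠ 0)

private theorem D2_mem_S (B : ℕ) (a : ℤ) : a ∈ D2_S B ↔ (-(B : ℤ) ≤ a ∧ a ≤ B) ∧ a ≠ 0 := by
  unfold D2_S
  rw [Finset.mem_filter, Finset.mem_Icc]

private theorem D2_sum_S (B : ℕ) (h : ℕ → ℕ) :
    ∑ a ∈ D2_S B, h a.natAbs ≤ 2 * ∑ n ∈ Icc 1 B, h n := by
  have hmaps : ∀ a ∈ D2_S B, a.natAbs ∈ Icc 1 B := by
    intro a ha
    have := (D2_mem_S B a).1 ha
    rw [Finset.mem_Icc]
    omega
  rw [← Finset.sum_fiberwise_of_maps_to hmaps, Finset.mul_sum]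
  apply Finset.sum_le_sum
  intro n hn
  have h1 : ∑ a ∈ (D2_S B).filter (fun a => a.natAbs = n), h a.natAbs =
      ∑ a ∈ (D2_S B).filter (fun a => a.natAbs = n), h n := by
    apply Finset.sum_congr rfl
    intro a ha
    rw [(Finset.mem_filter.1 ha).2]
  rw [h1, Finset.sum_const, smul_eq_mul]
  apply Nat.mul_le_mul_right
  have hsub : (D2_S B).filter (fun a => a.natAbs = n) ⊆ {(n : ℤ), -(n : ℤ)} := by
    intro a ha
    have h2 := (Finset.mem_filter.1 ha).2
    simp only [Finset.mem_insert, Finset.mem_singleton]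
    omega
  exact (Finset.card_le_card hsub).trans Finset.card_le_two

private theorem D2_card_S (B : ℕ) : (D2_S B).card ≤ 2 * B := by
  have := D2_sum_S B (fun _ => 1)
  simpa using this

private theorem D2_sum_gcd (q B D : ℕ) (hq : 0 < q) (hD : DivB q D) :
    ∑ a ∈ D2_S B, Nat.gcd a.natAbs q ≤ 2 * (B * D) := by
  refine (D2_sum_S B (fun n => Nat.gcd n q)).trans ?_
  apply Nat.mul_le_mul_left
  exact (sum_gcd_le q B hq).trans (Nat.mul_le_mul_left _ (hD.2 q hq (le_refl _)))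

private theorem D2_lt (q B : ℕ) (hq : 2 ≤ q) (hB : B ≤ Nat.sqrt q) : B < q ∧ B * B ≤ q := by
  have h1 : B * B ≤ q := (Nat.mul_le_mul hB hB).trans (Nat.sqrt_le q)
  refine ⟨?_, h1⟩
  by_contra h
  have h2 : q ≤ B := by omega
  nlinarith

private theorem D2_Vec (q B s : ℕ) (hq : 2 ≤ q) (hB : B ≤ Nat.sqrt q) (hs : s ∈ Cop q) :
    Vec q s B = (D2_S B ×ˢ D2_S B).filter (fun w => (q : ℤ) ∣ w.2 - s * w.1) := by
  ext ⟨a, b⟩
  obtain ⟨hlt, _⟩ := D2_lt q B hq hB
  have hs' := (mem_Cop q s).1 hs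
  rw [mem_Vec, Finset.mem_filter, Finset.mem_product, D2_mem_S, D2_mem_S]
  constructor
  · rintro ⟨⟨h1, h2⟩, h3, h4⟩
    refine ⟨⟨⟨h1, ?_⟩, ⟨h2, ?_⟩⟩, h4⟩
    · intro ha
      subst ha
      have h5 : (q : ℤ) ∣ b := by simpa using h4
      have h6 : b = 0 := by
        apply Int.eq_zero_of_abs_lt_dvd h5
        rw [abs_lt]
        constructor <;> linarith [h2.1, h2.2, (by exact_mod_cast hlt : (B : ℤ) < q)]
      exact h3 (by rw [h6]; rfl)
    · intro hb
      subst hb
      have h5 : (q : ℤ) ∣ (s : ℤ) * a := by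
        have := (dvd_neg (α := ℤ)).2 h4
        have h7 : -((0 : ℤ) - (s : ℤ) * a) = (s : ℤ) * a := by ring
        rwa [h7] at this
      have h6 : (q : ℤ) ∣ a := by
        have hc : IsCoprime (q : ℤ) (s : ℤ) := by
          rw [Nat.isCoprime_iff_coprime]
          exact hs'.2.symm
        exact hc.dvd_of_dvd_mul_left h5
      have h7 : a = 0 := by
        apply Int.eq_zero_of_abs_lt_dvd h6
        rw [abs_lt]
        constructor <;> linarith [h1.1, h1.2, (by exact_mod_cast hlt : (B : ℤ) < q)]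
      exact h3 (by rw [h7]; rfl)
  · rintro ⟨⟨⟨h1, ha⟩, ⟨h2, hb⟩⟩, h4⟩
    refine ⟨⟨h1, h2⟩, ?_, h4⟩
    intro h
    exact ha (congrArg Prod.fst h)

/-- For `s ∈ Cop q`, `(a, b) ∈ Vec q s B`: both coordinates are nonzero, since `B < q`
(`B ≤ √q`, `q ≥ 2`) and `s` is invertible. Count triples `(s, a, b)`: for given `(a, b)` at most
`gcd (|a|, q)` values of `s` (`card_slopes_le`), `b` has `2 B` values, and
`∑_{0 < |a| ≤ B} gcd (|a|, q) ≤ 2 B D` (`sum_gcd_le`, and `q.divisors.card ≤ D`). -/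
theorem sum_Vec (q B D : ℕ) (hq : 2 ≤ q) (hB : B ≤ Nat.sqrt q) (hD : DivB q D) :
    ∑ s ∈ Cop q, (Vec q s B).card ≤ 4 * D * B ^ 2 := by
  have hq0 : 0 < q := by omega
  calc ∑ s ∈ Cop q, (Vec q s B).card
      = ∑ s ∈ Cop q, ∑ w ∈ D2_S B ×ˢ D2_S B, (if (q : ℤ) ∣ w.2 - s * w.1 then 1 else 0) := by
        apply Finset.sum_congr rfl
        intro s hs
        rw [D2_Vec q B s hq hB hs, Finset.card_filter]
    _ = ∑ w ∈ D2_S B ×ˢ D2_S B, ∑ s ∈ Cop q, (if (q : ℤ) ∣ w.2 - s * w.1 then 1 else 0) :=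
        Finset.sum_comm
    _ ≤ ∑ w ∈ D2_S B ×ˢ D2_S B, Nat.gcd w.1.natAbs q := by
        apply Finset.sum_le_sum
        intro w hw
        rw [← Finset.card_filter]
        exact card_slopes_le q hq0 w.1 w.2
    _ = ∑ a ∈ D2_S B, ∑ b ∈ D2_S B, Nat.gcd a.natAbs q := Finset.sum_product _ _ _
    _ = (D2_S B).card * ∑ a ∈ D2_S B, Nat.gcd a.natAbs q := by
        rw [Finset.mul_sum]
        apply Finset.sum_congr rfl
        intro a ha
        rw [Finset.sum_const, smul_eq_mul]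
    _ ≤ (2 * B) * (2 * (B * D)) := Nat.mul_le_mul (D2_card_S B) (D2_sum_gcd q B D hq0 hD)
    _ = 4 * D * B ^ 2 := by ring

private theorem D2_card_mul (q B D : ℕ) (hBB : B * B ≤ q) (hD : DivB q D) (c : ℤ) :
    ((D2_S B ×ˢ D2_S B).filter (fun w => w.1 * w.2 = c)).card ≤ 2 * D := by
  rcases Finset.eq_empty_or_nonempty ((D2_S B ×ˢ D2_S B).filter (fun w => w.1 * w.2 = c)) with
    h | ⟨w0, hw0⟩
  · rw [h]
    simp
  · have h0 := Finset.mem_filter.1 hw0
    have h1 := Finset.mem_product.1 h0.1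
    have h2 := (D2_mem_S B w0.1).1 h1.1
    have h3 := (D2_mem_S B w0.2).1 h1.2
    have hc : c ≠ 0 := by
      rw [← h0.2]
      exact mul_ne_zero h2.2 h3.2
    have hcq : c.natAbs ≤ q := by
      rw [← h0.2, Int.natAbs_mul]
      refine le_trans (Nat.mul_le_mul ?_ ?_) hBB
      · omega
      · omega
    have hcd : c.natAbs.divisors.card ≤ D := hD.2 _ (by omega) hcq
    have hle : ((D2_S B ×ˢ D2_S B).filter (fun w => w.1 * w.2 = c)).card ≤
        (c.natAbs.divisors.image (fun n : ℕ => (n : ℤ)) ∪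
          c.natAbs.divisors.image (fun n : ℕ => -(n : ℤ))).card := by
      apply Finset.card_le_card_of_injOn (fun w => w.1)
      · intro w hw
        have k0 := Finset.mem_filter.1 hw
        have kd : w.1.natAbs ∈ c.natAbs.divisors := by
          rw [Nat.mem_divisors]
          refine ⟨?_, by omega⟩
          rw [← k0.2, Int.natAbs_mul]
          exact Dvd.intro _ rfl
        rcases le_total 0 w.1 with h | h
        · apply Finset.mem_coe.2
          apply Finset.mem_union_left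
          apply Finset.mem_image.2
          exact ⟨w.1.natAbs, kd, by show ((w.1.natAbs : ℕ) : ℤ) = w.1; omega⟩
        · apply Finset.mem_coe.2
          apply Finset.mem_union_right
          apply Finset.mem_image.2
          exact ⟨w.1.natAbs, kd, by show -((w.1.natAbs : ℕ) : ℤ) = w.1; omega⟩
      · intro w hw w' hw' hww
        have k0 := Finset.mem_filter.1 hw
        have k1 := Finset.mem_filter.1 hw'
        have k2 := ((D2_mem_S B w.1).1 (Finset.mem_product.1 k0.1).1).2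
        have hww' : w.1 = w'.1 := hww
        have k3 : w.1 * w.2 = w.1 * w'.2 := by
          rw [k0.2]
          rw [hww']
          exact k1.2.symm
        exact Prod.ext hww' (mul_left_cancel₀ k2 k3)
    refine hle.trans ((Finset.card_union_le _ _).trans ?_)
    have i1 := Finset.card_image_le (s := c.natAbs.divisors) (f := fun n : ℕ => (n : ℤ))
    have i2 := Finset.card_image_le (s := c.natAbs.divisors) (f := fun n : ℕ => -(n : ℤ))
    omega

private def D2_P (q : ℕ) (a : ℤ) (t : ℤ × ℤ × ℤ) : Prop :=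
  ∃ k ∈ Icc (-2 : ℤ) 2, t.2.1 * t.2.2 = a * t.1 - k * q

open Classical in
private theorem D2_card_T (q B D : ℕ) (hBB : B * B ≤ q) (hD : DivB q D) (a : ℤ) :
    ((D2_S B ×ˢ (D2_S B ×ˢ D2_S B)).filter (fun t => D2_P q a t)).card ≤
        (2 * B) * (5 * (2 * D)) := by
  have hsub : (D2_S B ×ˢ (D2_S B ×ˢ D2_S B)).filter (fun t => D2_P q a t) ⊆
      (D2_S B).biUnion (fun b' => (Icc (-2 : ℤ) 2).biUnion (fun k =>
        ((D2_S B ×ˢ D2_S B).filter (fun w => w.1 * w.2 = a * b' - k * q)).image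
          (fun w => (b', w)))) := by
    intro t ht
    obtain ⟨h1, k, hk, h2⟩ := Finset.mem_filter.1 ht
    have h3 := Finset.mem_product.1 h1
    refine Finset.mem_biUnion.2 ⟨t.1, h3.1, Finset.mem_biUnion.2 ⟨k, hk, Finset.mem_image.2
      ⟨t.2, Finset.mem_filter.2 ⟨h3.2, h2⟩, rfl⟩⟩⟩
  refine (Finset.card_le_card hsub).trans ?_
  refine (Finset.card_biUnion_le_card_mul _ _ (5 * (2 * D)) ?_).trans
    (Nat.mul_le_mul_right _ (D2_card_S B))
  intro b' hb'
  refine (Finset.card_biUnion_le_card_mul _ _ (2 * D) ?_).trans ?_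
  · intro k hk
    exact Finset.card_image_le.trans (D2_card_mul q B D hBB hD _)
  · have : (Icc (-2 : ℤ) 2).card = 5 := by rfl
    rw [this]

/-- Count quintuples `(s, a, b, a', b')` with `(a, b), (a', b') ∈ Vec q s B`; all of
`a, b, a', b'` are nonzero as in `sum_Vec`. From `b ≡ s a`, `b' ≡ s a'`: `a b' - a' b = k q`, and
`|a b' - a' b| ≤ 2 B² ≤ 2 q`, so `k ∈ {-2, ..., 2}`. For given `a` choose `b'` (`2 B` values) and
`k` (`5` values); then `c = a' b = a b' - k q` is a nonzero integer with `|c| ≤ B² ≤ q`, so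
`(a', b)` has at most `2 * c.natAbs.divisors.card ≤ 2 D` values (a divisor of `c` and its sign);
for given `(a, b)` at most `gcd (|a|, q)` values of `s`. Total at most
`∑_{0 < |a| ≤ B} 2 B * 5 * 2 D * gcd (|a|, q) ≤ 20 B D * 2 B D`. -/
theorem sum_Vec_sq (q B D : ℕ) (hq : 2 ≤ q) (hB : B ≤ Nat.sqrt q) (hD : DivB q D) :
    ∑ s ∈ Cop q, (Vec q s B).card ^ 2 ≤ 40 * D ^ 2 * B ^ 2 := by
  classical
  have hq0 : 0 < q := by omega
  obtain ⟨hlt, hBB⟩ := D2_lt q B hq hB
  set T := (D2_S B ×ˢ (D2_S B ×ˢ (D2_S B ×ˢ D2_S B))).filter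
    (fun t => D2_P q t.1 t.2) with hT
  -- `t = (a, b', a', b)`
  have h1 : ∀ s ∈ Cop q, (Vec q s B).card ^ 2 ≤
      ∑ t ∈ T, (if (q : ℤ) ∣ t.2.2.2 - (s : ℤ) * t.1 then 1 else 0) := by
    intro s hs
    rw [← Finset.card_filter, sq, ← Finset.card_product]
    apply Finset.card_le_card_of_injOn (fun p => (p.1.1, p.2.2, p.2.1, p.1.2))
    · rintro ⟨⟨a, b⟩, ⟨a', b'⟩⟩ hp
      have hp' := Finset.mem_product.1 hp
      rw [D2_Vec q B s hq hB hs] at hp'
      obtain ⟨k1, k2⟩ := Finset.mem_filter.1 hp'.1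
      obtain ⟨k3, k4⟩ := Finset.mem_filter.1 hp'.2
      have m1 := Finset.mem_product.1 k1
      have m2 := Finset.mem_product.1 k3
      have a1 := (D2_mem_S B a).1 m1.1
      have a2 := (D2_mem_S B b).1 m1.2
      have a3 := (D2_mem_S B a').1 m2.1
      have a4 := (D2_mem_S B b').1 m2.2
      simp only at k2 k4
      have hdiv : (q : ℤ) ∣ a * b' - a' * b := by
        have e : a * b' - a' * b = a * (b' - s * a') - a' * (b - s * a) := by ring
        rw [e]
        exact dvd_sub (Dvd.dvd.mul_left k4 _) (Dvd.dvd.mul_left k2 _)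
      obtain ⟨k, hk⟩ := hdiv
      have hBBz : (B : ℤ) * B ≤ q := by exact_mod_cast hBB
      have habs : |a * b' - a' * b| ≤ 2 * ((B : ℤ) * B) := by
        have e1 : |a * b'| ≤ (B : ℤ) * B := by
          rw [abs_mul]
          exact mul_le_mul (abs_le.2 a1.1) (abs_le.2 a4.1) (abs_nonneg _) (by positivity)
        have e2 : |a' * b| ≤ (B : ℤ) * B := by
          rw [abs_mul]
          exact mul_le_mul (abs_le.2 a3.1) (abs_le.2 a2.1) (abs_nonneg _) (by positivity)
        calc |a * b' - a' * b| ≤ |a * b'| + |a' * b| := abs_sub _ _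
          _ ≤ 2 * ((B : ℤ) * B) := by linarith
      rw [hk] at habs
      have hqz : (0 : ℤ) < q := by exact_mod_cast hq0
      have hk2 : |k| ≤ 2 := by
        rw [abs_mul, abs_of_pos hqz] at habs
        have : (q : ℤ) * |k| ≤ q * 2 := by linarith
        exact le_of_mul_le_mul_left this hqz
      apply Finset.mem_coe.2
      refine Finset.mem_filter.2 ⟨?_, k2⟩
      rw [hT]
      refine Finset.mem_filter.2 ⟨?_, k, Finset.mem_Icc.2 (abs_le.1 hk2), ?_⟩
      · simp only [Finset.mem_product]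
        exact ⟨m1.1, m2.2, m2.1, m1.2⟩
      · simp only
        linarith
    · rintro ⟨⟨a, b⟩, ⟨a', b'⟩⟩ _ ⟨⟨c, d⟩, ⟨c', d'⟩⟩ _ h
      simp only [Prod.mk.injEq] at h
      obtain ⟨rfl, rfl, rfl, rfl⟩ := h
      rfl
  calc ∑ s ∈ Cop q, (Vec q s B).card ^ 2
      ≤ ∑ s ∈ Cop q, ∑ t ∈ T, (if (q : ℤ) ∣ t.2.2.2 - (s : ℤ) * t.1 then 1 else 0) :=
        Finset.sum_le_sum h1
    _ = ∑ t ∈ T, ∑ s ∈ Cop q, (if (q : ℤ) ∣ t.2.2.2 - (s : ℤ) * t.1 then 1 else 0) :=
        Finset.sum_comm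
    _ ≤ ∑ t ∈ T, Nat.gcd t.1.natAbs q := by
        apply Finset.sum_le_sum
        intro t ht
        rw [← Finset.card_filter]
        exact card_slopes_le q hq0 t.1 t.2.2.2
    _ = ∑ a ∈ D2_S B, ∑ r ∈ (D2_S B ×ˢ (D2_S B ×ˢ D2_S B)).filter (fun t => D2_P q a t),
            Nat.gcd a.natAbs q := by
        rw [hT, Finset.sum_filter, Finset.sum_product]
        apply Finset.sum_congr rfl
        intro a ha
        rw [Finset.sum_filter]
    _ ≤ ∑ a ∈ D2_S B, ((2 * B) * (5 * (2 * D))) * Nat.gcd a.natAbs q := by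
        apply Finset.sum_le_sum
        intro a ha
        rw [Finset.sum_const, smul_eq_mul]
        exact Nat.mul_le_mul_right _ (D2_card_T q B D hBB hD a)
    _ = ((2 * B) * (5 * (2 * D))) * ∑ a ∈ D2_S B, Nat.gcd a.natAbs q := by
        rw [Finset.mul_sum]
    _ ≤ ((2 * B) * (5 * (2 * D))) * (2 * (B * D)) :=
        Nat.mul_le_mul_left _ (D2_sum_gcd q B D hq0 hD)
    _ = 40 * D ^ 2 * B ^ 2 := by ring

end Pool.Agent.PWF
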