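import Mathlib
import Pool.Agent.PWF.Def

set_option autoImplicit false

namespace Pool.Agent.PWF

open Finset

/-- the residue of `a / b` modulo `q` -/
private noncomputable def D3_dv (q a b : ℕ) : ℕ := ((a : ZMod q) * (b : ZMod q)⁻¹).val

private theorem D3_cast (q a b : ℕ) (hq : 0 < q) :
    ((D3_dv q a b : ℕ) : ZMod q) = (a : ZMod q) * (b : ZMod q)⁻¹ := by
  have : NeZero q := ⟨hq.ne'⟩
  unfold D3_dv
  exact ZMod.natCast_zmod_val _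

private theorem D3_lt (q a b : ℕ) (hq : 0 < q) : D3_dv q a b < q := by
  have : NeZero q := ⟨hq.ne'⟩
  exact ZMod.val_lt _

private theorem D3_dvd (q a b : ℕ) (hq : 0 < q) (hb : Nat.Coprime b q) :
    (q : ℤ) ∣ (a : ℤ) - (D3_dv q a b : ℤ) * b := by
  rw [← ZMod.intCast_zmod_eq_zero_iff_dvd]
  push_cast
  have h1 := D3_cast q a b hq
  have h2 := ZMod.coe_mul_inv_eq_one b hb
  rw [h1]
  linear_combination (-(a : ZMod q)) * h2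

private theorem D3_cop (q a b : ℕ) (hq : 0 < q) (ha : Nat.Coprime a q) (hb : Nat.Coprime b q) :
    Nat.Coprime (D3_dv q a b) q := by
  have h1 := D3_dvd q a b hq hb
  rw [Nat.coprime_iff_gcd_eq_one]
  have h2 : Nat.gcd (D3_dv q a b) q ∣ a := by
    have h3 : ((Nat.gcd (D3_dv q a b) q : ℕ) : ℤ) ∣ (a : ℤ) := by
      have h4 : ((Nat.gcd (D3_dv q a b) q : ℕ) : ℤ) ∣ (q : ℤ) :=
        Int.natCast_dvd_natCast.2 (Nat.gcd_dvd_right _ _)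
      have h5 : ((Nat.gcd (D3_dv q a b) q : ℕ) : ℤ) ∣ (D3_dv q a b : ℤ) :=
        Int.natCast_dvd_natCast.2 (Nat.gcd_dvd_left _ _)
      have h6 := (h4.trans h1).add (h5.mul_right (b : ℤ))
      rwa [sub_add_cancel] at h6
    exact Int.natCast_dvd_natCast.1 h3
  have h3 : Nat.gcd (D3_dv q a b) q ∣ Nat.gcd a q := Nat.dvd_gcd h2 (Nat.gcd_dvd_right _ _)
  rw [ha] at h3
  exact Nat.dvd_one.1 h3

/-- To `(v, v', y, y') ∈ ZZ q V Y` attach the residues `α ≡ v / v'` and `β ≡ y' / y` in `[0, q)`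
(e.g. `((v : ZMod q) * (v' : ZMod q)⁻¹).val`, `ZMod.coe_mul_inv_eq_one`; `NeZero q`). They are
coprime to `q`, and `v³ y² ≡ v'³ y'²` gives `α³ ≡ β²`, so `(α, β) ∈ GG q`. Also
`((v' : ℤ), (v : ℤ)) ∈ Pos q α V` as `v ≡ α v'`, and `((y : ℤ), (y' : ℤ)) ∈ Pos q β Y`. So the fibre
of `(v, v', y, y') ↦ (α, β)` injects into `Pos q α V ×ˢ Pos q β Y`
(`card_eq_sum_card_fiberwise`, `sum_le_sum`). -/
theorem card_ZZ_le_sum (q V Y : ℕ) (hq : 0 < q) :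
    (ZZ q V Y).card ≤ ∑ t ∈ GG q, (Pos q t.1 V).card * (Pos q t.2 Y).card := by
  classical
  rw [card_eq_sum_card_fiberwise (s := ZZ q V Y) (t := GG q)
    (f := fun t : ℕ × ℕ × ℕ × ℕ => (D3_dv q t.1 t.2.1, D3_dv q t.2.2.2 t.2.2.1))]
  · refine sum_le_sum ?_
    rintro ⟨α, β⟩ _
    rw [← card_product]
    refine card_le_card_of_injOn (fun t : ℕ × ℕ × ℕ × ℕ =>
      ((((t.2.1 : ℕ) : ℤ), ((t.1 : ℕ) : ℤ)), (((t.2.2.1 : ℕ) : ℤ), ((t.2.2.2 : ℕ) : ℤ)))) ?_ ?_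
    · rintro ⟨v, v', y, y'⟩ ht
      rw [mem_coe, mem_filter, mem_ZZ] at ht
      obtain ⟨⟨⟨h1, h2, h3, h4⟩, ⟨h5, h6, h7, h8⟩, h9⟩, h10⟩ := ht
      simp only [Prod.mk.injEq] at h10
      rw [mem_coe, mem_product, mem_Pos, mem_Pos]
      refine ⟨⟨⟨⟨by exact_mod_cast h2.1, by exact_mod_cast h2.2⟩,
        ⟨by exact_mod_cast h1.1, by exact_mod_cast h1.2⟩⟩, ?_⟩,
        ⟨⟨by exact_mod_cast h3.1, by exact_mod_cast h3.2⟩,
        ⟨by exact_mod_cast h4.1, by exact_mod_cast h4.2⟩⟩, ?_⟩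
      · rw [← h10.1]
        exact D3_dvd q v v' hq h6
      · rw [← h10.2]
        exact D3_dvd q y' y hq h7
    · rintro ⟨v, v', y, y'⟩ _ ⟨w, w', z, z'⟩ _ h
      simp only [Prod.mk.injEq, Nat.cast_inj] at h ⊢
      tauto
  · rintro ⟨v, v', y, y'⟩ ht
    rw [mem_coe, mem_ZZ] at ht
    obtain ⟨⟨h1, h2, h3, h4⟩, ⟨h5, h6, h7, h8⟩, h9⟩ := ht
    rw [mem_coe, mem_GG]
    refine ⟨⟨⟨D3_lt q v v' hq, D3_cop q v v' hq h5 h6⟩, D3_lt q y' y hq, D3_cop q y' y hq h8 h7⟩, ?_⟩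
    rw [← ZMod.intCast_zmod_eq_zero_iff_dvd] at h9 ⊢
    push_cast at h9 ⊢
    rw [D3_cast q v v' hq, D3_cast q y' y hq]
    have hb := ZMod.coe_mul_inv_eq_one v' h6
    have hc := ZMod.coe_mul_inv_eq_one y h7
    linear_combination (((v' : ZMod q)⁻¹) ^ 3 * ((y : ZMod q)⁻¹) ^ 2) * h9 -
      ((v : ZMod q) ^ 3 * ((v' : ZMod q)⁻¹) ^ 3 * ((y : ZMod q) * (y : ZMod q)⁻¹ + 1)) * hc +
      ((y' : ZMod q) ^ 2 * ((y : ZMod q)⁻¹) ^ 2 *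
        (((v' : ZMod q) * (v' : ZMod q)⁻¹) ^ 2 + (v' : ZMod q) * (v' : ZMod q)⁻¹ + 1)) * hb

end Pool.Agent.PWF
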