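import Mathlib
import Pool.Agent.PWF.C1
import Pool.Agent.PWF.C2
import Pool.Agent.PWF.D1
import Pool.Agent.PWF.D2
import Pool.Agent.PWF.D3

set_option autoImplicit false

namespace Pool.Agent.PWF

open Finset

/-- For given `α` there are at most `2 D` residues `β` with `(α, β) ∈ GG q` (`card_sq_roots` with
`A = 1`, `C = α³`); for given `β` at most `9 D²` residues `α` (`card_cube_roots`). -/
theorem sum_GG_fst (q D : ℕ) (hq : 0 < q) (hD : DivB q D) (F : ℕ → ℝ) (hF : ∀ a, 0 ≤ F a) :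
    ∑ t ∈ GG q, F t.1 ≤ 2 * D * ∑ a ∈ Cop q, F a := by
  classical
  rw [← sum_fiberwise_of_maps_to (s := GG q) (t := Cop q) (g := fun t => t.1) (by
    rintro ⟨α, β⟩ ht
    rw [mem_GG] at ht
    rw [mem_Cop]
    exact ht.1.1), mul_sum]
  refine sum_le_sum fun a _ => ?_
  have h1 : ∑ t ∈ (GG q).filter (fun t => t.1 = a), F t.1 =
      (((GG q).filter (fun t => t.1 = a)).card : ℝ) * F a := by
    rw [← nsmul_eq_mul, ← sum_const]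
    exact sum_congr rfl fun t ht => by rw [(mem_filter.1 ht).2]
  rw [h1]
  refine mul_le_mul_of_nonneg_right ?_ (hF a)
  have h2 : ((GG q).filter (fun t => t.1 = a)).card ≤ 2 * D := by
    refine le_trans ?_ (le_trans (card_sq_roots q hq 1 ((a : ℤ) ^ 3) isCoprime_one_left)
      (Nat.mul_le_mul_left 2 (hD.2 q hq le_rfl)))
    refine card_le_card_of_injOn (fun t => t.2) ?_ ?_
    · rintro ⟨α, β⟩ ht
      rw [mem_coe, mem_filter, mem_GG] at ht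
      rw [mem_coe, mem_filter, mem_Cop]
      refine ⟨ht.1.1.2, ?_⟩
      have h3 : α = a := ht.2
      have h4 := (dvd_neg (α := ℤ)).2 ht.1.2
      rw [h3] at h4
      have h5 : (1 : ℤ) * (β : ℤ) ^ 2 - (a : ℤ) ^ 3 = -((a : ℤ) ^ 3 - (β : ℤ) ^ 2) := by ring
      show (q : ℤ) ∣ 1 * (β : ℤ) ^ 2 - (a : ℤ) ^ 3
      rw [h5]
      exact h4
    · rintro ⟨α, β⟩ ht ⟨α', β'⟩ ht' h
      rw [mem_coe, mem_filter] at ht ht'
      exact Prod.ext (ht.2.trans ht'.2.symm) h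
  exact_mod_cast h2

theorem sum_GG_snd (q D : ℕ) (hq : 0 < q) (hD : DivB q D) (F : ℕ → ℝ) (hF : ∀ a, 0 ≤ F a) :
    ∑ t ∈ GG q, F t.2 ≤ 9 * D ^ 2 * ∑ b ∈ Cop q, F b := by
  classical
  rw [← sum_fiberwise_of_maps_to (s := GG q) (t := Cop q) (g := fun t => t.2) (by
    rintro ⟨α, β⟩ ht
    rw [mem_GG] at ht
    rw [mem_Cop]
    exact ht.1.2), mul_sum]
  refine sum_le_sum fun b _ => ?_
  have h1 : ∑ t ∈ (GG q).filter (fun t => t.2 = b), F t.2 =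
      (((GG q).filter (fun t => t.2 = b)).card : ℝ) * F b := by
    rw [← nsmul_eq_mul, ← sum_const]
    exact sum_congr rfl fun t ht => by rw [(mem_filter.1 ht).2]
  rw [h1]
  refine mul_le_mul_of_nonneg_right ?_ (hF b)
  have h2 : ((GG q).filter (fun t => t.2 = b)).card ≤ 9 * D ^ 2 := by
    refine le_trans ?_ (le_trans (card_cube_roots q hq 1 ((b : ℤ) ^ 2) isCoprime_one_left)
      (Nat.mul_le_mul_left 9 (Nat.pow_le_pow_left (hD.2 q hq le_rfl) 2)))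
    refine card_le_card_of_injOn (fun t => t.1) ?_ ?_
    · rintro ⟨α, β⟩ ht
      rw [mem_coe, mem_filter, mem_GG] at ht
      rw [mem_coe, mem_filter, mem_Cop]
      refine ⟨ht.1.1.1, ?_⟩
      have h3 : β = b := ht.2
      have h4 := ht.1.2
      rw [h3] at h4
      show (q : ℤ) ∣ 1 * (α : ℤ) ^ 3 - (b : ℤ) ^ 2
      rw [one_mul]
      exact h4
    · rintro ⟨α, β⟩ ht ⟨α', β'⟩ ht' h
      rw [mem_coe, mem_filter] at ht ht'
      exact Prod.ext h (ht.2.trans ht'.2.symm)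
  exact_mod_cast h2

/-- If `q = 1` then `(ZZ q V Y).card ≤ V² Y²`; if `V = 0` or `Y = 0` it is empty. Let `q ≥ 2`,
`V, Y ≥ 1`, `V₁ = min V √q`, `Y₁ = min Y √q` (`Nat.sqrt`). By `card_Pos_le`, in real numbers,
`(Pos q α V).card ≤ a + κ Φ(α)` with `a = 8 V² / q`, `κ = 2 V / V₁`, `Φ(α) = (Vec q α V₁).card`, and
`(Pos q β Y).card ≤ b + κ' Ψ(β)` with `b = 8 Y² / q`, `κ' = 2 Y / Y₁`, `Ψ(β) = (Vec q β Y₁).card`.
By `card_ZZ_le_sum`, `card ≤ a b |GG| + a κ' ∑ Ψ(β) + b κ ∑ Φ(α) + κ κ' ∑ Φ(α) Ψ(β)`, sums over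
`GG q`. Here `|GG| ≤ 2 D q`; `∑ Ψ(β) ≤ 9 D² * 4 D Y₁²` and `∑ Φ(α) ≤ 2 D * 4 D V₁²`
(`sum_GG_snd`, `sum_GG_fst`, `sum_Vec`); and `Φ Ψ ≤ (Y₁ / (2 V₁)) Φ² + (V₁ / (2 Y₁)) Ψ²` with
`sum_Vec_sq` gives `∑ Φ Ψ ≤ 40 D³ V₁ Y₁ + 180 D⁴ V₁ Y₁ ≤ 220 D⁴ V₁ Y₁`. Total
`≤ 128 D V²Y²/q + 576 D³ V² Y Y₁/q + 128 D² V V₁ Y²/q + 880 D⁴ V Y ≤ 1728 D⁴ (V²Y²/q + V Y)`. -/
theorem card_ZZ (q V Y D : ℕ) (hq : 0 < q) (hD : DivB q D) :
    q * (ZZ q V Y).card ≤ 1728 * D ^ 4 * (V ^ 2 * Y ^ 2 + q * V * Y) := by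
  classical
  have hD1 : 1 ≤ D := hD.1
  have hD4 : 1 ≤ D ^ 4 := Nat.one_le_pow _ _ hD1
  -- trivial bound
  have htriv : (ZZ q V Y).card ≤ V ^ 2 * Y ^ 2 := by
    unfold ZZ
    refine (card_filter_le _ _).trans ?_
    rw [card_product, card_product, card_product, Nat.card_Icc, Nat.card_Icc]
    simp only [Nat.add_sub_cancel]
    exact le_of_eq (by ring)
  by_cases hq1 : q = 1
  · rw [hq1] at htriv ⊢
    calc 1 * (ZZ 1 V Y).card ≤ 1 * (V ^ 2 * Y ^ 2) := Nat.mul_le_mul_left _ htriv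
      _ ≤ 1728 * D ^ 4 * (V ^ 2 * Y ^ 2 + 1 * V * Y) :=
          Nat.mul_le_mul (by omega) (Nat.le_add_right _ _)
  have hq2 : 2 ≤ q := by omega
  by_cases hV0 : V = 0
  · rw [hV0] at htriv ⊢
    have : (ZZ q 0 Y).card = 0 := by
      have : (0 : ℕ) ^ 2 * Y ^ 2 = 0 := by ring
      omega
    rw [this, mul_zero]
    exact Nat.zero_le _
  by_cases hY0 : Y = 0
  · rw [hY0] at htriv ⊢
    have : (ZZ q V 0).card = 0 := by
      have : V ^ 2 * (0 : ℕ) ^ 2 = 0 := by ring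
      omega
    rw [this, mul_zero]
    exact Nat.zero_le _
  have hV : 0 < V := Nat.pos_of_ne_zero hV0
  have hY : 0 < Y := Nat.pos_of_ne_zero hY0
  have hs : 0 < Nat.sqrt q := Nat.sqrt_pos.2 hq
  set V1 := min V (Nat.sqrt q) with hV1
  set Y1 := min Y (Nat.sqrt q) with hY1
  have hV1p : 0 < V1 := lt_min hV hs
  have hY1p : 0 < Y1 := lt_min hY hs
  have hV1V : V1 ≤ V := min_le_left _ _
  have hY1Y : Y1 ≤ Y := min_le_left _ _
  -- real numbers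
  have rq : (0 : ℝ) < q := by exact_mod_cast hq
  have rV : (0 : ℝ) < V := by exact_mod_cast hV
  have rY : (0 : ℝ) < Y := by exact_mod_cast hY
  have rV1 : (0 : ℝ) < V1 := by exact_mod_cast hV1p
  have rY1 : (0 : ℝ) < Y1 := by exact_mod_cast hY1p
  have rVV : (V1 : ℝ) ≤ V := by exact_mod_cast hV1V
  have rYY : (Y1 : ℝ) ≤ Y := by exact_mod_cast hY1Y
  have rD : (1 : ℝ) ≤ D := by exact_mod_cast hD1
  set Φ : ℕ → ℝ := fun a => ((Vec q a V1).card : ℝ) with hΦ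
  set Ψ : ℕ → ℝ := fun a => ((Vec q a Y1).card : ℝ) with hΨ
  have hΦ0 : ∀ a, 0 ≤ Φ a := fun a => Nat.cast_nonneg _
  have hΨ0 : ∀ a, 0 ≤ Ψ a := fun a => Nat.cast_nonneg _
  set ca : ℝ := 8 * V ^ 2 / q with hca
  set cb : ℝ := 8 * Y ^ 2 / q with hcb
  set ka : ℝ := 2 * V / V1 with hka
  set kb : ℝ := 2 * Y / Y1 with hkb
  have hca0 : 0 ≤ ca := by positivity
  have hcb0 : 0 ≤ cb := by positivity
  have hka0 : 0 ≤ ka := by positivity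
  have hkb0 : 0 ≤ kb := by positivity
  have hP : ∀ a, ((Pos q a V).card : ℝ) ≤ ca + ka * Φ a := by
    intro a
    have h1 := card_Pos_le q a V hq hV
    rw [← hV1] at h1
    have h2 : (q : ℝ) * V1 * ((Pos q a V).card : ℝ) ≤ 8 * V1 * V ^ 2 + 2 * q * V * Φ a := by
      simp only [hΦ]
      exact_mod_cast h1
    have h3 : ca + ka * Φ a = (8 * V1 * V ^ 2 + 2 * q * V * Φ a) / (q * V1) := by
      rw [hca, hka]
      field_simp
    rw [h3, le_div_iff₀ (mul_pos rq rV1)]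
    linarith
  have hQ : ∀ a, ((Pos q a Y).card : ℝ) ≤ cb + kb * Ψ a := by
    intro a
    have h1 := card_Pos_le q a Y hq hY
    rw [← hY1] at h1
    have h2 : (q : ℝ) * Y1 * ((Pos q a Y).card : ℝ) ≤ 8 * Y1 * Y ^ 2 + 2 * q * Y * Ψ a := by
      simp only [hΨ]
      exact_mod_cast h1
    have h3 : cb + kb * Ψ a = (8 * Y1 * Y ^ 2 + 2 * q * Y * Ψ a) / (q * Y1) := by
      rw [hcb, hkb]
      field_simp
    rw [h3, le_div_iff₀ (mul_pos rq rY1)]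
    linarith
  -- the sums
  have hV1s : V1 ≤ Nat.sqrt q := min_le_right _ _
  have hY1s : Y1 ≤ Nat.sqrt q := min_le_right _ _
  have sG : ((GG q).card : ℝ) ≤ 2 * D * q := by
    have h1 := sum_GG_fst q D hq hD (fun _ => 1) (fun _ => zero_le_one)
    rw [sum_const, sum_const, nsmul_eq_mul, nsmul_eq_mul, mul_one, mul_one] at h1
    refine h1.trans ?_
    have h2 : ((Cop q).card : ℝ) ≤ q := by
      have h3 : (Cop q).card ≤ q := by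
        unfold Cop
        refine (card_filter_le _ _).trans ?_
        rw [card_range]
      exact_mod_cast h3
    exact mul_le_mul_of_nonneg_left h2 (by positivity)
  have sΨ : ∑ t ∈ GG q, Ψ t.2 ≤ 36 * D ^ 3 * Y1 ^ 2 := by
    have h1 := sum_GG_snd q D hq hD Ψ hΨ0
    have h2 : ∑ b ∈ Cop q, Ψ b ≤ 4 * D * Y1 ^ 2 := by
      have h3 := sum_Vec q Y1 D hq2 hY1s hD
      simp only [hΨ]
      exact_mod_cast h3
    calc ∑ t ∈ GG q, Ψ t.2 ≤ 9 * D ^ 2 * ∑ b ∈ Cop q, Ψ b := h1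
      _ ≤ 9 * D ^ 2 * (4 * D * Y1 ^ 2) := mul_le_mul_of_nonneg_left h2 (by positivity)
      _ = 36 * D ^ 3 * Y1 ^ 2 := by ring
  have sΦ : ∑ t ∈ GG q, Φ t.1 ≤ 8 * D ^ 2 * V1 ^ 2 := by
    have h1 := sum_GG_fst q D hq hD Φ hΦ0
    have h2 : ∑ b ∈ Cop q, Φ b ≤ 4 * D * V1 ^ 2 := by
      have h3 := sum_Vec q V1 D hq2 hV1s hD
      simp only [hΦ]
      exact_mod_cast h3
    calc ∑ t ∈ GG q, Φ t.1 ≤ 2 * D * ∑ b ∈ Cop q, Φ b := h1
      _ ≤ 2 * D * (4 * D * V1 ^ 2) := mul_le_mul_of_nonneg_left h2 (by positivity)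
      _ = 8 * D ^ 2 * V1 ^ 2 := by ring
  have sΨ2 : ∑ t ∈ GG q, Ψ t.2 ^ 2 ≤ 360 * D ^ 4 * Y1 ^ 2 := by
    have h1 := sum_GG_snd q D hq hD (fun b => Ψ b ^ 2) (fun b => by positivity)
    have h2 : ∑ b ∈ Cop q, Ψ b ^ 2 ≤ 40 * D ^ 2 * Y1 ^ 2 := by
      have h3 := sum_Vec_sq q Y1 D hq2 hY1s hD
      simp only [hΨ]
      exact_mod_cast h3
    calc ∑ t ∈ GG q, Ψ t.2 ^ 2 ≤ 9 * D ^ 2 * ∑ b ∈ Cop q, Ψ b ^ 2 := h1
      _ ≤ 9 * D ^ 2 * (40 * D ^ 2 * Y1 ^ 2) := mul_le_mul_of_nonneg_left h2 (by positivity)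
      _ = 360 * D ^ 4 * Y1 ^ 2 := by ring
  have sΦ2 : ∑ t ∈ GG q, Φ t.1 ^ 2 ≤ 80 * D ^ 3 * V1 ^ 2 := by
    have h1 := sum_GG_fst q D hq hD (fun b => Φ b ^ 2) (fun b => by positivity)
    have h2 : ∑ b ∈ Cop q, Φ b ^ 2 ≤ 40 * D ^ 2 * V1 ^ 2 := by
      have h3 := sum_Vec_sq q V1 D hq2 hV1s hD
      simp only [hΦ]
      exact_mod_cast h3
    calc ∑ t ∈ GG q, Φ t.1 ^ 2 ≤ 2 * D * ∑ b ∈ Cop q, Φ b ^ 2 := h1
      _ ≤ 2 * D * (40 * D ^ 2 * V1 ^ 2) := mul_le_mul_of_nonneg_left h2 (by positivity)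
      _ = 80 * D ^ 3 * V1 ^ 2 := by ring
  have sΦΨ : ∑ t ∈ GG q, Φ t.1 * Ψ t.2 ≤ 220 * D ^ 4 * (V1 * Y1) := by
    have h1 : ∀ t ∈ GG q, Φ t.1 * Ψ t.2 ≤
        Y1 / (2 * V1) * Φ t.1 ^ 2 + V1 / (2 * Y1) * Ψ t.2 ^ 2 := by
      intro t _
      have h2 : Y1 / (2 * V1) * Φ t.1 ^ 2 + V1 / (2 * Y1) * Ψ t.2 ^ 2 - Φ t.1 * Ψ t.2 =
          (Y1 * Φ t.1 - V1 * Ψ t.2) ^ 2 / (2 * V1 * Y1) := by
        field_simp
        ring
      have h3 : 0 ≤ (Y1 * Φ t.1 - V1 * Ψ t.2) ^ 2 / (2 * V1 * Y1) := by positivity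
      linarith
    have h2 : (D : ℝ) ^ 3 ≤ D ^ 4 := pow_le_pow_right₀ rD (by norm_num)
    calc ∑ t ∈ GG q, Φ t.1 * Ψ t.2
        ≤ ∑ t ∈ GG q, (Y1 / (2 * V1) * Φ t.1 ^ 2 + V1 / (2 * Y1) * Ψ t.2 ^ 2) := sum_le_sum h1
      _ = Y1 / (2 * V1) * ∑ t ∈ GG q, Φ t.1 ^ 2 + V1 / (2 * Y1) * ∑ t ∈ GG q, Ψ t.2 ^ 2 := by
          rw [sum_add_distrib, mul_sum, mul_sum]
      _ ≤ Y1 / (2 * V1) * (80 * D ^ 3 * V1 ^ 2) + V1 / (2 * Y1) * (360 * D ^ 4 * Y1 ^ 2) :=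
          add_le_add (mul_le_mul_of_nonneg_left sΦ2 (by positivity))
            (mul_le_mul_of_nonneg_left sΨ2 (by positivity))
      _ = 40 * D ^ 3 * (V1 * Y1) + 180 * D ^ 4 * (V1 * Y1) := by
          field_simp
          ring
      _ ≤ 40 * D ^ 4 * (V1 * Y1) + 180 * D ^ 4 * (V1 * Y1) := by
          have h3 : (0 : ℝ) ≤ V1 * Y1 := by positivity
          nlinarith [mul_le_mul_of_nonneg_right h2 h3]
      _ = 220 * D ^ 4 * (V1 * Y1) := by ring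
  have hmain : ((ZZ q V Y).card : ℝ) ≤ ca * cb * (2 * D * q) + ca * kb * (36 * D ^ 3 * Y1 ^ 2) +
      cb * ka * (8 * D ^ 2 * V1 ^ 2) + ka * kb * (220 * D ^ 4 * (V1 * Y1)) := by
    have h1 := card_ZZ_le_sum q V Y hq
    have h2 : ((ZZ q V Y).card : ℝ) ≤
        ∑ t ∈ GG q, ((Pos q t.1 V).card : ℝ) * ((Pos q t.2 Y).card : ℝ) := by
      exact_mod_cast h1
    calc ((ZZ q V Y).card : ℝ)
        ≤ ∑ t ∈ GG q, ((Pos q t.1 V).card : ℝ) * ((Pos q t.2 Y).card : ℝ) := h2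
      _ ≤ ∑ t ∈ GG q, (ca + ka * Φ t.1) * (cb + kb * Ψ t.2) := by
          refine sum_le_sum fun t _ => ?_
          refine mul_le_mul (hP t.1) (hQ t.2) (Nat.cast_nonneg _) ?_
          have := hΦ0 t.1
          positivity
      _ = ca * cb * (GG q).card + ca * kb * ∑ t ∈ GG q, Ψ t.2 +
          cb * ka * ∑ t ∈ GG q, Φ t.1 + ka * kb * ∑ t ∈ GG q, Φ t.1 * Ψ t.2 := by
          have h3 : ∀ t ∈ GG q, (ca + ka * Φ t.1) * (cb + kb * Ψ t.2) =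
              ca * cb + ca * kb * Ψ t.2 + cb * ka * Φ t.1 + ka * kb * (Φ t.1 * Ψ t.2) := by
            intro t _
            ring
          rw [sum_congr rfl h3, sum_add_distrib, sum_add_distrib, sum_add_distrib, sum_const,
            nsmul_eq_mul, mul_sum, mul_sum, mul_sum]
          ring
      _ ≤ _ := by
          refine add_le_add (add_le_add (add_le_add ?_ ?_) ?_) ?_
          · exact mul_le_mul_of_nonneg_left sG (by positivity)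
          · exact mul_le_mul_of_nonneg_left sΨ (by positivity)
          · exact mul_le_mul_of_nonneg_left sΦ (by positivity)
          · exact mul_le_mul_of_nonneg_left sΦΨ (by positivity)
  have hfin : (q : ℝ) * (ca * cb * (2 * D * q) + ca * kb * (36 * D ^ 3 * Y1 ^ 2) +
      cb * ka * (8 * D ^ 2 * V1 ^ 2) + ka * kb * (220 * D ^ 4 * (V1 * Y1))) =
      128 * D * (V ^ 2 * Y ^ 2) + 576 * D ^ 3 * (V ^ 2 * Y * Y1) + 128 * D ^ 2 * (V * V1 * Y ^ 2) +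
        880 * D ^ 4 * (q * V * Y) := by
    rw [hca, hcb, hka, hkb]
    field_simp
    ring
  have hreal : (q : ℝ) * ((ZZ q V Y).card : ℝ) ≤
      1728 * D ^ 4 * (V ^ 2 * Y ^ 2 + q * V * Y) := by
    have h1 := mul_le_mul_of_nonneg_left hmain rq.le
    rw [hfin] at h1
    refine h1.trans ?_
    have d1 : (D : ℝ) ≤ D ^ 4 := le_self_pow₀ rD (by norm_num)
    have d2 : (D : ℝ) ^ 2 ≤ D ^ 4 := pow_le_pow_right₀ rD (by norm_num)
    have d3 : (D : ℝ) ^ 3 ≤ D ^ 4 := pow_le_pow_right₀ rD (by norm_num)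
    have t0 : (0 : ℝ) ≤ V ^ 2 * Y ^ 2 := by positivity
    have t1 : (V : ℝ) ^ 2 * Y * Y1 ≤ V ^ 2 * Y ^ 2 := by
      have : (V : ℝ) ^ 2 * Y * Y1 ≤ V ^ 2 * Y * Y := mul_le_mul_of_nonneg_left rYY (by positivity)
      linarith [show (V : ℝ) ^ 2 * Y * Y = V ^ 2 * Y ^ 2 by ring]
    have t2 : (V : ℝ) * V1 * Y ^ 2 ≤ V ^ 2 * Y ^ 2 := by
      have : (V : ℝ) * V1 * Y ^ 2 ≤ V * V * Y ^ 2 :=
        mul_le_mul_of_nonneg_right (mul_le_mul_of_nonneg_left rVV rV.le) (by positivity)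
      linarith [show (V : ℝ) * V * Y ^ 2 = V ^ 2 * Y ^ 2 by ring]
    have s1 : (D : ℝ) * (V ^ 2 * Y ^ 2) ≤ D ^ 4 * (V ^ 2 * Y ^ 2) :=
      mul_le_mul_of_nonneg_right d1 t0
    have s2 : (D : ℝ) ^ 3 * (V ^ 2 * Y * Y1) ≤ D ^ 4 * (V ^ 2 * Y ^ 2) :=
      mul_le_mul d3 t1 (by positivity) (by positivity)
    have s3 : (D : ℝ) ^ 2 * (V * V1 * Y ^ 2) ≤ D ^ 4 * (V ^ 2 * Y ^ 2) :=
      mul_le_mul d2 t2 (by positivity) (by positivity)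
    have s4 : (0 : ℝ) ≤ D ^ 4 * (V ^ 2 * Y ^ 2) := by positivity
    have s5 : (0 : ℝ) ≤ D ^ 4 * (q * V * Y) := by positivity
    nlinarith
  exact_mod_cast hreal

end Pool.Agent.PWF
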