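import Mathlib
import Pool.Agent.PWF.B1

set_option autoImplicit false

namespace Pool.Agent.PWF

open Finset

private theorem E1_inj (x x' z z' : ℕ) (h1 : x ≠ x')
    (h2 : (x' : ℤ) ^ 2 - (x : ℤ) ^ 2 = (z' : ℤ) ^ 2 - (z : ℤ) ^ 2)
    (h3 : (x - x') + (x' - x) = (z - z') + (z' - z)) : x = z ∧ x' = z' := by
  have e1 : ((x' : ℤ) - x) * (x' + x) = ((z' : ℤ) - z) * (z' + z) := by linear_combination h2
  have hcan : ∀ p q r : ℤ, p ≠ 0 → p * q = p * r → q = r := fun p q r hp h =>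
    mul_left_cancel₀ hp h
  rcases lt_or_gt_of_ne h1 with hlt | hlt
  · have hz : z < z' := by
      by_contra hc
      have h4 : (z' : ℤ) ≤ z := by omega
      have h5 : ((z' : ℤ) - z) * (z' + z) ≤ 0 :=
        mul_nonpos_of_nonpos_of_nonneg (by omega) (by omega)
      have h6 : 0 < ((x' : ℤ) - x) * (x' + x) := mul_pos (by omega) (by omega)
      omega
    have h4 : (x' : ℤ) - x = z' - z := by omega
    rw [h4] at e1
    have h5 := hcan _ _ _ (by omega) e1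
    omega
  · have hz : z' < z := by
      by_contra hc
      have h4 : (z : ℤ) ≤ z' := by omega
      have h5 : 0 ≤ ((z' : ℤ) - z) * (z' + z) := mul_nonneg (by omega) (by omega)
      have h6 : 0 < ((x : ℤ) - x') * (x' + x) := mul_pos (by omega) (by omega)
      have h7 : ((x' : ℤ) - x) * (x' + x) = -(((x : ℤ) - x') * (x' + x)) := by ring
      omega
    have h4 : (x' : ℤ) - x = z' - z := by omega
    rw [h4] at e1
    have h5 := hcan _ _ _ (by omega) e1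
    omega

private theorem E1_cop {e u x f v y : ℕ} (h : Nat.Coprime (e * u * x) (f * v * y)) :
    Nat.Coprime (e * u ^ 3) f ∧ Nat.Coprime v (e * u ^ 3) ∧ Nat.Coprime y (e * u ^ 3) := by
  have h1 : Nat.Coprime (e * u) (f * v * y) := Nat.Coprime.coprime_mul_right h
  have h2 : Nat.Coprime e (f * v * y) := Nat.Coprime.coprime_mul_right h1
  have h3 : Nat.Coprime u (f * v * y) := Nat.Coprime.coprime_mul_left h1
  have h4 : Nat.Coprime (e * u ^ 3) (f * v * y) := Nat.Coprime.mul_left h2 (Nat.Coprime.pow_left 3 h3)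
  have h5 : Nat.Coprime (e * u ^ 3) (f * v) := Nat.Coprime.coprime_mul_right_right h4
  have h6 : Nat.Coprime (e * u ^ 3) y := Nat.Coprime.coprime_mul_left_right h4
  exact ⟨Nat.Coprime.coprime_mul_right_right h5,
    (Nat.Coprime.coprime_mul_left_right h5).symm, h6.symm⟩

private theorem E1_facts {e f M U W V Y : ℕ} (he : 0 < e) (hf : 0 < f)
    {m u x v y u' x' v' y' : ℕ}
    (h : (m, (u, x, v, y), (u', x', v', y')) ∈ OffU e f M U W V Y) :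
    u' = u ∧ 0 < u ∧ x ≠ x' ∧
      (e : ℤ) * u ^ 3 * ((x' : ℤ) ^ 2 - x ^ 2) =
        f * ((v : ℤ) ^ 3 * y ^ 2 - (v' : ℤ) ^ 3 * y' ^ 2) ∧
      e * u ^ 3 * x ^ 2 + f * v ^ 3 * y ^ 2 = m ∧ (U ≤ u ∧ u < 2 * U) ∧
      (v, v', y, y') ∈ ZZ (e * u ^ 3) (2 * V) (2 * Y) ∧ e * u ^ 3 ≤ M ∧ x ^ 2 ≤ M ∧
      x' ^ 2 ≤ M := by
  rw [mem_OffU] at h
  obtain ⟨⟨hm1, hm2⟩, ⟨ht, ht'⟩, hne, hu⟩ := h
  have huu : u' = u := (show u = u' from hu).symm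
  subst huu
  have hxx : x ≠ x' := by
    intro hxx
    exact hne (Box_eq_of_ux e f m U W V Y he hf _ _ ht ht' rfl hxx)
  obtain ⟨hT, hBu, hBx, hBv, hBy⟩ := (mem_Box e f m U W V Y _ _ _ _).1 ht
  obtain ⟨hT', _, hBx', hBv', hBy'⟩ := (mem_Box e f m U W V Y _ _ _ _).1 ht'
  obtain ⟨⟨p1, p2, p3, p4⟩, heq, hcop, _, _⟩ := (mem_Tup e f m _ _ _ _ he hf).1 hT
  obtain ⟨⟨p1', p2', p3', p4'⟩, heq', hcop', _, _⟩ := (mem_Tup e f m _ _ _ _ he hf).1 hT'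
  have hid : (e : ℤ) * u' ^ 3 * ((x' : ℤ) ^ 2 - x ^ 2) =
      f * ((v : ℤ) ^ 3 * y ^ 2 - (v' : ℤ) ^ 3 * y' ^ 2) := by
    have h1 : (e : ℤ) * u' ^ 3 * x ^ 2 + f * v ^ 3 * y ^ 2 = m := by exact_mod_cast heq
    have h2 : (e : ℤ) * u' ^ 3 * x' ^ 2 + f * v' ^ 3 * y' ^ 2 = m := by exact_mod_cast heq'
    linear_combination h2 - h1
  obtain ⟨c1, c2, c3⟩ := E1_cop hcop
  obtain ⟨_, c2', c3'⟩ := E1_cop hcop'
  have hpos : 0 < e * u' ^ 3 := Nat.mul_pos he (Nat.pow_pos p1)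
  have hb1 : e * u' ^ 3 * x ^ 2 ≤ M := by
    refine le_trans ?_ hm2
    rw [← heq]
    exact Nat.le_add_right _ _
  have hb2 : e * u' ^ 3 * x' ^ 2 ≤ M := by
    refine le_trans ?_ hm2
    rw [← heq']
    exact Nat.le_add_right _ _
  refine ⟨rfl, p1, hxx, hid, heq, hBu, ?_, ?_, ?_, ?_⟩
  · rw [mem_ZZ]
    refine ⟨⟨⟨p3, by omega⟩, ⟨p3', by omega⟩, ⟨p4, by omega⟩, ⟨p4', by omega⟩⟩,
      ⟨c2, c2', c3, c3'⟩, ?_⟩
    have h1 : ((e * u' ^ 3 : ℕ) : ℤ) ∣ f * ((v : ℤ) ^ 3 * y ^ 2 - (v' : ℤ) ^ 3 * y' ^ 2) := by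
      rw [← hid]
      push_cast
      exact Dvd.intro _ rfl
    exact (Nat.Coprime.isCoprime c1).dvd_of_dvd_mul_left h1
  · exact (Nat.le_mul_of_pos_right _ (Nat.pow_pos p2)).trans hb1
  · exact (Nat.le_mul_of_pos_left _ hpos).trans hb1
  · exact (Nat.le_mul_of_pos_left _ hpos).trans hb2

/-- Map `(m, (u, x, v, y), (u, x', v', y')) ∈ OffU` to `(u, (v, v', y, y'))`. The tuples differ and
have the same `u`, so `x ≠ x'` (`Box_eq_of_ux`). From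
`e u³ x² + f v³ y² = m = e u³ x'² + f v'³ y'²` and the coprimality of `e u` and `f`:
`e u³ ∣ v³ y² - v'³ y'²`, and `v, y, v', y'` are coprime to `e u³` (from
`Coprime (e u x) (f v y)`), so `(v, v', y, y') ∈ ZZ (e u³) (2 V) (2 Y)`; `e u³ ≤ m ≤ M`. For given
`(u, v, v', y, y')` the number `h = |x² - x'²| = f |v³ y² - v'³ y'²| / (e u³)` is determined,
`1 ≤ h ≤ M`, the order of `x`, `x'` is determined by the order of `v³ y²`, `v'³ y'²`, and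
`h = |x - x'| (x + x')`, so `(x, x')` and with it `m` is determined by the divisor `|x - x'|` of
`h`: at most `D` elements in each fibre. (Compare the proof of `card_Quad` in `MeanSq.lean`.) -/
theorem card_OffU_le (e f M U W V Y D : ℕ) (he : 0 < e) (hf : 0 < f) (hD : DivB M D) :
    (OffU e f M U W V Y).card ≤ D * ∑ u ∈ Ico U (2 * U),
      if 0 < u ∧ e * u ^ 3 ≤ M then (ZZ (e * u ^ 3) (2 * V) (2 * Y)).card else 0 := by
  classical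
  set T : Finset (Σ _ : ℕ, ℕ × ℕ × ℕ × ℕ) :=
    ((Ico U (2 * U)).filter (fun u => 0 < u ∧ e * u ^ 3 ≤ M)).sigma
      (fun u => ZZ (e * u ^ 3) (2 * V) (2 * Y)) with hT
  have hTc : T.card = ∑ u ∈ Ico U (2 * U),
      if 0 < u ∧ e * u ^ 3 ≤ M then (ZZ (e * u ^ 3) (2 * V) (2 * Y)).card else 0 := by
    rw [hT, card_sigma, sum_filter]
  rw [← hTc]
  refine card_le_mul_card_image_of_maps_to
    (f := fun a : ℕ × (ℕ × ℕ × ℕ × ℕ) × (ℕ × ℕ × ℕ × ℕ) =>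
      (⟨a.2.1.1, (a.2.1.2.2.1, a.2.2.2.2.1, a.2.1.2.2.2, a.2.2.2.2.2)⟩ :
        Σ _ : ℕ, ℕ × ℕ × ℕ × ℕ)) ?_ D ?_
  · rintro ⟨m, ⟨u, x, v, y⟩, ⟨u', x', v', y'⟩⟩ h
    obtain ⟨_, h1, _, _, _, h2, h3, h4, _⟩ := E1_facts he hf h
    rw [hT, mem_sigma, mem_filter, mem_Ico]
    exact ⟨⟨h2, h1, h4⟩, h3⟩
  · rintro ⟨u, v, v', y, y'⟩ _
    set F := (OffU e f M U W V Y).filter
      (fun a : ℕ × (ℕ × ℕ × ℕ × ℕ) × (ℕ × ℕ × ℕ × ℕ) =>
        (⟨a.2.1.1, (a.2.1.2.2.1, a.2.2.2.2.1, a.2.1.2.2.2, a.2.2.2.2.2)⟩ :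
          Σ _ : ℕ, ℕ × ℕ × ℕ × ℕ) = ⟨u, v, v', y, y'⟩) with hF
    rcases F.eq_empty_or_nonempty with h0 | ⟨⟨m0, ⟨u0, x0, v0, y0⟩, ⟨u0', x0', v0', y0'⟩⟩, h0⟩
    · rw [h0, card_empty]
      exact Nat.zero_le _
    have hmem : ∀ m u1 x v1 y1 u1' x' v1' y1', (m, (u1, x, v1, y1), (u1', x', v1', y1')) ∈ F →
        u1 = u ∧ v1 = v ∧ y1 = y ∧ u1' = u ∧ v1' = v' ∧ y1' = y' ∧ 0 < u ∧ x ≠ x' ∧
        (e : ℤ) * u ^ 3 * ((x' : ℤ) ^ 2 - x ^ 2) =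
          f * ((v : ℤ) ^ 3 * y ^ 2 - (v' : ℤ) ^ 3 * y' ^ 2) ∧
        e * u ^ 3 * x ^ 2 + f * v ^ 3 * y ^ 2 = m ∧ x ^ 2 ≤ M ∧ x' ^ 2 ≤ M := by
      intro m u1 x v1 y1 u1' x' v1' y1' h
      obtain ⟨h1, h2⟩ := mem_filter.1 h
      simp only [Sigma.mk.injEq, heq_eq_eq, Prod.mk.injEq] at h2
      obtain ⟨e1, e2, e3, e4, e5⟩ := h2
      subst e1 e2 e3 e4 e5
      obtain ⟨g1, g2, g3, g4, g5, _, _, _, g6, g7⟩ := E1_facts he hf h1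
      exact ⟨rfl, rfl, rfl, g1, rfl, rfl, g2, g3, g4, g5, g6, g7⟩
    obtain ⟨_, _, _, _, _, _, k1, k2, k3, _, k5, k6⟩ := hmem _ _ _ _ _ _ _ _ _ h0
    have heu : (e : ℤ) * u ^ 3 ≠ 0 := by positivity
    set c : ℤ := (x0' : ℤ) ^ 2 - (x0 : ℤ) ^ 2 with hc
    have hcne : c ≠ 0 := by
      intro h
      have h1 : (x0' : ℤ) ^ 2 = (x0 : ℤ) ^ 2 := by linarith
      have h2 : x0' ^ 2 = x0 ^ 2 := by exact_mod_cast h1
      exact k2 (Nat.pow_left_injective (n := 2) (by norm_num) h2).symm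
    have hcM : c.natAbs ≤ M := by
      have q1 : (x0 : ℤ) ^ 2 ≤ M := by exact_mod_cast k5
      have q2 : (x0' : ℤ) ^ 2 ≤ M := by exact_mod_cast k6
      have q3 : (0 : ℤ) ≤ (x0 : ℤ) ^ 2 := by positivity
      have q4 : (0 : ℤ) ≤ (x0' : ℤ) ^ 2 := by positivity
      omega
    have hcD := hD.2 c.natAbs (Nat.one_le_iff_ne_zero.2 (Int.natAbs_ne_zero.2 hcne)) hcM
    refine le_trans ?_ hcD
    have hall : ∀ m u1 x v1 y1 u1' x' v1' y1', (m, (u1, x, v1, y1), (u1', x', v1', y1')) ∈ F →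
        (x' : ℤ) ^ 2 - x ^ 2 = c := by
      intro m u1 x v1 y1 u1' x' v1' y1' h
      obtain ⟨_, _, _, _, _, _, _, _, g3, _⟩ := hmem _ _ _ _ _ _ _ _ _ h
      exact mul_left_cancel₀ heu (g3.trans k3.symm)
    refine card_le_card_of_injOn (fun a : ℕ × (ℕ × ℕ × ℕ × ℕ) × (ℕ × ℕ × ℕ × ℕ) =>
      (a.2.1.2.1 - a.2.2.2.1) + (a.2.2.2.1 - a.2.1.2.1)) ?_ ?_
    · rintro ⟨m, ⟨u1, x, v1, y1⟩, ⟨u1', x', v1', y1'⟩⟩ h
      have h1 := hall _ _ _ _ _ _ _ _ _ h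
      rw [mem_coe, Nat.mem_divisors]
      refine ⟨?_, Int.natAbs_ne_zero.2 hcne⟩
      rw [← Int.natCast_dvd_natCast, Int.dvd_natAbs, ← h1]
      show (((x - x') + (x' - x) : ℕ) : ℤ) ∣ _
      have h2 : (x' : ℤ) ^ 2 - x ^ 2 = (x' - x) * (x' + x) := by ring
      rw [h2]
      rcases le_total x x' with h3 | h3
      · have h4 : (((x - x') + (x' - x) : ℕ) : ℤ) = (x' : ℤ) - x := by omega
        rw [h4]
        exact Dvd.intro _ rfl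
      · have h4 : (((x - x') + (x' - x) : ℕ) : ℤ) = -((x' : ℤ) - x) := by omega
        rw [h4, neg_dvd]
        exact Dvd.intro _ rfl
    · rintro ⟨m, ⟨u1, x, v1, y1⟩, ⟨u1', x', v1', y1'⟩⟩ h ⟨n, ⟨u2, z, v2, y2⟩, ⟨u2', z', v2', y2'⟩⟩ h' hh
      have r1 := hall _ _ _ _ _ _ _ _ _ (mem_coe.1 h)
      have r2 := hall _ _ _ _ _ _ _ _ _ (mem_coe.1 h')
      obtain ⟨a1, a2, a3, a4, a5, a6, _, a7, _, a8, _⟩ := hmem _ _ _ _ _ _ _ _ _ (mem_coe.1 h)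
      obtain ⟨b1, b2, b3, b4, b5, b6, _, b7, _, b8, _⟩ := hmem _ _ _ _ _ _ _ _ _ (mem_coe.1 h')
      obtain ⟨s1, s2⟩ := E1_inj x x' z z' a7 (r1.trans r2.symm) hh
      subst s1 s2 a1 a2 a3 a5 a6 b2 b3 b5 b6
      rw [a4, b4, b1, ← a8, ← b8]

end Pool.Agent.PWF
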