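import Mathlib
import Pool.Agent.PWF.B1

set_option autoImplicit false

namespace Pool.Agent.PWF

open Finset

theorem E2_facts (e f M U W V Y : ℕ) (he : 0 < e) (hf : 0 < f) (m u x v y u' x' v' y' : ℕ)
    (h : (m, (u, x, v, y), (u', x', v', y')) ∈ OffW e f M U W V Y) :
    x' = x ∧ u ≠ u' ∧ m ≤ M ∧ (0 < u ∧ 0 < x ∧ 0 < v ∧ 0 < y) ∧ (0 < u' ∧ 0 < v' ∧ 0 < y') ∧
      (W ≤ x ∧ x < 2 * W) ∧ (v < 2 * V ∧ y < 2 * Y) ∧ (v' < 2 * V ∧ y' < 2 * Y) ∧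
      e * u ^ 3 * x ^ 2 + f * v ^ 3 * y ^ 2 = m ∧ e * u' ^ 3 * x ^ 2 + f * v' ^ 3 * y' ^ 2 = m ∧
      Nat.Coprime (e * u * x) (f * v * y) ∧ Nat.Coprime (e * u' * x) (f * v' * y') := by
  rw [mem_OffW] at h
  obtain ⟨⟨-, hm⟩, ⟨ht, ht'⟩, hne, hx⟩ := h
  simp only at hx
  subst hx
  have hu : u ≠ u' := by
    intro hu
    exact hne (Box_eq_of_ux e f m U W V Y he hf _ _ ht ht' hu rfl)
  rw [mem_Box, mem_Tup _ _ _ _ _ _ _ he hf] at ht ht'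
  obtain ⟨⟨⟨h1, h2, h3, h4⟩, h5, h6, -, -⟩, -, h7, h8, h9⟩ := ht
  obtain ⟨⟨⟨g1, g2, g3, g4⟩, g5, g6, -, -⟩, -, g7, g8, g9⟩ := ht'
  exact ⟨rfl, hu, hm, ⟨h1, h2, h3, h4⟩, ⟨g1, g3, g4⟩, h7, ⟨h8.2, h9.2⟩, ⟨g8.2, g9.2⟩, h5, g5,
    h6, g6⟩

/-- the first coordinates in a fibre have the same difference of cubes -/
theorem E2_diff (e f m u x v y u' v' y' : ℕ)
    (h1 : e * u ^ 3 * x ^ 2 + f * v ^ 3 * y ^ 2 = m)
    (h2 : e * u' ^ 3 * x ^ 2 + f * v' ^ 3 * y' ^ 2 = m) :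
    ((e * x ^ 2 : ℕ) : ℤ) * ((u' : ℤ) ^ 3 - (u : ℤ) ^ 3) =
      (f : ℤ) * ((v : ℤ) ^ 3 * (y : ℤ) ^ 2 - (v' : ℤ) ^ 3 * (y' : ℤ) ^ 2) := by
  have h3 : ((e * u ^ 3 * x ^ 2 + f * v ^ 3 * y ^ 2 : ℕ) : ℤ) =
      ((e * u' ^ 3 * x ^ 2 + f * v' ^ 3 * y' ^ 2 : ℕ) : ℤ) := by
    rw [h1, h2]
  push_cast at h3 ⊢
  linear_combination -h3

theorem E2_mem (e f M U W V Y : ℕ) (he : 0 < e) (hf : 0 < f) (m u x v y u' x' v' y' : ℕ)
    (h : (m, (u, x, v, y), (u', x', v', y')) ∈ OffW e f M U W V Y) :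
    (0 < x ∧ e * x ^ 2 ≤ M) ∧ (v, v', y, y') ∈ ZZ (e * x ^ 2) (2 * V) (2 * Y) := by
  obtain ⟨rfl, hu, hm, ⟨h1, h2, h3, h4⟩, ⟨g1, g3, g4⟩, h7, ⟨h8, h9⟩, ⟨g8, g9⟩, h5, g5, h6, g6⟩ :=
    E2_facts e f M U W V Y he hf m u x v y u' x' v' y' h
  have hle : e * x' ^ 2 ≤ M := by
    have k1 : e * x' ^ 2 ≤ e * u ^ 3 * x' ^ 2 := by
      have : 1 ≤ u ^ 3 := Nat.one_le_pow _ _ h1
      calc e * x' ^ 2 ≤ (e * x' ^ 2) * u ^ 3 := Nat.le_mul_of_pos_right _ this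
        _ = e * u ^ 3 * x' ^ 2 := by ring
    omega
  have hc1 : ∀ w : ℕ, w ∣ f * v * y → Nat.Coprime w (e * x' ^ 2) := by
    intro w hw
    have k1 : Nat.Coprime (e * u * x') w := Nat.Coprime.coprime_dvd_right hw h6
    have k2 : Nat.Coprime e w := Nat.Coprime.coprime_dvd_left ⟨u * x', by ring⟩ k1
    have k3 : Nat.Coprime x' w := Nat.Coprime.coprime_dvd_left ⟨e * u, by ring⟩ k1
    exact (Nat.Coprime.mul_left k2 (k3.pow_left 2)).symm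
  have hc2 : ∀ w : ℕ, w ∣ f * v' * y' → Nat.Coprime w (e * x' ^ 2) := by
    intro w hw
    have k1 : Nat.Coprime (e * u' * x') w := Nat.Coprime.coprime_dvd_right hw g6
    have k2 : Nat.Coprime e w := Nat.Coprime.coprime_dvd_left ⟨u' * x', by ring⟩ k1
    have k3 : Nat.Coprime x' w := Nat.Coprime.coprime_dvd_left ⟨e * u', by ring⟩ k1
    exact (Nat.Coprime.mul_left k2 (k3.pow_left 2)).symm
  refine ⟨⟨h2, hle⟩, ?_⟩
  rw [mem_ZZ]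
  refine ⟨⟨⟨h3, h8.le⟩, ⟨g3, g8.le⟩, ⟨h4, h9.le⟩, ⟨g4, g9.le⟩⟩,
    ⟨hc1 v ⟨f * y, by ring⟩, hc2 v' ⟨f * y', by ring⟩, hc1 y ⟨f * v, by ring⟩,
      hc2 y' ⟨f * v', by ring⟩⟩, ?_⟩
  have hd := E2_diff e f m u x' v y u' v' y' h5 g5
  have hcop : IsCoprime ((e * x' ^ 2 : ℕ) : ℤ) (f : ℤ) :=
    Nat.isCoprime_iff_coprime.mpr (hc1 f ⟨v * y, by ring⟩).symm
  exact hcop.dvd_of_dvd_mul_left ⟨_, hd.symm⟩

/-- the pair `(u, u')` is determined by the difference of the cubes and `|u' - u|` -/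
theorem E2_inj (u u' w w' : ℕ) (hu : 0 < u) (hu' : 0 < u') (hw : 0 < w) (hw' : 0 < w')
    (hne : u ≠ u') (hne2 : w ≠ w')
    (h : (u' : ℤ) ^ 3 - (u : ℤ) ^ 3 = (w' : ℤ) ^ 3 - (w : ℤ) ^ 3)
    (hd : ((u' : ℤ) - u).natAbs = ((w' : ℤ) - w).natAbs) : u = w ∧ u' = w' := by
  have hpos : ∀ a b : ℤ, 0 < a → 0 < b → 0 < a ^ 2 + a * b + b ^ 2 := by
    intro a b ha hb
    positivity
  have huZ : (0 : ℤ) < u := by exact_mod_cast hu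
  have huZ' : (0 : ℤ) < u' := by exact_mod_cast hu'
  have hwZ : (0 : ℤ) < w := by exact_mod_cast hw
  have hwZ' : (0 : ℤ) < w' := by exact_mod_cast hw'
  have h1 := hpos u' u huZ' huZ
  have h2 := hpos w' w hwZ' hwZ
  have h3 : ((u' : ℤ) - u) * ((u' : ℤ) ^ 2 + u' * u + (u : ℤ) ^ 2) =
      ((w' : ℤ) - w) * ((w' : ℤ) ^ 2 + w' * w + (w : ℤ) ^ 2) := by
    linear_combination h
  have h4 : ((u' : ℤ) - u) = (w' : ℤ) - w := by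
    rcases Int.natAbs_eq_natAbs_iff.mp hd with h5 | h5
    · exact h5
    · exfalso
      have hdne : ((w' : ℤ) - w) ≠ 0 := by
        intro h0
        apply hne2
        have : (w' : ℤ) = w := by linarith
        exact_mod_cast this.symm
      rw [h5] at h3
      have h6 : ((w' : ℤ) - w) * (((u' : ℤ) ^ 2 + u' * u + (u : ℤ) ^ 2) +
          ((w' : ℤ) ^ 2 + w' * w + (w : ℤ) ^ 2)) = 0 := by
        linear_combination -h3
      rcases mul_eq_zero.mp h6 with h7 | h7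
      · exact hdne h7
      · linarith
  have hdne : ((u' : ℤ) - u) ≠ 0 := by
    intro h0
    apply hne
    have : (u' : ℤ) = u := by linarith
    exact_mod_cast this.symm
  rw [← h4] at h3
  have h5 := mul_left_cancel₀ hdne h3
  have h6 : (u' : ℤ) = w' - w + u := by linarith
  have h7 : ((u : ℤ) - w) * (3 * ((u : ℤ) + w')) = 0 := by
    rw [h6] at h5
    linear_combination h5
  rcases mul_eq_zero.mp h7 with h8 | h8
  · have h9 : (u : ℤ) = w := by linarith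
    have h10 : (u' : ℤ) = w' := by linarith
    exact ⟨by exact_mod_cast h9, by exact_mod_cast h10⟩
  · exfalso
    linarith

/-- Map `(m, (u, x, v, y), (u', x, v', y')) ∈ OffW` to `(x, (v, v', y, y'))`. The tuples differ and
have the same `x`, so `u ≠ u'` (`Box_eq_of_ux`). From
`e u³ x² + f v³ y² = m = e u'³ x² + f v'³ y'²` and coprimality `e x² ∣ v³ y² - v'³ y'²` and
`v, y, v', y'` are coprime to `e x²`, so `(v, v', y, y') ∈ ZZ (e x²) (2 V) (2 Y)`; `e x² ≤ m ≤ M`.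
For given `(x, v, v', y, y')` the number `h = |u³ - u'³| = f |v³ y² - v'³ y'²| / (e x²)` is
determined, `1 ≤ h ≤ M`, the order of `u`, `u'` is determined by that of `v³ y²`, `v'³ y'²`, the
number `δ = |u - u'|` divides `h`, and `(s + δ)³ - s³ = h` determines the smaller one `s` (strictly
increasing in `s`): at most `D` elements in each fibre. -/
theorem card_OffW_le (e f M U W V Y D : ℕ) (he : 0 < e) (hf : 0 < f) (hD : DivB M D) :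
    (OffW e f M U W V Y).card ≤ D * ∑ x ∈ Ico W (2 * W),
      if 0 < x ∧ e * x ^ 2 ≤ M then (ZZ (e * x ^ 2) (2 * V) (2 * Y)).card else 0 := by
  classical
  set T : Finset (Σ _ : ℕ, ℕ × ℕ × ℕ × ℕ) := (Ico W (2 * W)).sigma
    (fun x => if 0 < x ∧ e * x ^ 2 ≤ M then ZZ (e * x ^ 2) (2 * V) (2 * Y) else ∅) with hT
  have hTc : T.card = ∑ x ∈ Ico W (2 * W),
      if 0 < x ∧ e * x ^ 2 ≤ M then (ZZ (e * x ^ 2) (2 * V) (2 * Y)).card else 0 := by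
    rw [hT, Finset.card_sigma]
    refine Finset.sum_congr rfl fun x _ => ?_
    split_ifs
    · rfl
    · rfl
  rw [← hTc]
  refine Finset.card_le_mul_card_image_of_maps_to
    (f := fun p : ℕ × (ℕ × ℕ × ℕ × ℕ) × (ℕ × ℕ × ℕ × ℕ) =>
      (⟨p.2.1.2.1, (p.2.1.2.2.1, p.2.2.2.2.1, p.2.1.2.2.2, p.2.2.2.2.2)⟩ :
        Σ _ : ℕ, ℕ × ℕ × ℕ × ℕ)) ?_ D ?_
  · rintro ⟨m, ⟨u, x, v, y⟩, ⟨u', x', v', y'⟩⟩ hp
    have h1 := E2_mem e f M U W V Y he hf m u x v y u' x' v' y' hp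
    have h2 := E2_facts e f M U W V Y he hf m u x v y u' x' v' y' hp
    rw [hT, Finset.mem_sigma]
    refine ⟨Finset.mem_Ico.mpr h2.2.2.2.2.2.1, ?_⟩
    simp only
    rw [if_pos h1.1]
    exact h1.2
  · rintro ⟨x₀, ⟨v₀, v₀', y₀, y₀'⟩⟩ hb
    set S := (OffW e f M U W V Y).filter
      (fun p : ℕ × (ℕ × ℕ × ℕ × ℕ) × (ℕ × ℕ × ℕ × ℕ) =>
        (⟨p.2.1.2.1, (p.2.1.2.2.1, p.2.2.2.2.1, p.2.1.2.2.2, p.2.2.2.2.2)⟩ :
          Σ _ : ℕ, ℕ × ℕ × ℕ × ℕ) = ⟨x₀, (v₀, v₀', y₀, y₀')⟩) with hS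
    have hSm : ∀ m u x v y u' x' v' y' : ℕ, (m, (u, x, v, y), (u', x', v', y')) ∈ S →
        (x = x₀ ∧ x' = x₀ ∧ v = v₀ ∧ v' = v₀' ∧ y = y₀ ∧ y' = y₀') ∧ u ≠ u' ∧ m ≤ M ∧
        0 < x₀ ∧ 0 < u ∧ 0 < u' ∧ e * u ^ 3 * x₀ ^ 2 + f * v₀ ^ 3 * y₀ ^ 2 = m ∧
        e * u' ^ 3 * x₀ ^ 2 + f * v₀' ^ 3 * y₀' ^ 2 = m := by
      intro m u x v y u' x' v' y' hp
      rw [hS, Finset.mem_filter] at hp
      obtain ⟨hp, hpe⟩ := hp
      simp only [Sigma.mk.injEq, heq_eq_eq, Prod.mk.injEq] at hpe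
      obtain ⟨e1, e2, e3, e4, e5⟩ := hpe
      obtain ⟨k0, k1, k2, ⟨k3, k4, -, -⟩, ⟨k5, -, -⟩, -, -, -, k6, k7, -, -⟩ :=
        E2_facts e f M U W V Y he hf m u x v y u' x' v' y' hp
      subst k0 e1 e2 e3 e4 e5
      exact ⟨⟨rfl, rfl, rfl, rfl, rfl, rfl⟩, k1, k2, k4, k3, k5, k6, k7⟩
    rcases S.eq_empty_or_nonempty with h0 | ⟨⟨m₁, ⟨u₁, x₁, v₁, y₁⟩, ⟨u₁', x₁', v₁', y₁'⟩⟩, hp₁⟩
    · rw [h0, Finset.card_empty]
      exact Nat.zero_le _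
    · obtain ⟨-, hne₁, hm₁, hx₀, hu₁, hu₁', hA₁, hB₁⟩ := hSm _ _ _ _ _ _ _ _ _ hp₁
      have hd₁ := E2_diff e f m₁ u₁ x₀ v₀ y₀ u₁' v₀' y₀' hA₁ hB₁
      have hex : ((e * x₀ ^ 2 : ℕ) : ℤ) ≠ 0 := by
        have : 0 < e * x₀ ^ 2 := Nat.mul_pos he (pow_pos hx₀ 2)
        exact_mod_cast this.ne'
      set k : ℤ := (u₁' : ℤ) ^ 3 - (u₁ : ℤ) ^ 3 with hk
      have hk0 : k ≠ 0 := by
        intro h0
        apply hne₁
        have h1 : ((u₁ ^ 3 : ℕ) : ℤ) = ((u₁' ^ 3 : ℕ) : ℤ) := by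
          push_cast
          rw [hk] at h0
          linarith
        have h2 : u₁ ^ 3 = u₁' ^ 3 := by exact_mod_cast h1
        exact Nat.pow_left_injective (n := 3) (by norm_num) h2
      have hcube : ∀ u : ℕ, ∀ m c : ℕ, e * u ^ 3 * x₀ ^ 2 + c = m → m ≤ M → u ^ 3 ≤ M := by
        intro u m c h1 h2
        have h3 : u ^ 3 ≤ e * u ^ 3 * x₀ ^ 2 := by
          calc u ^ 3 = 1 * u ^ 3 * 1 := by ring
            _ ≤ e * u ^ 3 * x₀ ^ 2 := Nat.mul_le_mul (Nat.mul_le_mul_right _ he)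
              (Nat.one_le_pow _ _ hx₀)
        omega
      have hkM : k.natAbs ≤ M := by
        have h1 := hcube u₁ m₁ _ hA₁ hm₁
        have h2 := hcube u₁' m₁ _ hB₁ hm₁
        have h3 : k = ((u₁' ^ 3 : ℕ) : ℤ) - ((u₁ ^ 3 : ℕ) : ℤ) := by
          rw [hk]
          push_cast
          ring
        rw [h3]
        omega
      have hk1 : 1 ≤ k.natAbs := Int.natAbs_pos.mpr hk0
      have hall : ∀ m u x v y u' x' v' y' : ℕ, (m, (u, x, v, y), (u', x', v', y')) ∈ S →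
          (u' : ℤ) ^ 3 - (u : ℤ) ^ 3 = k := by
        intro m u x v y u' x' v' y' hp
        obtain ⟨-, -, -, -, -, -, hA, hB⟩ := hSm _ _ _ _ _ _ _ _ _ hp
        have hd := E2_diff e f m u x₀ v₀ y₀ u' v₀' y₀' hA hB
        rw [← hd₁] at hd
        exact mul_left_cancel₀ hex hd
      refine le_trans ?_ (hD.2 k.natAbs hk1 hkM)
      refine Finset.card_le_card_of_injOn
        (fun p => ((p.2.2.1 : ℤ) - (p.2.1.1 : ℤ)).natAbs) ?_ ?_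
      · rintro ⟨m, ⟨u, x, v, y⟩, ⟨u', x', v', y'⟩⟩ hp
        have hp' := Finset.mem_coe.mp hp
        rw [Finset.mem_coe, Nat.mem_divisors]
        refine ⟨?_, by omega⟩
        show ((u' : ℤ) - (u : ℤ)).natAbs ∣ k.natAbs
        rw [Int.natAbs_dvd_natAbs, ← hall _ _ _ _ _ _ _ _ _ hp']
        exact ⟨(u' : ℤ) ^ 2 + u' * u + (u : ℤ) ^ 2, by ring⟩
      · rintro ⟨m, ⟨u, x, v, y⟩, ⟨u', x', v', y'⟩⟩ hp ⟨n, ⟨w, a, b, c⟩, ⟨w', a', b', c'⟩⟩ hq hpq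
        have hp' := Finset.mem_coe.mp hp
        have hq' := Finset.mem_coe.mp hq
        have hpq' : ((u' : ℤ) - (u : ℤ)).natAbs = ((w' : ℤ) - (w : ℤ)).natAbs := hpq
        obtain ⟨⟨rfl, rfl, rfl, rfl, rfl, rfl⟩, k1, -, -, k3, k4, k5, -⟩ :=
          hSm _ _ _ _ _ _ _ _ _ hp'
        obtain ⟨⟨rfl, rfl, rfl, rfl, rfl, rfl⟩, l1, -, -, l3, l4, l5, -⟩ :=
          hSm _ _ _ _ _ _ _ _ _ hq'
        obtain ⟨rfl, rfl⟩ := E2_inj u u' w w' k3 k4 l3 l4 k1 l1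
          ((hall _ _ _ _ _ _ _ _ _ hp').trans (hall _ _ _ _ _ _ _ _ _ hq').symm) hpq'
        have : m = n := k5.symm.trans l5
        rw [this]

end Pool.Agent.PWF
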