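import Mathlib
import Pool.Agent.PWF.D4
import Pool.Agent.PWF.E1
import Pool.Agent.PWF.E2

set_option autoImplicit false

namespace Pool.Agent.PWF

open Finset

theorem E3_aux (q P Z K A B : ℕ) (hq : 0 < q) (hP : P ≤ q)
    (h : q * Z ≤ K * (16 * A + q * (4 * B))) : P * Z ≤ 16 * K * (A + P * B) := by
  apply Nat.le_of_mul_le_mul_left _ hq
  calc q * (P * Z) = P * (q * Z) := by ring
    _ ≤ P * (K * (16 * A + q * (4 * B))) := Nat.mul_le_mul_left _ h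
    _ = P * (16 * K * A) + q * (4 * K * (P * B)) := by ring
    _ ≤ q * (16 * K * A) + q * (16 * K * (P * B)) := by
        apply Nat.add_le_add
        · exact Nat.mul_le_mul_right _ hP
        · exact Nat.mul_le_mul_left _ (Nat.mul_le_mul_right _ (Nat.mul_le_mul_right _ (by norm_num)))
    _ = q * (16 * K * (A + P * B)) := by ring

theorem E3_ZZ (q P V Y M D : ℕ) (hq : 0 < q) (hP : P ≤ q) (hqM : q ≤ M) (hD : DivB M D) :
    P * (ZZ q (2 * V) (2 * Y)).card ≤ 16 * (1728 * D ^ 4) * (V ^ 2 * Y ^ 2 + P * (V * Y)) := by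
  apply E3_aux q P _ _ _ _ hq hP
  refine (card_ZZ q (2 * V) (2 * Y) D hq (hD.mono hqM)).trans (le_of_eq ?_)
  ring

/-- `card_OffU_le` and `card_ZZ` with `q = e u³ ≤ M`, `q ≥ U³` for `U ≤ u < 2 U`:
`(ZZ q (2V) (2Y)).card ≤ 1728 D⁴ (16 V²Y²/q + 4 V Y) ≤ 27648 D⁴ (V²Y²/U³ + V Y)`; there are `U`
values of `u`. Work in real numbers. (`U = 0` is trivial.) -/
theorem card_OffU (e f M U W V Y D : ℕ) (he : 0 < e) (hf : 0 < f) (hD : DivB M D) :
    U ^ 2 * (OffU e f M U W V Y).card ≤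
      27648 * D ^ 5 * (V ^ 2 * Y ^ 2 + U ^ 3 * V * Y) := by
  rcases Nat.eq_zero_or_pos U with rfl | hU
  · simp
  have h1 := card_OffU_le e f M U W V Y D he hf hD
  have h2 : U ^ 3 * ∑ u ∈ Ico U (2 * U),
      (if 0 < u ∧ e * u ^ 3 ≤ M then (ZZ (e * u ^ 3) (2 * V) (2 * Y)).card else 0) ≤
      U * (16 * (1728 * D ^ 4) * (V ^ 2 * Y ^ 2 + U ^ 3 * (V * Y))) := by
    rw [Finset.mul_sum]
    have h3 := Finset.sum_le_card_nsmul (Ico U (2 * U)) (fun u => U ^ 3 *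
      (if 0 < u ∧ e * u ^ 3 ≤ M then (ZZ (e * u ^ 3) (2 * V) (2 * Y)).card else 0))
      (16 * (1728 * D ^ 4) * (V ^ 2 * Y ^ 2 + U ^ 3 * (V * Y))) (by
        intro u hu
        rw [Finset.mem_Ico] at hu
        split_ifs with hc
        · apply E3_ZZ _ _ _ _ M D _ _ hc.2 hD
          · exact Nat.mul_pos he (Nat.pow_pos hc.1)
          · calc U ^ 3 ≤ u ^ 3 := Nat.pow_le_pow_left hu.1 3
              _ ≤ e * u ^ 3 := Nat.le_mul_of_pos_left _ he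
        · simp)
    rw [Nat.card_Ico, smul_eq_mul] at h3
    have e1 : 2 * U - U = U := by omega
    rw [e1] at h3
    exact h3
  apply Nat.le_of_mul_le_mul_left _ hU
  calc U * (U ^ 2 * (OffU e f M U W V Y).card) = U ^ 3 * (OffU e f M U W V Y).card := by ring
    _ ≤ U ^ 3 * (D * ∑ u ∈ Ico U (2 * U),
      if 0 < u ∧ e * u ^ 3 ≤ M then (ZZ (e * u ^ 3) (2 * V) (2 * Y)).card else 0) :=
        Nat.mul_le_mul_left _ h1
    _ = D * (U ^ 3 * ∑ u ∈ Ico U (2 * U),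
      if 0 < u ∧ e * u ^ 3 ≤ M then (ZZ (e * u ^ 3) (2 * V) (2 * Y)).card else 0) := by ring
    _ ≤ D * (U * (16 * (1728 * D ^ 4) * (V ^ 2 * Y ^ 2 + U ^ 3 * (V * Y)))) :=
        Nat.mul_le_mul_left _ h2
    _ = U * (27648 * D ^ 5 * (V ^ 2 * Y ^ 2 + U ^ 3 * V * Y)) := by ring

/-- The same with `card_OffW_le`, `q = e x² ≥ W²`:
`(ZZ q (2V) (2Y)).card ≤ 27648 D⁴ (V²Y²/W² + V Y)`, `W` values of `x`. -/
theorem card_OffW (e f M U W V Y D : ℕ) (he : 0 < e) (hf : 0 < f) (hD : DivB M D) :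
    W * (OffW e f M U W V Y).card ≤
      27648 * D ^ 5 * (V ^ 2 * Y ^ 2 + W ^ 2 * V * Y) := by
  rcases Nat.eq_zero_or_pos W with rfl | hW
  · simp
  have h1 := card_OffW_le e f M U W V Y D he hf hD
  have h2 : W ^ 2 * ∑ x ∈ Ico W (2 * W),
      (if 0 < x ∧ e * x ^ 2 ≤ M then (ZZ (e * x ^ 2) (2 * V) (2 * Y)).card else 0) ≤
      W * (16 * (1728 * D ^ 4) * (V ^ 2 * Y ^ 2 + W ^ 2 * (V * Y))) := by
    rw [Finset.mul_sum]
    have h3 := Finset.sum_le_card_nsmul (Ico W (2 * W)) (fun x => W ^ 2 *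
      (if 0 < x ∧ e * x ^ 2 ≤ M then (ZZ (e * x ^ 2) (2 * V) (2 * Y)).card else 0))
      (16 * (1728 * D ^ 4) * (V ^ 2 * Y ^ 2 + W ^ 2 * (V * Y))) (by
        intro x hx
        rw [Finset.mem_Ico] at hx
        split_ifs with hc
        · apply E3_ZZ _ _ _ _ M D _ _ hc.2 hD
          · exact Nat.mul_pos he (Nat.pow_pos hc.1)
          · calc W ^ 2 ≤ x ^ 2 := Nat.pow_le_pow_left hx.1 2
              _ ≤ e * x ^ 2 := Nat.le_mul_of_pos_left _ he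
        · simp)
    rw [Nat.card_Ico, smul_eq_mul] at h3
    have e1 : 2 * W - W = W := by omega
    rw [e1] at h3
    exact h3
  apply Nat.le_of_mul_le_mul_left _ hW
  calc W * (W * (OffW e f M U W V Y).card) = W ^ 2 * (OffW e f M U W V Y).card := by ring
    _ ≤ W ^ 2 * (D * ∑ x ∈ Ico W (2 * W),
      if 0 < x ∧ e * x ^ 2 ≤ M then (ZZ (e * x ^ 2) (2 * V) (2 * Y)).card else 0) :=
        Nat.mul_le_mul_left _ h1
    _ = D * (W ^ 2 * ∑ x ∈ Ico W (2 * W),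
      if 0 < x ∧ e * x ^ 2 ≤ M then (ZZ (e * x ^ 2) (2 * V) (2 * Y)).card else 0) := by ring
    _ ≤ D * (W * (16 * (1728 * D ^ 4) * (V ^ 2 * Y ^ 2 + W ^ 2 * (V * Y)))) :=
        Nat.mul_le_mul_left _ h2
    _ = W * (27648 * D ^ 5 * (V ^ 2 * Y ^ 2 + W ^ 2 * V * Y)) := by ring

end Pool.Agent.PWF
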