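import Mathlib
import Pool.Agent.PWF.Def

set_option autoImplicit false

namespace Pool.Agent.PWF

open Finset

theorem F1_aux {α : Type*} [DecidableEq α] (B : Finset α) (g : α → ℕ) (U : ℕ)
    (hg : ∀ a ∈ B, U ≤ g a ∧ g a < 2 * U) (h : 4 * U ≤ B.card) :
    B.card ^ 2 ≤ 2 * U * ((B ×ˢ B).filter (fun p => p.1 ≠ p.2 ∧ g p.1 = g p.2)).card := by
  have h1 := sq_card_le B g (Ico U (2 * U)) (fun a ha => Finset.mem_Ico.mpr (hg a ha))
  rw [Nat.card_Ico] at h1
  have e1 : 2 * U - U = U := by omega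
  rw [e1] at h1
  have h2 : ∑ b ∈ Ico U (2 * U), (B.filter (fun a => g a = b)).card ^ 2 =
      ((B ×ˢ B).filter (fun p => g p.1 = g p.2)).card := by
    rw [Finset.card_eq_sum_card_fiberwise (f := fun p : α × α => g p.1) (t := Ico U (2 * U))]
    · apply Finset.sum_congr rfl
      intro b _
      have h3 : ((B ×ˢ B).filter (fun p => g p.1 = g p.2)).filter (fun p => g p.1 = b) =
          (B.filter (fun a => g a = b)) ×ˢ (B.filter (fun a => g a = b)) := by
        ext ⟨x, y⟩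
        simp only [Finset.mem_filter, Finset.mem_product]
        constructor
        · rintro ⟨⟨⟨k1, k2⟩, k3⟩, k4⟩
          exact ⟨⟨k1, k4⟩, k2, k3 ▸ k4⟩
        · rintro ⟨⟨k1, k2⟩, k3, k4⟩
          exact ⟨⟨⟨k1, k3⟩, k2.trans k4.symm⟩, k2⟩
      rw [h3, Finset.card_product, sq]
    · intro p hp
      have hp' := Finset.mem_coe.mp hp
      rw [Finset.mem_filter, Finset.mem_product] at hp'
      exact Finset.mem_coe.mpr (Finset.mem_Ico.mpr (hg _ hp'.1.1))
  rw [h2] at h1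
  have h4 : ((B ×ˢ B).filter (fun p => g p.1 = g p.2)).card ≤ B.card +
      ((B ×ˢ B).filter (fun p => p.1 ≠ p.2 ∧ g p.1 = g p.2)).card := by
    have h5 : (B ×ˢ B).filter (fun p => g p.1 = g p.2) ⊆ B.image (fun a => (a, a)) ∪
        (B ×ˢ B).filter (fun p => p.1 ≠ p.2 ∧ g p.1 = g p.2) := by
      rintro ⟨x, y⟩ hp
      simp only [Finset.mem_filter, Finset.mem_product] at hp
      simp only [Finset.mem_union, Finset.mem_image, Finset.mem_filter, Finset.mem_product,
        Prod.mk.injEq]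
      by_cases hxy : x = y
      · left
        exact ⟨x, hp.1.1, rfl, hxy⟩
      · right
        exact ⟨hp.1, hxy, hp.2⟩
    exact (Finset.card_le_card h5).trans ((Finset.card_union_le _ _).trans
      (Nat.add_le_add_right Finset.card_image_le _))
  set off := ((B ×ˢ B).filter (fun p => p.1 ≠ p.2 ∧ g p.1 = g p.2)).card with hoff
  have h6 : B.card ^ 2 ≤ U * (B.card + off) := h1.trans (Nat.mul_le_mul_left _ h4)
  have h7 : 4 * U * B.card ≤ B.card * B.card := Nat.mul_le_mul_right _ h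
  nlinarith

theorem F1_sum {α : Type*} [DecidableEq α] (S : Finset ℕ) (P : ℕ → Finset α)
    (O : Finset (ℕ × α)) (h : ∀ m ∈ S, ∀ p ∈ P m, (m, p) ∈ O) :
    ∑ m ∈ S, (P m).card ≤ O.card := by
  have h1 : (O.filter (fun q => q.1 ∈ S)).card =
      ∑ m ∈ S, ((O.filter (fun q => q.1 ∈ S)).filter (fun q => q.1 = m)).card := by
    apply Finset.card_eq_sum_card_fiberwise
    intro q hq
    exact (Finset.mem_filter.mp (Finset.mem_coe.mp hq)).2
  calc ∑ m ∈ S, (P m).card
      ≤ ∑ m ∈ S, ((O.filter (fun q => q.1 ∈ S)).filter (fun q => q.1 = m)).card := by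
        apply Finset.sum_le_sum
        intro m hm
        apply Finset.card_le_card_of_injOn (fun p => (m, p))
        · intro p hp
          rw [Finset.mem_coe, Finset.mem_filter, Finset.mem_filter]
          exact ⟨⟨h m hm p (Finset.mem_coe.mp hp), hm⟩, rfl⟩
        · intro p _ q _ hpq
          exact (Prod.mk.inj hpq).2
    _ = (O.filter (fun q => q.1 ∈ S)).card := h1.symm
    _ ≤ O.card := Finset.card_filter_le _ _

/-- For `m ∈ S` let `B` be the box. By `sq_card_le` (in `MeanSq.lean`) with `f t = t.1` and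
`Ico U (2 U)`, `B.card² ≤ U ∑_u (B_u).card²`, and `∑_u (B_u).card²` is the number of pairs
`(t, t') ∈ B × B` with `t.1 = t'.1`, that is `B.card + off` where `off` is the number of those with
`t ≠ t'`. As `4 U ≤ B.card`, `B.card² ≤ B.card² / 4 + U off`, so `B.card² ≤ 2 U off`. Finally
`∑_{m ∈ S} off ≤ (OffU ..).card` (`mem_OffU`). -/
theorem sum_sq_le_OffU (e f M U W V Y : ℕ) (S : Finset ℕ) (hS : S ⊆ Icc 1 M)
    (h : ∀ m ∈ S, 4 * U ≤ (Box e f m U W V Y).card) :
    ∑ m ∈ S, (Box e f m U W V Y).card ^ 2 ≤ 2 * U * (OffU e f M U W V Y).card := by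
  classical
  have h1 : ∀ m ∈ S, (Box e f m U W V Y).card ^ 2 ≤ 2 * U *
      ((Box e f m U W V Y ×ˢ Box e f m U W V Y).filter
        (fun p => p.1 ≠ p.2 ∧ p.1.1 = p.2.1)).card := by
    intro m hm
    apply F1_aux (Box e f m U W V Y) (fun t => t.1) U _ (h m hm)
    rintro ⟨u, x, v, y⟩ ht
    exact ((mem_Box ..).mp ht).2.1
  refine (Finset.sum_le_sum h1).trans ?_
  rw [← Finset.mul_sum]
  apply Nat.mul_le_mul_left
  apply F1_sum
  rintro m hm ⟨t, t'⟩ hp
  rw [Finset.mem_filter, Finset.mem_product] at hp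
  rw [mem_OffU]
  exact ⟨Finset.mem_Icc.mp (hS hm), hp.1, hp.2⟩

/-- The same with `f t = t.2.1`, `Ico W (2 W)`. -/
theorem sum_sq_le_OffW (e f M U W V Y : ℕ) (S : Finset ℕ) (hS : S ⊆ Icc 1 M)
    (h : ∀ m ∈ S, 4 * W ≤ (Box e f m U W V Y).card) :
    ∑ m ∈ S, (Box e f m U W V Y).card ^ 2 ≤ 2 * W * (OffW e f M U W V Y).card := by
  classical
  have h1 : ∀ m ∈ S, (Box e f m U W V Y).card ^ 2 ≤ 2 * W *
      ((Box e f m U W V Y ×ˢ Box e f m U W V Y).filter
        (fun p => p.1 ≠ p.2 ∧ p.1.2.1 = p.2.2.1)).card := by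
    intro m hm
    apply F1_aux (Box e f m U W V Y) (fun t => t.2.1) W _ (h m hm)
    rintro ⟨u, x, v, y⟩ ht
    exact ((mem_Box ..).mp ht).2.2.1
  refine (Finset.sum_le_sum h1).trans ?_
  rw [← Finset.mul_sum]
  apply Nat.mul_le_mul_left
  apply F1_sum
  rintro m hm ⟨t, t'⟩ hp
  rw [Finset.mem_filter, Finset.mem_product] at hp
  rw [mem_OffW]
  exact ⟨Finset.mem_Icc.mp (hS hm), hp.1, hp.2⟩

end Pool.Agent.PWF
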