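import Mathlib
import Pool.Agent.PWF.B2
import Pool.Agent.PWF.E3
import Pool.Agent.PWF.F1

set_option autoImplicit false

namespace Pool.Agent.PWF

open Finset

theorem F2_sq_le (a b : ℝ) (hb : 0 ≤ b) (h : a ^ 2 ≤ b ^ 2) : a ≤ b :=
  (le_abs_self a).trans (abs_le_of_sq_le_sq h hb)

theorem F2_r1 (B U V Y D : ℝ) (hB : 1 ≤ B) (hU : 1 ≤ U) (hV : 1 ≤ V)
    (hUV : U ≤ V) (hUB : U ≤ B) (hD : 1 ≤ D) (h1 : V ^ 3 * Y ^ 2 ≤ B ^ 5)
    (h2 : 4 * B ≤ 2 * D * (U * V)) :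
    V ^ 2 * Y ^ 2 + U ^ 3 * V * Y ≤ 2 * D * U * B ^ 4 := by
  have hB0 : 0 ≤ B := by linarith
  have hU0 : 0 ≤ U := by linarith
  have a1 : V ^ 2 * Y ^ 2 ≤ D * U * B ^ 4 / 2 := by
    apply le_of_mul_le_mul_left _ (by linarith : 0 < V)
    have h3 : B ^ 4 * (4 * B) ≤ B ^ 4 * (2 * D * (U * V)) :=
      mul_le_mul_of_nonneg_left h2 (by positivity)
    nlinarith
  have a2 : U ^ 2 * V * Y ≤ B ^ 4 := by
    apply F2_sq_le _ _ (by positivity)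
    have h3 : U * (V ^ 2 * Y ^ 2) ≤ B ^ 5 := by
      refine le_trans (mul_le_mul_of_nonneg_right hUV (by positivity)) ?_
      linarith [h1, (by ring : V * (V ^ 2 * Y ^ 2) = V ^ 3 * Y ^ 2)]
    calc (U ^ 2 * V * Y) ^ 2 = U ^ 3 * (U * (V ^ 2 * Y ^ 2)) := by ring
      _ ≤ B ^ 3 * B ^ 5 := by
          apply mul_le_mul (pow_le_pow_left₀ hU0 hUB 3) h3 (by positivity) (by positivity)
      _ = (B ^ 4) ^ 2 := by ring
  have a3 : U ^ 3 * V * Y ≤ U * B ^ 4 := by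
    calc U ^ 3 * V * Y = U * (U ^ 2 * V * Y) := by ring
      _ ≤ U * B ^ 4 := mul_le_mul_of_nonneg_left a2 hU0
  have a4 : U * B ^ 4 ≤ D * (U * B ^ 4) := le_mul_of_one_le_left (by positivity) hD
  have a5 : 0 ≤ D * (U * B ^ 4) := by positivity
  nlinarith

theorem F2_r2 (B U V W Y : ℝ) (hB : 1 ≤ B) (hW : 0 ≤ W) (hY : 0 ≤ Y)
    (hUV : U ≤ V) (hUB : B < U) (h1 : V ^ 3 * Y ^ 2 ≤ B ^ 5) (h0 : U ^ 3 * W ^ 2 ≤ B ^ 5) :
    W ≤ B ∧ V ^ 2 * Y ^ 2 + W ^ 2 * V * Y ≤ 2 * B ^ 4 := by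
  have hB0 : 0 < B := by linarith
  have hV0 : 0 < V := by linarith
  have c1 : W ≤ B := by
    apply F2_sq_le _ _ hB0.le
    apply le_of_mul_le_mul_left _ (pow_pos hB0 3)
    calc B ^ 3 * W ^ 2 ≤ U ^ 3 * W ^ 2 :=
          mul_le_mul_of_nonneg_right (pow_le_pow_left₀ hB0.le hUB.le 3) (by positivity)
      _ ≤ B ^ 5 := h0
      _ = B ^ 3 * B ^ 2 := by ring
  have c2 : V ^ 2 * Y ^ 2 ≤ B ^ 4 := by
    apply le_of_mul_le_mul_left _ hB0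
    calc B * (V ^ 2 * Y ^ 2) ≤ V * (V ^ 2 * Y ^ 2) :=
          mul_le_mul_of_nonneg_right (by linarith) (by positivity)
      _ = V ^ 3 * Y ^ 2 := by ring
      _ ≤ B ^ 5 := h1
      _ = B * B ^ 4 := by ring
  have c3 : V * Y ≤ B ^ 2 := by
    apply F2_sq_le _ _ (by positivity)
    calc (V * Y) ^ 2 = V ^ 2 * Y ^ 2 := by ring
      _ ≤ B ^ 4 := c2
      _ = (B ^ 2) ^ 2 := by ring
  refine ⟨c1, ?_⟩
  have c4 : W ^ 2 * (V * Y) ≤ B ^ 2 * B ^ 2 :=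
    mul_le_mul (pow_le_pow_left₀ hW c1 2) c3 (by positivity) (by positivity)
  nlinarith

/-- The case `U ≤ V`. Let `S` be the set of `m`. If `S` is empty the claim is trivial; otherwise
`size_Box` gives `U³ W² ≤ B⁵` and `V³ Y² ≤ B⁵`.
Case 1, `U ≤ B`: `4 U ≤ 4 B ≤ T ≤ card`, so by `sum_sq_le_OffU` and `card_OffU`
`|S| T² ≤ ∑ card² ≤ 2 U OffU ≤ 55296 D⁵ (V²Y²/U + U² V Y)`. Here `(U² V Y)² = U⁴ (V²Y²) ≤ U⁴ B⁵ / V
≤ U³ B⁵ ≤ B⁸`, so `U² V Y ≤ B⁴`; and `V²Y² ≤ B⁵/V`, while `T ≤ card ≤ 2 D U V` (`card_Box_le_UV`)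
gives `U V ≥ 2 B / D`, so `V²Y²/U ≤ B⁵ / (U V) ≤ D B⁴ / 2`.
Case 2, `U > B`: `W² ≤ B⁵/U³ ≤ B²`, so `4 W ≤ T`, and by `sum_sq_le_OffW`, `card_OffW`
`|S| T² ≤ 55296 D⁵ (V²Y² + W² V Y)` with `V²Y² ≤ B⁵/V ≤ B⁴` and `W² ≤ B²`, `V Y ≤ B²` (as
`V²Y² ≤ B⁴`). Both are at most `110592 D⁶ B⁴`. -/
theorem box_large_aux (e f M D U W V Y : ℕ) (he : 0 < e) (hf : 0 < f) (hU : 0 < U) (hW : 0 < W)
    (hV : 0 < V) (hY : 0 < Y) (hUV : U ≤ V) (hD : DivB M D) (B T : ℝ) (hB : 1 ≤ B)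
    (hM : (M : ℝ) ≤ B ^ 5) (hT : 4 * B ≤ T) :
    (((Icc 1 M).filter (fun m => T ≤ ((Box e f m U W V Y).card : ℝ))).card : ℝ) * T ^ 2 ≤
      110592 * (D : ℝ) ^ 6 * B ^ 4 := by
  set S := (Icc 1 M).filter (fun m => T ≤ ((Box e f m U W V Y).card : ℝ)) with hS
  have hD1 : (1 : ℝ) ≤ D := by exact_mod_cast hD.1
  have hU1 : (1 : ℝ) ≤ U := by exact_mod_cast hU
  have hV1 : (1 : ℝ) ≤ V := by exact_mod_cast hV
  have hW1 : (1 : ℝ) ≤ W := by exact_mod_cast hW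
  have hY1 : (1 : ℝ) ≤ Y := by exact_mod_cast hY
  have hB0 : (0 : ℝ) < B := by linarith
  have hT0 : (0 : ℝ) < T := by linarith
  rcases S.eq_empty_or_nonempty with h0 | ⟨m, hm⟩
  · rw [h0]; simp; positivity
  have hm2 := hm
  rw [hS, Finset.mem_filter, Finset.mem_Icc] at hm2
  obtain ⟨⟨hm1, hmM⟩, hmT⟩ := hm2
  have hne : (Box e f m U W V Y).Nonempty := by
    rw [← Finset.card_pos]
    have : (0 : ℝ) < ((Box e f m U W V Y).card : ℝ) := lt_of_lt_of_le hT0 hmT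
    exact_mod_cast this
  obtain ⟨k1, k2⟩ := size_Box e f m U W V Y he hf hne
  have hmB : (m : ℝ) ≤ B ^ 5 := le_trans (by exact_mod_cast hmM) hM
  have k1' : (U : ℝ) ^ 3 * (W : ℝ) ^ 2 ≤ B ^ 5 := le_trans (by exact_mod_cast k1) hmB
  have k2' : (V : ℝ) ^ 3 * (Y : ℝ) ^ 2 ≤ B ^ 5 := le_trans (by exact_mod_cast k2) hmB
  have hSM : S ⊆ Icc 1 M := Finset.filter_subset _ _
  have hST : ∀ m ∈ S, T ≤ ((Box e f m U W V Y).card : ℝ) := fun m hm =>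
    (Finset.mem_filter.mp hm).2
  have hsum : (S.card : ℝ) * T ^ 2 ≤ ((∑ m ∈ S, (Box e f m U W V Y).card ^ 2 : ℕ) : ℝ) := by
    push_cast
    rw [← nsmul_eq_mul]
    apply Finset.card_nsmul_le_sum
    intro m hm
    exact pow_le_pow_left₀ hT0.le (hST m hm) 2
  have hD5 : (D : ℝ) ^ 5 * D = D ^ 6 := by ring
  rcases le_or_gt (U : ℝ) B with hUB | hUB
  · have h1 := sum_sq_le_OffU e f M U W V Y S hSM (by
      intro m hm
      have : (4 : ℝ) * U ≤ ((Box e f m U W V Y).card : ℝ) :=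
        le_trans (by linarith) (hST m hm)
      exact_mod_cast this)
    have h2 := card_OffU e f M U W V Y D he hf hD
    have h1' : ((∑ m ∈ S, (Box e f m U W V Y).card ^ 2 : ℕ) : ℝ) ≤
        2 * U * ((OffU e f M U W V Y).card : ℝ) := by exact_mod_cast h1
    have h2' : (U : ℝ) ^ 2 * ((OffU e f M U W V Y).card : ℝ) ≤
        27648 * (D : ℝ) ^ 5 * ((V : ℝ) ^ 2 * (Y : ℝ) ^ 2 + (U : ℝ) ^ 3 * V * Y) := by
      exact_mod_cast h2
    have h3 : (4 : ℝ) * B ≤ 2 * D * (U * V) := by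
      have h4 := card_Box_le_UV e f m U W V Y D he hf (hD.mono hmM)
      have h5 : ((Box e f m U W V Y).card : ℝ) ≤ 2 * D * (U * V) := by exact_mod_cast h4
      linarith
    have h6 := F2_r1 B U V Y D hB hU1 hV1 (by exact_mod_cast hUV) hUB hD1 k2' h3
    apply le_of_mul_le_mul_left _ (by linarith : (0 : ℝ) < U)
    calc (U : ℝ) * ((S.card : ℝ) * T ^ 2) ≤ U * (2 * U * ((OffU e f M U W V Y).card : ℝ)) :=
          mul_le_mul_of_nonneg_left (hsum.trans h1') (by positivity)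
      _ = 2 * ((U : ℝ) ^ 2 * ((OffU e f M U W V Y).card : ℝ)) := by ring
      _ ≤ 2 * (27648 * (D : ℝ) ^ 5 * ((V : ℝ) ^ 2 * (Y : ℝ) ^ 2 + (U : ℝ) ^ 3 * V * Y)) :=
          mul_le_mul_of_nonneg_left h2' (by norm_num)
      _ ≤ 2 * (27648 * (D : ℝ) ^ 5 * (2 * D * U * B ^ 4)) := by
          apply mul_le_mul_of_nonneg_left _ (by norm_num)
          exact mul_le_mul_of_nonneg_left h6 (by positivity)
      _ = U * (110592 * (D : ℝ) ^ 6 * B ^ 4) := by ring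
  · obtain ⟨c1, c2⟩ := F2_r2 B U V W Y hB (by linarith) (by linarith) (by exact_mod_cast hUV)
      hUB k2' k1'
    have h1 := sum_sq_le_OffW e f M U W V Y S hSM (by
      intro m hm
      have : (4 : ℝ) * W ≤ ((Box e f m U W V Y).card : ℝ) :=
        le_trans (by linarith) (hST m hm)
      exact_mod_cast this)
    have h2 := card_OffW e f M U W V Y D he hf hD
    have h1' : ((∑ m ∈ S, (Box e f m U W V Y).card ^ 2 : ℕ) : ℝ) ≤
        2 * W * ((OffW e f M U W V Y).card : ℝ) := by exact_mod_cast h1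
    have h2' : (W : ℝ) * ((OffW e f M U W V Y).card : ℝ) ≤
        27648 * (D : ℝ) ^ 5 * ((V : ℝ) ^ 2 * (Y : ℝ) ^ 2 + (W : ℝ) ^ 2 * V * Y) := by
      exact_mod_cast h2
    calc (S.card : ℝ) * T ^ 2 ≤ 2 * W * ((OffW e f M U W V Y).card : ℝ) := hsum.trans h1'
      _ = 2 * ((W : ℝ) * ((OffW e f M U W V Y).card : ℝ)) := by ring
      _ ≤ 2 * (27648 * (D : ℝ) ^ 5 * ((V : ℝ) ^ 2 * (Y : ℝ) ^ 2 + (W : ℝ) ^ 2 * V * Y)) :=
          mul_le_mul_of_nonneg_left h2' (by norm_num)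
      _ ≤ 2 * (27648 * (D : ℝ) ^ 5 * (2 * B ^ 4)) := by
          apply mul_le_mul_of_nonneg_left _ (by norm_num)
          exact mul_le_mul_of_nonneg_left c2 (by positivity)
      _ = (110592 * (D : ℝ) ^ 5 * B ^ 4) * 1 := by ring
      _ ≤ (110592 * (D : ℝ) ^ 5 * B ^ 4) * D :=
          mul_le_mul_of_nonneg_left hD1 (by positivity)
      _ = 110592 * (D : ℝ) ^ 6 * B ^ 4 := by ring

/-- If `V < U` use `card_Box_swap` for every `m` and `box_large_aux f e M D V Y U W`. -/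
theorem box_large (e f M D U W V Y : ℕ) (he : 0 < e) (hf : 0 < f) (hU : 0 < U) (hW : 0 < W)
    (hV : 0 < V) (hY : 0 < Y) (hD : DivB M D) (B T : ℝ) (hB : 1 ≤ B)
    (hM : (M : ℝ) ≤ B ^ 5) (hT : 4 * B ≤ T) :
    (((Icc 1 M).filter (fun m => T ≤ ((Box e f m U W V Y).card : ℝ))).card : ℝ) * T ^ 2 ≤
      110592 * (D : ℝ) ^ 6 * B ^ 4 := by
  rcases le_total U V with h | h
  · exact box_large_aux e f M D U W V Y he hf hU hW hV hY h hD B T hB hM hT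
  · have h1 := box_large_aux f e M D V Y U W hf he hV hY hU hW h hD B T hB hM hT
    have h2 : (Icc 1 M).filter (fun m => T ≤ ((Box e f m U W V Y).card : ℝ)) =
        (Icc 1 M).filter (fun m => T ≤ ((Box f e m V Y U W).card : ℝ)) := by
      apply Finset.filter_congr
      intro m _
      rw [card_Box_swap e f m U W V Y he hf]
    rw [h2]
    exact h1

end Pool.Agent.PWF
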