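import Mathlib
import Pool.Agent.PWF.Def

set_option autoImplicit false

namespace Pool.Agent.PWF

open Finset

/-- Every `g ∈ PA N` is `x ^ 2 * y ^ 3` with `1 ≤ x, y ≤ N` (`exists_sq_mul_cube`), so the sum is at
most `∑_{x, y ≥ 1} x^(-8/5) y^(-12/5)`, a product of two convergent series
(`Real.summable_one_div_nat_rpow` or `Real.summable_nat_rpow_inv`, `Summable.sum_le_tsum`). The map
`g ↦ (x, y)` is injective. -/
theorem sum_PA_rpow : ∃ K : ℝ, 0 ≤ K ∧ ∀ N : ℕ,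
    ∑ g ∈ PA N, (1 / (g : ℝ)) ^ (4 / 5 : ℝ) ≤ K := by
  classical
  set F : ℕ × ℕ → ℝ := fun p => ((p.1 : ℝ) ^ (8 / 5 : ℝ))⁻¹ * ((p.2 : ℝ) ^ (12 / 5 : ℝ))⁻¹ with hF
  have hF0 : ∀ p, 0 ≤ F p := fun p => by
    rw [hF]
    positivity
  have hFs : Summable F := by
    have h1 : Summable (fun n : ℕ => ((n : ℝ) ^ (8 / 5 : ℝ))⁻¹) :=
      Real.summable_nat_rpow_inv.2 (by norm_num)
    have h2 : Summable (fun n : ℕ => ((n : ℝ) ^ (12 / 5 : ℝ))⁻¹) :=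
      Real.summable_nat_rpow_inv.2 (by norm_num)
    exact h1.mul_of_nonneg h2 (fun n => by positivity) (fun n => by positivity)
  have hex : ∀ g : ℕ, ∃ p : ℕ × ℕ, 0 < g → Pfl g → 0 < p.1 ∧ 0 < p.2 ∧ g = p.1 ^ 2 * p.2 ^ 3 := by
    intro g
    by_cases h1 : 0 < g
    · by_cases h2 : Pfl g
      · obtain ⟨x, y, hx, hy, _, hg⟩ := exists_sq_mul_cube g h1 h2
        exact ⟨(x, y), fun _ _ => ⟨hx, hy, hg⟩⟩
      · exact ⟨(0, 0), fun _ h => absurd h h2⟩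
    · exact ⟨(0, 0), fun h => absurd h h1⟩
  choose c hc using hex
  refine ⟨∑' p, F p, tsum_nonneg hF0, fun N => ?_⟩
  have hmem : ∀ g ∈ PA N, 0 < (c g).1 ∧ 0 < (c g).2 ∧ g = (c g).1 ^ 2 * (c g).2 ^ 3 := by
    intro g hg
    rw [mem_PA] at hg
    exact hc g hg.1.1 hg.2
  have hinj : Set.InjOn c (PA N : Set ℕ) := by
    intro g hg g' hg' h
    rw [Finset.mem_coe] at hg hg'
    rw [(hmem g hg).2.2, (hmem g' hg').2.2, h]
  have heq : ∀ g ∈ PA N, (1 / (g : ℝ)) ^ (4 / 5 : ℝ) = F (c g) := by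
    intro g hg
    obtain ⟨h1, h2, h3⟩ := hmem g hg
    have h4 : (g : ℝ) = ((c g).1 : ℝ) ^ 2 * ((c g).2 : ℝ) ^ 3 := by exact_mod_cast h3
    have h5 : (((c g).1 : ℝ) ^ 2) ^ (4 / 5 : ℝ) = ((c g).1 : ℝ) ^ (8 / 5 : ℝ) := by
      rw [← Real.rpow_natCast_mul (Nat.cast_nonneg _)]
      norm_num
    have h6 : (((c g).2 : ℝ) ^ 3) ^ (4 / 5 : ℝ) = ((c g).2 : ℝ) ^ (12 / 5 : ℝ) := by
      rw [← Real.rpow_natCast_mul (Nat.cast_nonneg _)]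
      norm_num
    rw [one_div, Real.inv_rpow (Nat.cast_nonneg _), h4, Real.mul_rpow (by positivity) (by positivity),
      h5, h6, mul_inv]
  calc ∑ g ∈ PA N, (1 / (g : ℝ)) ^ (4 / 5 : ℝ) = ∑ g ∈ PA N, F (c g) := Finset.sum_congr rfl heq
    _ = ∑ p ∈ (PA N).image c, F p := (Finset.sum_image (fun a ha b hb h => hinj ha hb h)).symm
    _ ≤ ∑' p, F p := hFs.sum_le_tsum _ (fun p _ => hF0 p)

end Pool.Agent.PWF
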