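import Mathlib
import Pool.Agent.PWF.A4
import Pool.Agent.PWF.F2
import Pool.Agent.PWF.G1

set_option autoImplicit false

namespace Pool.Agent.PWF

open Finset

/-- Put `T' = T / (2 D⁷) ≥ 4 N^(1/5)`. If `T ≤ (Rep N n).card` then some box with indices
`g ∈ PD n`, `e, f ∣ g`, `i, k, j, l < D` has `(Box e f (n / g) ..).card > T'`: otherwise
`rep_le_of_boxes` with `K = T'` gives `(Rep N n).card ≤ T / 2 < T`. Then `g ∈ PA N` and `n = g m`
with `m = n / g ∈ Icc 1 (N / g)`. So the set is contained in the union over `g ∈ PA N`,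
`e, f ∈ g.divisors`, `i, k, j, l ∈ range D` of the images under `m ↦ g m` of
`{m ∈ Icc 1 (N / g) | T' ≤ (Box e f m ..).card}`, and by `box_large` with `M = N / g`,
`B = (N / g)^(1/5) ≥ 1` (real division) each of these has at most
`110592 D⁶ (N / g)^(4/5) / T'²` elements. There are at most `D²` pairs `(e, f)` and `D⁴` quadruples
`(i, k, j, l)`, and `∑_g (N / g)^(4/5) ≤ K N^(4/5)`. So the count times `T'²` is at most
`110592 D¹² K N^(4/5)`, and `T² = 4 D¹⁴ T'²`. -/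
theorem large_values (N D : ℕ) (hN : 1 ≤ N) (hD : DivB N D) (K T : ℝ) (hK0 : 0 ≤ K)
    (hK : ∑ g ∈ PA N, (1 / (g : ℝ)) ^ (4 / 5 : ℝ) ≤ K)
    (hT : 8 * (D : ℝ) ^ 7 * (N : ℝ) ^ (1 / 5 : ℝ) ≤ T) :
    (((Icc 1 N).filter (fun n => T ≤ ((Rep N n).card : ℝ))).card : ℝ) * T ^ 2 ≤
      442368 * (D : ℝ) ^ 26 * K * (N : ℝ) ^ (4 / 5 : ℝ) := by
  classical
  have hN1 : (1 : ℝ) ≤ N := by exact_mod_cast hN
  have hD1 : (1 : ℝ) ≤ D := by exact_mod_cast hD.1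
  have hD0 : (0 : ℝ) < D := by linarith
  have hD7 : (0 : ℝ) < (D : ℝ) ^ 7 := by positivity
  have hNb : (1 : ℝ) ≤ (N : ℝ) ^ (1 / 5 : ℝ) := Real.one_le_rpow hN1 (by norm_num)
  have hT0 : 0 < T := lt_of_lt_of_le (by positivity) hT
  obtain ⟨R, hR⟩ : ∃ R : ℝ, R = T / (2 * (D : ℝ) ^ 7) := ⟨_, rfl⟩
  have hTR : T = 2 * (D : ℝ) ^ 7 * R := by
    rw [hR]; field_simp
  have hR0 : 0 < R := by rw [hR]; positivity
  have hR4 : 4 * (N : ℝ) ^ (1 / 5 : ℝ) ≤ R := by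
    rw [hR, le_div_iff₀ (by positivity)]
    linarith
  -- the index set for `g`
  let J : ℕ → Finset (ℕ × ℕ × ℕ × ℕ × ℕ × ℕ) := fun g =>
    g.divisors ×ˢ (g.divisors ×ˢ (range D ×ˢ (range D ×ˢ (range D ×ˢ range D))))
  let A : ℕ → (ℕ × ℕ × ℕ × ℕ × ℕ × ℕ) → Finset ℕ := fun g q =>
    (Icc 1 (N / g)).filter (fun m => R ≤
      ((Box q.1 q.2.1 m (2 ^ q.2.2.1) (2 ^ q.2.2.2.1) (2 ^ q.2.2.2.2.1)
        (2 ^ q.2.2.2.2.2)).card : ℝ))
  have hsub : (Icc 1 N).filter (fun n => T ≤ ((Rep N n).card : ℝ)) ⊆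
      (PA N).biUnion (fun g => (J g).biUnion (fun q => (A g q).image (fun m => g * m))) := by
    intro n hn
    rw [Finset.mem_filter, Finset.mem_Icc] at hn
    obtain ⟨⟨hn1, hnN⟩, hnT⟩ := hn
    by_contra hcon
    have hall : ∀ g e f i k j l : ℕ, g ∈ PD n → e ∣ g → f ∣ g → 0 < e → 0 < f → i < D → k < D →
        j < D → l < D → ((Box e f (n / g) (2 ^ i) (2 ^ k) (2 ^ j) (2 ^ l)).card : ℝ) ≤ R := by
      intro g e f i k j l hg he hf he0 hf0 hi hk hj hl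
      by_contra hlt
      rw [not_le] at hlt
      apply hcon
      rw [mem_PD] at hg
      obtain ⟨⟨hgn, _⟩, hgP⟩ := hg
      have hg0 : 0 < g := Nat.pos_of_dvd_of_pos hgn hn1
      have hgle : g ≤ n := Nat.le_of_dvd hn1 hgn
      rw [Finset.mem_biUnion]
      refine ⟨g, (mem_PA N g).mpr ⟨⟨hg0, hgle.trans hnN⟩, hgP⟩, ?_⟩
      rw [Finset.mem_biUnion]
      refine ⟨(e, f, i, k, j, l), ?_, ?_⟩
      · simp only [J, Finset.mem_product, Nat.mem_divisors, Finset.mem_range]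
        exact ⟨⟨he, hg0.ne'⟩, ⟨hf, hg0.ne'⟩, hi, hk, hj, hl⟩
      · rw [Finset.mem_image]
        refine ⟨n / g, ?_, Nat.mul_div_cancel' hgn⟩
        simp only [A, Finset.mem_filter, Finset.mem_Icc]
        exact ⟨⟨Nat.div_pos hgle hg0, Nat.div_le_div_right hnN⟩, hlt.le⟩
    have h1 := rep_le_of_boxes N n D hn1 hnN hD R hR0.le hall
    have h2 : T ≤ (D : ℝ) ^ 7 * R := hnT.trans h1
    have h3 : 0 < (D : ℝ) ^ 7 * R := by positivity
    rw [hTR] at h2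
    linarith
  have hcard : (((Icc 1 N).filter (fun n => T ≤ ((Rep N n).card : ℝ))).card : ℝ) ≤
      ∑ g ∈ PA N, ∑ q ∈ J g, ((A g q).card : ℝ) := by
    have h1 : ((Icc 1 N).filter (fun n => T ≤ ((Rep N n).card : ℝ))).card ≤
        ∑ g ∈ PA N, ∑ q ∈ J g, (A g q).card := by
      refine (Finset.card_le_card hsub).trans ?_
      refine Finset.card_biUnion_le.trans ?_
      refine Finset.sum_le_sum (fun g _ => ?_)
      refine Finset.card_biUnion_le.trans ?_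
      exact Finset.sum_le_sum (fun q _ => Finset.card_image_le)
    exact_mod_cast h1
  have hone : ∀ g ∈ PA N, ∀ q ∈ J g, ((A g q).card : ℝ) * R ^ 2 ≤
      110592 * (D : ℝ) ^ 6 * ((N : ℝ) ^ (4 / 5 : ℝ) * (1 / (g : ℝ)) ^ (4 / 5 : ℝ)) := by
    intro g hg q hq
    rw [mem_PA] at hg
    obtain ⟨⟨hg1, hgN⟩, _⟩ := hg
    have hg0 : (0 : ℝ) < g := by exact_mod_cast hg1
    simp only [J, Finset.mem_product, Nat.mem_divisors, Finset.mem_range] at hq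
    obtain ⟨⟨he, _⟩, ⟨hf, _⟩, _⟩ := hq
    have he0 : 0 < q.1 := Nat.pos_of_dvd_of_pos he hg1
    have hf0 : 0 < q.2.1 := Nat.pos_of_dvd_of_pos hf hg1
    have hx0 : (0 : ℝ) < (N : ℝ) / g := by positivity
    have hx1 : (1 : ℝ) ≤ (N : ℝ) / g := by
      rw [le_div_iff₀ hg0, one_mul]; exact_mod_cast hgN
    have hB1 : (1 : ℝ) ≤ ((N : ℝ) / g) ^ (1 / 5 : ℝ) := Real.one_le_rpow hx1 (by norm_num)
    have hB5 : (((N : ℝ) / g) ^ (1 / 5 : ℝ)) ^ 5 = (N : ℝ) / g := by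
      rw [← Real.rpow_natCast, ← Real.rpow_mul hx0.le]; norm_num
    have hB4 : (((N : ℝ) / g) ^ (1 / 5 : ℝ)) ^ 4 =
        (N : ℝ) ^ (4 / 5 : ℝ) * (1 / (g : ℝ)) ^ (4 / 5 : ℝ) := by
      rw [← Real.rpow_natCast, ← Real.rpow_mul hx0.le,
        ← Real.mul_rpow (by positivity) (by positivity), mul_one_div]
      norm_num
    have hM : ((N / g : ℕ) : ℝ) ≤ (((N : ℝ) / g) ^ (1 / 5 : ℝ)) ^ 5 := by
      rw [hB5]; exact Nat.cast_div_le
    have hBN : ((N : ℝ) / g) ^ (1 / 5 : ℝ) ≤ (N : ℝ) ^ (1 / 5 : ℝ) := by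
      refine Real.rpow_le_rpow hx0.le ?_ (by norm_num)
      exact div_le_self (by linarith) (by exact_mod_cast hg1)
    have h2 : (0 : ℕ) < 2 := by norm_num
    have hb := box_large q.1 q.2.1 (N / g) D (2 ^ q.2.2.1) (2 ^ q.2.2.2.1) (2 ^ q.2.2.2.2.1)
      (2 ^ q.2.2.2.2.2) he0 hf0 (by positivity) (by positivity) (by positivity) (by positivity)
      (hD.mono (Nat.div_le_self N g)) (((N : ℝ) / g) ^ (1 / 5 : ℝ)) R hB1 hM (by linarith)
    rw [hB4] at hb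
    exact hb
  have hJ : ∀ g ∈ PA N, ((J g).card : ℝ) ≤ (D : ℝ) ^ 6 := by
    intro g hg
    rw [mem_PA] at hg
    obtain ⟨⟨hg1, hgN⟩, _⟩ := hg
    have h1 : g.divisors.card ≤ D := hD.2 g hg1 hgN
    have h2 : (J g).card ≤ D ^ 6 := by
      simp only [J, Finset.card_product, Finset.card_range]
      calc g.divisors.card * (g.divisors.card * (D * (D * (D * D))))
          ≤ D * (D * (D * (D * (D * D)))) :=
            Nat.mul_le_mul h1 (Nat.mul_le_mul_right _ h1)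
        _ = D ^ 6 := by ring
    exact_mod_cast h2
  have hNp : (0 : ℝ) ≤ (N : ℝ) ^ (4 / 5 : ℝ) := by positivity
  have htot : (((Icc 1 N).filter (fun n => T ≤ ((Rep N n).card : ℝ))).card : ℝ) * R ^ 2 ≤
      110592 * (D : ℝ) ^ 12 * (N : ℝ) ^ (4 / 5 : ℝ) * K := by
    calc (((Icc 1 N).filter (fun n => T ≤ ((Rep N n).card : ℝ))).card : ℝ) * R ^ 2
        ≤ (∑ g ∈ PA N, ∑ q ∈ J g, ((A g q).card : ℝ)) * R ^ 2 :=
          mul_le_mul_of_nonneg_right hcard (by positivity)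
      _ = ∑ g ∈ PA N, ∑ q ∈ J g, ((A g q).card : ℝ) * R ^ 2 := by
          rw [Finset.sum_mul]
          exact Finset.sum_congr rfl (fun g _ => Finset.sum_mul _ _ _)
      _ ≤ ∑ g ∈ PA N, 110592 * (D : ℝ) ^ 12 * (N : ℝ) ^ (4 / 5 : ℝ) *
            (1 / (g : ℝ)) ^ (4 / 5 : ℝ) := by
          refine Finset.sum_le_sum (fun g hg => ?_)
          have hgp : (0 : ℝ) ≤ (1 / (g : ℝ)) ^ (4 / 5 : ℝ) := by positivity
          calc ∑ q ∈ J g, ((A g q).card : ℝ) * R ^ 2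
              ≤ ∑ q ∈ J g, 110592 * (D : ℝ) ^ 6 *
                  ((N : ℝ) ^ (4 / 5 : ℝ) * (1 / (g : ℝ)) ^ (4 / 5 : ℝ)) :=
                Finset.sum_le_sum (hone g hg)
            _ = ((J g).card : ℝ) * (110592 * (D : ℝ) ^ 6 *
                  ((N : ℝ) ^ (4 / 5 : ℝ) * (1 / (g : ℝ)) ^ (4 / 5 : ℝ))) := by
                rw [Finset.sum_const, nsmul_eq_mul]
            _ ≤ (D : ℝ) ^ 6 * (110592 * (D : ℝ) ^ 6 *
                  ((N : ℝ) ^ (4 / 5 : ℝ) * (1 / (g : ℝ)) ^ (4 / 5 : ℝ))) :=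
                mul_le_mul_of_nonneg_right (hJ g hg) (by positivity)
            _ = _ := by ring
      _ = 110592 * (D : ℝ) ^ 12 * (N : ℝ) ^ (4 / 5 : ℝ) *
            ∑ g ∈ PA N, (1 / (g : ℝ)) ^ (4 / 5 : ℝ) := by rw [Finset.mul_sum]
      _ ≤ 110592 * (D : ℝ) ^ 12 * (N : ℝ) ^ (4 / 5 : ℝ) * K :=
          mul_le_mul_of_nonneg_left hK (by positivity)
  calc (((Icc 1 N).filter (fun n => T ≤ ((Rep N n).card : ℝ))).card : ℝ) * T ^ 2
      = 4 * (D : ℝ) ^ 14 *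
          ((((Icc 1 N).filter (fun n => T ≤ ((Rep N n).card : ℝ))).card : ℝ) * R ^ 2) := by
        have : T ^ 2 = 4 * (D : ℝ) ^ 14 * R ^ 2 := by rw [hTR]; ring
        rw [this]; ring
    _ ≤ 4 * (D : ℝ) ^ 14 * (110592 * (D : ℝ) ^ 12 * (N : ℝ) ^ (4 / 5 : ℝ) * K) :=
        mul_le_mul_of_nonneg_left htot (by positivity)
    _ = 442368 * (D : ℝ) ^ 26 * K * (N : ℝ) ^ (4 / 5 : ℝ) := by ring

end Pool.Agent.PWF
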