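import Mathlib
import Pool.Agent.PWF.Def

set_option autoImplicit false

namespace Pool.Agent.PWF

open Finset

/-- An integer set with `u ∣ k (j - j')` and `|j - j'| ≤ R` for all its members has at most
`1 + k R / u` elements: `j ≡ j'` modulo `u / gcd (u, k)`. -/
theorem card_le_of_dvd (u k R : ℕ) (hu : 0 < u) (hk : 0 < k) (F : Finset ℤ)
    (h : ∀ j ∈ F, ∀ j' ∈ F, (u : ℤ) ∣ k * (j - j')) (hR : ∀ j ∈ F, ∀ j' ∈ F, |j - j'| ≤ R) :
    u * F.card ≤ u + k * R := by
  rcases F.eq_empty_or_nonempty with h0 | hne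
  · subst h0; simp
  obtain ⟨u', k', hcop, hu', hk'⟩ := Nat.exists_coprime u k
  set g := Nat.gcd u k with hg
  have hg0 : 0 < g := Nat.gcd_pos_of_pos_left _ hu
  have hu0 : 0 < u' := by
    rcases Nat.eq_zero_or_pos u' with h0 | h0
    · rw [h0, Nat.zero_mul] at hu'; omega
    · exact h0
  have hgk : g ≤ k := Nat.le_of_dvd hk (Nat.gcd_dvd_right _ _)
  have hdvd : ∀ j ∈ F, ∀ j' ∈ F, (u' : ℤ) ∣ j - j' := by
    intro j hj j' hj'
    have h1 := h j hj j' hj'
    have h2 : (g : ℤ) * (u' : ℤ) ∣ (g : ℤ) * ((k' : ℤ) * (j - j')) := by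
      have e1 : (g : ℤ) * (u' : ℤ) = (u : ℤ) := by
        have : g * u' = u := by rw [Nat.mul_comm]; exact hu'.symm
        exact_mod_cast this
      have e2 : (g : ℤ) * ((k' : ℤ) * (j - j')) = (k : ℤ) * (j - j') := by
        have : g * k' = k := by rw [Nat.mul_comm]; exact hk'.symm
        rw [← mul_assoc]
        congr 1
        exact_mod_cast this
      rw [e1, e2]
      exact h1
    have h3 : (u' : ℤ) ∣ (k' : ℤ) * (j - j') :=
      Int.dvd_of_mul_dvd_mul_left (by exact_mod_cast hg0.ne') h2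
    exact (Nat.isCoprime_iff_coprime.mpr hcop).dvd_of_dvd_mul_left h3
  set j0 := F.min' hne with hj0
  have hj0F : j0 ∈ F := F.min'_mem hne
  have hcard : F.card ≤ R / u' + 1 := by
    rw [← Finset.card_range (R / u' + 1)]
    apply Finset.card_le_card_of_injOn (fun j => ((j - j0) / (u' : ℤ)).toNat)
    · intro j hj
      have hj' := Finset.mem_coe.mp hj
      obtain ⟨c, hc⟩ := hdvd j hj' j0 hj0F
      have h1 : 0 ≤ j - j0 := by
        have := F.min'_le j hj'
        omega
      have h2 : j - j0 ≤ R := (abs_le.mp (hR j hj' j0 hj0F)).2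
      rw [Finset.mem_coe, Finset.mem_range]
      have hu0' : (0 : ℤ) < u' := by exact_mod_cast hu0
      have h3 : (j - j0) / (u' : ℤ) ≤ ((R / u' : ℕ) : ℤ) := by
        rw [Int.natCast_div]
        exact Int.ediv_le_ediv hu0' h2
      have h4 : 0 ≤ (j - j0) / (u' : ℤ) := Int.ediv_nonneg h1 hu0'.le
      dsimp only
      omega
    · intro j hj i hi hji
      have hj' := Finset.mem_coe.mp hj
      have hi' := Finset.mem_coe.mp hi
      have hu0' : (0 : ℤ) < u' := by exact_mod_cast hu0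
      have h1 : 0 ≤ j - j0 := by
        have := F.min'_le j hj'
        omega
      have h2 : 0 ≤ i - j0 := by
        have := F.min'_le i hi'
        omega
      have h3 : 0 ≤ (j - j0) / (u' : ℤ) := Int.ediv_nonneg h1 hu0'.le
      have h4 : 0 ≤ (i - j0) / (u' : ℤ) := Int.ediv_nonneg h2 hu0'.le
      dsimp only at hji
      have h5 : (j - j0) / (u' : ℤ) = (i - j0) / (u' : ℤ) := by omega
      have h6 := Int.ediv_mul_cancel (hdvd j hj' j0 hj0F)
      have h7 := Int.ediv_mul_cancel (hdvd i hi' j0 hj0F)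
      rw [h5, h7] at h6
      omega
  calc u * F.card ≤ u * (R / u' + 1) := Nat.mul_le_mul_left _ hcard
    _ = u + g * (u' * (R / u')) := by rw [hu']; ring
    _ ≤ u + k * R := by
        apply Nat.add_le_add_left
        exact Nat.mul_le_mul hgk (Nat.mul_div_le _ _)

theorem H1_sqf (u : ℕ) (hu : Squarefree u) (n : ℤ)
    (h : ∀ p : ℕ, p.Prime → p ∣ u → (p : ℤ) ∣ n) : (u : ℤ) ∣ n := by
  rw [Int.natCast_dvd]
  rw [← Nat.prod_primeFactors_of_squarefree hu]
  apply Finset.prod_primes_dvd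
  · intro p hp
    exact (Nat.prime_of_mem_primeFactors hp).prime
  · intro p hp
    exact Int.natCast_dvd.mp (h p (Nat.prime_of_mem_primeFactors hp)
      (Nat.dvd_of_mem_primeFactors hp))

/-- Group the `j ∈ F` by `d = gcd (j, u)`, a divisor of `u`. For `j, j'` with the same `d`:
`d ∣ j - j'`. As `u ∣ j (α + β j)` and `u` is squarefree, `u / d` is coprime to `d` and (as
`gcd (j, u / d) = 1`) divides `α + β j`, likewise `α + β j'`, so it divides `β (j - j')`. A prime
`p ∣ u / d` with `p ∣ β` divides `α`, so `p ∣ 30` by hypothesis; hence the squarefree number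
`gcd (β, u / d)` divides `30` and `u / d ∣ 30 (j - j')`; with `d ∣ 30 (j - j')`, `u ∣ 30 (j - j')`.
`card_le_of_dvd` with `k = 30` for each of the `u.divisors.card` groups. -/
theorem quad_count (u R : ℕ) (hu : Squarefree u) (α β : ℤ)
    (h : ∀ p : ℕ, p.Prime → p ∣ u → (p : ℤ) ∣ β → (p : ℤ) ∣ α → p ∣ 30) (F : Finset ℤ)
    (hR : ∀ j ∈ F, ∀ j' ∈ F, |j - j'| ≤ R) (hF : ∀ j ∈ F, (u : ℤ) ∣ j * (α + β * j)) :
    u * F.card ≤ u.divisors.card * (u + 30 * R) := by
  have hu0 : 0 < u := Nat.pos_of_ne_zero hu.ne_zero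
  have hmaps : ∀ j ∈ F, Int.gcd j u ∈ u.divisors := by
    intro j _
    rw [Nat.mem_divisors]
    refine ⟨?_, hu0.ne'⟩
    have := Int.gcd_dvd_right j (u : ℤ)
    exact_mod_cast this
  rw [Finset.card_eq_sum_card_fiberwise hmaps, Finset.mul_sum]
  have hfib : ∀ d ∈ u.divisors, u * (F.filter (fun j => Int.gcd j u = d)).card ≤ u + 30 * R := by
    intro d _
    apply card_le_of_dvd u 30 R hu0 (by norm_num)
    · intro j hj j' hj'
      rw [Finset.mem_filter] at hj hj'
      apply H1_sqf u hu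
      intro p hp hpu
      have hpp : Prime (p : ℤ) := Nat.prime_iff_prime_int.mp hp
      have hpu' : (p : ℤ) ∣ (u : ℤ) := by exact_mod_cast hpu
      have key : ∀ i i' : ℤ, Int.gcd i u = d → Int.gcd i' u = d → (p : ℤ) ∣ i → (p : ℤ) ∣ i' := by
        intro i i' hi hi' hpi
        have h1 : (p : ℤ) ∣ (Int.gcd i u : ℤ) := Int.dvd_coe_gcd hpi hpu'
        rw [hi, ← hi'] at h1
        exact h1.trans (Int.gcd_dvd_left _ _)
      by_cases hpj : (p : ℤ) ∣ j
      · exact Dvd.dvd.mul_left (dvd_sub hpj (key j j' hj.2 hj'.2 hpj)) _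
      · have hpj' : ¬ (p : ℤ) ∣ j' := fun hc => hpj (key j' j hj'.2 hj.2 hc)
        have h1 : (p : ℤ) ∣ α + β * j :=
          (hpp.dvd_or_dvd (hpu'.trans (hF j hj.1))).resolve_left hpj
        have h2 : (p : ℤ) ∣ α + β * j' :=
          (hpp.dvd_or_dvd (hpu'.trans (hF j' hj'.1))).resolve_left hpj'
        have h3 : (p : ℤ) ∣ β * (j - j') := by
          have := dvd_sub h1 h2
          have e : α + β * j - (α + β * j') = β * (j - j') := by ring
          rwa [e] at this
        rcases hpp.dvd_or_dvd h3 with h4 | h4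
        · have h5 : (p : ℤ) ∣ α := by
            have := dvd_sub h1 (Dvd.dvd.mul_right h4 j)
            rwa [add_sub_cancel_right] at this
          have h6 : p ∣ 30 := h p hp hpu h4 h5
          have h7 : (p : ℤ) ∣ ((30 : ℕ) : ℤ) := by exact_mod_cast h6
          exact Dvd.dvd.mul_right h7 _
        · exact Dvd.dvd.mul_left h4 _
    · intro j hj j' hj'
      exact hR j (Finset.mem_filter.mp hj).1 j' (Finset.mem_filter.mp hj').1
  have h2 := Finset.sum_le_card_nsmul u.divisors _ _ hfib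
  rw [smul_eq_mul] at h2
  exact h2

end Pool.Agent.PWF
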