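import Mathlib
import Pool.Agent.PWF.H1

set_option autoImplicit false

namespace Pool.Agent.PWF

open Finset

theorem H2_param {u a' b' g0 w z w₁ z₁ : ℤ} (hu : u ≠ 0) (hg0 : g0 ≠ 0) (hcop : IsCoprime a' b')
    (h1 : u ∣ w - w₁) (h2 : u ∣ z - z₁)
    (h3 : g0 * b' * w - g0 * a' * z = g0 * b' * w₁ - g0 * a' * z₁) :
    ∃ i : ℤ, w = w₁ + u * i * a' ∧ z = z₁ + u * i * b' := by
  obtain ⟨r, s, hrs⟩ := hcop
  obtain ⟨k, hk⟩ := h1
  obtain ⟨l, hl⟩ := h2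
  have h4 : g0 * (u * (b' * k - a' * l)) = 0 := by
    have e1 : w = w₁ + u * k := by linarith
    have e2 : z = z₁ + u * l := by linarith
    rw [e1, e2] at h3
    linarith
  have h5 : b' * k = a' * l := by
    rcases mul_eq_zero.1 h4 with h | h
    · exact absurd h hg0
    · rcases mul_eq_zero.1 h with h | h
      · exact absurd h hu
      · linarith
  refine ⟨r * k + s * l, ?_, ?_⟩
  · have e1 : (r * k + s * l) * a' = k := by
      calc (r * k + s * l) * a' = r * a' * k + s * (a' * l) := by ring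
        _ = r * a' * k + s * (b' * k) := by rw [h5]
        _ = (r * a' + s * b') * k := by ring
        _ = k := by rw [hrs, one_mul]
    rw [mul_assoc, e1]
    linarith
  · have e1 : (r * k + s * l) * b' = l := by
      calc (r * k + s * l) * b' = r * (b' * k) + s * b' * l := by ring
        _ = r * (a' * l) + s * b' * l := by rw [h5]
        _ = (r * a' + s * b') * l := by ring
        _ = l := by rw [hrs, one_mul]
    rw [mul_assoc, e1]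
    linarith

theorem H2_dvd {u A C w z w₁ z₁ a b i : ℤ} (hu : u ≠ 0) (hA : IsCoprime A u)
    (hw₁ : IsCoprime w₁ u) (h1 : u ^ 3 ∣ A * w ^ 3 * z ^ 2 - C)
    (h2 : u ^ 3 ∣ A * w₁ ^ 3 * z₁ ^ 2 - C) (hw : w = w₁ + u * i * a) (hz : z = z₁ + u * i * b) :
    u ^ 2 ∣ i * (w₁ * z₁ * (3 * z₁ * a + 2 * w₁ * b) +
      u * i * (3 * z₁ ^ 2 * a ^ 2 + 6 * w₁ * z₁ * a * b + w₁ ^ 2 * b ^ 2)) := by
  have h3 : u ^ 3 ∣ A * (w ^ 3 * z ^ 2 - w₁ ^ 3 * z₁ ^ 2) := by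
    have := dvd_sub h1 h2
    have e : A * w ^ 3 * z ^ 2 - C - (A * w₁ ^ 3 * z₁ ^ 2 - C) =
      A * (w ^ 3 * z ^ 2 - w₁ ^ 3 * z₁ ^ 2) := by ring
    rwa [e] at this
  have h4 : u ^ 3 ∣ w ^ 3 * z ^ 2 - w₁ ^ 3 * z₁ ^ 2 :=
    (IsCoprime.pow_left hA.symm).dvd_of_dvd_mul_left h3
  have h5 : w ^ 3 * z ^ 2 - w₁ ^ 3 * z₁ ^ 2 =
      u * (w₁ * (i * (w₁ * z₁ * (3 * z₁ * a + 2 * w₁ * b) +
        u * i * (3 * z₁ ^ 2 * a ^ 2 + 6 * w₁ * z₁ * a * b + w₁ ^ 2 * b ^ 2)))) +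
      u ^ 3 * (i ^ 3 * (3 * w₁ ^ 2 * a * b ^ 2 + 6 * w₁ * z₁ * a ^ 2 * b + a ^ 3 * z₁ ^ 2 +
        (u * i) * (3 * w₁ * a ^ 2 * b ^ 2 + 2 * z₁ * a ^ 3 * b) +
        (u * i) ^ 2 * (a ^ 3 * b ^ 2))) := by
    rw [hw, hz]
    ring
  rw [h5] at h4
  have h6 := (dvd_add_left (Dvd.intro _ rfl)).1 h4
  have h7 : u * u ^ 2 ∣ u * (w₁ * (i * (w₁ * z₁ * (3 * z₁ * a + 2 * w₁ * b) +
        u * i * (3 * z₁ ^ 2 * a ^ 2 + 6 * w₁ * z₁ * a * b + w₁ ^ 2 * b ^ 2)))) := by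
    have e : u ^ 3 = u * u ^ 2 := by ring
    rwa [e] at h6
  have h8 := (mul_dvd_mul_iff_left hu).1 h7
  exact (IsCoprime.pow_left hw₁.symm).dvd_of_dvd_mul_left h8

/-- the primes which divide both coefficients -/
theorem H2_prime {p : ℕ} (hp : p.Prime) {a b w z lam' : ℤ} {g h : ℤ} (hab : IsCoprime a b)
    (hw : ¬ (p : ℤ) ∣ w) (hz : ¬ (p : ℤ) ∣ z) (hlam : 3 * z * a + 2 * w * b = g * lam')
    (hcop : IsCoprime lam' h) (hgh : (p : ℤ) ∣ g * h)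
    (hβ : (p : ℤ) ∣ h ^ 2 * (3 * z ^ 2 * a ^ 2 + 6 * w * z * a * b + w ^ 2 * b ^ 2))
    (hα : (p : ℤ) ∣ w * z * lam') : p ∣ 30 := by
  have hpp : Prime (p : ℤ) := Nat.prime_iff_prime_int.1 hp
  have hnh : ¬ (p : ℤ) ∣ h := by
    intro hph
    rcases hpp.dvd_or_dvd hα with h1 | h1
    · rcases hpp.dvd_or_dvd h1 with h2 | h2
      · exact hw h2
      · exact hz h2
    · exact hpp.not_isUnit (hcop.isUnit_of_dvd' h1 hph)
  have hg : (p : ℤ) ∣ g := (hpp.dvd_or_dvd hgh).resolve_right hnh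
  have hQ : (p : ℤ) ∣ 3 * z ^ 2 * a ^ 2 + 6 * w * z * a * b + w ^ 2 * b ^ 2 :=
    (hpp.dvd_or_dvd hβ).resolve_left fun h1 => hnh (hpp.dvd_of_dvd_pow h1)
  have hlamd : (p : ℤ) ∣ 3 * z * a + 2 * w * b := by
    rw [hlam]
    exact hg.mul_right _
  have h1 : (p : ℤ) ∣ 15 * (z * a) ^ 2 := by
    have e : 15 * (z * a) ^ 2 = (3 * z * a + 2 * w * b) * (9 * z * a + 2 * w * b) -
        4 * (3 * z ^ 2 * a ^ 2 + 6 * w * z * a * b + w ^ 2 * b ^ 2) := by ring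
    rw [e]
    exact dvd_sub (hlamd.mul_right _) (hQ.mul_left _)
  have h2 : (p : ℤ) ∣ 5 * (w * b) ^ 2 := by
    have e : 5 * (w * b) ^ 2 = (3 * z * a + 2 * w * b) * (3 * z * a + 4 * w * b) -
        3 * (3 * z ^ 2 * a ^ 2 + 6 * w * z * a * b + w ^ 2 * b ^ 2) := by ring
    rw [e]
    exact dvd_sub (hlamd.mul_right _) (hQ.mul_left _)
  have h30 : (p : ℤ) ∣ 30 := by
    rcases hpp.dvd_or_dvd h1 with h3 | h3
    · exact h3.trans ⟨2, by norm_num⟩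
    · rcases hpp.dvd_or_dvd h2 with h4 | h4
      · exact h4.trans ⟨6, by norm_num⟩
      · exfalso
        have h5 : (p : ℤ) ∣ a :=
          (hpp.dvd_or_dvd (hpp.dvd_of_dvd_pow h3)).resolve_left hz
        have h6 : (p : ℤ) ∣ b :=
          (hpp.dvd_or_dvd (hpp.dvd_of_dvd_pow h4)).resolve_left hw
        exact hpp.not_isUnit (hab.isUnit_of_dvd' h5 h6)
  exact_mod_cast h30

/-- If `F` is empty nothing is to be shown; fix `(w₁, z₁) ∈ F`, and let `(a', b') = (a, b) / gcd`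
(coprime integers). Every `t = (w, z) ∈ F` satisfies `b' (w - w₁) = a' (z - z₁)`, so
`(w - w₁, z - z₁) = i' (a', b')`, and `u ∣ i' a'`, `u ∣ i' b'` give `i' = u i`. So
`w = w₁ + u i a'`, `z = z₁ + u i b'`, and `t ↦ i` is injective. As `A` is invertible modulo `u³`,
`w³ z² ≡ w₁³ z₁²` modulo `u³`; expanding,
`w³ z² - w₁³ z₁² ≡ u i w₁² z₁ lam + u² i² w₁ Q` modulo `u³` with `lam = 3 z₁ a' + 2 w₁ b'`,
`Q = 3 z₁² a'² + 6 w₁ z₁ a' b' + w₁² b'²`; `w₁` is coprime to `u`, so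
`u² ∣ i (w₁ z₁ lam + u i Q)`. In particular `u ∣ i lam` (`w₁ z₁` is coprime to `u`). Let
`g = gcd (lam, u)`, `u = g h`, `lam = g lam'`: then `h ∣ i`, `i = h j`, `i lam = u j lam'`, and
`u ∣ j (α + β j)` with `α = w₁ z₁ lam'`, `β = h² Q`.
Hypothesis of `quad_count`: let `p ∣ u`, `p ∣ β`, `p ∣ α`. If `p ∣ h` then `p ∤ lam'`
(`gcd (lam', h) = 1`) and `p ∤ w₁ z₁`, contradiction with `p ∣ α`. So `p ∤ h`, `p ∣ g ∣ lam` and
`p ∣ Q`. From `4 Q + 15 z₁² a'² = lam * (..)` modulo `p` (insert `2 w₁ b' ≡ - 3 z₁ a'`: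
`4 Q ≡ -15 z₁² a'²`) and `3 Q ≡ -5 w₁² b'²` modulo `p`: `p ∣ 15 a'²` and `p ∣ 5 b'²`
(`p ∤ w₁ z₁`), so `p ∣ 30`, since `p` does not divide both `a'` and `b'`.
Range of `j`: if `a' ≠ 0`, then `|w - w'| < u²` for `t, t' ∈ F` gives `|i - i'| < u`, so
`|j - j'| < u`. If `a' = 0` then `b' = ± 1`, `lam = ± 2 w₁`, `g ∣ 2`, `h ≥ u / 2`, and
`|z - z'| < u³` gives `|i - i'| < u²`, so `|j - j'| < 2 u`. So `R = 2 u` and `quad_count` gives
`u * F.card ≤ D * (u + 60 u)`. -/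
theorem line_count (u D : ℕ) (hu : Squarefree u) (hD : DivB u D) (A C : ℤ)
    (hA : IsCoprime A (u : ℤ)) (w₀ L : ℕ) (hL : L ≤ u ^ 3) (a b c : ℤ) (hab : (a, b) ≠ 0)
    (F : Finset (ℕ × ℕ)) (hF : ∀ t ∈ F, t ∈ Crv u A C w₀ (u ^ 2) L)
    (hcls : ∀ t ∈ F, ∀ t' ∈ F, (u : ℤ) ∣ (t.1 : ℤ) - t'.1 ∧ (u : ℤ) ∣ (t.2 : ℤ) - t'.2)
    (hline : ∀ t ∈ F, b * (t.1 : ℤ) - a * (t.2 : ℤ) = c) :
    F.card ≤ 61 * D := by
  have hu0 : 0 < u := Nat.pos_of_ne_zero hu.ne_zero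
  have huZ : (0 : ℤ) < u := by exact_mod_cast hu0
  rcases F.eq_empty_or_nonempty with rfl | ⟨⟨w₁, z₁⟩, h₁⟩
  · simp
  obtain ⟨a', b', g0, hg0, ha, hb, hcop⟩ : ∃ a' b' g0 : ℤ, g0 ≠ 0 ∧ a = g0 * a' ∧
      b = g0 * b' ∧ IsCoprime a' b' := by
    have hpos : 0 < Int.gcd a b := by
      rw [Nat.pos_iff_ne_zero]
      intro h
      rw [Int.gcd_eq_zero_iff] at h
      exact hab (by rw [h.1, h.2]; rfl)
    obtain ⟨m, n, h1, h2, h3⟩ := Int.exists_gcd_one hpos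
    refine ⟨m, n, Int.gcd a b, by exact_mod_cast hpos.ne', ?_, ?_, Int.isCoprime_iff_gcd_eq_one.2 h1⟩
    · rw [mul_comm]
      exact h2
    · rw [mul_comm]
      exact h3
  have hC₁ := (mem_Crv _ _ _ _ _ _ _ _).1 (hF _ h₁)
  obtain ⟨-, ⟨hw₁, hz₁⟩, hd₁⟩ := hC₁
  have hw₁Z : IsCoprime (w₁ : ℤ) (u : ℤ) := Nat.isCoprime_iff_coprime.2 hw₁
  have hz₁Z : IsCoprime (z₁ : ℤ) (u : ℤ) := Nat.isCoprime_iff_coprime.2 hz₁
  -- lam, g, h
  obtain ⟨lam, hlam⟩ : ∃ lam : ℤ, lam = 3 * z₁ * a' + 2 * w₁ * b' := ⟨_, rfl⟩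
  obtain ⟨Q, hQ⟩ : ∃ Q : ℤ, Q = 3 * (z₁ : ℤ) ^ 2 * a' ^ 2 + 6 * w₁ * z₁ * a' * b' +
    (w₁ : ℤ) ^ 2 * b' ^ 2 := ⟨_, rfl⟩
  obtain ⟨g, h, lam', hg, hh, hgh, hlg, hlh⟩ : ∃ g h : ℕ, ∃ lam' : ℤ, 0 < g ∧ 0 < h ∧
      u = g * h ∧ lam = g * lam' ∧ IsCoprime lam' (h : ℤ) := by
    have hpos : 0 < Int.gcd lam u := by
      rw [Nat.pos_iff_ne_zero]
      intro h
      rw [Int.gcd_eq_zero_iff] at h
      have := h.2
      omega
    obtain ⟨m, n, h1, h2, h3⟩ := Int.exists_gcd_one hpos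
    have hn0 : 0 < n := by
      by_contra hneg
      have h4 : n * (Int.gcd lam u : ℤ) ≤ 0 :=
        mul_nonpos_of_nonpos_of_nonneg (not_lt.1 hneg) (by positivity)
      omega
    obtain ⟨n', hn'⟩ := Int.eq_ofNat_of_zero_le hn0.le
    refine ⟨Int.gcd lam u, n', m, hpos, by omega, ?_, ?_, ?_⟩
    · have h4 : (u : ℤ) = (Int.gcd lam u : ℤ) * (n' : ℤ) := by
        rw [← hn', mul_comm]
        exact h3
      exact_mod_cast h4
    · rw [mul_comm]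
      exact h2
    · rw [← hn']
      exact Int.isCoprime_iff_gcd_eq_one.2 h1
  have hghZ : (u : ℤ) = g * h := by exact_mod_cast hgh
  have hgZ : (0 : ℤ) < g := by exact_mod_cast hg
  have hhZ : (0 : ℤ) < h := by exact_mod_cast hh
  -- the parametrization
  have hpar : ∀ t : ℕ × ℕ, ∃ j : ℤ, t ∈ F → (t.1 : ℤ) = w₁ + u * (h * j) * a' ∧
      (t.2 : ℤ) = z₁ + u * (h * j) * b' ∧ (u : ℤ) ∣ j * (w₁ * z₁ * lam' + h ^ 2 * Q * j) := by
    intro t
    by_cases ht : t ∈ F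
    · have hcl := hcls t ht _ h₁
      have hl1 := hline t ht
      have hl2 := hline _ h₁
      obtain ⟨i, hi1, hi2⟩ := H2_param (u := (u : ℤ)) (a' := a') (b' := b') (g0 := g0)
        (w := (t.1 : ℤ)) (z := (t.2 : ℤ)) (w₁ := (w₁ : ℤ)) (z₁ := (z₁ : ℤ)) huZ.ne' hg0 hcop
        hcl.1 hcl.2 (by
          rw [← ha, ← hb, hl1]
          exact hl2.symm)
      have hCt := (mem_Crv _ _ _ _ _ _ t.1 t.2).1 (hF t ht)
      have hdt := hCt.2.2
      have hd2 := H2_dvd huZ.ne' hA hw₁Z hdt hd₁ hi1 hi2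
      rw [← hlam, ← hQ] at hd2
      have hd3 : (u : ℤ) ∣ i * lam := by
        have h1 : (u : ℤ) ∣ i * (w₁ * z₁ * lam + u * i * Q) :=
          (Dvd.intro_left (u : ℤ) (by ring)).trans hd2
        have h2 : (u : ℤ) ∣ (w₁ * z₁) * (i * lam) := by
          have e : ((w₁ : ℤ) * z₁) * (i * lam) = i * (w₁ * z₁ * lam + u * i * Q) -
              u * (i * i * Q) := by ring
          rw [e]
          exact dvd_sub h1 (Dvd.intro _ rfl)
        exact (IsCoprime.mul_left hw₁Z hz₁Z).symm.dvd_of_dvd_mul_left h2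
      have hd4 : (h : ℤ) ∣ i := by
        rw [hghZ, hlg] at hd3
        have h1 : (g : ℤ) * h ∣ g * (i * lam') := by
          have e : (g : ℤ) * (i * lam') = i * (g * lam') := by ring
          rw [e]
          exact hd3
        have h2 := (mul_dvd_mul_iff_left hgZ.ne').1 h1
        exact hlh.symm.dvd_of_dvd_mul_right h2
      obtain ⟨j, hj⟩ := hd4
      refine ⟨j, fun _ => ⟨by rw [← hj]; exact hi1, by rw [← hj]; exact hi2, ?_⟩⟩
      have h1 : i * (w₁ * z₁ * lam + u * i * Q) =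
          u * (j * (w₁ * z₁ * lam' + h ^ 2 * Q * j)) := by
        rw [hj, hlg, hghZ]
        ring
      rw [h1, pow_two] at hd2
      exact (mul_dvd_mul_iff_left huZ.ne').1 hd2
    · exact ⟨0, fun h' => absurd h' ht⟩
  choose j hj using hpar
  have hinj : Set.InjOn j F := by
    intro t ht t' ht' he
    have h1 := hj t ht
    have h2 := hj t' ht'
    rw [he] at h1
    have e1 : (t.1 : ℤ) = t'.1 := h1.1.trans h2.1.symm
    have e2 : (t.2 : ℤ) = t'.2 := h1.2.1.trans h2.2.1.symm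
    exact Prod.ext (by exact_mod_cast e1) (by exact_mod_cast e2)
  have hpr : ∀ p : ℕ, p.Prime → p ∣ u → (p : ℤ) ∣ h ^ 2 * Q → (p : ℤ) ∣ w₁ * z₁ * lam' →
      p ∣ 30 := by
    intro p hp hpu hβ hα
    have hpuZ : (p : ℤ) ∣ u := Int.natCast_dvd_natCast.2 hpu
    have hpp : Prime (p : ℤ) := Nat.prime_iff_prime_int.1 hp
    refine H2_prime hp (g := g) (h := h) hcop (fun h1 => ?_) (fun h1 => ?_) (hlam ▸ hlg) hlh
      (hghZ ▸ hpuZ) (hQ ▸ hβ) hα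
    · exact hpp.not_isUnit (hw₁Z.isUnit_of_dvd' h1 hpuZ)
    · exact hpp.not_isUnit (hz₁Z.isUnit_of_dvd' h1 hpuZ)
  -- the range
  have hrange : ∀ t ∈ F, ∀ t' ∈ F, |j t - j t'| ≤ ((2 * u : ℕ) : ℤ) := by
    intro t ht t' ht'
    have h1 := hj t ht
    have h2 := hj t' ht'
    have hCt := (mem_Crv _ _ _ _ _ _ t.1 t.2).1 (hF t ht)
    have hCt' := (mem_Crv _ _ _ _ _ _ t'.1 t'.2).1 (hF t' ht')
    by_cases ha0 : a' = 0
    · -- vertical line
      have hb1 : |b'| = 1 := by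
        rw [ha0] at hcop
        have h3 : IsUnit b' := isCoprime_zero_left.1 hcop
        exact Int.isUnit_iff_abs_eq.1 h3
      have hg2 : (g : ℤ) ∣ 2 := by
        have h3 : (g : ℤ) ∣ lam := ⟨lam', hlg⟩
        rw [hlam, ha0, mul_zero, zero_add] at h3
        have h4 : (g : ℤ) ∣ u := ⟨h, hghZ⟩
        have h5 : IsCoprime (g : ℤ) (w₁ : ℤ) := (hw₁Z.of_isCoprime_of_dvd_right h4).symm
        have h6 : IsCoprime (g : ℤ) b' := by
          rw [ha0] at hcop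
          exact isCoprime_one_right.of_isCoprime_of_dvd_right
            (isCoprime_zero_left.1 hcop).dvd
        have h7 : (g : ℤ) ∣ 2 * w₁ := h6.dvd_of_dvd_mul_right h3
        exact h5.dvd_of_dvd_mul_right h7
      have hg2' : (g : ℤ) ≤ 2 := Int.le_of_dvd (by norm_num) hg2
      have hz : |(t.2 : ℤ) - t'.2| < (u : ℤ) ^ 3 := by
        have h3 : (L : ℤ) ≤ (u : ℤ) ^ 3 := by exact_mod_cast hL
        obtain ⟨⟨-, h4, h5⟩, -⟩ := hCt
        obtain ⟨⟨-, h6, h7⟩, -⟩ := hCt'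
        rw [abs_lt]
        constructor <;> omega
      have e1 : (t.2 : ℤ) - t'.2 = u * (h * (j t - j t')) * b' := by
        rw [h1.2.1, h2.2.1]
        ring
      rw [e1, abs_mul, hb1, mul_one, abs_mul, abs_mul, abs_of_pos huZ, abs_of_pos hhZ] at hz
      have h8 : (u : ℤ) ^ 3 ≤ u * (h * (2 * u)) := by
        have h9 : (u : ℤ) ≤ 2 * h := by
          rw [hghZ]
          exact mul_le_mul_of_nonneg_right hg2' hhZ.le
        have h10 : (u : ℤ) * u * u ≤ u * u * (2 * h) :=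
          mul_le_mul_of_nonneg_left h9 (by positivity)
        calc (u : ℤ) ^ 3 = u * u * u := by ring
          _ ≤ u * u * (2 * h) := h10
          _ = u * (h * (2 * u)) := by ring
      have h9 := lt_of_mul_lt_mul_left (hz.trans_le h8) huZ.le
      have h10 := lt_of_mul_lt_mul_left h9 hhZ.le
      push_cast
      exact h10.le
    · have hw : |(t.1 : ℤ) - t'.1| < (u : ℤ) ^ 2 := by
        obtain ⟨⟨⟨h4, h5⟩, -⟩, -⟩ := hCt
        obtain ⟨⟨⟨h6, h7⟩, -⟩, -⟩ := hCt'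
        have h8 : ((w₀ + u ^ 2 : ℕ) : ℤ) = w₀ + (u : ℤ) ^ 2 := by push_cast; ring
        rw [abs_lt]
        constructor <;> omega
      have e1 : (t.1 : ℤ) - t'.1 = u * (h * (j t - j t')) * a' := by
        rw [h1.1, h2.1]
        ring
      rw [e1, abs_mul, abs_mul, abs_mul, abs_of_pos huZ, abs_of_pos hhZ, pow_two] at hw
      have ha1 : 1 ≤ |a'| := Int.one_le_abs ha0
      have h8 : (u : ℤ) * |j t - j t'| ≤ u * (h * |j t - j t'|) * |a'| := by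
        have h9 : |j t - j t'| ≤ h * |j t - j t'| := by
          have : (1 : ℤ) ≤ h := hhZ
          nlinarith [abs_nonneg (j t - j t')]
        have h10 : (u : ℤ) * |j t - j t'| ≤ u * (h * |j t - j t'|) :=
          mul_le_mul_of_nonneg_left h9 huZ.le
        have h11 : (0 : ℤ) ≤ u * (h * |j t - j t'|) := by positivity
        nlinarith
      have h9 := lt_of_mul_lt_mul_left (h8.trans_lt hw) huZ.le
      push_cast
      linarith
  have hq := quad_count u (2 * u) hu (w₁ * z₁ * lam') (h ^ 2 * Q) hpr (F.image j) (by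
      intro x hx y hy
      rw [mem_image] at hx hy
      obtain ⟨t, ht, rfl⟩ := hx
      obtain ⟨t', ht', rfl⟩ := hy
      exact hrange t ht t' ht') (by
      intro x hx
      rw [mem_image] at hx
      obtain ⟨t, ht, rfl⟩ := hx
      exact (hj t ht).2.2)
  rw [card_image_of_injOn hinj] at hq
  have hDu : u.divisors.card ≤ D := hD.2 u hu0 le_rfl
  have h3 : u * F.card ≤ u * (61 * D) := by
    calc u * F.card ≤ u.divisors.card * (u + 30 * (2 * u)) := hq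
      _ ≤ D * (u + 30 * (2 * u)) := Nat.mul_le_mul_right _ hDu
      _ = u * (61 * D) := by ring
  exact Nat.le_of_mul_le_mul_left h3 hu0

end Pool.Agent.PWF
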