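import Mathlib
import Pool.Agent.PWF.H2

set_option autoImplicit false

namespace Pool.Agent.PWF

open Finset

/-- Pigeonhole (Thue): the residues of `P i + Q j` modulo `u` for `0 ≤ i ≤ E₁ = u / E`,
`0 ≤ j ≤ E`, `(E₁ + 1) (E + 1) > u` pairs. -/
theorem thue (u E : ℕ) (hu : 0 < u) (hE : 0 < E) (P Q : ℤ) :
    ∃ a b : ℤ, (a, b) ≠ 0 ∧ |a| ≤ (u / E : ℕ) ∧ |b| ≤ E ∧ (u : ℤ) ∣ P * a + Q * b := by
  have hu' : (0 : ℤ) < u := by exact_mod_cast hu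
  have h1 : (range u).card < (range (u / E + 1) ×ˢ range (E + 1)).card := by
    rw [Finset.card_product, Finset.card_range, Finset.card_range, Finset.card_range]
    have h2 := Nat.lt_mul_div_succ u hE
    calc u < E * (u / E + 1) := h2
      _ ≤ (E + 1) * (u / E + 1) := Nat.mul_le_mul_right _ (Nat.le_succ _)
      _ = (u / E + 1) * (E + 1) := Nat.mul_comm _ _
  obtain ⟨p, hp, q, hq, hpq, heq⟩ := Finset.exists_ne_map_eq_of_card_lt_of_maps_to h1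
    (f := fun p : ℕ × ℕ => ((P * (p.1 : ℤ) + Q * (p.2 : ℤ)) % (u : ℤ)).toNat) (by
      intro p _
      rw [Finset.mem_coe, Finset.mem_range]
      have h3 := Int.emod_nonneg (P * (p.1 : ℤ) + Q * (p.2 : ℤ)) hu'.ne'
      have h4 := Int.emod_lt_of_pos (P * (p.1 : ℤ) + Q * (p.2 : ℤ)) hu'
      dsimp only
      omega)
  rw [Finset.mem_product, Finset.mem_range, Finset.mem_range] at hp hq
  have h3 := Int.emod_nonneg (P * (p.1 : ℤ) + Q * (p.2 : ℤ)) hu'.ne'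
  have h4 := Int.emod_nonneg (P * (q.1 : ℤ) + Q * (q.2 : ℤ)) hu'.ne'
  have h5 : (P * (p.1 : ℤ) + Q * (p.2 : ℤ)) % (u : ℤ) = (P * (q.1 : ℤ) + Q * (q.2 : ℤ)) % (u : ℤ) := by
    omega
  refine ⟨(p.1 : ℤ) - q.1, (p.2 : ℤ) - q.2, ?_, ?_, ?_, ?_⟩
  · intro h0
    rw [Prod.mk_eq_zero] at h0
    apply hpq
    apply Prod.ext <;> omega
  · rw [abs_le]; constructor <;> omega
  · rw [abs_le]; constructor <;> omega
  · have h6 := Int.ModEq.dvd (show (P * (q.1 : ℤ) + Q * (q.2 : ℤ)) ≡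
      (P * (p.1 : ℤ) + Q * (p.2 : ℤ)) [ZMOD (u : ℤ)] from h5.symm)
    have e : P * ((p.1 : ℤ) - q.1) + Q * ((p.2 : ℤ) - q.2) =
        (P * (p.1 : ℤ) + Q * (p.2 : ℤ)) - (P * (q.1 : ℤ) + Q * (q.2 : ℤ)) := by ring
    rw [e]
    exact h6

/-- The algebraic heart: `u ∣ b k - a l`. -/
theorem H3_delta (u A C w z w' z' w₁ z₁ k l a b k' l' : ℤ) (hu : u ≠ 0) (hA : IsCoprime A u)
    (h1 : u ^ 3 ∣ A * w ^ 3 * z ^ 2 - C) (h2 : u ^ 3 ∣ A * w' ^ 3 * z' ^ 2 - C)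
    (hw : w = w' + u * k) (hz : z = z' + u * l) (hw' : w' = w₁ + u * k') (hz' : z' = z₁ + u * l')
    (cw : IsCoprime w₁ u) (cz : IsCoprime z₁ u) (cw' : IsCoprime w' u) (cz' : IsCoprime z' u)
    (hab : u ∣ 3 * z₁ * a + 2 * w₁ * b) : u ∣ b * k - a * l := by
  have h3 : u ^ 3 ∣ A * (w ^ 3 * z ^ 2 - w' ^ 3 * z' ^ 2) := by
    have := dvd_sub h1 h2
    have e : A * w ^ 3 * z ^ 2 - C - (A * w' ^ 3 * z' ^ 2 - C) =
      A * (w ^ 3 * z ^ 2 - w' ^ 3 * z' ^ 2) := by ring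
    rwa [e] at this
  have h4 : u ^ 3 ∣ w ^ 3 * z ^ 2 - w' ^ 3 * z' ^ 2 :=
    (hA.symm.pow_left (m := 3)).dvd_of_dvd_mul_left h3
  have h5 : u * u ∣ u * (w' ^ 2 * z' * (3 * z' * k + 2 * w' * l)) := by
    obtain ⟨c, hc⟩ := h4
    have e : w ^ 3 * z ^ 2 - w' ^ 3 * z' ^ 2 = u * (w' ^ 2 * z' * (3 * z' * k + 2 * w' * l)) +
        u * u * (w' ^ 3 * l ^ 2 + 6 * w' ^ 2 * z' * k * l + 3 * w' * z' ^ 2 * k ^ 2 +
          u * (3 * w' ^ 2 * k * l ^ 2 + 6 * w' * z' * k ^ 2 * l + z' ^ 2 * k ^ 3) +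
          u ^ 2 * (3 * w' * k ^ 2 * l ^ 2 + 2 * z' * k ^ 3 * l) + u ^ 3 * k ^ 3 * l ^ 2) := by
      rw [hw, hz]; ring
    have h6 : u * (w' ^ 2 * z' * (3 * z' * k + 2 * w' * l)) = u * u * (u * c -
        (w' ^ 3 * l ^ 2 + 6 * w' ^ 2 * z' * k * l + 3 * w' * z' ^ 2 * k ^ 2 +
          u * (3 * w' ^ 2 * k * l ^ 2 + 6 * w' * z' * k ^ 2 * l + z' ^ 2 * k ^ 3) +
          u ^ 2 * (3 * w' * k ^ 2 * l ^ 2 + 2 * z' * k ^ 3 * l) + u ^ 3 * k ^ 3 * l ^ 2)) := by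
      rw [hc] at e
      linear_combination -e
    exact ⟨_, h6⟩
  have h6 : u ∣ w' ^ 2 * z' * (3 * z' * k + 2 * w' * l) := Int.dvd_of_mul_dvd_mul_left hu h5
  have h7 : u ∣ 3 * z' * k + 2 * w' * l := by
    have c1 : IsCoprime u (w' ^ 2 * z') := (cw'.symm.pow_right (n := 2)).mul_right cz'.symm
    exact c1.dvd_of_dvd_mul_left h6
  have h8 : u ∣ 3 * z₁ * k + 2 * w₁ * l := by
    have e : 3 * z₁ * k + 2 * w₁ * l = (3 * z' * k + 2 * w' * l) - u * (3 * l' * k + 2 * k' * l) := by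
      rw [hw', hz']; ring
    rw [e]
    exact dvd_sub h7 (dvd_mul_right _ _)
  have h9 : u ∣ 3 * (b * k - a * l) := by
    have h10 : u ∣ z₁ * (3 * (b * k - a * l)) := by
      have e : z₁ * (3 * (b * k - a * l)) = b * (3 * z₁ * k + 2 * w₁ * l) -
          l * (3 * z₁ * a + 2 * w₁ * b) := by ring
      rw [e]
      exact dvd_sub (Dvd.dvd.mul_left h8 _) (Dvd.dvd.mul_left hab _)
    exact cz.symm.dvd_of_dvd_mul_left h10
  have h11 : u ∣ 2 * (b * k - a * l) := by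
    have h10 : u ∣ w₁ * (2 * (b * k - a * l)) := by
      have e : w₁ * (2 * (b * k - a * l)) = k * (3 * z₁ * a + 2 * w₁ * b) -
          a * (3 * z₁ * k + 2 * w₁ * l) := by ring
      rw [e]
      exact dvd_sub (Dvd.dvd.mul_left hab _) (Dvd.dvd.mul_left h8 _)
    exact cw.symm.dvd_of_dvd_mul_left h10
  have h12 := dvd_sub h9 h11
  have e : 3 * (b * k - a * l) - 2 * (b * k - a * l) = b * k - a * l := by ring
  rwa [e] at h12

/-- If `F` is empty nothing is to be shown; fix `(w₁, z₁) ∈ F` and take `(a, b)` from `thue` with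
`P = 3 z₁`, `Q = 2 w₁`. For `t, t' ∈ F` write `w - w' = u k`, `z - z' = u l`. From
`u³ ∣ A (w³ z² - w'³ z'²)`, `A` invertible, and the expansion modulo `u²`
(`w³ z² - w'³ z'² ≡ u (3 w'² z'² k + 2 w'³ z' l)`): `u ∣ w'² z' (3 z' k + 2 w' l)`, so
`u ∣ 3 z₁ k + 2 w₁ l` (`w' ≡ w₁`, `z' ≡ z₁` modulo `u`, all coprime to `u`). Put
`Δ = b k - a l`. Then `3 z₁ Δ = b (3 z₁ k) - l (3 z₁ a) ≡ - 2 w₁ l b + 2 w₁ b l = 0` and
`2 w₁ Δ = k (2 w₁ b) - a (2 w₁ l) ≡ - 3 z₁ a k + 3 z₁ k a = 0` modulo `u`, so `u ∣ 3 Δ` and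
`u ∣ 2 Δ`, `u ∣ Δ`. Hence the integer `c(t) = b w - a z` has `u² ∣ c(t) - c(t')` and
`|c(t) - c(t')| ≤ |b| u² + |a| L ≤ E u² + (u / E) L`, and `(u / E) L ≤ E u²` because
`L < u E²`; so it takes at most `1 + 2 E` values (`card_le_of_dvd` with `k = 1` and `u²` in place
of `u`, `R = 2 E u²`, applied to the image). Each value at most `61 D` times by `line_count`. -/
theorem class_count (u D E : ℕ) (hu : Squarefree u) (hD : DivB u D) (A C : ℤ)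
    (hA : IsCoprime A (u : ℤ)) (w₀ L : ℕ) (hL : L ≤ u ^ 3) (hE : 0 < E) (hLE : L < u * E ^ 2)
    (F : Finset (ℕ × ℕ)) (hF : ∀ t ∈ F, t ∈ Crv u A C w₀ (u ^ 2) L)
    (hcls : ∀ t ∈ F, ∀ t' ∈ F, (u : ℤ) ∣ (t.1 : ℤ) - t'.1 ∧ (u : ℤ) ∣ (t.2 : ℤ) - t'.2) :
    F.card ≤ (1 + 2 * E) * (61 * D) := by
  rcases F.eq_empty_or_nonempty with h0 | ⟨⟨w₁, z₁⟩, hwz⟩
  · subst h0; simp
  have hu0 : 0 < u := Nat.pos_of_ne_zero hu.ne_zero
  have hu' : (0 : ℤ) < u := by exact_mod_cast hu0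
  obtain ⟨a, b, hab, ha, hb, hdvd⟩ := thue u E hu0 hE (3 * z₁) (2 * w₁)
  have hm1 := (mem_Crv ..).mp (hF _ hwz)
  obtain ⟨_, ⟨c1, c2⟩, _⟩ := hm1
  have hkey : ∀ t ∈ F, ∀ t' ∈ F,
      ((u ^ 2 : ℕ) : ℤ) ∣ (b * (t.1 : ℤ) - a * t.2) - (b * (t'.1 : ℤ) - a * t'.2) := by
    rintro ⟨w, z⟩ ht ⟨w', z'⟩ ht'
    obtain ⟨_, _, m1⟩ := (mem_Crv ..).mp (hF _ ht)
    obtain ⟨_, ⟨c3, c4⟩, m2⟩ := (mem_Crv ..).mp (hF _ ht')
    obtain ⟨⟨k, hk⟩, ⟨l, hl⟩⟩ := hcls _ ht _ ht'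
    obtain ⟨⟨k', hk'⟩, ⟨l', hl'⟩⟩ := hcls _ ht' _ hwz
    dsimp only at hk hl hk' hl' ⊢
    have h := H3_delta u A C w z w' z' w₁ z₁ k l a b k' l' hu'.ne' hA m1 m2 (by linarith)
      (by linarith) (by linarith) (by linarith) (Nat.isCoprime_iff_coprime.mpr c1)
      (Nat.isCoprime_iff_coprime.mpr c2) (Nat.isCoprime_iff_coprime.mpr c3)
      (Nat.isCoprime_iff_coprime.mpr c4) hdvd
    obtain ⟨c, hc⟩ := h
    refine ⟨c, ?_⟩
    push_cast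
    linear_combination b * hk - a * hl + (u : ℤ) * hc
  have hbound : ∀ t ∈ F, ∀ t' ∈ F,
      |(b * (t.1 : ℤ) - a * t.2) - (b * (t'.1 : ℤ) - a * t'.2)| ≤ ((2 * E * u ^ 2 : ℕ) : ℤ) := by
    rintro ⟨w, z⟩ ht ⟨w', z'⟩ ht'
    obtain ⟨⟨⟨w1, w2⟩, ⟨z1, z2⟩⟩, _⟩ := (mem_Crv ..).mp (hF _ ht)
    obtain ⟨⟨⟨w3, w4⟩, ⟨z3, z4⟩⟩, _⟩ := (mem_Crv ..).mp (hF _ ht')
    dsimp only
    have e : (b * (w : ℤ) - a * z) - (b * (w' : ℤ) - a * z') = b * ((w : ℤ) - w') - a * ((z : ℤ) - z') := by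
      ring
    rw [e]
    have i1 : |(w : ℤ) - w'| ≤ ((u ^ 2 : ℕ) : ℤ) := by rw [abs_le]; constructor <;> omega
    have i2 : |(z : ℤ) - z'| ≤ (L : ℤ) := by rw [abs_le]; constructor <;> omega
    have i3 : |b * ((w : ℤ) - w')| ≤ (E : ℤ) * ((u ^ 2 : ℕ) : ℤ) := by
      rw [abs_mul]
      exact mul_le_mul hb i1 (abs_nonneg _) (by positivity)
    have i4 : |a * ((z : ℤ) - z')| ≤ ((u / E : ℕ) : ℤ) * (L : ℤ) := by
      rw [abs_mul]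
      exact mul_le_mul ha i2 (abs_nonneg _) (by positivity)
    have i5 : (u / E) * L ≤ E * u ^ 2 := by
      calc (u / E) * L ≤ (u / E) * (u * E ^ 2) := Nat.mul_le_mul_left _ hLE.le
        _ = (u / E * E) * (u * E) := by ring
        _ ≤ u * (u * E) := Nat.mul_le_mul_right _ (Nat.div_mul_le_self u E)
        _ = E * u ^ 2 := by ring
    have i6 : ((u / E : ℕ) : ℤ) * (L : ℤ) ≤ (E : ℤ) * ((u ^ 2 : ℕ) : ℤ) := by exact_mod_cast i5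
    calc |b * ((w : ℤ) - w') - a * ((z : ℤ) - z')|
        ≤ |b * ((w : ℤ) - w')| + |a * ((z : ℤ) - z')| := abs_sub _ _
      _ ≤ (E : ℤ) * ((u ^ 2 : ℕ) : ℤ) + (E : ℤ) * ((u ^ 2 : ℕ) : ℤ) :=
          add_le_add i3 (i4.trans i6)
      _ = ((2 * E * u ^ 2 : ℕ) : ℤ) := by push_cast; ring
  set f : ℕ × ℕ → ℤ := fun t => b * (t.1 : ℤ) - a * (t.2 : ℤ) with hf
  have himg : (F.image f).card ≤ 1 + 2 * E := by
    have hu2 : 0 < u ^ 2 := Nat.pow_pos hu0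
    have h1 := card_le_of_dvd (u ^ 2) 1 (2 * E * u ^ 2) hu2 one_pos (F.image f) (by
      intro j hj j' hj'
      obtain ⟨t, ht, rfl⟩ := Finset.mem_image.mp hj
      obtain ⟨t', ht', rfl⟩ := Finset.mem_image.mp hj'
      rw [Nat.cast_one, one_mul]
      exact hkey t ht t' ht') (by
      intro j hj j' hj'
      obtain ⟨t, ht, rfl⟩ := Finset.mem_image.mp hj
      obtain ⟨t', ht', rfl⟩ := Finset.mem_image.mp hj'
      exact hbound t ht t' ht')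
    apply Nat.le_of_mul_le_mul_left _ hu2
    calc u ^ 2 * (F.image f).card ≤ u ^ 2 + 1 * (2 * E * u ^ 2) := h1
      _ = u ^ 2 * (1 + 2 * E) := by ring
  have hfin := Finset.card_le_mul_card_image (f := f) F (61 * D) (by
    intro c _
    apply line_count u D hu hD A C hA w₀ L hL a b c hab (F.filter (fun t => f t = c))
    · intro t ht
      exact hF t (Finset.mem_filter.mp ht).1
    · intro t ht t' ht'
      exact hcls t (Finset.mem_filter.mp ht).1 t' (Finset.mem_filter.mp ht').1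
    · intro t ht
      exact (Finset.mem_filter.mp ht).2)
  calc F.card ≤ 61 * D * (F.image f).card := hfin
    _ ≤ 61 * D * (1 + 2 * E) := Nat.mul_le_mul_left _ himg
    _ = (1 + 2 * E) * (61 * D) := Nat.mul_comm _ _

end Pool.Agent.PWF
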