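import Mathlib
import Pool.Agent.PWF.C1
import Pool.Agent.PWF.H3

set_option autoImplicit false

namespace Pool.Agent.PWF

open Finset

/-- Map `(w, z) ∈ Crv u A C 0 K L` to `((w - 1) / u², w % u, z % u)`. The first coordinate is at
most `K / u²`; `w % u` has `u` values; for given `w % u = ω` (coprime to `u`) the residue `z % u`
lies in `(Cop u).filter (u ∣ A ω³ z² - C)`, which has at most `2 * u.divisors.card ≤ 2 D` elements
(`card_sq_roots` with `A ω³`; if `u = 1` then `z % u = 0` and `Cop 1 = {0}`). So the image has at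
most `(K / u² + 1) * (u * (2 D))` elements, and each fibre is contained in
`Crv u A C (i u²) (u²) L` and in one class modulo `u`: `class_count`. -/
theorem card_Crv (u D E : ℕ) (hu : Squarefree u) (hD : DivB u D) (A C : ℤ)
    (hA : IsCoprime A (u : ℤ)) (K L : ℕ) (hL : L ≤ u ^ 3) (hE : 0 < E) (hLE : L < u * E ^ 2) :
    (Crv u A C 0 K L).card ≤ (K / u ^ 2 + 1) * (u * (2 * D)) * ((1 + 2 * E) * (61 * D)) := by
  classical
  have hu0 : 0 < u := Nat.pos_of_ne_zero hu.ne_zero
  have hq : 0 < u ^ 2 := by positivity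
  have key : ∀ p ∈ (range (K / u ^ 2 + 1)) ×ˢ (range u),
      ((Crv u A C 0 K L).filter (fun t => ((t.1 - 1) / u ^ 2, t.1 % u) = p)).card ≤
        ((1 + 2 * E) * (61 * D)) * (2 * D) := by
    rintro ⟨i, ω⟩ hp
    set F := (Crv u A C 0 K L).filter (fun t => ((t.1 - 1) / u ^ 2, t.1 % u) = (i, ω)) with hFdef
    rcases F.eq_empty_or_nonempty with h0 | ⟨⟨w0, z0⟩, ht0⟩
    · rw [h0]; simp
    · rw [hFdef, Finset.mem_filter, mem_Crv] at ht0
      obtain ⟨⟨⟨⟨hw1, hw2⟩, hz1, hz2⟩, ⟨hcw, hcz⟩, hdv⟩, hiω⟩ := ht0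
      simp only [Prod.mk.injEq] at hiω
      obtain ⟨hi, hω⟩ := hiω
      have hωu : Nat.Coprime ω u := by
        have := (Nat.mod_modEq w0 u).gcd_eq
        rw [Nat.Coprime, ← hω, this]
        exact hcw
      have hA' : IsCoprime (A * (ω : ℤ) ^ 3) (u : ℤ) := by
        apply IsCoprime.mul_left hA
        exact (Nat.isCoprime_iff_coprime.mpr hωu).pow_left
      set R := (Cop u).filter (fun z : ℕ => (u : ℤ) ∣ (A * (ω : ℤ) ^ 3) * (z : ℤ) ^ 2 - C)
        with hRdef
      have hR : R.card ≤ 2 * D := by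
        refine (card_sq_roots u hu0 _ _ hA').trans ?_
        exact Nat.mul_le_mul_left _ (hD.2 _ hu0 le_rfl)
      have hmaps : ∀ t ∈ F, t.2 % u ∈ R := by
        rintro ⟨w, z⟩ ht
        rw [hFdef, Finset.mem_filter, mem_Crv] at ht
        obtain ⟨⟨⟨⟨hw1, hw2⟩, hz1, hz2⟩, ⟨hcw, hcz⟩, hdv⟩, hiω⟩ := ht
        simp only [Prod.mk.injEq] at hiω
        obtain ⟨hi, hω⟩ := hiω
        rw [hRdef, Finset.mem_filter, mem_Cop]
        simp only
        refine ⟨⟨Nat.mod_lt _ hu0, ?_⟩, ?_⟩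
        · have := (Nat.mod_modEq z u).gcd_eq
          rw [Nat.Coprime, this]
          exact hcz
        · have h1 : ((z % u : ℕ) : ℤ) ≡ (z : ℤ) [ZMOD (u : ℤ)] :=
            Int.natCast_modEq_iff.mpr (Nat.mod_modEq z u)
          have h2 : ((ω : ℕ) : ℤ) ≡ (w : ℤ) [ZMOD (u : ℤ)] := by
            rw [← hω]
            exact Int.natCast_modEq_iff.mpr (Nat.mod_modEq w u)
          have h3 : (A * (ω : ℤ) ^ 3) * ((z % u : ℕ) : ℤ) ^ 2 ≡
              (A * (w : ℤ) ^ 3) * (z : ℤ) ^ 2 [ZMOD (u : ℤ)] :=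
            (((h2.pow 3).mul_left A)).mul (h1.pow 2)
          have h4 := h3.symm.dvd
          have h5 : (u : ℤ) ∣ A * (w : ℤ) ^ 3 * (z : ℤ) ^ 2 - C :=
            (dvd_pow_self (u : ℤ) (by norm_num)).trans hdv
          have h6 := dvd_add h4 h5
          simpa using h6
      have hfib : ∀ r ∈ R, (F.filter (fun t => t.2 % u = r)).card ≤
          (1 + 2 * E) * (61 * D) := by
        intro r hr
        apply class_count u D E hu hD A C hA (i * u ^ 2) L hL hE hLE
        · rintro ⟨w, z⟩ ht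
          rw [Finset.mem_filter, hFdef, Finset.mem_filter, mem_Crv] at ht
          obtain ⟨⟨⟨⟨⟨hw1, hw2⟩, hz1, hz2⟩, ⟨hcw, hcz⟩, hdv⟩, hiω⟩, _⟩ := ht
          simp only [Prod.mk.injEq] at hiω
          obtain ⟨hi, hω⟩ := hiω
          rw [mem_Crv]
          refine ⟨⟨⟨?_, ?_⟩, hz1, hz2⟩, ⟨hcw, hcz⟩, hdv⟩
          · have : i * u ^ 2 ≤ w - 1 := by
              rw [← hi]
              exact Nat.div_mul_le_self _ _
            omega
          · have : w - 1 < (i + 1) * u ^ 2 := by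
              rw [← Nat.div_lt_iff_lt_mul hq, hi]
              omega
            have h2 : (i + 1) * u ^ 2 = i * u ^ 2 + u ^ 2 := by ring
            omega
        · rintro ⟨w, z⟩ ht ⟨w', z'⟩ ht'
          rw [Finset.mem_filter, hFdef, Finset.mem_filter] at ht ht'
          have hω := congrArg Prod.snd ht.1.2
          have hω' := congrArg Prod.snd ht'.1.2
          simp only at hω hω'
          have h1 : w ≡ w' [MOD u] := by
            rw [Nat.ModEq, hω, hω']
          have h2 : z ≡ z' [MOD u] := by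
            have a1 := ht.2
            have a2 := ht'.2
            simp only at a1 a2
            rw [Nat.ModEq, a1, a2]
          refine ⟨?_, ?_⟩
          · exact (Int.natCast_modEq_iff.mpr h1.symm).dvd
          · exact (Int.natCast_modEq_iff.mpr h2.symm).dvd
      calc F.card ≤ ((1 + 2 * E) * (61 * D)) * R.card :=
            Finset.card_le_mul_card_image_of_maps_to hmaps _ hfib
        _ ≤ ((1 + 2 * E) * (61 * D)) * (2 * D) := Nat.mul_le_mul_left _ hR
  have hmaps : ∀ t ∈ Crv u A C 0 K L,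
      ((t.1 - 1) / u ^ 2, t.1 % u) ∈ (range (K / u ^ 2 + 1)) ×ˢ (range u) := by
    rintro ⟨w, z⟩ ht
    rw [mem_Crv] at ht
    obtain ⟨⟨⟨hw1, hw2⟩, hz1, hz2⟩, ⟨hcw, hcz⟩, hdv⟩ := ht
    rw [Finset.mem_product, Finset.mem_range, Finset.mem_range]
    refine ⟨?_, Nat.mod_lt _ hu0⟩
    have : (w - 1) / u ^ 2 ≤ K / u ^ 2 := Nat.div_le_div_right (by omega)
    show (w - 1) / u ^ 2 < _
    omega
  rw [Finset.card_eq_sum_card_fiberwise hmaps]
  calc ∑ p ∈ (range (K / u ^ 2 + 1)) ×ˢ (range u),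
        ((Crv u A C 0 K L).filter (fun t => ((t.1 - 1) / u ^ 2, t.1 % u) = p)).card
      ≤ ∑ p ∈ (range (K / u ^ 2 + 1)) ×ˢ (range u), ((1 + 2 * E) * (61 * D)) * (2 * D) :=
        Finset.sum_le_sum key
    _ = (K / u ^ 2 + 1) * (u * (2 * D)) * ((1 + 2 * E) * (61 * D)) := by
        rw [Finset.sum_const, Finset.card_product, Finset.card_range, Finset.card_range,
          smul_eq_mul]
        ring

end Pool.Agent.PWF
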