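import Mathlib
import Pool.Agent.PWF.B1

set_option autoImplicit false

namespace Pool.Agent.PWF

open Finset

theorem H5_mul_le (a b N : ℕ) (ha : a ^ 2 ≤ N) (hb : b ^ 2 ≤ N) : a * b ≤ N := by
  rcases le_total a b with h | h
  · calc a * b ≤ b * b := Nat.mul_le_mul_right _ h
      _ = b ^ 2 := by ring
      _ ≤ N := hb
  · calc a * b ≤ a * a := Nat.mul_le_mul_left _ h
      _ = a ^ 2 := by ring
      _ ≤ N := ha

/-- Let `B_u` be the set of tuples with first coordinate `u`, and `L = m / V³`. Map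
`(t, t') ∈ B_u × B_u` to `(v v', y y')`. It lands in `Crv u (f²) (m²) 0 (4 V²) L`: `v v' < 4 V²`;
`V³ y² ≤ f v³ y² ≤ m` gives `y² ≤ L`, `y'² ≤ L`, so `y y' ≤ L`; `f v³ y² ≡ m` modulo `u³` and the
same for `t'`, multiply: `f² (v v')³ (y y')² ≡ m²`; `v v'` and `y y'` are coprime to `u`. Each fibre
has at most `D²` elements: `v ∣ v v' ≤ m`, `y ∣ y y' ≤ m`, and `(v, v', y, y')` determines
`(t, t')` (`Box_eq_of_vy`). -/
theorem card_fixed_u_sq (e f m U W V Y u D : ℕ) (he : 0 < e) (hf : 0 < f) (hV : 0 < V)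
    (hD : DivB m D) :
    ((Box e f m U W V Y).filter (fun t => t.1 = u)).card ^ 2 ≤
      D ^ 2 * (Crv u ((f : ℤ) ^ 2) ((m : ℤ) ^ 2) 0 (4 * V ^ 2) (m / V ^ 3)).card := by
  classical
  set Bu := (Box e f m U W V Y).filter (fun t => t.1 = u) with hBu
  -- the properties of a member
  have hprop : ∀ t ∈ Bu, t ∈ Box e f m U W V Y ∧ t.1 = u ∧ (0 < t.2.1 ∧ 0 < t.2.2.1 ∧ 0 < t.2.2.2) ∧
      e * u ^ 3 * t.2.1 ^ 2 + f * t.2.2.1 ^ 3 * t.2.2.2 ^ 2 = m ∧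
      Nat.Coprime (e * u * t.2.1) (f * t.2.2.1 * t.2.2.2) ∧ (V ≤ t.2.2.1 ∧ t.2.2.1 < 2 * V) := by
    rintro ⟨u', x, v, y⟩ ht
    rw [hBu, Finset.mem_filter] at ht
    obtain ⟨hb, hu'⟩ := ht
    dsimp only at hu'
    subst hu'
    obtain ⟨h1, _, _, h4, _⟩ := (mem_Box ..).mp hb
    obtain ⟨⟨p1, p2, p3, p4⟩, p5, p6, _⟩ := (mem_Tup _ _ _ _ _ _ _ he hf).mp h1
    exact ⟨hb, rfl, ⟨p2, p3, p4⟩, p5, p6, h4⟩
  have hvy : ∀ t ∈ Bu, V ^ 3 * t.2.2.2 ^ 2 ≤ m ∧ t.2.2.1 ^ 2 ≤ m ∧ t.2.2.2 ^ 2 ≤ m := by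
    intro t ht
    obtain ⟨_, _, ⟨p2, p3, p4⟩, p5, _, p7⟩ := hprop t ht
    have h1 : t.2.2.1 ^ 3 * t.2.2.2 ^ 2 ≤ m := by
      calc t.2.2.1 ^ 3 * t.2.2.2 ^ 2 ≤ f * (t.2.2.1 ^ 3 * t.2.2.2 ^ 2) :=
            Nat.le_mul_of_pos_left _ hf
        _ = f * t.2.2.1 ^ 3 * t.2.2.2 ^ 2 := by ring
        _ ≤ m := by omega
    refine ⟨?_, ?_, ?_⟩
    · exact (Nat.mul_le_mul_right _ (Nat.pow_le_pow_left p7.1 3)).trans h1
    · calc t.2.2.1 ^ 2 ≤ t.2.2.1 ^ 3 := Nat.pow_le_pow_right p3 (by norm_num)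
        _ ≤ t.2.2.1 ^ 3 * t.2.2.2 ^ 2 := Nat.le_mul_of_pos_right _ (Nat.pow_pos p4)
        _ ≤ m := h1
    · calc t.2.2.2 ^ 2 ≤ t.2.2.1 ^ 3 * t.2.2.2 ^ 2 := Nat.le_mul_of_pos_left _ (Nat.pow_pos p3)
        _ ≤ m := h1
  have hmaps : ∀ p ∈ Bu ×ˢ Bu, (p.1.2.2.1 * p.2.2.2.1, p.1.2.2.2 * p.2.2.2.2) ∈
      Crv u ((f : ℤ) ^ 2) ((m : ℤ) ^ 2) 0 (4 * V ^ 2) (m / V ^ 3) := by
    rintro ⟨t, t'⟩ hp
    rw [Finset.mem_product] at hp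
    dsimp only at hp ⊢
    obtain ⟨_, _, ⟨p2, p3, p4⟩, p5, p6, p7⟩ := hprop t hp.1
    obtain ⟨_, _, ⟨q2, q3, q4⟩, q5, q6, q7⟩ := hprop t' hp.2
    rw [mem_Crv]
    refine ⟨⟨⟨Nat.mul_pos p3 q3, ?_⟩, ⟨Nat.mul_pos p4 q4, ?_⟩⟩, ⟨?_, ?_⟩, ?_⟩
    · calc t.2.2.1 * t'.2.2.1 ≤ (2 * V) * (2 * V) := Nat.mul_le_mul p7.2.le q7.2.le
        _ = 0 + 4 * V ^ 2 := by ring
    · rw [Nat.le_div_iff_mul_le (Nat.pow_pos hV)]
      rcases le_total t.2.2.2 t'.2.2.2 with h | h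
      · calc t.2.2.2 * t'.2.2.2 * V ^ 3 ≤ t'.2.2.2 * t'.2.2.2 * V ^ 3 :=
              Nat.mul_le_mul_right _ (Nat.mul_le_mul_right _ h)
          _ = V ^ 3 * t'.2.2.2 ^ 2 := by ring
          _ ≤ m := (hvy t' hp.2).1
      · calc t.2.2.2 * t'.2.2.2 * V ^ 3 ≤ t.2.2.2 * t.2.2.2 * V ^ 3 :=
              Nat.mul_le_mul_right _ (Nat.mul_le_mul_left _ h)
          _ = V ^ 3 * t.2.2.2 ^ 2 := by ring
          _ ≤ m := (hvy t hp.1).1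
    · have c1 : Nat.Coprime t.2.2.1 u := by
        apply (Nat.Coprime.coprime_dvd_left _ (p6.coprime_dvd_right _)).symm
        · exact ⟨e * t.2.1, by ring⟩
        · exact ⟨f * t.2.2.2, by ring⟩
      have c2 : Nat.Coprime t'.2.2.1 u := by
        apply (Nat.Coprime.coprime_dvd_left _ (q6.coprime_dvd_right _)).symm
        · exact ⟨e * t'.2.1, by ring⟩
        · exact ⟨f * t'.2.2.2, by ring⟩
      exact Nat.Coprime.mul_left c1 c2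
    · have c1 : Nat.Coprime t.2.2.2 u := by
        apply (Nat.Coprime.coprime_dvd_left _ (p6.coprime_dvd_right _)).symm
        · exact ⟨e * t.2.1, by ring⟩
        · exact ⟨f * t.2.2.1, by ring⟩
      have c2 : Nat.Coprime t'.2.2.2 u := by
        apply (Nat.Coprime.coprime_dvd_left _ (q6.coprime_dvd_right _)).symm
        · exact ⟨e * t'.2.1, by ring⟩
        · exact ⟨f * t'.2.2.1, by ring⟩
      exact Nat.Coprime.mul_left c1 c2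
    · have e1 : (e : ℤ) * u ^ 3 * t.2.1 ^ 2 + f * t.2.2.1 ^ 3 * t.2.2.2 ^ 2 = m := by
        exact_mod_cast p5
      have e2 : (e : ℤ) * u ^ 3 * t'.2.1 ^ 2 + f * t'.2.2.1 ^ 3 * t'.2.2.2 ^ 2 = m := by
        exact_mod_cast q5
      refine ⟨(e : ℤ) ^ 2 * u ^ 3 * t.2.1 ^ 2 * t'.2.1 ^ 2 - e * t.2.1 ^ 2 * m - e * t'.2.1 ^ 2 * m, ?_⟩
      push_cast
      have e3 : (f : ℤ) * t.2.2.1 ^ 3 * t.2.2.2 ^ 2 = m - e * u ^ 3 * t.2.1 ^ 2 := by linarith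
      have e4 : (f : ℤ) * t'.2.2.1 ^ 3 * t'.2.2.2 ^ 2 = m - e * u ^ 3 * t'.2.1 ^ 2 := by linarith
      calc (f : ℤ) ^ 2 * ((t.2.2.1 : ℤ) * t'.2.2.1) ^ 3 * ((t.2.2.2 : ℤ) * t'.2.2.2) ^ 2 - (m : ℤ) ^ 2
          = (f * t.2.2.1 ^ 3 * t.2.2.2 ^ 2) * (f * t'.2.2.1 ^ 3 * t'.2.2.2 ^ 2) - (m : ℤ) ^ 2 := by
            ring
        _ = _ := by rw [e3, e4]; ring
  have hfib : ∀ b ∈ Crv u ((f : ℤ) ^ 2) ((m : ℤ) ^ 2) 0 (4 * V ^ 2) (m / V ^ 3),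
      ((Bu ×ˢ Bu).filter (fun p => (p.1.2.2.1 * p.2.2.2.1, p.1.2.2.2 * p.2.2.2.2) = b)).card ≤
        D ^ 2 := by
    rintro ⟨p, q⟩ _
    rcases ((Bu ×ˢ Bu).filter (fun r => (r.1.2.2.1 * r.2.2.2.1, r.1.2.2.2 * r.2.2.2.2) =
      (p, q))).eq_empty_or_nonempty with h0 | ⟨⟨t0, t0'⟩, h0⟩
    · rw [h0, Finset.card_empty]; exact Nat.zero_le _
    rw [Finset.mem_filter, Finset.mem_product] at h0
    obtain ⟨⟨a1, a2⟩, a3⟩ := h0
    dsimp only at a1 a2 a3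
    obtain ⟨a4, a5⟩ := Prod.mk.inj a3
    obtain ⟨_, _, ⟨p2, p3, p4⟩, p5, p6, p7⟩ := hprop t0 a1
    obtain ⟨_, _, ⟨q2, q3, q4⟩, q5, q6, q7⟩ := hprop t0' a2
    have hp0 : 0 < p := a4 ▸ Nat.mul_pos p3 q3
    have hq0 : 0 < q := a5 ▸ Nat.mul_pos p4 q4
    have hpm : p ≤ m := a4 ▸ H5_mul_le _ _ _ (hvy t0 a1).2.1 (hvy t0' a2).2.1
    have hqm : q ≤ m := a5 ▸ H5_mul_le _ _ _ (hvy t0 a1).2.2 (hvy t0' a2).2.2
    calc _ ≤ (p.divisors ×ˢ q.divisors).card := by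
          apply Finset.card_le_card_of_injOn (fun r => (r.1.2.2.1, r.1.2.2.2))
          · rintro ⟨t, t'⟩ hr
            rw [Finset.mem_coe, Finset.mem_filter, Finset.mem_product] at hr
            obtain ⟨_, hr2⟩ := hr
            obtain ⟨b1, b2⟩ := Prod.mk.inj hr2
            dsimp only at b1 b2
            rw [Finset.mem_coe, Finset.mem_product, Nat.mem_divisors, Nat.mem_divisors]
            exact ⟨⟨⟨_, b1.symm⟩, hp0.ne'⟩, ⟨⟨_, b2.symm⟩, hq0.ne'⟩⟩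
          · rintro ⟨t, t'⟩ hr ⟨s, s'⟩ hs hrs
            rw [Finset.mem_coe, Finset.mem_filter, Finset.mem_product] at hr hs
            obtain ⟨⟨r1, r1'⟩, hr2⟩ := hr
            obtain ⟨⟨s1, s1'⟩, hs2⟩ := hs
            obtain ⟨b1, b2⟩ := Prod.mk.inj hr2
            obtain ⟨d1, d2⟩ := Prod.mk.inj hs2
            obtain ⟨g1, g2⟩ := Prod.mk.inj hrs
            dsimp only at b1 b2 d1 d2 g1 g2 r1 r1' s1 s1'
            obtain ⟨m1, _, ⟨_, v1, y1⟩, _, _, _⟩ := hprop t r1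
            obtain ⟨m1', _, _, _, _, _⟩ := hprop t' r1'
            obtain ⟨m2, _, ⟨_, v2, y2⟩, _, _, _⟩ := hprop s s1
            obtain ⟨m2', _, _, _, _, _⟩ := hprop s' s1'
            have k1 : t = s := Box_eq_of_vy e f m U W V Y he hf t s m1 m2 g1 g2
            have k2 : t'.2.2.1 = s'.2.2.1 := by
              have : t.2.2.1 * t'.2.2.1 = t.2.2.1 * s'.2.2.1 := by rw [b1, ← d1, g1]
              exact Nat.eq_of_mul_eq_mul_left v1 this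
            have k3 : t'.2.2.2 = s'.2.2.2 := by
              have : t.2.2.2 * t'.2.2.2 = t.2.2.2 * s'.2.2.2 := by rw [b2, ← d2, g2]
              exact Nat.eq_of_mul_eq_mul_left y1 this
            have k4 : t' = s' := Box_eq_of_vy e f m U W V Y he hf t' s' m1' m2' k2 k3
            rw [k1, k4]
      _ = p.divisors.card * q.divisors.card := Finset.card_product _ _
      _ ≤ D * D := Nat.mul_le_mul (hD.2 p hp0 hpm) (hD.2 q hq0 hqm)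
      _ = D ^ 2 := (sq D).symm
  have h := Finset.card_le_mul_card_image_of_maps_to hmaps (D ^ 2) hfib
  rw [Finset.card_product, ← sq] at h
  exact h

end Pool.Agent.PWF
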