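import Mathlib
import Pool.Agent.PWF.H4
import Pool.Agent.PWF.H5

set_option autoImplicit false

namespace Pool.Agent.PWF

open Finset

theorem H6_sq_five (a : ℕ) (ha : 1 ≤ a) : (1 + 2 * (Nat.sqrt a + 1)) ^ 2 ≤ 25 * a := by
  have h1 : Nat.sqrt a * Nat.sqrt a ≤ a := Nat.sqrt_le a
  have h2 : 1 ≤ Nat.sqrt a := Nat.sqrt_pos.mpr ha
  have h3 : 1 + 2 * (Nat.sqrt a + 1) ≤ 5 * Nat.sqrt a := by omega
  calc (1 + 2 * (Nat.sqrt a + 1)) ^ 2 ≤ (5 * Nat.sqrt a) ^ 2 := Nat.pow_le_pow_left h3 2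
    _ = 25 * (Nat.sqrt a * Nat.sqrt a) := by ring
    _ ≤ 25 * a := Nat.mul_le_mul_left _ h1

/-- the bound for one fibre -/
theorem H6_fibre (e f m U W V Y D u : ℕ) (he : 0 < e) (hf : 0 < f) (hU : 0 < U) (hD : DivB m D)
    (hUV : U ≤ V) (h1 : 2 * U * V ^ 3 ≤ m) (h2 : m ≤ (U * V) ^ 3) (hu1 : U ≤ u)
    (hu2 : u < 2 * U) :
    U ^ 3 * (((Box e f m U W V Y).filter (fun t => t.1 = u)).card ^ 2) ^ 2 ≤
      23814400 * D ^ 8 * (V * m) := by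
  have hV : 0 < V := by omega
  have hV3 : 0 < V ^ 3 := pow_pos hV 3
  have hu0 : 0 < u := by omega
  rcases ((Box e f m U W V Y).filter (fun t => t.1 = u)).eq_empty_or_nonempty with h0 | h0
  · rw [h0, Finset.card_empty]
    simp
  obtain ⟨⟨u', x, v, y⟩, ht⟩ := h0
  rw [Finset.mem_filter] at ht
  obtain ⟨ht, hut⟩ := ht
  simp only at hut
  subst hut
  rw [mem_Box, mem_Tup _ _ _ _ _ _ _ he hf] at ht
  obtain ⟨⟨-, -, hcop, hsq, -⟩, -⟩ := ht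
  have hfu : Nat.Coprime f u' := by
    have k1 : Nat.Coprime u' (f * v * y) := Nat.Coprime.coprime_dvd_left ⟨e * x, by ring⟩ hcop
    exact (Nat.Coprime.coprime_dvd_right ⟨v * y, by ring⟩ k1).symm
  have hA : IsCoprime ((f : ℤ) ^ 2) (u' : ℤ) := (Nat.isCoprime_iff_coprime.mpr hfu).pow_left
  have hum : u' ≤ m := by
    have k1 : 2 * U ≤ 2 * U * V ^ 3 := Nat.le_mul_of_pos_right _ hV3
    omega
  have hL1 : m / V ^ 3 ≤ u' ^ 3 := by
    have k1 : m / V ^ 3 ≤ U ^ 3 := by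
      rw [mul_pow] at h2
      exact Nat.div_le_of_le_mul (by rw [mul_comm]; exact h2)
    exact k1.trans (Nat.pow_le_pow_left hu1 3)
  have hL2 : 2 * U ≤ m / V ^ 3 := (Nat.le_div_iff_mul_le hV3).mpr h1
  have ha : 1 ≤ m / V ^ 3 / u' := (Nat.le_div_iff_mul_le hu0).mpr (by omega)
  have hLE : m / V ^ 3 < u' * (Nat.sqrt (m / V ^ 3 / u') + 1) ^ 2 := by
    have k1 : m / V ^ 3 / u' < (Nat.sqrt (m / V ^ 3 / u') + 1) ^ 2 := by
      rw [sq]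
      exact Nat.lt_succ_sqrt _
    have k2 := (Nat.div_lt_iff_lt_mul hu0).mp k1
    rwa [mul_comm] at k2
  have key1 := card_fixed_u_sq e f m U W V Y u' D he hf hV hD
  have key2 := card_Crv u' D (Nat.sqrt (m / V ^ 3 / u') + 1) hsq (hD.mono hum) ((f : ℤ) ^ 2)
    ((m : ℤ) ^ 2) hA (4 * V ^ 2) (m / V ^ 3) hL1 (Nat.succ_pos _) hLE
  have key3 := H6_sq_five (m / V ^ 3 / u') ha
  generalize hE : Nat.sqrt (m / V ^ 3 / u') + 1 = E at *
  generalize hK : 4 * V ^ 2 / u' ^ 2 + 1 = K at *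
  generalize hB : ((Box e f m U W V Y).filter (fun t => t.1 = u')).card ^ 2 = b at *
  have hb : b ≤ D ^ 2 * (K * (u' * (2 * D)) * ((1 + 2 * E) * (61 * D))) :=
    key1.trans (Nat.mul_le_mul_left _ key2)
  have hKu : K * u' ^ 2 ≤ 8 * V ^ 2 := by
    rw [← hK, add_mul, one_mul]
    have k1 := Nat.div_mul_le_self (4 * V ^ 2) (u' ^ 2)
    have k2 : u' ^ 2 ≤ (2 * V) ^ 2 := Nat.pow_le_pow_left (by omega) 2
    have k3 : (2 * V) ^ 2 = 4 * V ^ 2 := by ring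
    omega
  have hEu : u' * (1 + 2 * E) ^ 2 ≤ 25 * (m / V ^ 3) := by
    calc u' * (1 + 2 * E) ^ 2 ≤ u' * (25 * (m / V ^ 3 / u')) := Nat.mul_le_mul_left _ key3
      _ = 25 * (m / V ^ 3 / u' * u') := by ring
      _ ≤ 25 * (m / V ^ 3) := Nat.mul_le_mul_left _ (Nat.div_mul_le_self _ _)
  have hLm : V ^ 3 * (m / V ^ 3) ≤ m := Nat.mul_div_le _ _
  calc U ^ 3 * b ^ 2 ≤ u' ^ 3 * (D ^ 2 * (K * (u' * (2 * D)) * ((1 + 2 * E) * (61 * D)))) ^ 2 :=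
        Nat.mul_le_mul (Nat.pow_le_pow_left hu1 3) (Nat.pow_le_pow_left hb 2)
    _ = 14884 * D ^ 8 * ((K * u' ^ 2) ^ 2 * (u' * (1 + 2 * E) ^ 2)) := by ring
    _ ≤ 14884 * D ^ 8 * ((8 * V ^ 2) ^ 2 * (25 * (m / V ^ 3))) :=
        Nat.mul_le_mul_left _ (Nat.mul_le_mul (Nat.pow_le_pow_left hKu 2) hEu)
    _ = 23814400 * D ^ 8 * (V * (V ^ 3 * (m / V ^ 3))) := by ring
    _ ≤ 23814400 * D ^ 8 * (V * m) := Nat.mul_le_mul_left _ (Nat.mul_le_mul_left _ hLm)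

/-- Let `L = m / V³` and `U ≤ u < 2 U`, with `u` squarefree and coprime to `f` (otherwise the
fibre over `u` is empty). `L ≥ 2 U > u` by `2 U V³ ≤ m`, and `L ≤ U³ ≤ u³` by `m ≤ (U V)³`. Take
`E = Nat.sqrt (L / u) + 1`, so `L < u E²` and `1 + 2 E ≤ 5 √(L / u)` (real, as `L / u ≥ 1`). By
`card_fixed_u_sq` and `card_Crv` (`DivB u D` since `u ≤ m`), with `4 V² / u² + 1 ≤ 8 V² / u²`
(`u < 2 U ≤ 2 V`), the fibre `B_u` satisfies
`|B_u|² ≤ D² (8 V² / u²) (2 D u) 5 √(L / u) 61 D = 4880 D⁴ V² L^(1/2) u^(-3/2)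
≤ 4880 D⁴ V^(1/2) m^(1/2) U^(-3/2)`. Cauchy (`sq_card_le`, `U` values of `u`):
`card² ≤ U ∑_u |B_u|² ≤ 4880 D⁴ (U V m)^(1/2)`. Square. -/
theorem box_C (e f m U W V Y D : ℕ) (he : 0 < e) (hf : 0 < f) (hU : 0 < U) (hD : DivB m D)
    (hUV : U ≤ V) (h1 : 2 * U * V ^ 3 ≤ m) (h2 : m ≤ (U * V) ^ 3) :
    (Box e f m U W V Y).card ^ 4 ≤ 23814400 * D ^ 8 * (U * V * m) := by
  have hcard : (Ico U (2 * U)).card = U := by
    rw [Nat.card_Ico]
    omega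
  have k1 := sq_card_le (Box e f m U W V Y) (fun t => t.1) (Ico U (2 * U)) (by
    rintro ⟨u, x, v, y⟩ ht
    rw [mem_Box] at ht
    exact Finset.mem_Ico.mpr ht.2.1)
  rw [hcard] at k1
  have k2 : (∑ u ∈ Ico U (2 * U), ((Box e f m U W V Y).filter (fun t => t.1 = u)).card ^ 2) ^ 2 ≤
      U * ∑ u ∈ Ico U (2 * U),
        (((Box e f m U W V Y).filter (fun t => t.1 = u)).card ^ 2) ^ 2 := by
    have := sq_sum_le_card_mul_sum_sq (s := Ico U (2 * U))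
      (f := fun u => ((Box e f m U W V Y).filter (fun t => t.1 = u)).card ^ 2)
    rwa [hcard] at this
  have k3 : ∑ u ∈ Ico U (2 * U),
      U ^ 3 * (((Box e f m U W V Y).filter (fun t => t.1 = u)).card ^ 2) ^ 2 ≤
      U * (23814400 * D ^ 8 * (V * m)) := by
    calc _ ≤ ∑ u ∈ Ico U (2 * U), 23814400 * D ^ 8 * (V * m) := by
          refine Finset.sum_le_sum fun u hu => ?_
          rw [Finset.mem_Ico] at hu
          exact H6_fibre e f m U W V Y D u he hf hU hD hUV h1 h2 hu.1 hu.2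
      _ = U * (23814400 * D ^ 8 * (V * m)) := by
          rw [Finset.sum_const, hcard, smul_eq_mul]
  calc (Box e f m U W V Y).card ^ 4 = ((Box e f m U W V Y).card ^ 2) ^ 2 := by ring
    _ ≤ (U * ∑ u ∈ Ico U (2 * U),
          ((Box e f m U W V Y).filter (fun t => t.1 = u)).card ^ 2) ^ 2 :=
        Nat.pow_le_pow_left k1 2
    _ = U ^ 2 * (∑ u ∈ Ico U (2 * U),
          ((Box e f m U W V Y).filter (fun t => t.1 = u)).card ^ 2) ^ 2 := by ring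
    _ ≤ U ^ 2 * (U * ∑ u ∈ Ico U (2 * U),
          (((Box e f m U W V Y).filter (fun t => t.1 = u)).card ^ 2) ^ 2) :=
        Nat.mul_le_mul_left _ k2
    _ = ∑ u ∈ Ico U (2 * U),
          U ^ 3 * (((Box e f m U W V Y).filter (fun t => t.1 = u)).card ^ 2) ^ 2 := by
        rw [← Finset.mul_sum]
        ring
    _ ≤ U * (23814400 * D ^ 8 * (V * m)) := k3
    _ = 23814400 * D ^ 8 * (U * V * m) := by ring

end Pool.Agent.PWF
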