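import Mathlib
import Pool.Agent.PWF.C2
import Pool.Agent.PWF.B1

set_option autoImplicit false

namespace Pool.Agent.PWF

open Finset

/-- For given `(x, y)` (at most `W * Y` pairs) the residue of `v` modulo `x²` is coprime to `x²`
and satisfies `f y² v³ ≡ m` modulo `x²` with `f y²` coprime to `x`: at most
`9 * (x²).divisors.card² ≤ 9 D²` residues (`card_cube_roots`; `x² ≤ m`), and `v < 2 V` in a given
residue class modulo `x²` has at most `2 V / x² + 1 ≤ 2 V / W² + 1` values; `u` is determined by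
`(x, y, v)` (from `e u³ x² = m - f v³ y²`). -/
theorem box_D (e f m U W V Y D : ℕ) (he : 0 < e) (hf : 0 < f) (hW : 0 < W) (hD : DivB m D) :
    W ^ 2 * (Box e f m U W V Y).card ≤ (W * Y) * (9 * D ^ 2) * (W ^ 2 + 2 * V) := by
  classical
  have key : ∀ p ∈ (Ico W (2 * W)) ×ˢ (Ico Y (2 * Y)),
      W ^ 2 * ((Box e f m U W V Y).filter (fun t => (t.2.1, t.2.2.2) = p)).card ≤
        (9 * D ^ 2) * (W ^ 2 + 2 * V) := by
    rintro ⟨x, y⟩ hp
    rw [Finset.mem_product, Finset.mem_Ico, Finset.mem_Ico] at hp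
    obtain ⟨⟨hx1, hx2⟩, hy1, hy2⟩ := hp
    simp only at hx1 hx2 hy1 hy2
    set F := (Box e f m U W V Y).filter (fun t => (t.2.1, t.2.2.2) = (x, y)) with hFdef
    rcases F.eq_empty_or_nonempty with h0 | ⟨⟨u0, x0, v0, y0⟩, ht0⟩
    · rw [h0]; simp
    · have hx0 : 0 < x := lt_of_lt_of_le hW hx1
      have hq : 0 < x ^ 2 := by positivity
      rw [hFdef, Finset.mem_filter, mem_Box, mem_Tup _ _ _ _ _ _ _ he hf] at ht0
      obtain ⟨⟨⟨⟨hu0, hx0', hv0, hy0⟩, heq, hcop, hsu, hsv⟩, _⟩, hxy⟩ := ht0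
      simp only [Prod.mk.injEq] at hxy
      obtain ⟨rfl, rfl⟩ := hxy
      have hxm : x0 ^ 2 ≤ m := by
        have : 1 * x0 ^ 2 ≤ (e * u0 ^ 3) * x0 ^ 2 :=
          Nat.mul_le_mul_right _ (Nat.mul_pos he (by positivity))
        omega
      have hcx : Nat.Coprime (f * y0 ^ 2) (x0 ^ 2) := by
        have h1 : Nat.Coprime x0 (f * v0 * y0) := Nat.Coprime.coprime_dvd_left
          (Dvd.intro_left _ rfl) hcop
        have h2 : Nat.Coprime x0 f := Nat.Coprime.coprime_dvd_right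
          ⟨v0 * y0, by ring⟩ h1
        have h3 : Nat.Coprime x0 y0 := Nat.Coprime.coprime_dvd_right
          ⟨f * v0, by ring⟩ h1
        exact Nat.Coprime.pow_right 2 ((Nat.Coprime.mul_right h2 (h3.pow_right 2)).symm)
      have hA : IsCoprime (((f * y0 ^ 2 : ℕ) : ℤ)) ((x0 ^ 2 : ℕ) : ℤ) :=
        Nat.isCoprime_iff_coprime.mpr hcx
      set R := (Cop (x0 ^ 2)).filter (fun z : ℕ => ((x0 ^ 2 : ℕ) : ℤ) ∣
        ((f * y0 ^ 2 : ℕ) : ℤ) * (z : ℤ) ^ 3 - (m : ℤ)) with hRdef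
      have hR : R.card ≤ 9 * D ^ 2 := by
        refine (card_cube_roots (x0 ^ 2) hq _ _ hA).trans ?_
        exact Nat.mul_le_mul_left _ (Nat.pow_le_pow_left (hD.2 _ hq hxm) 2)
      have hmaps : ∀ t ∈ F, t.2.2.1 % x0 ^ 2 ∈ R := by
        rintro ⟨u, x, v, y⟩ ht
        rw [hFdef, Finset.mem_filter, mem_Box, mem_Tup _ _ _ _ _ _ _ he hf] at ht
        obtain ⟨⟨⟨⟨hu, hx, hv, hy⟩, heq', hcop', _, _⟩, _⟩, hxy⟩ := ht
        simp only [Prod.mk.injEq] at hxy
        obtain ⟨rfl, rfl⟩ := hxy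
        rw [hRdef, Finset.mem_filter, mem_Cop]
        simp only
        have hvx : Nat.Coprime v (x ^ 2) := by
          have h1 : Nat.Coprime x (f * v * y) := Nat.Coprime.coprime_dvd_left
            (Dvd.intro_left _ rfl) hcop'
          have h2 : Nat.Coprime x v := Nat.Coprime.coprime_dvd_right
            ⟨f * y, by ring⟩ h1
          exact Nat.Coprime.pow_right 2 h2.symm
        refine ⟨⟨Nat.mod_lt _ hq, ?_⟩, ?_⟩
        · have := (Nat.mod_modEq v (x ^ 2)).gcd_eq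
          rw [Nat.Coprime, this]
          exact hvx
        · have h1 : ((v % x ^ 2 : ℕ) : ℤ) ≡ (v : ℤ) [ZMOD ((x ^ 2 : ℕ) : ℤ)] :=
            Int.natCast_modEq_iff.mpr (Nat.mod_modEq v (x ^ 2))
          have h2 : ((f * y ^ 2 : ℕ) : ℤ) * ((v % x ^ 2 : ℕ) : ℤ) ^ 3 ≡
              ((f * y ^ 2 : ℕ) : ℤ) * (v : ℤ) ^ 3 [ZMOD ((x ^ 2 : ℕ) : ℤ)] :=
            (h1.pow 3).mul_left _
          have h3 : ((x ^ 2 : ℕ) : ℤ) ∣ ((f * y ^ 2 : ℕ) : ℤ) * (v : ℤ) ^ 3 - (m : ℤ) := by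
            refine ⟨-((e * u ^ 3 : ℕ) : ℤ), ?_⟩
            rw [← heq']
            push_cast
            ring
          have h4 := h2.symm.dvd
          have h5 := dvd_add h4 h3
          simpa using h5
      have hfib : ∀ r ∈ R, (F.filter (fun t => t.2.2.1 % x0 ^ 2 = r)).card ≤
          2 * V / x0 ^ 2 + 1 := by
        intro r hr
        have : (F.filter (fun t => t.2.2.1 % x0 ^ 2 = r)).card ≤
            (Finset.range (2 * V / x0 ^ 2 + 1)).card := by
          apply Finset.card_le_card_of_injOn (fun t => t.2.2.1 / x0 ^ 2)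
          · intro t ht
            rw [Finset.mem_coe, Finset.mem_filter, hFdef, Finset.mem_filter] at ht
            obtain ⟨u, x, v, y⟩ := t
            rw [mem_Box] at ht
            rw [Finset.mem_coe, Finset.mem_range]
            have hv : v < 2 * V := ht.1.1.2.2.2.1.2
            have : v / x0 ^ 2 ≤ 2 * V / x0 ^ 2 := Nat.div_le_div_right hv.le
            show v / x0 ^ 2 < _
            omega
          · intro t ht t' ht' htt
            rw [Finset.mem_coe, Finset.mem_filter, hFdef, Finset.mem_filter] at ht ht'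
            simp only at htt
            have hvv : t.2.2.1 = t'.2.2.1 := by
              rw [← Nat.div_add_mod t.2.2.1 (x0 ^ 2), ← Nat.div_add_mod t'.2.2.1 (x0 ^ 2), htt,
                ht.2, ht'.2]
            have hyy : t.2.2.2 = t'.2.2.2 := by
              have a1 := congrArg Prod.snd ht.1.2
              have a2 := congrArg Prod.snd ht'.1.2
              simp only at a1 a2
              rw [a1, a2]
            exact Box_eq_of_vy e f m U W V Y he hf t t' ht.1.1 ht'.1.1 hvv hyy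
        simpa using this
      have hFc : F.card ≤ (2 * V / x0 ^ 2 + 1) * R.card :=
        Finset.card_le_mul_card_image_of_maps_to hmaps _ hfib
      have hdiv : W ^ 2 * (2 * V / x0 ^ 2) ≤ 2 * V := by
        calc W ^ 2 * (2 * V / x0 ^ 2) ≤ x0 ^ 2 * (2 * V / x0 ^ 2) :=
              Nat.mul_le_mul_right _ (Nat.pow_le_pow_left hx1 2)
          _ ≤ 2 * V := Nat.mul_div_le _ _
      calc W ^ 2 * F.card ≤ W ^ 2 * ((2 * V / x0 ^ 2 + 1) * R.card) := Nat.mul_le_mul_left _ hFc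
        _ = (W ^ 2 * (2 * V / x0 ^ 2) + W ^ 2) * R.card := by ring
        _ ≤ (2 * V + W ^ 2) * (9 * D ^ 2) := Nat.mul_le_mul (by omega) hR
        _ = (9 * D ^ 2) * (W ^ 2 + 2 * V) := by ring
  have hmaps : ∀ t ∈ Box e f m U W V Y, (t.2.1, t.2.2.2) ∈ (Ico W (2 * W)) ×ˢ (Ico Y (2 * Y)) := by
    rintro ⟨u, x, v, y⟩ ht
    rw [mem_Box] at ht
    rw [Finset.mem_product, Finset.mem_Ico, Finset.mem_Ico]
    exact ⟨ht.2.2.1, ht.2.2.2.2⟩
  rw [Finset.card_eq_sum_card_fiberwise hmaps, Finset.mul_sum]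
  calc ∑ p ∈ (Ico W (2 * W)) ×ˢ (Ico Y (2 * Y)),
        W ^ 2 * ((Box e f m U W V Y).filter (fun t => (t.2.1, t.2.2.2) = p)).card
      ≤ ∑ p ∈ (Ico W (2 * W)) ×ˢ (Ico Y (2 * Y)), (9 * D ^ 2) * (W ^ 2 + 2 * V) :=
        Finset.sum_le_sum key
    _ = (W * Y) * (9 * D ^ 2) * (W ^ 2 + 2 * V) := by
        rw [Finset.sum_const, Finset.card_product, Nat.card_Ico, Nat.card_Ico, smul_eq_mul]
        have h1 : 2 * W - W = W := by omega
        have h2 : 2 * Y - Y = Y := by omega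
        rw [h1, h2]
        ring

end Pool.Agent.PWF
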