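import Mathlib
import Pool.Agent.PWF.B2
import Pool.Agent.PWF.H6
import Pool.Agent.PWF.H7

set_option autoImplicit false

namespace Pool.Agent.PWF

open Finset

theorem H8_real (R u w v y d N : ℝ) (hR : 1 ≤ R) (hu : 1 ≤ u) (hw : 1 ≤ w) (hv : 1 ≤ v)
    (hy : 1 ≤ y) (hd : 1 ≤ d) (hN : 0 ≤ N) (huv : u ≤ v) (s1 : u ^ 3 * w ^ 2 ≤ R ^ 28)
    (s2 : v ^ 3 * y ^ 2 ≤ R ^ 28) (b1 : N ≤ 2 * d * (u * v)) (b2 : N ≤ u * w) (b3 : N ≤ v * y)
    (b4 : w ^ 2 * N ≤ (w * y) * (9 * d ^ 2) * (w ^ 2 + 2 * v))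
    (b5 : 2 * u * v ^ 3 ≤ R ^ 28 → R ^ 28 ≤ (u * v) ^ 3 →
      N ^ 4 ≤ 23814400 * d ^ 8 * (u * v * R ^ 28)) : N ≤ 70 * d ^ 2 * R ^ 10 := by
  have hd2 : d ≤ d ^ 2 := by nlinarith
  have hd3 : 1 ≤ d ^ 2 := by nlinarith
  have hR10 : 1 ≤ R ^ 10 := one_le_pow₀ hR
  have hR0 : 0 < R := by linarith
  have hu0 : 0 < u := by linarith
  have hw0 : 0 < w := by linarith
  have hv0 : 0 < v := by linarith
  have hy0 : 0 < y := by linarith
  have hd0 : 0 < d := by linarith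
  have hdR : R ^ 10 ≤ d ^ 2 * R ^ 10 := le_mul_of_one_le_left (by positivity) hd3
  by_cases c1 : u * v ≤ R ^ 10
  · -- case 1
    calc N ≤ 2 * d * (u * v) := b1
      _ ≤ 2 * d * R ^ 10 := mul_le_mul_of_nonneg_left c1 (by positivity)
      _ ≤ 2 * d ^ 2 * R ^ 10 := mul_le_mul_of_nonneg_right (by linarith) (by positivity)
      _ ≤ 70 * d ^ 2 * R ^ 10 := mul_le_mul_of_nonneg_right (by linarith) (by positivity)
  push Not at c1
  by_cases c2 : R ^ 8 ≤ 2 * v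
  · -- case 2
    have h1 : (v * y) ^ 2 * R ^ 8 ≤ 2 * R ^ 28 := by
      calc (v * y) ^ 2 * R ^ 8 ≤ (v * y) ^ 2 * (2 * v) :=
            mul_le_mul_of_nonneg_left c2 (by positivity)
        _ = 2 * (v ^ 3 * y ^ 2) := by ring
        _ ≤ 2 * R ^ 28 := by linarith
    have h2 : (v * y) ^ 2 ≤ 2 * R ^ 20 := by
      have h3 : (v * y) ^ 2 * R ^ 8 ≤ (2 * R ^ 20) * R ^ 8 := by
        calc (v * y) ^ 2 * R ^ 8 ≤ 2 * R ^ 28 := h1
          _ = (2 * R ^ 20) * R ^ 8 := by ring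
      exact le_of_mul_le_mul_right h3 (by positivity)
    have h4 : v * y ≤ 2 * R ^ 10 := by
      apply le_of_pow_le_pow_left₀ two_ne_zero (by positivity)
      calc (v * y) ^ 2 ≤ 2 * R ^ 20 := h2
        _ ≤ 4 * R ^ 20 := by nlinarith [pow_pos hR0 20]
        _ = (2 * R ^ 10) ^ 2 := by ring
    linarith
  push Not at c2
  by_cases c3 : R ^ 12 ≤ u * v
  · -- case 3
    have h1 : (w * y) ^ 2 * R ^ 36 ≤ R ^ 20 * R ^ 36 := by
      calc (w * y) ^ 2 * R ^ 36 = (w * y) ^ 2 * (R ^ 12) ^ 3 := by ring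
        _ ≤ (w * y) ^ 2 * (u * v) ^ 3 :=
            mul_le_mul_of_nonneg_left (pow_le_pow_left₀ (by positivity) c3 3) (by positivity)
        _ = (u ^ 3 * w ^ 2) * (v ^ 3 * y ^ 2) := by ring
        _ ≤ R ^ 28 * R ^ 28 := mul_le_mul s1 s2 (by positivity) (by positivity)
        _ = R ^ 20 * R ^ 36 := by ring
    have h2 : (w * y) ^ 2 ≤ (R ^ 10) ^ 2 := by
      have := le_of_mul_le_mul_right h1 (by positivity)
      calc (w * y) ^ 2 ≤ R ^ 20 := this
        _ = (R ^ 10) ^ 2 := by ring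
    have h3 : w * y ≤ R ^ 10 := le_of_pow_le_pow_left₀ two_ne_zero (by positivity) h2
    by_cases c4 : 2 * v ≤ w ^ 2
    · have h4 : w ^ 2 * N ≤ w ^ 2 * (18 * d ^ 2 * (w * y)) := by
        calc w ^ 2 * N ≤ (w * y) * (9 * d ^ 2) * (w ^ 2 + 2 * v) := b4
          _ ≤ (w * y) * (9 * d ^ 2) * (2 * w ^ 2) :=
              mul_le_mul_of_nonneg_left (by linarith) (by positivity)
          _ = w ^ 2 * (18 * d ^ 2 * (w * y)) := by ring
      have h5 : N ≤ 18 * d ^ 2 * (w * y) := le_of_mul_le_mul_left h4 (by positivity)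
      calc N ≤ 18 * d ^ 2 * (w * y) := h5
        _ ≤ 18 * d ^ 2 * R ^ 10 := mul_le_mul_of_nonneg_left h3 (by positivity)
        _ ≤ 70 * d ^ 2 * R ^ 10 := mul_le_mul_of_nonneg_right (by nlinarith) (by positivity)
    · push Not at c4
      have h4 : w * (w * N) ≤ w * (36 * d ^ 2 * (v * y)) := by
        calc w * (w * N) = w ^ 2 * N := by ring
          _ ≤ (w * y) * (9 * d ^ 2) * (w ^ 2 + 2 * v) := b4
          _ ≤ (w * y) * (9 * d ^ 2) * (4 * v) :=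
              mul_le_mul_of_nonneg_left (by linarith) (by positivity)
          _ = w * (36 * d ^ 2 * (v * y)) := by ring
      have h5 : w * N ≤ 36 * d ^ 2 * (v * y) := le_of_mul_le_mul_left h4 (by positivity)
      have h6 : N ^ 2 ≤ 36 * d ^ 2 * (u * (v * y)) := by
        calc N ^ 2 = N * N := by ring
          _ ≤ (u * w) * N := mul_le_mul_of_nonneg_right b2 hN
          _ = u * (w * N) := by ring
          _ ≤ u * (36 * d ^ 2 * (v * y)) := mul_le_mul_of_nonneg_left h5 (by positivity)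
          _ = 36 * d ^ 2 * (u * (v * y)) := by ring
      have h7 : (u * (v * y)) ^ 2 ≤ (R ^ 18) ^ 2 := by
        calc (u * (v * y)) ^ 2 = u ^ 2 * (v * y) ^ 2 := by ring
          _ ≤ v ^ 2 * (v * y) ^ 2 :=
              mul_le_mul_of_nonneg_right (pow_le_pow_left₀ hu0.le huv 2) (by positivity)
          _ = v * (v ^ 3 * y ^ 2) := by ring
          _ ≤ R ^ 8 * R ^ 28 := mul_le_mul (by linarith) s2 (by positivity) (by positivity)
          _ = (R ^ 18) ^ 2 := by ring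
      have h8 : u * (v * y) ≤ R ^ 18 := le_of_pow_le_pow_left₀ two_ne_zero (by positivity) h7
      have h9 : N ^ 2 ≤ (6 * d * R ^ 9) ^ 2 := by
        calc N ^ 2 ≤ 36 * d ^ 2 * (u * (v * y)) := h6
          _ ≤ 36 * d ^ 2 * R ^ 18 := mul_le_mul_of_nonneg_left h8 (by positivity)
          _ = (6 * d * R ^ 9) ^ 2 := by ring
      have h10 : N ≤ 6 * d * R ^ 9 := le_of_pow_le_pow_left₀ two_ne_zero (by positivity) h9
      have h11 : R ^ 9 ≤ R ^ 10 := pow_le_pow_right₀ hR (by norm_num)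
      calc N ≤ 6 * d * R ^ 9 := h10
        _ ≤ 6 * d * R ^ 10 := mul_le_mul_of_nonneg_left h11 (by positivity)
        _ ≤ 70 * d ^ 2 * R ^ 10 := mul_le_mul_of_nonneg_right (by nlinarith) (by positivity)
  · -- case 4
    push Not at c3
    have h1 : 2 * u * v ^ 3 ≤ R ^ 28 := by
      have h2 : (2 * v) ^ 2 ≤ (R ^ 8) ^ 2 := pow_le_pow_left₀ (by positivity) c2.le 2
      calc 2 * u * v ^ 3 = (u * v) * ((2 * v) ^ 2 / 2) := by ring
        _ ≤ R ^ 12 * ((R ^ 8) ^ 2 / 2) :=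
            mul_le_mul c3.le (by linarith) (by positivity) (by positivity)
        _ = R ^ 28 / 2 := by ring
        _ ≤ R ^ 28 := by linarith [pow_pos hR0 28]
    have h2 : R ^ 28 ≤ (u * v) ^ 3 := by
      calc R ^ 28 ≤ R ^ 30 := pow_le_pow_right₀ hR (by norm_num)
        _ = (R ^ 10) ^ 3 := by ring
        _ ≤ (u * v) ^ 3 := pow_le_pow_left₀ (by positivity) c1.le 3
    have h3 := b5 h1 h2
    have h4 : N ^ 4 ≤ (70 * d ^ 2 * R ^ 10) ^ 4 := by
      calc N ^ 4 ≤ 23814400 * d ^ 8 * (u * v * R ^ 28) := h3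
        _ ≤ 23814400 * d ^ 8 * (R ^ 12 * R ^ 28) :=
            mul_le_mul_of_nonneg_left (mul_le_mul_of_nonneg_right c3.le (by positivity))
              (by positivity)
        _ ≤ 24010000 * d ^ 8 * (R ^ 12 * R ^ 28) :=
            mul_le_mul_of_nonneg_right (mul_le_mul_of_nonneg_right (by norm_num) (by positivity))
              (by positivity)
        _ = (70 * d ^ 2 * R ^ 10) ^ 4 := by ring
    exact le_of_pow_le_pow_left₀ (by norm_num) (by positivity) h4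

/-- The case `U ≤ V`. If the box is empty the claim is trivial; otherwise `U³ W² ≤ m`,
`V³ Y² ≤ m` (`size_Box`). Put `r = m^(1/28) ≥ 1`, so `m = r^28`, and the claim is
`card ≤ 70 D² r^10`.
Case 1, `U V ≤ r^10`: `card_Box_le_UV`.
Case 2, `V ≥ r^8 / 2`: `card ≤ V Y` (`card_Box_le_VY`), `(V Y)² ≤ m / V ≤ 2 r^20`.
Case 3, `U V ≥ r^12`, `V < r^8 / 2`: by `box_D`, `card ≤ 9 D² (W Y + 2 V Y / W)`, and
`(W Y)² ≤ m² / (U V)³ ≤ r^20`. If `2 V Y / W ≤ W Y` then `card ≤ 18 D² r^10`. Otherwise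
`card ≤ 36 D² V Y / W`, and with `card ≤ U W` (`card_Box_le_UW`)
`card² ≤ 36 D² U V Y`, `V Y ≤ (m / V)^(1/2)`, `U (m / V)^(1/2) ≤ (V m)^(1/2) ≤ r^18`, so
`card ≤ 6 D r^9`.
Case 4, `r^10 < U V < r^12`, `V < r^8 / 2`: `2 U V³ = 2 (U V) V² ≤ r^28 = m` and
`m = r^28 ≤ (U V)³`, so `box_C` gives `card⁴ ≤ 23814400 D⁸ r^40 ≤ (70 D² r^10)⁴`. -/
theorem box_sup_aux (e f m U W V Y D : ℕ) (he : 0 < e) (hf : 0 < f) (hU : 0 < U) (hW : 0 < W)
    (hV : 0 < V) (hY : 0 < Y) (hUV : U ≤ V) (hm : 1 ≤ m) (hD : DivB m D) :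
    ((Box e f m U W V Y).card : ℝ) ≤ 70 * (D : ℝ) ^ 2 * (m : ℝ) ^ (5 / 14 : ℝ) := by
  by_cases hne : (Box e f m U W V Y).Nonempty
  swap
  · rw [Finset.not_nonempty_iff_eq_empty] at hne
    rw [hne, Finset.card_empty]
    push_cast
    positivity
  obtain ⟨s1, s2⟩ := size_Box e f m U W V Y he hf hne
  have hm0 : (1 : ℝ) ≤ m := by exact_mod_cast hm
  set R : ℝ := (m : ℝ) ^ (1 / 28 : ℝ) with hRdef
  have hR : 1 ≤ R := Real.one_le_rpow hm0 (by norm_num)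
  have hR28 : R ^ 28 = m := by
    rw [hRdef, ← Real.rpow_natCast, ← Real.rpow_mul (by linarith)]
    norm_num
  have hR10 : R ^ 10 = (m : ℝ) ^ (5 / 14 : ℝ) := by
    rw [hRdef, ← Real.rpow_natCast, ← Real.rpow_mul (by linarith)]
    norm_num
  rw [← hR10]
  refine H8_real R U W V Y D _ hR (by exact_mod_cast hU) (by exact_mod_cast hW)
    (by exact_mod_cast hV) (by exact_mod_cast hY) (by exact_mod_cast hD.1) (by positivity)
    (by exact_mod_cast hUV) ?_ ?_ ?_ ?_ ?_ ?_ ?_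
  · rw [hR28]; exact_mod_cast s1
  · rw [hR28]; exact_mod_cast s2
  · exact_mod_cast card_Box_le_UV e f m U W V Y D he hf hD
  · exact_mod_cast card_Box_le_UW e f m U W V Y he hf
  · exact_mod_cast card_Box_le_VY e f m U W V Y he hf
  · exact_mod_cast box_D e f m U W V Y D he hf hW hD
  · rw [hR28]
    intro h1 h2
    have h1' : 2 * U * V ^ 3 ≤ m := by exact_mod_cast h1
    have h2' : m ≤ (U * V) ^ 3 := by exact_mod_cast h2
    exact_mod_cast box_C e f m U W V Y D he hf hU hD hUV h1' h2'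

/-- If `V < U` use `card_Box_swap` and `box_sup_aux f e m V Y U W`. -/
theorem box_sup (e f m U W V Y D : ℕ) (he : 0 < e) (hf : 0 < f) (hU : 0 < U) (hW : 0 < W)
    (hV : 0 < V) (hY : 0 < Y) (hm : 1 ≤ m) (hD : DivB m D) :
    ((Box e f m U W V Y).card : ℝ) ≤ 70 * (D : ℝ) ^ 2 * (m : ℝ) ^ (5 / 14 : ℝ) := by
  rcases le_total U V with h | h
  · exact box_sup_aux e f m U W V Y D he hf hU hW hV hY h hm hD
  · rw [card_Box_swap e f m U W V Y he hf]
    exact box_sup_aux f e m V Y U W D hf he hV hY hU hW h hm hD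

end Pool.Agent.PWF
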