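import Mathlib
import Pool.Agent.PWF.A4
import Pool.Agent.PWF.H8

set_option autoImplicit false

namespace Pool.Agent.PWF

open Finset

/-- `rep_le_of_boxes` with `K = 70 D² n^(5/14)` and `box_sup` for `m = n / g`, `1 ≤ n / g ≤ n`
(`DivB.mono`). -/
theorem rep_sup (N n D : ℕ) (hn : 1 ≤ n) (hnN : n ≤ N) (hD : DivB N D) :
    ((Rep N n).card : ℝ) ≤ 70 * (D : ℝ) ^ 9 * (n : ℝ) ^ (5 / 14 : ℝ) := by
  have hK : 0 ≤ 70 * (D : ℝ) ^ 2 * (n : ℝ) ^ (5 / 14 : ℝ) := by positivity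
  have key := rep_le_of_boxes N n D hn hnN hD (70 * (D : ℝ) ^ 2 * (n : ℝ) ^ (5 / 14 : ℝ)) hK ?_
  · calc ((Rep N n).card : ℝ) ≤ (D : ℝ) ^ 7 * (70 * (D : ℝ) ^ 2 * (n : ℝ) ^ (5 / 14 : ℝ)) := key
      _ = 70 * (D : ℝ) ^ 9 * (n : ℝ) ^ (5 / 14 : ℝ) := by ring
  · intro g e f i k j l hg he hf he0 hf0 _ _ _ _
    have hgn : g ∣ n := ((mem_PD n g).1 hg).1.1
    have hmn : n / g ≤ n := Nat.div_le_self n g
    have hg0 : 0 < g := Nat.pos_of_dvd_of_pos hgn hn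
    have hm1 : 1 ≤ n / g := Nat.div_pos (Nat.le_of_dvd hn hgn) hg0
    have h1 := box_sup e f (n / g) (2 ^ i) (2 ^ k) (2 ^ j) (2 ^ l) D he0 hf0 (by positivity)
      (by positivity) (by positivity) (by positivity) hm1 (hD.mono (hmn.trans hnN))
    refine h1.trans ?_
    have h2 : ((n / g : ℕ) : ℝ) ^ (5 / 14 : ℝ) ≤ (n : ℝ) ^ (5 / 14 : ℝ) := by
      apply Real.rpow_le_rpow (by positivity) _ (by norm_num)
      exact_mod_cast hmn
    exact mul_le_mul_of_nonneg_left h2 (by positivity)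

end Pool.Agent.PWF
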